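import Mathlib

set_option autoImplicit false
set_option linter.unusedSectionVars false

namespace Pool.Agent.Lib.MP_a2c890_nt

open Polynomial Finset

variable {E : Type*} [NormedField E] [IsUltrametricDist E]

theorem nadd (x y : E) : ‖x + y‖ ≤ max ‖x‖ ‖y‖ := IsUltrametricDist.norm_add_le_max x y

theorem nsub (x y : E) : ‖x - y‖ ≤ max ‖x‖ ‖y‖ := by
  have := nadd x (-y)
  rwa [norm_neg, ← sub_eq_add_neg] at this

theorem add_le {x y : E} {r : ℝ} (hx : ‖x‖ ≤ r) (hy : ‖y‖ ≤ r) : ‖x + y‖ ≤ r :=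
  (nadd x y).trans (max_le hx hy)

theorem sub_le {x y : E} {r : ℝ} (hx : ‖x‖ ≤ r) (hy : ‖y‖ ≤ r) : ‖x - y‖ ≤ r :=
  (nsub x y).trans (max_le hx hy)

theorem add_lt {x y : E} {r : ℝ} (hx : ‖x‖ < r) (hy : ‖y‖ < r) : ‖x + y‖ < r :=
  (nadd x y).trans_lt (max_lt hx hy)

theorem sub_lt {x y : E} {r : ℝ} (hx : ‖x‖ < r) (hy : ‖y‖ < r) : ‖x - y‖ < r :=
  (nsub x y).trans_lt (max_lt hx hy)

theorem norm_eq_of_sub_lt {x y : E} (h : ‖x - y‖ < ‖y‖) : ‖x‖ = ‖y‖ := by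
  have e : x = (x - y) + y := by ring
  rw [e, IsUltrametricDist.norm_add_eq_max_of_norm_ne_norm h.ne, max_eq_right h.le]

theorem ncast_le (n : ℕ) : ‖(n : E)‖ ≤ 1 := IsUltrametricDist.norm_natCast_le_one E n

theorem mul_le1 {x y : E} {r : ℝ} (hx : ‖x‖ ≤ r) (hy : ‖y‖ ≤ 1) : ‖x * y‖ ≤ r := by
  rw [norm_mul]
  exact (mul_le_of_le_one_right (norm_nonneg _) hy).trans hx

theorem mul_lt1 {x y : E} {r : ℝ} (hx : ‖x‖ < r) (hy : ‖y‖ ≤ 1) : ‖x * y‖ < r := by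
  rw [norm_mul]
  exact (mul_le_of_le_one_right (norm_nonneg _) hy).trans_lt hx

theorem pow_le1 {x : E} (hx : ‖x‖ ≤ 1) (n : ℕ) : ‖x ^ n‖ ≤ 1 := by
  rw [norm_pow]; exact pow_le_one₀ (norm_nonneg _) hx

theorem norm_coprime {p m : ℕ} (hp1 : ‖(p : E)‖ < 1) (h : Nat.Coprime p m) : ‖(m : E)‖ = 1 := by
  refine le_antisymm (ncast_le m) (not_lt.mp fun hm => ?_)
  obtain ⟨a, b, hab⟩ := Nat.isCoprime_iff_coprime.mpr h
  have e : (1 : E) = (p : E) * (a : E) + (m : E) * (b : E) := by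
    have := congrArg (Int.cast : ℤ → E) hab
    push_cast at this
    rw [← this]; ring
  have h1 : ‖(1 : E)‖ < 1 := by
    rw [e]
    exact add_lt (mul_lt1 hp1 (IsUltrametricDist.norm_intCast_le_one E a))
      (mul_lt1 hm (IsUltrametricDist.norm_intCast_le_one E b))
  simp at h1

theorem pow_sub_pow_le {x y : E} (hx : ‖x‖ ≤ 1) (hy : ‖y‖ ≤ 1) (n : ℕ) :
    ‖x ^ n - y ^ n‖ ≤ ‖x - y‖ := by
  induction n with
  | zero => simp
  | succ n ih =>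
    have e : x ^ (n + 1) - y ^ (n + 1) = (x ^ n - y ^ n) * x + (x - y) * y ^ n := by ring
    rw [e]
    exact add_le (mul_le1 ih hx) (mul_le1 le_rfl (pow_le1 hy n))

theorem one_add_pow_le {w : E} (hw : ‖w‖ ≤ 1) (n : ℕ) :
    ‖(1 + w) ^ n - 1 - n * w‖ ≤ ‖w‖ * ‖w‖ := by
  induction n with
  | zero => simp; positivity
  | succ n ih =>
    have e : (1 + w) ^ (n + 1) - 1 - ((n + 1 : ℕ) : E) * w =
        ((1 + w) ^ n - 1 - n * w) * (1 + w) + (w * w) * n := by push_cast; ring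
    rw [e]
    refine add_le (mul_le1 ih (add_le (by simp) hw)) (mul_le1 (by rw [norm_mul]) (ncast_le n))

theorem add_pow_le {p : ℕ} (hp : p.Prime) {x y : E} (hx : ‖x‖ ≤ 1) (hy : ‖y‖ ≤ 1) (n : ℕ) :
    ‖(x + y) ^ p ^ n - x ^ p ^ n - y ^ p ^ n‖ ≤ ‖(p : E)‖ * ‖y‖ := by
  have e := add_pow_prime_pow_eq hp x y n
  have e2 : (x + y) ^ p ^ n - x ^ p ^ n - y ^ p ^ n = ((p : E) * y) * (x *
      ∑ k ∈ Ioo 0 (p ^ n), x ^ (k - 1) * y ^ (p ^ n - k - 1) * ↑((p ^ n).choose k / p)) := by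
    rw [e]; ring
  rw [e2]
  refine mul_le1 (by rw [norm_mul]) (mul_le1 hx ?_)
  refine IsUltrametricDist.norm_sum_le_of_forall_le_of_nonneg zero_le_one fun k _ => ?_
  exact mul_le1 (mul_le1 (pow_le1 hx _) (pow_le1 hy _)) (ncast_le _)

/-- contraction by prime powers -/
theorem contr {p : ℕ} (hp : p.Prime) {x y : E} (hx : ‖x‖ ≤ 1) (hy : ‖y‖ ≤ 1) {n : ℕ}
    (hn : 0 < n) : ‖x ^ p ^ n - y ^ p ^ n‖ ≤ max ‖(p : E)‖ ‖x - y‖ * ‖x - y‖ := by
  have hxy : ‖x - y‖ ≤ 1 := sub_le hx hy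
  have h := add_pow_le hp hy hxy n
  have e : x ^ p ^ n - y ^ p ^ n =
      ((y + (x - y)) ^ p ^ n - y ^ p ^ n - (x - y) ^ p ^ n) + (x - y) ^ p ^ n := by
    rw [add_sub_cancel]; ring
  rw [e]
  refine add_le (h.trans (mul_le_mul_of_nonneg_right (le_max_left _ _) (norm_nonneg _))) ?_
  have h2 : 2 ≤ p ^ n := (hp.two_le).trans (Nat.le_self_pow hn.ne' p)
  obtain ⟨k, hk⟩ := Nat.exists_eq_add_of_le h2
  rw [hk, pow_add, pow_two]
  refine mul_le1 ?_ (pow_le1 hxy k)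
  rw [norm_mul]
  exact mul_le_mul_of_nonneg_right (le_max_right _ _) (norm_nonneg _)

theorem lt_one_of_pow {p : ℕ} (hp : p.Prime) (hp1 : ‖(p : E)‖ < 1) {x y : E} (hx : ‖x‖ ≤ 1)
    (hy : ‖y‖ ≤ 1) (n : ℕ) (h : ‖x ^ p ^ n - y ^ p ^ n‖ < 1) : ‖x - y‖ < 1 := by
  have hxy : ‖x - y‖ ≤ 1 := sub_le hx hy
  have h1 := add_pow_le hp hy hxy n
  rw [add_sub_cancel] at h1
  have h2 : ‖(x - y) ^ p ^ n‖ < 1 := by
    have e : (x - y) ^ p ^ n = (x ^ p ^ n - y ^ p ^ n) -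
      (x ^ p ^ n - y ^ p ^ n - (x - y) ^ p ^ n) := by ring
    rw [e]
    refine sub_lt h (h1.trans_lt ?_)
    exact (mul_le_of_le_one_right (norm_nonneg _) hxy).trans_lt hp1
  rw [norm_pow] at h2
  exact lt_of_pow_lt_pow_left₀ (p ^ n) zero_le_one (by simpa using h2)

/-- Teichmuller elements: zero and the roots of unity of order prime to p. -/
def Teich (p : ℕ) (t : E) : Prop := ∃ k : ℕ, 0 < k ∧ t ^ p ^ k = t

theorem pow_iter {p k : ℕ} {t : E} (h : t ^ p ^ k = t) (l : ℕ) : t ^ p ^ (k * l) = t := by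
  induction l with
  | zero => simp
  | succ l ih => rw [Nat.mul_succ, pow_add, pow_mul, ih, h]

theorem Teich.common {p : ℕ} {s t : E} (hs : Teich p s) (ht : Teich p t) :
    ∃ k : ℕ, 0 < k ∧ s ^ p ^ k = s ∧ t ^ p ^ k = t := by
  obtain ⟨k, hk, h⟩ := hs
  obtain ⟨l, hl, h'⟩ := ht
  exact ⟨k * l, Nat.mul_pos hk hl, pow_iter h l, by rw [mul_comm]; exact pow_iter h' k⟩

theorem Teich.zero {p : ℕ} (hp : p.Prime) : Teich p (0 : E) :=
  ⟨1, one_pos, zero_pow (pow_pos hp.pos 1).ne'⟩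

theorem Teich.one {p : ℕ} : Teich p (1 : E) := ⟨1, one_pos, one_pow _⟩

theorem Teich.mul {p : ℕ} {s t : E} (hs : Teich p s) (ht : Teich p t) : Teich p (s * t) := by
  obtain ⟨k, hk, h, h'⟩ := hs.common ht
  exact ⟨k, hk, by rw [mul_pow, h, h']⟩

theorem Teich.inv {p : ℕ} {s : E} (hs : Teich p s) : Teich p s⁻¹ := by
  obtain ⟨k, hk, h⟩ := hs
  exact ⟨k, hk, by rw [inv_pow, h]⟩

theorem Teich.pow {p : ℕ} {s : E} (hs : Teich p s) (n : ℕ) : Teich p (s ^ n) := by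
  obtain ⟨k, hk, h⟩ := hs
  exact ⟨k, hk, by rw [← pow_mul, mul_comm, pow_mul, h]⟩

theorem Teich.root {p : ℕ} {s : E} (hs : Teich p s) : ∃ u, Teich p u ∧ u ^ p = s := by
  obtain ⟨k, hk, h⟩ := hs
  refine ⟨s ^ p ^ (k - 1), Teich.pow ⟨k, hk, h⟩ _, ?_⟩
  rw [← pow_mul, ← pow_succ, Nat.sub_add_cancel hk, h]

theorem Teich.norm_eq {p : ℕ} (hp : p.Prime) {s : E} (hs : Teich p s) (h0 : s ≠ 0) : ‖s‖ = 1 := by
  obtain ⟨k, hk, h⟩ := hs
  have h2 : 2 ≤ p ^ k := (hp.two_le).trans (Nat.le_self_pow hk.ne' p)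
  obtain ⟨j, hj⟩ := Nat.exists_eq_add_of_le h2
  have h3 : s ^ (j + 1) = 1 := by
    apply mul_right_cancel₀ h0
    rw [← pow_succ, one_mul]
    have : j + 1 + 1 = p ^ k := by omega
    rw [this, h]
  have := congrArg norm h3
  rw [norm_pow, norm_one] at this
  exact (pow_eq_one_iff_of_nonneg (norm_nonneg _) (Nat.succ_ne_zero j)).mp this

theorem Teich.norm_le {p : ℕ} (hp : p.Prime) {s : E} (hs : Teich p s) : ‖s‖ ≤ 1 := by
  by_cases h0 : s = 0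
  · simp [h0]
  · exact (hs.norm_eq hp h0).le

theorem Teich.eq_of_lt {p : ℕ} (hp : p.Prime) (hp1 : ‖(p : E)‖ < 1) {s t : E} (hs : Teich p s)
    (ht : Teich p t) (h : ‖s - t‖ < 1) : s = t := by
  obtain ⟨k, hk, h1, h2⟩ := hs.common ht
  have h3 := contr hp (hs.norm_le hp) (ht.norm_le hp) hk
  rw [h1, h2] at h3
  have h4 : max ‖(p : E)‖ ‖s - t‖ < 1 := max_lt hp1 h
  by_contra hne
  have h5 : 0 < ‖s - t‖ := norm_pos_iff.mpr (sub_ne_zero.mpr hne)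
  nlinarith

theorem Teich.dist_eq {p : ℕ} (hp : p.Prime) (hp1 : ‖(p : E)‖ < 1) {s t : E} (hs : Teich p s)
    (ht : Teich p t) (h : s ≠ t) : ‖s - t‖ = 1 :=
  le_antisymm (sub_le (hs.norm_le hp) (ht.norm_le hp))
    (not_lt.mp fun h' => h (hs.eq_of_lt hp hp1 ht h'))

theorem Teich.add_le {p : ℕ} (hp : p.Prime) {s t u : E} (hs : Teich p s)
    (ht : Teich p t) (hu : Teich p u) (h : ‖s + t - u‖ < 1) : ‖s + t - u‖ ≤ ‖(p : E)‖ := by
  obtain ⟨k, hk, h1, h2⟩ := hs.common ht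
  obtain ⟨l, hl, h3⟩ := hu
  have hu : Teich p u := ⟨l, hl, h3⟩
  have h1' := pow_iter h1 l
  have h2' := pow_iter h2 l
  have h3' := pow_iter h3 k
  rw [mul_comm] at h3'
  have hst : ‖s + t‖ ≤ 1 := MP_a2c890_nt.add_le (hs.norm_le hp) (ht.norm_le hp)
  have a1 := add_pow_le hp (hs.norm_le hp) (ht.norm_le hp) (k * l)
  have a2 := contr hp hst (hu.norm_le hp) (Nat.mul_pos hk hl)
  rw [h1', h2'] at a1
  rw [h3'] at a2
  by_contra hlt
  push Not at hlt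
  rw [max_eq_right hlt.le] at a2
  have a3 : ‖s + t - u‖ < ‖s + t - u‖ := by
    have e : s + t - u = ((s + t) ^ p ^ (k * l) - u) - ((s + t) ^ p ^ (k * l) - s - t) := by ring
    have b0 : 0 < ‖s + t - u‖ := (norm_nonneg _).trans_lt hlt
    conv_lhs => rw [e]
    refine sub_lt (a2.trans_lt (by nlinarith)) (a1.trans_lt ?_)
    exact (mul_le_of_le_one_right (norm_nonneg _) (ht.norm_le hp)).trans_lt hlt
  exact lt_irrefl _ a3

/-- a root of unity very close to one is one -/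
theorem root_close {p : ℕ} (hp1 : ‖(p : E)‖ < 1) {r m : ℕ} (hm : Nat.Coprime p m)
    {y : E} (hy : ‖y‖ < ‖(p : E)‖) (h : (1 + y) ^ (p ^ r * m) = 1) : y = 0 := by
  have step : ∀ (n : ℕ) (w : E), ‖(p : E)‖ ≤ ‖(n : E)‖ → ‖w‖ < ‖(p : E)‖ → w ≠ 0 →
      ‖(1 + w) ^ n - 1‖ < ‖(p : E)‖ ∧ (1 + w) ^ n - 1 ≠ 0 := by
    intro n w hn hw h0
    have hw0 : 0 < ‖w‖ := norm_pos_iff.mpr h0
    have a := one_add_pow_le (hw.trans hp1).le n
    have b : ‖(1 + w) ^ n - 1 - n * w‖ < ‖(n : E) * w‖ := by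
      rw [norm_mul]; nlinarith
    have c := norm_eq_of_sub_lt b
    constructor
    · rw [c, mul_comm]; exact mul_lt1 hw (ncast_le n)
    · rw [← norm_pos_iff, c, norm_mul]; nlinarith
  by_contra h0
  have key : ∀ j : ℕ, ‖(1 + y) ^ p ^ j - 1‖ < ‖(p : E)‖ ∧ (1 + y) ^ p ^ j - 1 ≠ 0 := by
    intro j
    induction j with
    | zero => simpa using ⟨hy, h0⟩
    | succ j ih =>
      have := step p _ le_rfl ih.1 ih.2
      rwa [add_sub_cancel, ← pow_mul, ← pow_succ] at this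
  have := step m _ (by rw [norm_coprime hp1 hm]; exact hp1.le) (key r).1 (key r).2
  rw [add_sub_cancel, ← pow_mul, h] at this
  exact this.2 (sub_self _)

/-- integrality of coefficients -/
def IntP (u : E[X]) : Prop := ∀ i, ‖u.coeff i‖ ≤ 1

theorem IntP.mul {u v : E[X]} (hu : IntP u) (hv : IntP v) : IntP (u * v) := fun i => by
  rw [coeff_mul]
  exact IsUltrametricDist.norm_sum_le_of_forall_le_of_nonneg zero_le_one
    fun k _ => mul_le1 (hu _) (hv _)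

theorem IntP.one : IntP (1 : E[X]) := fun i => by
  rw [coeff_one]; split_ifs <;> simp

theorem IntP.prod {ι : Type*} (s : Finset ι) (f : ι → E[X]) (h : ∀ i ∈ s, IntP (f i)) :
    IntP (∏ i ∈ s, f i) :=
  Finset.prod_induction f IntP (fun _ _ => IntP.mul) IntP.one h

theorem coeff_lt {s : Finset E} (h1 : ∀ x ∈ s, ‖x‖ ≤ 1)
    (h2 : ∀ x ∈ s, ∀ y ∈ s, x ≠ y → ‖x - y‖ = 1) {u : E[X]} (hu : u.natDegree < s.card) {ρ : ℝ}
    (h : ∀ x ∈ s, ‖u.eval x‖ < ρ) (i : ℕ) : ‖u.coeff i‖ < ρ := by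
  classical
  have hs : s.Nonempty := Finset.card_pos.mp (by omega)
  have e : u = Lagrange.interpolate s id (fun x => u.eval (id x)) :=
    Lagrange.eq_interpolate (Set.injOn_id _) (degree_le_natDegree.trans_lt (by exact_mod_cast hu))
  rw [e, Lagrange.interpolate_apply, finsetSum_coeff]
  refine (hs.norm_sum_le_sup'_norm _).trans_lt ?_
  rw [Finset.sup'_lt_iff]
  intro x hx
  rw [coeff_C_mul]
  refine mul_lt1 (h x hx) ?_
  refine IntP.prod _ _ (fun y hy => ?_) i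
  have hy' := Finset.mem_erase.mp hy
  refine IntP.mul (fun j => ?_) (fun j => ?_)
  · rw [coeff_C]
    split_ifs
    · rw [norm_inv, id, id, h2 x hx y hy'.2 hy'.1.symm]; simp
    · simp
  · rw [coeff_sub, coeff_X, coeff_C]
    refine sub_le ?_ ?_ <;> split_ifs <;> simp [h1 y hy'.2]

theorem finite_small {p : ℕ} (hp : p.Prime) (hp1 : ‖(p : E)‖ < 1) (u : E[X]) (i : ℕ) {ρ : ℝ}
    (h : ρ ≤ ‖u.coeff i‖) : {t : E | Teich p t ∧ ‖u.eval t‖ < ρ}.Finite := by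
  by_contra hinf
  obtain ⟨s, hs, hcard⟩ := Set.Infinite.exists_subset_card_eq hinf (u.natDegree + 1)
  have := coeff_lt (s := s) (fun x hx => (hs hx).1.norm_le hp)
    (fun x hx y hy hxy => (hs hx).1.dist_eq hp hp1 (hs hy).1 hxy) (u := u) (by omega)
    (fun x hx => (hs hx).2) i
  linarith

end Pool.Agent.Lib.MP_a2c890_nt
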