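import Pool.Agent.Lib.MP_a2c890_nt.Local

set_option autoImplicit false
set_option linter.unusedSectionVars false

namespace Pool.Agent.Lib.MP_a2c890_nt

open Polynomial Finset

variable {p : ℕ} [hp : Fact p.Prime]

theorem val_group (L : IntermediateField ℚ_[p] (PadicAlgCl p)) [FiniteDimensional ℚ_[p] L] :
    ∃ e : ℕ, 0 < e ∧ ∀ x ∈ L, x ≠ 0 → ∃ z : ℤ, ‖x‖ ^ e = (p : ℝ) ^ z := by
  refine ⟨(Module.finrank ℚ_[p] L).factorial, Nat.factorial_pos _, fun x hx h0 => ?_⟩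
  have hi : IsIntegral ℚ_[p] x := Algebra.IsIntegral.isIntegral x
  have h1 := minpoly.natDegree_pos hi
  have h2 : (minpoly ℚ_[p] x).natDegree ≤ Module.finrank ℚ_[p] L := by
    have := minpoly.natDegree_le (A := ℚ_[p]) (⟨x, hx⟩ : L)
    rwa [IntermediateField.minpoly_eq] at this
  obtain ⟨k, hk⟩ := Nat.dvd_factorial h1 h2
  have h3 := spectralNorm.spectralNorm_eq_norm_coeff_zero_rpow (K := ℚ_[p]) (L := PadicAlgCl p) x
  rw [PadicAlgCl.spectralNorm_eq] at h3
  have h4 : ‖x‖ ^ (minpoly ℚ_[p] x).natDegree = ‖(minpoly ℚ_[p] x).coeff 0‖ := by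
    rw [h3, one_div, Real.rpow_inv_natCast_pow (norm_nonneg _) h1.ne']
  have h5 : (minpoly ℚ_[p] x).coeff 0 ≠ 0 := minpoly.coeff_zero_ne_zero hi h0
  refine ⟨-((minpoly ℚ_[p] x).coeff 0).valuation * k, ?_⟩
  rw [hk, pow_mul, h4, Padic.norm_eq_zpow_neg_valuation h5, zpow_mul, zpow_natCast]

theorem ext_val (L : IntermediateField ℚ_[p] (PadicAlgCl p)) {t : PadicAlgCl p} (ht : Teich p t)
    {G : (PadicAlgCl p)[X]} (hG : ∀ i, G.coeff i ∈ L) : ∃ y ∈ L, ‖G.eval t‖ = ‖y‖ := by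
  classical
  obtain ⟨u, rfl⟩ : ∃ u : L[X], u.map (algebraMap L (PadicAlgCl p)) = G :=
    (mem_lifts _).mp ((lifts_iff_coeff_lifts _).mpr fun i => ⟨⟨_, hG i⟩, rfl⟩)
  have hi : IsIntegral L t := Algebra.IsIntegral.isIntegral t
  have hmon := minpoly.monic hi
  set v := u %ₘ minpoly L t with hv
  have e1 : aeval t v = aeval t u := aeval_modByMonic_eq_self_of_root (minpoly.aeval L t)
  have e2 : v.natDegree < (minpoly L t).natDegree :=
    natDegree_modByMonic_lt u hmon (minpoly.ne_one L t)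
  have hs : ∀ x ∈ ((minpoly L t).rootSet (PadicAlgCl p)).toFinset,
      ∃ σ : PadicAlgCl p ≃ₐ[L] PadicAlgCl p, σ t = x := fun x hx =>
    minpoly.exists_algEquiv_of_root' hi.isAlgebraic
      (aeval_eq_zero_of_mem_rootSet (Set.mem_toFinset.mp hx))
  have hT : ∀ x ∈ ((minpoly L t).rootSet (PadicAlgCl p)).toFinset, Teich p x := fun x hx => by
    obtain ⟨σ, rfl⟩ := hs x hx
    exact teich_map (σ : PadicAlgCl p →+* PadicAlgCl p) ht
  have hcard : ((minpoly L t).rootSet (PadicAlgCl p)).toFinset.card = (minpoly L t).natDegree := by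
    rw [Set.toFinset_card]
    exact card_rootSet_eq_natDegree (minpoly.irreducible hi).separable (IsAlgClosed.splits _)
  have hle : ∀ i, ‖(v.map (algebraMap L (PadicAlgCl p))).coeff i‖ ≤ ‖aeval t v‖ := by
    intro i
    refine le_of_forall_gt_imp_ge_of_dense fun ρ hρ => le_of_lt ?_
    refine coeff_lt (fun x hx => (hT x hx).norm_le hp.out)
      (fun x hx y hy hxy => (hT x hx).dist_eq hp.out np1 (hT y hy) hxy)
      (by rw [hcard]; exact natDegree_map_le.trans_lt e2) (fun x hx => ?_) i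
    obtain ⟨σ, rfl⟩ := hs x hx
    rw [eval_map_algebraMap, aeval_algHom_apply, norm_aut]
    exact hρ
  obtain ⟨i, -, hi⟩ := IsUltrametricDist.exists_norm_finsetSum_le_of_nonempty
    (t := range ((v.map (algebraMap L (PadicAlgCl p))).natDegree + 1)) nonempty_range_add_one
    (fun i => (v.map (algebraMap L (PadicAlgCl p))).coeff i * t ^ i)
  rw [← eval_eq_sum_range, eval_map_algebraMap] at hi
  refine ⟨(v.map (algebraMap L (PadicAlgCl p))).coeff i, by rw [coeff_map]; exact (v.coeff i).2, ?_⟩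
  rw [eval_map_algebraMap, ← e1]
  exact le_antisymm (hi.trans (mul_le1 le_rfl (pow_le1 (ht.norm_le hp.out) i))) (hle i)

theorem prod_pow_eq {A : Type*} (R : Multiset A) (w : A → ℝ) (N : ℕ) (ρ : ℝ) (P : A → Prop)
    [DecidablePred P] (h : ∀ x ∈ R, w x ^ N = if P x then ρ else 1) :
    (R.map w).prod ^ N = ρ ^ (R.filter P).card := by
  induction R using Multiset.induction_on with
  | empty => simp
  | cons a R ih =>
    rw [Multiset.map_cons, Multiset.prod_cons, mul_pow, ih fun x hx => h x (Multiset.mem_cons_of_mem hx),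
      h a (Multiset.mem_cons_self _ _)]
    by_cases ha : P a
    · rw [Multiset.filter_cons_of_pos _ ha, Multiset.card_cons, if_pos ha, pow_succ']
    · rw [Multiset.filter_cons_of_neg _ ha, if_neg ha, one_mul]

theorem norm_eval {G : (PadicAlgCl p)[X]} (hG : G.Monic) (t : PadicAlgCl p) :
    ‖G.eval t‖ = (G.roots.map fun x => ‖x - t‖).prod := by
  rw [(IsAlgClosed.splits G).eval_eq_prod_roots_of_monic hG, ← normHom_apply, map_multiset_prod,
    Multiset.map_map]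
  congr 1
  exact Multiset.map_congr rfl fun x _ => norm_sub_rev t x

theorem big_step {d : ℕ} (hd : 0 < d) {c x : PadicAlgCl p} (hc : ‖c‖ ≤ 1) (hx : 1 < ‖x‖) :
    ‖x ^ d + c‖ = ‖x‖ ^ d := by
  rw [← norm_pow]
  apply norm_eq_of_sub_lt
  rw [add_sub_cancel_left, norm_pow]
  exact hc.trans_lt (one_lt_pow₀ hx hd.ne')

theorem big_iter {d : ℕ} (hd : 0 < d) {c : PadicAlgCl p} (hc : ‖c‖ ≤ 1) (k : ℕ) :
    ∀ x : PadicAlgCl p, (1 < ‖x‖ → ‖(fun y => y ^ d + c)^[k] x‖ = ‖x‖ ^ d ^ k) ∧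
      (‖x‖ ≤ 1 → ‖(fun y => y ^ d + c)^[k] x‖ ≤ 1) := by
  induction k with
  | zero => intro x; simp
  | succ k ih =>
    intro x
    rw [Function.iterate_succ_apply]
    refine ⟨fun hx => ?_, fun hx => (ih _).2 (add_le (pow_le1 hx _) hc)⟩
    have := big_step hd hc hx
    rw [(ih _).1 (by rw [this]; exact one_lt_pow₀ hx hd.ne'), this, ← pow_mul, pow_succ']

theorem zpow_key {x ρ : ℝ} {e N M : ℕ} {z z0 : ℤ} (h1 : x ^ e = (p : ℝ) ^ z)
    (h2 : ρ ^ e = (p : ℝ) ^ z0) (h3 : x ^ N = ρ ^ M) : N ∣ z0.natAbs * M := by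
  have a : (p : ℝ) ^ (z * N) = (p : ℝ) ^ (z0 * M) := by
    rw [zpow_mul, zpow_mul, zpow_natCast, zpow_natCast, ← h1, ← h2, pow_right_comm, h3,
      pow_right_comm]
  have b := zpow_right_injective₀ (zero_lt_one.trans p_gt) p_gt.ne' a
  have := congrArg Int.natAbs b
  rw [Int.natAbs_mul, Int.natAbs_mul, Int.natAbs_natCast, Int.natAbs_natCast] at this
  exact ⟨z.natAbs, by rw [← this, mul_comm]⟩

theorem div_good {r m : ℕ} (hm : Nat.Coprime p m) (hd : 0 < p ^ r * m)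
    {c τ γ : PadicAlgCl p} (hτ : Teich p τ) (h2 : ‖c - τ‖ < 1)
    (L : IntermediateField ℚ_[p] (PadicAlgCl p)) [FiniteDimensional ℚ_[p] L] (hγ : γ ∈ L)
    (hg : ∀ t, Teich p t → max ‖(p : PadicAlgCl p)‖ ‖c - τ‖ < ‖γ - t‖) :
    ∃ a : ℕ, 0 < a ∧ ∀ (k : ℕ) (G : (PadicAlgCl p)[X]), G.Monic → (∀ i, G.coeff i ∈ L) →
      (∀ x ∈ G.roots, (fun y => y ^ (p ^ r * m) + c)^[k] x = γ) →
      (p ^ r) ^ k ∣ a * G.natDegree := by
  classical
  obtain ⟨e, he, hL⟩ := val_group L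
  have hc : ‖c‖ ≤ 1 := norm_le_of_near hp.out hτ h2.le
  have hm0 : 0 < m := Nat.pos_of_mul_pos_left hd
  have nz : ∀ {ρ : ℝ} {z : ℤ}, 0 ≤ ρ → ρ ≠ 1 → ρ ^ e = (p : ℝ) ^ z → 0 < z.natAbs := by
    intro ρ z h0 h1 h
    rw [Int.natAbs_pos]
    rintro rfl
    rw [zpow_zero] at h
    exact h1 ((pow_eq_one_iff_of_nonneg h0 he.ne').mp h)
  have val : ∀ (G : (PadicAlgCl p)[X]) t, Teich p t → (∀ i, G.coeff i ∈ L) → ∀ (N M : ℕ) (ρ : ℝ),
      0 < N → 0 < ρ → ‖G.eval t‖ ^ N = ρ ^ M → ∃ z : ℤ, ‖G.eval t‖ ^ e = (p : ℝ) ^ z := by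
    intro G t ht hG N M ρ hN hρ h
    obtain ⟨y, hy, hy'⟩ := ext_val L ht hG
    rw [hy'] at h ⊢
    refine hL y hy ?_
    rintro rfl
    rw [norm_zero, zero_pow hN.ne'] at h
    exact (pow_pos hρ M).ne h
  by_cases hbig : 1 < ‖γ‖
  · obtain ⟨z0, hz0⟩ := hL γ hγ (norm_pos_iff.mp (zero_lt_one.trans hbig))
    refine ⟨z0.natAbs, nz (norm_nonneg _) hbig.ne' hz0, fun k G hG hGL hR => ?_⟩
    have a := prod_pow_eq G.roots (fun x => ‖x - 0‖) ((p ^ r * m) ^ k) ‖γ‖ (fun _ => True)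
      (fun x hx => by
        rw [if_pos trivial, sub_zero, ← hR x hx, (big_iter hd hc k x).1]
        by_contra hx1
        have := (big_iter hd hc k x).2 (not_lt.mp hx1)
        rw [hR x hx] at this
        linarith)
    rw [← norm_eval hG, Multiset.filter_true, ← (IsAlgClosed.splits G).natDegree_eq_card_roots] at a
    obtain ⟨z, hz⟩ := val G 0 (Teich.zero hp.out) hGL _ _ _ (pow_pos hd k)
      (zero_lt_one.trans hbig) a
    exact (Dvd.intro _ (mul_pow _ _ _).symm).trans (zpow_key hz hz0 a)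
  push Not at hbig
  obtain ⟨t0, ht0, hρ1⟩ := exists_teich hbig
  set θ := max ‖(p : PadicAlgCl p)‖ ‖c - τ‖ with hθ
  have h3 : θ < 1 := max_lt np1 h2
  have hρθ := hg t0 ht0
  have hρ0 : 0 < ‖γ - t0‖ := (le_max_of_le_left (norm_nonneg _)).trans_lt hρθ
  obtain ⟨z0, hz0⟩ : ∃ z : ℤ, ‖γ - t0‖ ^ e = (p : ℝ) ^ z := by
    have := val (C γ - X) t0 ht0 (fun i => by
      rw [coeff_sub, coeff_C, coeff_X]
      refine sub_mem ?_ ?_ <;> split_ifs
      exacts [hγ, zero_mem _, one_mem _, zero_mem _]) 1 1 _ one_pos hρ0 (by simp)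
    simpa using this
  have P : ∀ k t, Teich p t → ∃ s, 0 < s ∧ ∀ x, (fun y => y ^ (p ^ r * m) + c)^[k] x = γ →
      ‖x - t‖ < 1 → ‖x - t‖ ^ ((p ^ r) ^ k * s) = ‖γ - t0‖ := by
    intro k
    induction k with
    | zero =>
      intro t ht
      refine ⟨1, one_pos, fun x hx hx' => ?_⟩
      obtain rfl : x = γ := hx
      have : t = t0 := ht.eq_of_lt hp.out np1 ht0 (by
        have e : t - t0 = (x - t0) - (x - t) := by ring
        rw [e]; exact sub_lt hρ1 hx')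
      simp [this]
    | succ k ih =>
      intro t ht
      obtain ⟨t', ht', h'⟩ := exists_teich (add_le (pow_le1 (ht.norm_le hp.out) (p ^ r * m)) hc)
      obtain ⟨s, hs, hs'⟩ := ih t' ht'
      refine ⟨(if t = 0 then m else 1) * s, Nat.mul_pos (by split_ifs <;> omega) hs,
        fun x hx hx' => ?_⟩
      have b1 : ‖x ^ (p ^ r * m) + c - t'‖ < 1 := by
        have e : x ^ (p ^ r * m) + c - t' =
          (x ^ (p ^ r * m) - t ^ (p ^ r * m)) + (t ^ (p ^ r * m) + c - t') := by ring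
        rw [e]
        exact add_lt ((pow_sub_pow_le (norm_le_of_near hp.out ht hx'.le) (ht.norm_le hp.out)
          _).trans_lt hx') h'
      have b2 := hs' _ hx b1
      have b3 : θ < ‖x ^ (p ^ r * m) + c - t'‖ := by
        refine hρθ.trans_le ?_
        rw [← b2]
        exact pow_le_of_le_one (norm_nonneg _) b1.le
          (Nat.mul_pos (pow_pos (pow_pos hp.out.pos r) k) hs).ne'
      rw [good_step hp.out np1 hm hτ (le_max_left _ _) (le_max_right _ _) h3 ht ht' hx' b1 b3,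
        ← pow_mul] at b2
      rw [← b2]
      congr 1
      ring
  refine ⟨z0.natAbs, nz hρ0.le hρ1.ne hz0, fun k G hG hGL hR => ?_⟩
  have hR1 : ∀ x ∈ G.roots, ‖x‖ ≤ 1 := by
    intro x hx
    by_contra h1
    push Not at h1
    have := (big_iter hd hc k x).1 h1
    rw [hR x hx] at this
    have h4 := one_lt_pow₀ h1 (pow_pos hd k).ne'
    linarith
  have ex : ∀ x : PadicAlgCl p, ∃ t, Teich p t ∧ (‖x‖ ≤ 1 → ‖x - t‖ < 1) := by
    intro x
    by_cases hx : ‖x‖ ≤ 1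
    · obtain ⟨t, ht, h⟩ := exists_teich hx
      exact ⟨t, ht, fun _ => h⟩
    · exact ⟨0, Teich.zero hp.out, fun h => absurd h hx⟩
  choose T hT hT' using ex
  rw [(IsAlgClosed.splits G).natDegree_eq_card_roots, ← Multiset.card_map T,
    ← Multiset.toFinset_sum_count_eq, Finset.mul_sum]
  refine Finset.dvd_sum fun t ht => ?_
  obtain ⟨x0, -, rfl⟩ := Multiset.mem_map.mp (Multiset.mem_toFinset.mp ht)
  obtain ⟨s, hs, hs'⟩ := P k (T x0) (hT x0)
  have a := prod_pow_eq G.roots (fun x => ‖x - T x0‖) ((p ^ r) ^ k * s) ‖γ - t0‖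
    (fun x => T x0 = T x) (fun x hx => by
      split_ifs with h
      · exact hs' x (hR x hx) (by rw [h]; exact hT' x (hR1 x hx))
      · have b : ‖x - T x0‖ = ‖T x - T x0‖ := by
          apply norm_eq_of_sub_lt
          rw [sub_sub_sub_cancel_right, (hT x).dist_eq hp.out np1 (hT x0) (Ne.symm h)]
          exact hT' x (hR1 x hx)
        simp only [b, (hT x).dist_eq hp.out np1 (hT x0) (Ne.symm h), one_pow])
  rw [← norm_eval hG] at a
  obtain ⟨z, hz⟩ := val G _ (hT x0) hGL _ _ _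
    (Nat.mul_pos (pow_pos (pow_pos hp.out.pos r) k) hs) hρ0 a
  rw [Multiset.count_map]
  exact (Dvd.intro _ rfl).trans (zpow_key hz hz0 a)

end Pool.Agent.Lib.MP_a2c890_nt
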