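import Pool.Agent.Lib.MP_a2c890_nt.Basic

set_option autoImplicit false
set_option linter.unusedSectionVars false

namespace Pool.Agent.Lib.MP_a2c890_nt

open Polynomial Finset

variable {E : Type*} [NormedField E] [IsUltrametricDist E]

/-- same leading term -/
def Ap (x y : E) : Prop := ‖x - y‖ < ‖y‖

theorem Ap.norm {x y : E} (h : Ap x y) : ‖x‖ = ‖y‖ := norm_eq_of_sub_lt h

theorem Ap.pos {x y : E} (h : Ap x y) : 0 < ‖y‖ := (norm_nonneg _).trans_lt h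

theorem Ap.refl {x : E} (h : x ≠ 0) : Ap x x := by
  unfold Ap; simpa using h

theorem Ap.symm {x y : E} (h : Ap x y) : Ap y x := by
  unfold Ap; rw [norm_sub_rev, h.norm]; exact h

theorem Ap.trans {x y z : E} (h : Ap x y) (h' : Ap y z) : Ap x z := by
  unfold Ap
  have e : x - z = (x - y) + (y - z) := by ring
  rw [e]
  exact add_lt (by rw [← h'.norm]; exact h) h'

theorem Ap.mul {x y x' y' : E} (h : Ap x y) (h' : Ap x' y') : Ap (x * x') (y * y') := by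
  unfold Ap
  have e : x * x' - y * y' = (x - y) * x' + y * (x' - y') := by ring
  rw [e]
  refine add_lt ?_ ?_
  · rw [norm_mul, norm_mul, h'.norm]; exact mul_lt_mul_of_pos_right h h'.pos
  · rw [norm_mul, norm_mul]; exact mul_lt_mul_of_pos_left h' h.pos

theorem Ap.inv {x y : E} (h : Ap x y) : Ap x⁻¹ y⁻¹ := by
  have hy : y ≠ 0 := norm_pos_iff.mp h.pos
  have hx : x ≠ 0 := norm_pos_iff.mp h.symm.pos
  unfold Ap
  have e : x⁻¹ - y⁻¹ = (y - x) * x⁻¹ * y⁻¹ := by field_simp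
  rw [e, norm_mul, norm_mul, norm_inv x]
  have h1 : ‖y - x‖ * ‖x‖⁻¹ < 1 := by
    rw [← div_eq_mul_inv, div_lt_one h.symm.pos]; exact h.symm
  have h2 : 0 < ‖y⁻¹‖ := norm_pos_iff.mpr (inv_ne_zero hy)
  nlinarith

theorem Ap.div {x y x' y' : E} (h : Ap x y) (h' : Ap x' y') : Ap (x / x') (y / y') := by
  rw [div_eq_mul_inv, div_eq_mul_inv]; exact h.mul h'.inv

theorem Ap.pow {x y : E} (h : Ap x y) (n : ℕ) : Ap (x ^ n) (y ^ n) := by
  induction n with
  | zero => simpa using Ap.refl (one_ne_zero : (1 : E) ≠ 0)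
  | succ n ih => rw [pow_succ, pow_succ]; exact ih.mul h

theorem contr_d {p r m : ℕ} (hp : p.Prime) (hr : 0 < r) {x y : E} (hx : ‖x‖ ≤ 1) (hy : ‖y‖ ≤ 1) :
    ‖x ^ (p ^ r * m) - y ^ (p ^ r * m)‖ ≤ max ‖(p : E)‖ ‖x - y‖ * ‖x - y‖ := by
  rw [pow_mul, pow_mul]
  exact (pow_sub_pow_le (pow_le1 hx _) (pow_le1 hy _) m).trans (contr hp hx hy hr)

theorem ap_tame {p m : ℕ} (hp1 : ‖(p : E)‖ < 1) (hm : Nat.Coprime p m) {w : E} (hw : ‖w‖ < 1)
    (h0 : w ≠ 0) : Ap ((1 + w) ^ m - 1) (m * w) := by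
  unfold Ap
  have a := one_add_pow_le hw.le m
  have hw0 : 0 < ‖w‖ := norm_pos_iff.mpr h0
  rw [norm_mul, norm_coprime hp1 hm]
  nlinarith

theorem norm_tame {p m : ℕ} (hp1 : ‖(p : E)‖ < 1) (hm : Nat.Coprime p m) {w : E} (hw : ‖w‖ < 1) :
    ‖(1 + w) ^ m - 1‖ = ‖w‖ := by
  by_cases h0 : w = 0
  · simp [h0]
  · rw [(ap_tame hp1 hm hw h0).norm, norm_mul, norm_coprime hp1 hm, one_mul]

theorem ap_lead {p r m : ℕ} (hp : p.Prime) (hp0 : 0 < ‖(p : E)‖) (hp1 : ‖(p : E)‖ < 1)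
    (hm : Nat.Coprime p m) {y : E} (hy : ‖y‖ < 1)
    (h : ‖(p : E)‖ ≤ ‖(1 + y) ^ (p ^ r * m) - 1‖) :
    Ap ((1 + y) ^ (p ^ r * m) - 1) (m * y ^ p ^ r) := by
  set u := (1 + y) ^ p ^ r - 1 with hu
  have e : (1 + y) ^ (p ^ r * m) = (1 + u) ^ m := by rw [hu, add_sub_cancel, pow_mul]
  have hu1 : ‖u‖ < 1 := by
    have := pow_sub_pow_le (x := 1 + y) (y := 1) (add_le (by simp) hy.le) (by simp) (p ^ r)
    rw [one_pow, add_sub_cancel_left] at this
    exact this.trans_lt hy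
  rw [e] at h ⊢
  rw [norm_tame hp1 hm hu1] at h
  have h0 : u ≠ 0 := norm_pos_iff.mp (hp0.trans_le h)
  have a := add_pow_le hp (x := (1 : E)) (by simp) hy.le r
  rw [one_pow] at a
  have b : Ap (y ^ p ^ r) u := by
    unfold Ap
    rw [norm_sub_rev]
    refine a.trans_lt ?_
    nlinarith
  have hm0 : (m : E) ≠ 0 := norm_pos_iff.mp (by rw [norm_coprime hp1 hm]; exact one_pos)
  exact (ap_tame hp1 hm hu1 h0).trans ((Ap.refl hm0).mul b.symm)

theorem teich_step {p d : ℕ} (hp : p.Prime) {c τ t t' : E} {θ : ℝ} (hτ : Teich p τ)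
    (h1 : ‖(p : E)‖ ≤ θ) (h2 : ‖c - τ‖ ≤ θ) (h3 : θ < 1) (ht : Teich p t) (ht' : Teich p t')
    (h : ‖t ^ d + c - t'‖ < 1) : ‖t ^ d + τ - t'‖ ≤ ‖(p : E)‖ ∧ ‖t ^ d + c - t'‖ ≤ θ := by
  have a : ‖t ^ d + τ - t'‖ < 1 := by
    have e : t ^ d + τ - t' = (t ^ d + c - t') - (c - τ) := by ring
    rw [e]; exact sub_lt h (h2.trans_lt h3)
  have b := Teich.add_le hp (ht.pow d) hτ ht' a
  refine ⟨b, ?_⟩
  have e : t ^ d + c - t' = (t ^ d + τ - t') + (c - τ) := by ring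
  rw [e]; exact add_le (b.trans h1) h2

theorem norm_le_of_near {p : ℕ} (hp : p.Prime) {x t : E} (ht : Teich p t) (h : ‖x - t‖ ≤ 1) :
    ‖x‖ ≤ 1 := by
  have e : x = (x - t) + t := by ring
  rw [e]; exact add_le h (ht.norm_le hp)

theorem norm_eq_of_near {p : ℕ} (hp : p.Prime) {x t : E} (ht : Teich p t) (h0 : t ≠ 0)
    (h : ‖x - t‖ < 1) : ‖x‖ = 1 := by
  rw [← ht.norm_eq hp h0] at h ⊢
  exact norm_eq_of_sub_lt h

open Classical in
/-- Newton polygon step -/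
theorem good_step {p r m : ℕ} (hp : p.Prime) (hp1 : ‖(p : E)‖ < 1) (hm : Nat.Coprime p m)
    {c τ t t' x : E} {θ : ℝ} (hτ : Teich p τ)
    (h1 : ‖(p : E)‖ ≤ θ) (h2 : ‖c - τ‖ ≤ θ) (h3 : θ < 1) (ht : Teich p t) (ht' : Teich p t')
    (hx : ‖x - t‖ < 1) (hx' : ‖x ^ (p ^ r * m) + c - t'‖ < 1)
    (hg : θ < ‖x ^ (p ^ r * m) + c - t'‖) :
    ‖x ^ (p ^ r * m) + c - t'‖ = ‖x - t‖ ^ (p ^ r * (if t = 0 then m else 1)) := by
  have hx1 : ‖x‖ ≤ 1 := norm_le_of_near hp ht hx.le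
  have a : ‖t ^ (p ^ r * m) + c - t'‖ ≤ θ := by
    refine (teich_step hp hτ h1 h2 h3 ht ht' ?_).2
    have e : t ^ (p ^ r * m) + c - t' =
      (x ^ (p ^ r * m) + c - t') - (x ^ (p ^ r * m) - t ^ (p ^ r * m)) := by ring
    rw [e]
    exact sub_lt hx' ((pow_sub_pow_le hx1 (ht.norm_le hp) _).trans_lt hx)
  have b : ‖x ^ (p ^ r * m) - t ^ (p ^ r * m)‖ = ‖x ^ (p ^ r * m) + c - t'‖ := by
    apply norm_eq_of_sub_lt
    have e : x ^ (p ^ r * m) - t ^ (p ^ r * m) - (x ^ (p ^ r * m) + c - t') =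
      -(t ^ (p ^ r * m) + c - t') := by ring
    rw [e, norm_neg]; exact a.trans_lt hg
  rw [← b] at hg ⊢
  split_ifs with h0
  · subst h0
    have : p ^ r * m ≠ 0 := by
      intro h; rw [h] at hg; simp at hg; linarith [norm_nonneg (p : E)]
    rw [zero_pow this, sub_zero, sub_zero, norm_pow]
  · have ht1 := ht.norm_eq hp h0
    set u := x ^ p ^ r - t ^ p ^ r with hu
    have hu1 : ‖u‖ < 1 := (pow_sub_pow_le hx1 ht1.le _).trans_lt hx
    have htq : ‖t ^ p ^ r‖ = 1 := by rw [norm_pow, ht1, one_pow]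
    have e : x ^ (p ^ r * m) - t ^ (p ^ r * m) =
        (t ^ p ^ r) ^ m * ((1 + u / t ^ p ^ r) ^ m - 1) := by
      have : 1 + u / t ^ p ^ r = x ^ p ^ r / t ^ p ^ r := by rw [hu]; field_simp; ring
      rw [this, div_pow, pow_mul, pow_mul]; field_simp
    have f : ‖x ^ (p ^ r * m) - t ^ (p ^ r * m)‖ = ‖u‖ := by
      rw [e, norm_mul, norm_pow, htq, one_pow, one_mul, norm_tame hp1 hm, norm_div, htq, div_one]
      rw [norm_div, htq, div_one]; exact hu1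
    rw [f] at hg ⊢
    have g := add_pow_le hp ht1.le hx.le r
    rw [add_sub_cancel] at g
    rw [mul_one, ← norm_pow]
    symm
    apply norm_eq_of_sub_lt
    rw [norm_sub_rev]
    exact (g.trans (mul_le_of_le_one_right (norm_nonneg _) hx.le)).trans_lt (h1.trans_lt hg)

/-- a backward orbit that stays close to Teichmuller elements -/
structure Br (p d : ℕ) (c : E) (θ : ℝ) (α t : ℕ → E) : Prop where
  step : ∀ n, α (n + 1) ^ d + c = α n
  te : ∀ n, Teich p (t n)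
  cl : ∀ n, ‖α n - t n‖ ≤ θ

theorem Br.key {p r m : ℕ} (hp : p.Prime) (hr : 0 < r) {c : E} {θ : ℝ} {α t : ℕ → E}
    (h : Br p (p ^ r * m) c θ α t) (h1 : ‖(p : E)‖ ≤ θ) (h3 : θ < 1) (n : ℕ) :
    ‖α n - (t (n + 1) ^ (p ^ r * m) + c)‖ ≤ θ * ‖α (n + 1) - t (n + 1)‖ := by
  rw [← h.step n, add_sub_add_right_eq_sub]
  refine (contr_d hp hr (norm_le_of_near hp (h.te _) ((h.cl _).trans h3.le))
    ((h.te _).norm_le hp)).trans ?_
  exact mul_le_mul_of_nonneg_right (max_le h1 (h.cl _)) (norm_nonneg _)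

theorem Br.near {p d : ℕ} (hp : p.Prime) {c : E} {θ : ℝ} {α t : ℕ → E}
    (h : Br p d c θ α t) (h3 : θ < 1) (n : ℕ) : ‖t (n + 1) ^ d + c - t n‖ < 1 := by
  have e : t (n + 1) ^ d + c - t n = (α n - t n) - (α (n + 1) ^ d - t (n + 1) ^ d) := by
    rw [← h.step n]; ring
  rw [e]
  refine sub_lt ((h.cl n).trans_lt h3) ((pow_sub_pow_le (norm_le_of_near hp (h.te _)
    ((h.cl _).trans h3.le)) ((h.te _).norm_le hp) d).trans_lt ((h.cl _).trans_lt h3))

theorem Br.down {p d : ℕ} (hp : p.Prime) (hp1 : ‖(p : E)‖ < 1) {c : E} {θ : ℝ} {α t : ℕ → E}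
    (h : Br p d c θ α t) (h3 : θ < 1) {a b : ℕ} (hab : t (a + 1) = t (b + 1)) : t a = t b := by
  apply (h.te a).eq_of_lt hp hp1 (h.te b)
  have e : t a - t b = (t (b + 1) ^ d + c - t b) - (t (a + 1) ^ d + c - t a) := by
    rw [hab]; ring
  rw [e]; exact sub_lt (h.near hp h3 b) (h.near hp h3 a)

theorem Br.iter {p d : ℕ} {c : E} {θ : ℝ} {α t : ℕ → E} (h : Br p d c θ α t) (k n : ℕ) :
    (fun x => x ^ d + c)^[k] (α (n + k)) = α n := by
  induction k with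
  | zero => rfl
  | succ k ih => rw [Function.iterate_succ_apply, ← add_assoc, h.step, ih]

theorem le_zero_of_pow {x θ : ℝ} (h0 : 0 ≤ θ) (h1 : θ < 1) (h : ∀ k : ℕ, x ≤ θ ^ k) : x ≤ 0 :=
  ge_of_tendsto' (tendsto_pow_atTop_nhds_zero_of_lt_one h0 h1) h

/-- a branch whose Teichmuller parts repeat infinitely often is periodic -/
theorem Br.periodic {p r m : ℕ} (hp : p.Prime) (hp1 : ‖(p : E)‖ < 1) (hr : 0 < r) {c : E} {θ : ℝ}
    {α t : ℕ → E} (h : Br p (p ^ r * m) c θ α t) (h1 : ‖(p : E)‖ ≤ θ) (h3 : θ < 1) {b : E}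
    (hb : {n | t n = b}.Infinite) :
    ∃ P, 0 < P ∧ (fun x => x ^ (p ^ r * m) + c)^[P] (α 0) = α 0 := by
  have down : ∀ j a b : ℕ, t (a + j) = t (b + j) → t a = t b := by
    intro j
    induction j with
    | zero => intro a b h; exact h
    | succ j ih => intro a b h'; exact ih a b (h.down hp hp1 h3 h')
  obtain ⟨n1, hn1, -⟩ := hb.exists_gt 0
  obtain ⟨n2, hn2, hlt⟩ := hb.exists_gt n1
  obtain ⟨P, rfl⟩ := Nat.exists_eq_add_of_lt hlt
  have per : ∀ i, t i = t (i + (P + 1)) := by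
    intro i
    obtain ⟨n, hn, hlt⟩ := hb.exists_gt (i + n1 + (P + 1))
    obtain ⟨s, rfl⟩ := Nat.exists_eq_add_of_lt hlt
    simp only [Set.mem_ofPred_eq] at hn hn1 hn2
    have a : t (i + n1 + s + 1) = t n1 := by
      apply down (P + 1)
      rw [show i + n1 + s + 1 + (P + 1) = i + n1 + (P + 1) + s + 1 by ring, hn, ← add_assoc, hn2]
    apply down (n1 + s + 1)
    rw [show i + (n1 + s + 1) = i + n1 + s + 1 by ring, a, hn1,
      show i + (P + 1) + (n1 + s + 1) = i + n1 + (P + 1) + s + 1 by ring, hn]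
  have hθ : 0 ≤ θ := (norm_nonneg _).trans h1
  have hle : ∀ n, ‖α n‖ ≤ 1 := fun n => norm_le_of_near hp (h.te _) ((h.cl _).trans h3.le)
  have b0 : ∀ i, ‖α i - α (i + (P + 1))‖ ≤ θ := by
    intro i
    have e : α i - α (i + (P + 1)) = (α i - t i) - (α (i + (P + 1)) - t (i + (P + 1))) := by
      rw [← per i]; ring
    rw [e]; exact sub_le (h.cl _) (h.cl _)
  have b1 : ∀ k i, ‖α i - α (i + (P + 1))‖ ≤ θ ^ k := by
    intro k
    induction k with
    | zero => intro i; rw [pow_zero]; exact (b0 i).trans h3.le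
    | succ k ih =>
      intro i
      rw [← h.step i, ← h.step (i + (P + 1)), add_sub_add_right_eq_sub]
      refine (contr_d hp hr (hle _) (hle _)).trans ?_
      have e : i + (P + 1) + 1 = i + 1 + (P + 1) := by ring
      rw [e, pow_succ, mul_comm]
      exact mul_le_mul (ih _) (max_le h1 (b0 _)) (le_max_of_le_left (norm_nonneg _)) (by positivity)
  have b2 : α 0 = α (0 + (P + 1)) :=
    sub_eq_zero.mp (norm_le_zero_iff.mp (le_zero_of_pow hθ h3 fun k => b1 k 0))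
  refine ⟨P + 1, Nat.succ_pos _, ?_⟩
  conv_lhs => rw [b2]
  exact h.iter _ _

/-- refined closeness when the constant term is small -/
theorem Br.small {p r m : ℕ} (hp : p.Prime) (hp1 : ‖(p : E)‖ < 1) (hr : 0 < r) {c : E} {θ : ℝ}
    {α t : ℕ → E} (h : Br p (p ^ r * m) c θ α t) (h1 : ‖(p : E)‖ ≤ θ) (h3 : θ < 1)
    (hc : ‖c‖ < 1) : (∀ n, t (n + 1) ^ (p ^ r * m) = t n) ∧ ∀ n, ‖α n - t n‖ ≤ ‖c‖ := by
  have a : ∀ n, t (n + 1) ^ (p ^ r * m) = t n := by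
    intro n
    apply ((h.te _).pow _).eq_of_lt hp hp1 (h.te n)
    have e : t (n + 1) ^ (p ^ r * m) - t n = (t (n + 1) ^ (p ^ r * m) + c - t n) - c := by ring
    rw [e]; exact sub_lt (h.near hp h3 n) hc
  refine ⟨a, ?_⟩
  have hθ : 0 ≤ θ := (norm_nonneg _).trans h1
  have b : ∀ k n, ‖α n - t n‖ ≤ max ‖c‖ (θ ^ k) := by
    intro k
    induction k with
    | zero => intro n; rw [pow_zero]; exact le_max_of_le_right ((h.cl n).trans h3.le)
    | succ k ih =>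
      intro n
      have e : α n - t n = (α n - (t (n + 1) ^ (p ^ r * m) + c)) + c := by rw [a]; ring
      rw [e]
      refine add_le ((h.key hp hr h1 h3 n).trans ?_) (le_max_left _ _)
      refine (mul_le_mul_of_nonneg_left (ih _) hθ).trans ?_
      rw [mul_max_of_nonneg _ _ hθ]
      refine max_le_max (mul_le_of_le_one_left (norm_nonneg _) h3.le) (by rw [pow_succ, mul_comm])
  intro n
  by_contra hlt
  push Not at hlt
  have : ‖α n - t n‖ ≤ 0 := le_zero_of_pow hθ h3 fun k => by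
    rcases le_max_iff.mp (b k n) with h' | h'
    · linarith
    · exact h'
  linarith [norm_nonneg c]

end Pool.Agent.Lib.MP_a2c890_nt
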