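import Pool.Agent.Lib.MP_a2c890_nt.Div

set_option autoImplicit false
set_option linter.unusedSectionVars false

namespace Pool.Agent.Lib.MP_a2c890_nt

open Polynomial Finset NumberField IsDedekindDomain

theorem coeff_small {E : Type*} [NormedField E] [IsUltrametricDist E] (R : Multiset E)
    (h : ∀ x ∈ R, ‖x‖ < 1) (i : ℕ) : ‖((R.map fun a => X - C a).prod - X ^ R.card).coeff i‖ < 1 := by
  induction R using Multiset.induction_on generalizing i with
  | empty => simp
  | cons a R ih =>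
    have ih' := ih fun x hx => h x (Multiset.mem_cons_of_mem hx)
    have e : ((a ::ₘ R).map fun a => X - C a).prod - X ^ (a ::ₘ R).card =
        X * ((R.map fun a => X - C a).prod - X ^ R.card) -
        C a * (((R.map fun a => X - C a).prod - X ^ R.card) + X ^ R.card) := by
      rw [Multiset.map_cons, Multiset.prod_cons, Multiset.card_cons]; ring
    rw [e, coeff_sub, coeff_C_mul, coeff_add]
    refine sub_lt ?_ (mul_lt1 (h a (Multiset.mem_cons_self _ _)) (add_le (ih' i).le ?_))
    · rcases i with _ | i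
      · simp
      · rw [coeff_X_mul]; exact ih' i
    · rw [coeff_X_pow]; split_ifs <;> simp

theorem val_rat {K : Type*} [Field K] [NumberField K] {p : ℕ} [hp : Fact p.Prime]
    (v : HeightOneSpectrum (𝓞 K)) (hv : (p : 𝓞 K) ∈ v.asIdeal) (r : ℚ)
    (hr : ‖(r : PadicAlgCl p)‖ < 1) : v.valuation K (r : K) < 1 := by
  have hden : (r.den : PadicAlgCl p) ≠ 0 := Nat.cast_ne_zero.mpr r.den_nz
  have h1 : ‖(r.num.natAbs : PadicAlgCl p)‖ < 1 := by
    have e : (r.num : PadicAlgCl p) = r * r.den := by rw [Rat.cast_def]; field_simp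
    have : ‖(r.num : PadicAlgCl p)‖ < 1 := by rw [e]; exact mul_lt1 hr (ncast_le _)
    rcases Int.natAbs_eq r.num with h | h
    · rw [h] at this; simpa using this
    · rw [h] at this; simpa using this
  have h2 : p ∣ r.num.natAbs := by
    by_contra hn
    have := norm_coprime np1 ((Nat.Prime.coprime_iff_not_dvd hp.out).mpr hn)
    linarith
  have h3 : Nat.Coprime p r.den := Nat.Coprime.coprime_dvd_left h2 r.reduced
  have h4 : ((r.den : ℕ) : 𝓞 K) ∉ v.asIdeal := by
    intro hd
    obtain ⟨a, b, hab⟩ := Nat.isCoprime_iff_coprime.mpr h3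
    have e : (1 : 𝓞 K) = (a : 𝓞 K) * p + (b : 𝓞 K) * r.den := by
      have := congrArg (Int.cast : ℤ → 𝓞 K) hab
      push_cast at this
      exact this.symm
    exact v.isPrime.ne_top ((Ideal.eq_top_iff_one _).mpr
      (e ▸ add_mem (Ideal.mul_mem_left _ _ hv) (Ideal.mul_mem_left _ _ hd)))
  have h5 : ((r.num : ℤ) : 𝓞 K) ∈ v.asIdeal := by
    obtain ⟨k, hk⟩ := Int.natCast_dvd.mpr h2
    rw [hk]; push_cast; exact Ideal.mul_mem_right _ _ hv
  have h6 : v.valuation K (r.den : K) = 1 := by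
    rw [← map_natCast (algebraMap (𝓞 K) K), HeightOneSpectrum.valuation_of_algebraMap]
    exact (HeightOneSpectrum.intValuation_eq_one_iff).mpr h4
  have h7 : v.valuation K (r.num : K) < 1 := by
    rw [← map_intCast (algebraMap (𝓞 K) K)]
    exact (v.valuation_lt_one_iff_mem _).mpr h5
  rw [Rat.cast_def, map_div₀, h6, div_one]
  exact h7

theorem exists_emb {K : Type*} [Field K] [NumberField K] {p : ℕ} [hp : Fact p.Prime]
    (v : HeightOneSpectrum (𝓞 K)) (hv : (p : 𝓞 K) ∈ v.asIdeal) {w : K}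
    (hw : v.valuation K w ≤ 1) : ∃ ι : K →+* PadicAlgCl p, ‖ι w‖ ≤ 1 := by
  by_contra hcon
  push Not at hcon
  have hi : IsIntegral ℚ w⁻¹ := Algebra.IsIntegral.isIntegral _
  have hm := (minpoly.monic hi).map (algebraMap ℚ (PadicAlgCl p))
  have hw0 : w ≠ 0 := by
    rintro rfl
    have := hcon (IsAlgClosed.lift : K →ₐ[ℚ] PadicAlgCl p)
    rw [map_zero, norm_zero] at this
    linarith
  have h1 := coeff_small ((minpoly ℚ w⁻¹).map (algebraMap ℚ (PadicAlgCl p))).roots (fun x hx => by
    have : x ∈ (minpoly ℚ w⁻¹).rootSet (PadicAlgCl p) := by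
      rw [mem_rootSet_of_ne (minpoly.ne_zero hi), ← eval_map_algebraMap]
      exact (mem_roots hm.ne_zero).mp hx
    rw [← Embeddings.range_eval_eq_rootSet_minpoly] at this
    obtain ⟨φ, rfl⟩ := this
    simp only [map_inv₀, norm_inv]
    exact inv_lt_one_of_one_lt₀ (hcon φ))
  rw [← (IsAlgClosed.splits _).eq_prod_roots_of_monic hm,
    ← (IsAlgClosed.splits _).natDegree_eq_card_roots, (minpoly.monic hi).natDegree_map] at h1
  set n := (minpoly ℚ w⁻¹).natDegree with hn
  have h2 : ∀ i < n, v.valuation K (((minpoly ℚ w⁻¹).coeff i : ℚ) : K) < 1 := by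
    intro i hi'
    apply val_rat v hv
    have := h1 i
    rw [coeff_sub, coeff_X_pow, if_neg hi'.ne, sub_zero, coeff_map] at this
    exact this
  have h3 := minpoly.aeval ℚ w⁻¹
  rw [aeval_eq_sum_range, Finset.sum_range_succ, ← hn, (minpoly.monic hi).coeff_natDegree,
    one_smul] at h3
  have h4 : (1 : K) = -∑ i ∈ range n, (((minpoly ℚ w⁻¹).coeff i : ℚ) : K) * w ^ (n - i) := by
    have e : ∑ i ∈ range n, (((minpoly ℚ w⁻¹).coeff i : ℚ) : K) * w ^ (n - i) =
        (∑ i ∈ range n, (minpoly ℚ w⁻¹).coeff i • w⁻¹ ^ i) * w ^ n := by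
      rw [Finset.sum_mul]
      refine Finset.sum_congr rfl fun i hi => ?_
      rw [Rat.smul_def, pow_sub₀ _ hw0 (mem_range.mp hi).le, inv_pow]; ring
    rw [e, eq_neg_of_add_eq_zero_left h3, inv_pow, neg_mul, neg_neg,
      inv_mul_cancel₀ (pow_ne_zero _ hw0)]
  have h5 : v.valuation K (1 : K) < 1 := by
    rw [h4, Valuation.map_neg]
    refine Valuation.map_sum_lt _ one_ne_zero fun i hi => ?_
    rw [map_mul, map_pow]
    exact (mul_le_of_le_one_right' (pow_le_one' hw _)).trans_lt (h2 i (mem_range.mp hi))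
  simp at h5

theorem exists_emb_closure {K : Type*} [Field K] [NumberField K] {p : ℕ} [hp : Fact p.Prime]
    (v : HeightOneSpectrum (𝓞 K)) (hv : (p : 𝓞 K) ∈ v.asIdeal) {w : K}
    (hw : v.valuation K w ≤ 1) {c : AlgebraicClosure K} {n : ℕ} (hn : n ≠ 0)
    (hc : c ^ n = algebraMap K _ w) : ∃ ι : AlgebraicClosure K →+* PadicAlgCl p, ‖ι c‖ ≤ 1 := by
  obtain ⟨ι, hι⟩ := exists_emb v hv hw
  let := ι.toAlgebra
  let φ : AlgebraicClosure K →ₐ[K] PadicAlgCl p := IsAlgClosed.lift
  refine ⟨φ, ?_⟩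
  have : ‖φ c‖ ^ n ≤ 1 := by rw [← norm_pow, ← map_pow, hc, φ.commutes]; exact hι
  exact (pow_le_one_iff_of_nonneg (norm_nonneg _) hn).mp this

theorem map_iter {F G : Type*} [Field F] [Field G] (φ : F →+* G) (d : ℕ) (c x : F) (k : ℕ) :
    φ ((fun y => y ^ d + c)^[k] x) = (fun y => y ^ d + φ c)^[k] (φ x) := by
  induction k with
  | zero => rfl
  | succ k ih => rw [Function.iterate_succ_apply', Function.iterate_succ_apply', map_add, map_pow, ih]

theorem itP_map {F G : Type*} [Field F] [Field G] (φ : F →+* G) (d : ℕ) (c : F) (k : ℕ) :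
    (itP d c k).map φ = itP d (φ c) k := by
  induction k with
  | zero => simp [itP]
  | succ k ih => rw [itP, itP, Polynomial.map_add, Polynomial.map_pow, ih, map_C]

theorem exists_local {F : Type*} [Field F] [NumberField F] {p : ℕ} [hp : Fact p.Prime]
    (ι : F →+* PadicAlgCl p) : ∃ L : IntermediateField ℚ_[p] (PadicAlgCl p),
      FiniteDimensional ℚ_[p] L ∧ ∀ x, ι x ∈ L := by
  classical
  obtain ⟨s, hs⟩ := Module.Finite.fg_top (R := ℚ) (M := F)
  refine ⟨IntermediateField.adjoin ℚ_[p] (s.image ι : Set (PadicAlgCl p)),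
    IntermediateField.finiteDimensional_adjoin fun x _ => Algebra.IsIntegral.isIntegral x,
    fun x => ?_⟩
  have hx : x ∈ Submodule.span ℚ (s : Set F) := hs ▸ Submodule.mem_top
  induction hx using Submodule.span_induction with
  | mem y hy => exact IntermediateField.subset_adjoin _ _ (by simpa using ⟨y, hy, rfl⟩)
  | zero => rw [map_zero]; exact zero_mem _
  | add y z _ _ hy hz => rw [map_add]; exact add_mem hy hz
  | smul q y _ hy => rw [Rat.smul_def, map_mul, map_ratCast]; exact mul_mem (SubfieldClass.ratCast_mem _ q) hy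

theorem pre_finite {F : Type*} [Field F] {d : ℕ} (hd : 0 < d) (c β : F) (n : ℕ) :
    ∃ S : Finset F, S.card ≤ d ^ n ∧ ∀ x, x ∈ S ↔ (fun y => y ^ d + c)^[n] x = β := by
  classical
  have h := itP_monic hd c n
  have h1 : (itP d c n - C β).natDegree = d ^ n := by rw [natDegree_sub_C, h.2]
  have h2 : itP d c n - C β ≠ 0 := by
    intro e; rw [e, natDegree_zero] at h1; exact (pow_pos hd n).ne h1
  refine ⟨(itP d c n - C β).roots.toFinset,
    (Multiset.toFinset_card_le _).trans ((card_roots' _).trans h1.le), fun x => ?_⟩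
  rw [Multiset.mem_toFinset, mem_roots h2, IsRoot.def, eval_sub, eval_C, itP_eval, sub_eq_zero]

/-- the degree bound over a finite extension -/
theorem degree_bound {K : Type*} [Field K] [NumberField K] {d : ℕ} (hd : 0 < d)
    {c β μ : AlgebraicClosure K}
    (hι : ∀ (p : ℕ) [Fact p.Prime], p ∣ d → ∃ ι : AlgebraicClosure K →+* PadicAlgCl p, ‖ι c‖ ≤ 1)
    (hβ : (Set.range fun n => (fun x => x ^ d + c)^[n] β).Infinite) :
    ∃ (n0 A : ℕ) (K' : IntermediateField K (AlgebraicClosure K)), μ ∈ K' ∧ 0 < A ∧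
      ∀ k x, (fun y => y ^ d + c)^[n0 + k] x = β → d ^ k ≤ A * (minpoly K' x).natDegree := by
  classical
  have loc : ∀ p : ℕ, ∃ n0, p.Prime → p ∣ d → ∀ n, n0 ≤ n →
      ∀ (K' : IntermediateField K (AlgebraicClosure K)), FiniteDimensional K K' → c ∈ K' →
      ∀ γ ∈ K', (fun y => y ^ d + c)^[n] γ = β → ∃ a, 0 < a ∧ ∀ k x,
        (fun y => y ^ d + c)^[k] x = γ →
        (p ^ d.factorization p) ^ k ∣ a * (minpoly K' x).natDegree := by
    intro p
    by_cases hpd : p.Prime ∧ p ∣ d
    swap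
    · exact ⟨0, fun h1 h2 => absurd ⟨h1, h2⟩ hpd⟩
    have := Fact.mk hpd.1
    obtain ⟨ι, hc⟩ := hι p hpd.2
    obtain ⟨τ, hτ, hcτ⟩ := exists_teich hc
    have e : p ^ d.factorization p * (d / p ^ d.factorization p) = d :=
      Nat.ordProj_mul_ordCompl_eq_self d p
    have hr : 0 < d.factorization p := hpd.1.factorization_pos_of_dvd hd.ne' hpd.2
    have hm : Nat.Coprime p (d / p ^ d.factorization p) := Nat.coprime_ordCompl hpd.1 hd.ne'
    obtain ⟨n0, hn0⟩ := rigid (β := ι β) hr hm (by rw [e]; exact hd) hτ hcτ (by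
      rw [e]
      refine (hβ.image ι.injective.injOn).mono ?_
      rintro _ ⟨_, ⟨n, rfl⟩, rfl⟩
      exact ⟨n, (map_iter ι d c β n).symm⟩)
    refine ⟨n0, fun _ _ n hn K' hK' hcK γ hγ hγ' => ?_⟩
    have : NumberField K' := NumberField.of_module_finite K K'
    obtain ⟨L, hL, hL'⟩ := exists_local (ι.comp (algebraMap K' (AlgebraicClosure K)))
    obtain ⟨a, ha, h⟩ := div_good hm (by rw [e]; exact hd) hτ hcτ L (hL' ⟨γ, hγ⟩)
      (hn0 n hn _ (by rw [e]; exact (map_iter ι d c γ n).symm.trans (congrArg ι hγ')))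
    refine ⟨a, ha, fun k x hx => ?_⟩
    have hi : IsIntegral K' x := Algebra.IsIntegral.isIntegral x
    have hdv : minpoly K' x ∣ itP d (⟨c, hcK⟩ : K') k - C (⟨γ, hγ⟩ : K') := by
      apply minpoly.dvd
      rw [← eval_map_algebraMap, Polynomial.map_sub, itP_map, map_C, eval_sub, eval_C, itP_eval]
      exact sub_eq_zero.mpr hx
    have := h k ((minpoly K' x).map (ι.comp (algebraMap K' (AlgebraicClosure K))))
      ((minpoly.monic hi).map _) (fun i => by rw [coeff_map]; exact hL' _) (fun y hy => by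
        have h1 := eval_eq_zero_of_dvd_of_eval_eq_zero
          (Polynomial.map_dvd (ι.comp (algebraMap K' (AlgebraicClosure K))) hdv)
          ((mem_roots ((minpoly.monic hi).map _).ne_zero).mp hy)
        rw [Polynomial.map_sub, itP_map, map_C, eval_sub, eval_C, itP_eval] at h1
        rw [e]
        exact sub_eq_zero.mp h1)
    rwa [(minpoly.monic hi).natDegree_map] at this
  choose N hN using loc
  obtain ⟨S, -, hS⟩ := pre_finite hd c β (d.primeFactors.sup N)
  let K' := IntermediateField.adjoin K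
    ((insert μ (insert c S) : Finset (AlgebraicClosure K)) : Set (AlgebraicClosure K))
  have hK' : FiniteDimensional K K' :=
    IntermediateField.finiteDimensional_adjoin fun x _ => Algebra.IsIntegral.isIntegral x
  have ex : ∀ (p : ℕ) (γ : AlgebraicClosure K), ∃ a, 0 < a ∧ (p ∈ d.primeFactors → γ ∈ S →
      ∀ k x, (fun y => y ^ d + c)^[k] x = γ →
        (p ^ d.factorization p) ^ k ∣ a * (minpoly K' x).natDegree) := by
    intro p γ
    by_cases h : p ∈ d.primeFactors ∧ γ ∈ S
    · obtain ⟨a, ha, h'⟩ := hN p (Nat.prime_of_mem_primeFactors h.1) (Nat.dvd_of_mem_primeFactors h.1)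
        _ (Finset.le_sup h.1) K' hK' (IntermediateField.subset_adjoin _ _ (by simp)) γ
        (IntermediateField.subset_adjoin _ _ (by simp [h.2])) ((hS γ).mp h.2)
      exact ⟨a, ha, fun _ _ => h'⟩
    · exact ⟨1, one_pos, fun h1 h2 => absurd ⟨h1, h2⟩ h⟩
  choose a ha ha' using ex
  have hA : 0 < ∏ p ∈ d.primeFactors, ∏ γ ∈ S, a p γ :=
    Finset.prod_pos fun p _ => Finset.prod_pos fun γ _ => ha p γ
  refine ⟨d.primeFactors.sup N, _, K', IntermediateField.subset_adjoin _ _ (by simp), hA,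
    fun k x hx => ?_⟩
  refine Nat.le_of_dvd (Nat.mul_pos hA (minpoly.natDegree_pos (Algebra.IsIntegral.isIntegral x))) ?_
  rw [Nat.dvd_iff_prime_pow_dvd_dvd]
  intro p j hp hj
  rcases Nat.eq_zero_or_pos j with rfl | hj0
  · simp
  have hpd : p ∈ d.primeFactors :=
    hp.mem_primeFactors (hp.dvd_of_dvd_pow ((dvd_pow_self p hj0.ne').trans hj)) hd.ne'
  have hγ : (fun y => y ^ d + c)^[k] x ∈ S := by
    rw [hS, ← Function.iterate_add_apply]; exact hx
  have h1 : j ≤ d.factorization p * k := by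
    have := (hp.pow_dvd_iff_le_factorization (pow_pos hd k).ne').mp hj
    rwa [Nat.factorization_pow, Finsupp.smul_apply, smul_eq_mul, mul_comm] at this
  refine (pow_dvd_pow p h1).trans ?_
  rw [pow_mul]
  refine (ha' p _ hpd hγ k x rfl).trans (mul_dvd_mul_right ?_ _)
  exact (Finset.dvd_prod_of_mem _ hγ).trans
    (Finset.dvd_prod_of_mem (fun p => ∏ γ ∈ S, a p γ) hpd)

/-- counting Galois orbits from a degree bound -/
theorem count_orbits {K : Type*} [Field K] [CharZero K] (R : Finset (AlgebraicClosure K))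
    (hR : ∀ x ∈ R, ∀ σ : AlgebraicClosure K ≃ₐ[K] AlgebraicClosure K, σ x ∈ R) :
    ∃ S : Finset (AlgebraicClosure K), S.card ≤ R.card ∧
      (∀ A D : ℕ, (∀ x ∈ R, D ≤ A * (minpoly K x).natDegree) → D * S.card ≤ A * R.card) ∧
      ∀ x ∈ R, ∃ s ∈ S, ∃ σ : AlgebraicClosure K ≃ₐ[K] AlgebraicClosure K, x = σ s := by
  classical
  refine ⟨(R.image (minpoly K)).image (Function.invFunOn (minpoly K) R),
    card_image_le.trans card_image_le, fun A D h => ?_, fun x hx => ?_⟩
  · refine (Nat.mul_le_mul_left D card_image_le).trans ?_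
    rw [Finset.card_eq_sum_card_image (minpoly K) R, Finset.mul_sum, mul_comm, ← smul_eq_mul]
    refine Finset.card_nsmul_le_sum _ _ _ fun b hb => ?_
    obtain ⟨x, hx, rfl⟩ := Finset.mem_image.mp hb
    have hi : IsIntegral K x := Algebra.IsIntegral.isIntegral x
    refine (h x hx).trans (Nat.mul_le_mul_left A ?_)
    rw [← card_rootSet_eq_natDegree (K := AlgebraicClosure K) (minpoly.irreducible hi).separable
      (IsAlgClosed.splits _), ← Set.toFinset_card]
    refine Finset.card_le_card fun y hy => ?_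
    obtain ⟨σ, rfl⟩ := minpoly.exists_algEquiv_of_root' hi.isAlgebraic
      (aeval_eq_zero_of_mem_rootSet (Set.mem_toFinset.mp hy))
    exact Finset.mem_filter.mpr ⟨hR x hx σ, minpoly.algEquiv_eq σ x⟩
  · have ex : ∃ y ∈ (R : Set (AlgebraicClosure K)), minpoly K y = minpoly K x := ⟨x, hx, rfl⟩
    refine ⟨_, Finset.mem_image_of_mem _ (Finset.mem_image_of_mem _ hx), ?_⟩
    obtain ⟨σ, hσ⟩ := minpoly.exists_algEquiv_of_root' (K := K)
      (y := Function.invFunOn (minpoly K) R (minpoly K x)) (x := x)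
      (Algebra.IsAlgebraic.isAlgebraic _) (by rw [Function.invFunOn_eq ex]; exact minpoly.aeval K x)
    exact ⟨σ, hσ.symm⟩

end Pool.Agent.Lib.MP_a2c890_nt
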