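import Pool.Agent.Lib.MP_a2c890_nt.Global

set_option autoImplicit false
set_option linter.unusedSectionVars false

namespace Pool.Agent.Lib.MP_a2c890_nt

open Polynomial Finset

variable {p : ℕ} [hp : Fact p.Prime]

/-- ramified growth -/
theorem ram_bound (R : ℝ) : ∃ A : ℕ, 0 < A ∧ ∀ (M : IntermediateField ℚ_[p] (PadicAlgCl p)),
    FiniteDimensional ℚ_[p] M → ∀ u ∈ M, ∀ (N : ℕ) (ρ : ℝ), ‖u‖ ^ N = ρ → 0 < ρ → ρ ≠ 1 →
      |Real.log ρ| ≤ R → N ≤ A * Module.finrank ℚ_[p] M := by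
  have hl : 0 < Real.log p := Real.log_pos p_gt
  refine ⟨⌈R / Real.log p⌉₊ + 1, Nat.succ_pos _, fun M hM u hu N ρ h1 h2 h3 h4 => ?_⟩
  rcases Nat.eq_zero_or_pos N with rfl | hN
  · exact Nat.zero_le _
  have h0 : u ≠ 0 := by
    rintro rfl
    rw [norm_zero, zero_pow hN.ne'] at h1
    exact h2.ne h1
  have hi : IsIntegral ℚ_[p] u := Algebra.IsIntegral.isIntegral u
  have d1 := minpoly.natDegree_pos hi
  have d2 : (minpoly ℚ_[p] u).natDegree ≤ Module.finrank ℚ_[p] M := by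
    have := minpoly.natDegree_le (A := ℚ_[p]) (⟨u, hu⟩ : M)
    rwa [IntermediateField.minpoly_eq] at this
  have e3 := spectralNorm.spectralNorm_eq_norm_coeff_zero_rpow (K := ℚ_[p]) (L := PadicAlgCl p) u
  rw [PadicAlgCl.spectralNorm_eq] at e3
  have e4 : ‖u‖ ^ (minpoly ℚ_[p] u).natDegree = ‖(minpoly ℚ_[p] u).coeff 0‖ := by
    rw [e3, one_div, Real.rpow_inv_natCast_pow (norm_nonneg _) d1.ne']
  rw [Padic.norm_eq_zpow_neg_valuation (minpoly.coeff_zero_ne_zero hi h0)] at e4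
  set D := (minpoly ℚ_[p] u).natDegree
  set z := -((minpoly ℚ_[p] u).coeff 0).valuation
  have l1 : D * Real.log ‖u‖ = z * Real.log p := by
    rw [← Real.log_pow, e4, Real.log_zpow]
  have l2 : N * Real.log ‖u‖ = Real.log ρ := by rw [← Real.log_pow, h1]
  have l3 : Real.log ρ ≠ 0 := Real.log_ne_zero_of_pos_of_ne_one h2 h3
  have hz : z ≠ 0 := by
    intro hz
    rw [hz, Int.cast_zero, zero_mul, mul_eq_zero] at l1
    rcases l1 with l1 | l1
    · exact d1.ne' (by exact_mod_cast l1)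
    · rw [l1, mul_zero] at l2; exact l3 l2.symm
  have hz1 : (1 : ℝ) ≤ |(z : ℝ)| := by exact_mod_cast Int.one_le_abs hz
  have l4 : (N : ℝ) * (|(z : ℝ)| * Real.log p) = D * |Real.log ρ| := by
    have : (N : ℝ) * (z * Real.log p) = D * Real.log ρ := by rw [← l1, ← l2]; ring
    have := congrArg abs this
    rwa [abs_mul, abs_mul, abs_mul, Nat.abs_cast, Nat.abs_cast, abs_of_pos hl] at this
  have l5 : (N : ℝ) * Real.log p ≤ D * R := by
    have a : (N : ℝ) * Real.log p ≤ N * (|(z : ℝ)| * Real.log p) := by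
      gcongr; exact le_mul_of_one_le_left hl.le hz1
    have b : (D : ℝ) * |Real.log ρ| ≤ D * R := by gcongr
    linarith
  have l6 : (N : ℝ) ≤ (⌈R / Real.log p⌉₊ + 1 : ℕ) * D := by
    have a : (N : ℝ) ≤ D * (R / Real.log p) := by
      rw [← mul_div_assoc, le_div_iff₀ hl]; exact l5
    have b : R / Real.log p ≤ (⌈R / Real.log p⌉₊ + 1 : ℕ) := by
      push_cast; linarith [Nat.le_ceil (R / Real.log p)]
    calc (N : ℝ) ≤ D * (R / Real.log p) := a
      _ ≤ D * (⌈R / Real.log p⌉₊ + 1 : ℕ) := by gcongr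
      _ = _ := mul_comm _ _
  exact (by exact_mod_cast l6 : N ≤ _).trans (Nat.mul_le_mul_left _ d2)

theorem lte_le {l s m n : ℕ} (hl : l.Prime) {a : ℤ} (h1 : (l : ℤ) ^ 2 ∣ a - 1)
    (h2 : ¬ (l : ℤ) ^ s ∣ a - 1) (h3 : (l : ℤ) ^ m ∣ a ^ n - 1) (hn : 0 < n) :
    l ^ m ≤ l ^ s * n := by
  have h4 : (l : ℤ) ∣ a - 1 := (dvd_pow_self _ two_ne_zero).trans h1
  have h5 : ¬ (l : ℤ) ∣ a := fun h => by
    have := dvd_sub h h4
    rw [sub_sub_cancel] at this
    exact hl.ne_one (by exact_mod_cast Int.eq_one_of_dvd_one (by positivity) this)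
  have key : emultiplicity (l : ℤ) (a ^ n - 1 ^ n) =
      emultiplicity (l : ℤ) (a - 1) + emultiplicity l n := by
    rcases hl.eq_two_or_odd' with rfl | ho
    · rw [← Int.natCast_emultiplicity]
      exact Int.two_pow_sub_pow' n (by simpa using h1) (by simpa using h5)
    · exact Int.emultiplicity_pow_sub_pow hl ho h4 h5 n
  rw [one_pow] at key
  rcases le_or_gt m s with h | h
  · exact (Nat.pow_le_pow_right hl.pos h).trans (Nat.le_mul_of_pos_right _ hn)
  obtain ⟨k, rfl⟩ := Nat.exists_eq_add_of_le h.le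
  rw [pow_add]
  refine Nat.mul_le_mul_left _ (Nat.le_of_dvd hn (pow_dvd_of_le_emultiplicity ?_))
  have a1 := le_emultiplicity_of_pow_dvd h3
  have a2 := emultiplicity_lt_iff_not_dvd.mpr h2
  rw [key] at a1
  by_contra a3
  push Not at a3
  have := ENat.add_lt_add a2 a3
  rw [← Nat.cast_add] at this
  exact absurd a1 (not_le.mpr this)

theorem teich_of_pow {l s : ℕ} (hl : l.Prime) (hlp : l ≠ p) {t : PadicAlgCl p}
    (h : t ^ l ^ s = 1) : Teich p t := by
  have hc : Nat.Coprime p (l ^ s) :=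
    ((Nat.coprime_primes hp.out hl).mpr hlp.symm).pow_right s
  refine ⟨Nat.totient (l ^ s), Nat.totient_pos.mpr (pow_pos hl.pos s), ?_⟩
  have := pow_eq_pow_of_modEq (Nat.ModEq.pow_totient hc) h
  rwa [pow_one] at this

/-- unramified growth -/
theorem unram_bound {l : ℕ} (hl : l.Prime) (hlp : l ≠ p) :
    ∃ A : ℕ, 0 < A ∧ ∀ (M : IntermediateField ℚ_[p] (PadicAlgCl p)),
      FiniteDimensional ℚ_[p] M → ∀ (m : ℕ) (w : PadicAlgCl p), 0 < orderOf w → l ^ m ∣ orderOf w →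
      (∀ τ : PadicAlgCl p ≃ₐ[ℚ_[p]] PadicAlgCl p, (∀ x ∈ M, τ x = x) → τ w = w ∨ τ w = w⁻¹) →
      l ^ m ≤ A * Module.finrank ℚ_[p] M := by
  classical
  have ex : ∀ s : ℕ, ∃ ζ : PadicAlgCl p, IsPrimitiveRoot ζ (l ^ s) := fun s => by
    have : NeZero ((l ^ s : ℕ) : PadicAlgCl p) := ⟨Nat.cast_ne_zero.mpr (pow_pos hl.pos s).ne'⟩
    exact HasEnoughRootsOfUnity.exists_primitiveRoot _ _
  choose z hz using ex
  have := IntermediateField.adjoin.finiteDimensional
    (Algebra.IsIntegral.isIntegral (R := ℚ_[p]) (z 2))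
  obtain ⟨s, hs⟩ : ∃ s, z s ∉ IntermediateField.adjoin ℚ_[p] {z 2} := by
    by_contra hcon
    push Not at hcon
    refine (finite_teich (IntermediateField.adjoin ℚ_[p] {z 2})).not_infinite
      (Set.infinite_of_injective_forall_mem (f := z) (fun a b hab => ?_)
      (fun s => ⟨hcon s, teich_of_pow hl hlp (hz s).pow_eq_one⟩))
    exact Nat.pow_right_injective hl.two_le ((hz a).unique (hab ▸ hz b))
  obtain ⟨σ, hσ⟩ := exists_move _ hs
  let τ := σ.restrictScalars ℚ_[p]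
  have hτ2 : τ (z 2) = z 2 := σ.commutes ⟨z 2, IntermediateField.mem_adjoin_simple_self _ _⟩
  have hτs : τ (z s) ≠ z s := hσ
  refine ⟨2 * l ^ (s + 2), by have := hl.pos; positivity, fun M hM m w hw0 hw hfix => ?_⟩
  have hD : 0 < Module.finrank ℚ_[p] M := Module.finrank_pos
  rcases le_or_gt m (s + 2) with hm | hm
  · calc l ^ m ≤ l ^ (s + 2) := Nat.pow_le_pow_right hl.pos hm
      _ ≤ 2 * l ^ (s + 2) := by omega
      _ ≤ _ := Nat.le_mul_of_pos_right _ hD
  obtain ⟨r, hr0, hr1, hr⟩ : ∃ r, 0 < r ∧ r ≤ Module.finrank ℚ_[p] M ∧ ∀ x ∈ M, (τ ^ r) x = x := by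
    obtain ⟨i, j, hij, h⟩ := Fintype.exists_ne_map_eq_of_card_lt
      (fun i : Fin (Module.finrank ℚ_[p] M + 1) => ((τ ^ (i : ℕ)).toAlgHom.comp M.val))
      (by rw [AlgHom.card, Fintype.card_fin]; exact Nat.lt_succ_self _)
    wlog hlt : (i : ℕ) < j generalizing i j
    · exact this j i hij.symm h.symm (lt_of_le_of_ne (not_lt.mp hlt) (Fin.val_injective.ne hij.symm))
    refine ⟨j - i, by omega, by have := j.2; omega, fun x hx => (τ ^ (i : ℕ)).injective ?_⟩
    rw [← AlgEquiv.mul_apply, ← pow_add, Nat.add_sub_cancel' hlt.le]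
    exact (DFunLike.congr_fun h ⟨x, hx⟩).symm
  have hw2 : (τ ^ (2 * r)) w = w := by
    rw [two_mul, pow_add, AlgEquiv.mul_apply]
    rcases hfix _ hr with h | h
    · rw [h, h]
    · rw [h, map_inv₀, h, inv_inv]
  obtain ⟨q, hq⟩ := hw
  have hq0 : q ≠ 0 := by rintro rfl; rw [mul_zero] at hq; omega
  have hζ : IsPrimitiveRoot (w ^ q) (l ^ m) :=
    (IsPrimitiveRoot.orderOf w).pow hw0 (by rw [hq, mul_comm])
  have : NeZero (l ^ m) := ⟨(pow_pos hl.pos m).ne'⟩
  obtain ⟨a, -, ha⟩ := hζ.eq_pow_of_pow_eq_one (ξ := τ (w ^ q)) (by rw [← map_pow, hζ.pow_eq_one, map_one])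
  have act : ∀ j ≤ m, τ (z j) = z j ^ a := fun j hj => by
    obtain ⟨i, -, hi⟩ := hζ.eq_pow_of_pow_eq_one (ξ := z j)
      (((hz j).pow_eq_one_iff_dvd _).mpr (pow_dvd_pow l hj))
    rw [← hi, map_pow, ← ha, pow_right_comm]
  have dv : ∀ (ξ : PadicAlgCl p) (k b : ℕ), IsPrimitiveRoot ξ k → 0 < k →
      (ξ ^ b = ξ ↔ (k : ℤ) ∣ (b : ℤ) - 1) := fun ξ k b h hk => by
    have h0 : ξ ≠ 0 := h.ne_zero hk.ne'
    rw [← h.zpow_eq_one_iff_dvd, zpow_sub₀ h0, zpow_natCast, zpow_one, div_eq_one_iff_eq h0]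
  have it : ∀ n : ℕ, (τ ^ n) (w ^ q) = (w ^ q) ^ a ^ n := fun n => by
    induction n with
    | zero => simp
    | succ n ih => rw [pow_succ', AlgEquiv.mul_apply, ih, map_pow, ← ha, ← pow_mul, ← pow_succ']
  have h1 : (l : ℤ) ^ 2 ∣ (a : ℤ) - 1 := by
    have := (dv _ _ a (hz 2) (pow_pos hl.pos _)).mp (by rw [← act 2 (by omega), hτ2])
    exact_mod_cast this
  have h2 : ¬ (l : ℤ) ^ s ∣ (a : ℤ) - 1 := fun h => hτs (by
    rw [act s (by omega)]
    exact (dv _ _ a (hz s) (pow_pos hl.pos _)).mpr (by exact_mod_cast h))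
  have h3 : (l : ℤ) ^ m ∣ (a : ℤ) ^ (2 * r) - 1 := by
    have := (dv _ _ (a ^ (2 * r)) hζ (pow_pos hl.pos _)).mp (by rw [← it, map_pow, hw2])
    exact_mod_cast this
  calc l ^ m ≤ l ^ s * (2 * r) := lte_le hl h1 h2 h3 (by omega)
    _ ≤ l ^ (s + 2) * (2 * Module.finrank ℚ_[p] M) :=
      Nat.mul_le_mul (Nat.pow_le_pow_right hl.pos (by omega)) (by omega)
    _ = _ := by ring

/-- the compositum of a local field and the image of an algebraic number -/
theorem exists_compositum {K : Type*} [Field K] (ι : AlgebraicClosure K →+* PadicAlgCl p)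
    (L : IntermediateField ℚ_[p] (PadicAlgCl p)) [FiniteDimensional ℚ_[p] L]
    (hL : ∀ x : K, ι (algebraMap K _ x) ∈ L) (x : AlgebraicClosure K) :
    ∃ M : IntermediateField ℚ_[p] (PadicAlgCl p), FiniteDimensional ℚ_[p] M ∧ L ≤ M ∧ ι x ∈ M ∧
      Module.finrank ℚ_[p] M ≤ Module.finrank ℚ_[p] L * (minpoly K x).natDegree := by
  have hi : IsIntegral L (ι x) := Algebra.IsIntegral.isIntegral _
  have hj : IsIntegral K x := Algebra.IsIntegral.isIntegral _
  have := IntermediateField.adjoin.finiteDimensional hi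
  have fd : FiniteDimensional ℚ_[p] (IntermediateField.adjoin L {ι x}) :=
    FiniteDimensional.trans ℚ_[p] L _
  refine ⟨(IntermediateField.adjoin L {ι x}).restrictScalars ℚ_[p], fd,
    fun y hy => (IntermediateField.adjoin L {ι x}).algebraMap_mem ⟨y, hy⟩,
    IntermediateField.mem_adjoin_simple_self L (ι x), ?_⟩
  change Module.finrank ℚ_[p] (IntermediateField.adjoin L {ι x}) ≤ _
  rw [← Module.finrank_mul_finrank ℚ_[p] L, IntermediateField.adjoin.finrank hi]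
  refine Nat.mul_le_mul_left _ ?_
  let j : K →+* L := (ι.comp (algebraMap K _)).codRestrict L hL
  have h1 : aeval (ι x) ((minpoly K x).map j) = 0 := by
    rw [aeval_def, eval₂_map]
    have e : (algebraMap L (PadicAlgCl p)).comp j = ι.comp (algebraMap K _) := RingHom.ext fun _ => rfl
    rw [e, ← hom_eval₂, ← aeval_def, minpoly.aeval, map_zero]
  have h2 := natDegree_le_of_dvd (minpoly.dvd L _ h1) ((minpoly.monic hj).map _).ne_zero
  rwa [(minpoly.monic hj).natDegree_map] at h2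

section seq

variable {δ : ℕ → ℝ} {θ : ℝ} {d : ℕ}

theorem seq_big (hθ : θ ≤ 1) (h1 : ∀ i, θ < δ i → δ (i + 1) = δ i ^ d)
    (h2 : ∀ i, δ i ≤ 1 → δ (i + 1) ≤ 1) (n : ℕ) (h : 1 < δ n) : δ 0 ^ d ^ n = δ n := by
  induction n with
  | zero => simp
  | succ n ih =>
    have a : 1 < δ n := by
      by_contra b
      exact absurd (h2 n (not_lt.mp b)) (not_le.mpr h)
    rw [h1 n (hθ.trans_lt a), pow_succ, pow_mul, ih a]

theorem seq_lt (h0 : ∀ i, 0 ≤ δ i) (hθ : θ < 1) (hd : 2 ≤ d)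
    (h1 : ∀ i, θ < δ i → δ (i + 1) = δ i ^ d) (h2 : ∀ i, δ i ≤ θ → δ (i + 1) ≤ θ * δ i)
    (a : 0 < δ 0) (b : δ 0 < 1) (n : ℕ) : δ (n + 1) < δ 0 := by
  have st : ∀ i, δ i < 1 → δ (i + 1) ≤ δ i ∧ (0 < δ i → δ (i + 1) < δ i) := fun i hi => by
    rcases lt_or_ge θ (δ i) with h | h
    · rw [h1 i h]
      exact ⟨pow_le_of_le_one (h0 i) hi.le (by omega),
        fun c => pow_lt_self_of_lt_one₀ c hi (by omega)⟩
    · have := h2 i h
      exact ⟨this.trans (mul_le_of_le_one_left (h0 i) hθ.le),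
        fun c => this.trans_lt (mul_lt_of_lt_one_left c hθ)⟩
  induction n with
  | zero => exact (st 0 b).2 a
  | succ n ih => exact (st _ (ih.trans b)).1.trans_lt ih

theorem seq_back (hθ : θ < 1) (h1 : ∀ i, θ < δ i → δ (i + 1) = δ i ^ d) (n : ℕ) (h : δ n < 1) :
    ∀ i ≤ n, δ i < 1 := by
  induction n with
  | zero => intro i hi; rwa [Nat.le_zero.mp hi]
  | succ n ih =>
    intro i hi
    rcases hi.eq_or_lt with rfl | hi
    · exact h
    refine ih ?_ i (Nat.lt_succ_iff.mp hi)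
    by_contra b
    push Not at b
    rw [h1 n (hθ.trans_le b)] at h
    exact absurd (one_le_pow₀ b) (not_le.mpr h)

theorem seq_small (h0 : 0 ≤ θ) (hθ : θ < 1)
    (h1 : ∀ i, θ < δ i → δ (i + 1) = δ i ^ d) (h2 : ∀ i, δ i ≤ θ → δ (i + 1) ≤ θ * δ i)
    {k N : ℕ} (a : θ ^ N < δ (k + N)) (b : δ (k + N) < 1) :
    δ 0 ^ d ^ k = δ k ∧ θ < δ k ∧ δ k < 1 := by
  have c : ∀ i ≤ k, θ < δ i := fun i hi => by
    by_contra hc
    push Not at hc
    have e : ∀ j, δ (i + j) ≤ θ ^ (j + 1) := fun j => by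
      induction j with
      | zero => simpa using hc
      | succ j ih =>
        have := h2 (i + j) (ih.trans (pow_le_of_le_one h0 hθ.le (by omega)))
        rw [pow_succ']
        exact this.trans (mul_le_mul_of_nonneg_left ih h0)
    have f := e (k + N - i)
    rw [Nat.add_sub_cancel' (by omega)] at f
    exact absurd (f.trans (pow_le_pow_of_le_one h0 hθ.le (by omega))) (not_le.mpr a)
  refine ⟨?_, c k le_rfl, seq_back hθ h1 _ b k (by omega)⟩
  have e : ∀ j ≤ k, δ 0 ^ d ^ j = δ j := fun j hj => by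
    induction j with
    | zero => simp
    | succ j ih => rw [h1 j (c j (by omega)), pow_succ, pow_mul, ih (by omega)]
  exact e k le_rfl

end seq

end Pool.Agent.Lib.MP_a2c890_nt
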