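import Pool.Agent.Lib.MP_a2c890_nt.IntA

set_option autoImplicit false
set_option linter.unusedSectionVars false

namespace Pool.Agent.Lib.MP_a2c890_nt

open Finset

/-- the determinant of two plane vectors -/
def dt {F : Type*} [CommRing F] (v w : Fin 2 → F) : F := v 0 * w 1 - v 1 * w 0

theorem dt_smul {F : Type*} [CommRing F] (a b : F) (v w : Fin 2 → F) :
    dt (a • v) (b • w) = a * b * dt v w := by
  simp only [dt, Pi.smul_apply, smul_eq_mul]; ring

theorem dt_self {F : Type*} [CommRing F] (v : Fin 2 → F) : dt v v = 0 := by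
  simp only [dt]; ring

theorem dt_swap {F : Type*} [CommRing F] (v w : Fin 2 → F) : dt v w = -dt w v := by
  simp only [dt]; ring

theorem exists_smul {F : Type*} [Field F] {v w : Fin 2 → F} (hw : w ≠ 0) (h : dt v w = 0) :
    ∃ c : F, v = c • w := by
  by_cases h0 : w 0 = 0
  · have h1 : w 1 ≠ 0 := fun h1 => hw (by ext i; fin_cases i <;> assumption)
    refine ⟨v 1 / w 1, ?_⟩
    rw [dt, h0, mul_zero, sub_zero, mul_eq_zero] at h
    ext i; fin_cases i
    · simp [h0, h.resolve_right h1]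
    · simp [h1]
  · refine ⟨v 0 / w 0, ?_⟩
    rw [dt] at h
    ext i; fin_cases i
    · simp [h0]
    · simp only [Fin.mk_one, Pi.smul_apply, smul_eq_mul]
      field_simp
      linear_combination -h

theorem dt_trans {F : Type*} [Field F] {u v w : Fin 2 → F} (hv : v ≠ 0) (h1 : dt u v = 0)
    (h2 : dt w v = 0) : dt u w = 0 := by
  obtain ⟨a, rfl⟩ := exists_smul hv h1
  obtain ⟨b, rfl⟩ := exists_smul hv h2
  rw [dt_smul, dt_self, mul_zero]

variable {E : Type*} [NormedField E] [IsUltrametricDist E]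

theorem co_le {v : Fin 2 → E} {r : ℝ} (h : ‖v‖ ≤ r) (i : Fin 2) : ‖v i‖ ≤ r :=
  (norm_le_pi_norm v i).trans h

theorem nv_le {v : Fin 2 → E} {r : ℝ} (h0 : ‖v 0‖ ≤ r) (h1 : ‖v 1‖ ≤ r) : ‖v‖ ≤ r :=
  (pi_norm_le_iff_of_nonneg ((norm_nonneg _).trans h0)).mpr fun i => by fin_cases i <;> assumption

theorem nv_one {v : Fin 2 → E} (h : ‖v‖ = 1) : ‖v 0‖ = 1 ∨ ‖v 1‖ = 1 := by
  by_contra hc
  push Not at hc
  have a := (co_le h.le 0).lt_of_ne hc.1
  have b := (co_le h.le 1).lt_of_ne hc.2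
  have := nv_le (le_max_left _ ‖v 1‖) (le_max_right ‖v 0‖ _)
  exact absurd (h ▸ this) (not_le.mpr (max_lt a b))

theorem nv_eq {v : Fin 2 → E} (h : ‖v‖ ≤ 1) (i : Fin 2) (hi : ‖v i‖ = 1) : ‖v‖ = 1 :=
  le_antisymm h (hi ▸ norm_le_pi_norm v i)

theorem dt_le {v w : Fin 2 → E} (hv : ‖v‖ ≤ 1) (hw : ‖w‖ ≤ 1) : ‖dt v w‖ ≤ 1 :=
  sub_le (mul_le1 (co_le hv 0) (co_le hw 1)) (mul_le1 (co_le hv 1) (co_le hw 0))

theorem dt_tri {a b c : Fin 2 → E} (ha : ‖a‖ ≤ 1) (hb : ‖b‖ = 1) (hc : ‖c‖ ≤ 1) :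
    ‖dt a c‖ ≤ max ‖dt a b‖ ‖dt b c‖ := by
  obtain ⟨i, hi⟩ : ∃ i, ‖b i‖ = 1 := (nv_one hb).elim (fun h => ⟨0, h⟩) fun h => ⟨1, h⟩
  have e : dt a c * b i = dt a b * c i + dt b c * a i := by
    fin_cases i <;> simp only [dt, Fin.zero_eta, Fin.mk_one] <;> ring
  have := congrArg norm e
  rw [norm_mul, hi, mul_one] at this
  rw [this]
  exact add_le (mul_le1 (le_max_left _ _) (co_le hc i)) (mul_le1 (le_max_right _ _) (co_le ha i))

theorem par_norm {a b : Fin 2 → E} (ha : ‖a‖ = 1) (hb : ‖b‖ = 1) (h : dt a b = 0) :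
    ∃ c : E, ‖c‖ = 1 ∧ a = c • b := by
  obtain ⟨c, rfl⟩ := exists_smul (norm_ne_zero_iff.mp (by rw [hb]; exact one_ne_zero)) h
  exact ⟨c, by rwa [norm_smul, hb, mul_one] at ha, rfl⟩

/-- bounded and Lipschitz with constant `θ` on the unit bidisc -/
def Lip (θ : ℝ) (R : (Fin 2 → E) → E) : Prop :=
  ∀ v w, ‖v‖ ≤ 1 → ‖w‖ ≤ 1 → ‖R v‖ ≤ θ ∧ ‖R v - R w‖ ≤ θ * ‖v - w‖

namespace Lip

variable {θ : ℝ} {R S : (Fin 2 → E) → E}

theorem bd (h : Lip θ R) {v : Fin 2 → E} (hv : ‖v‖ ≤ 1) : ‖R v‖ ≤ θ := (h v v hv hv).1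

theorem nonneg (h : Lip θ R) : 0 ≤ θ := (norm_nonneg _).trans (h.bd (v := 0) (by simp))

theorem mono (h : Lip θ R) {η : ℝ} (hη : θ ≤ η) : Lip η R := fun v w hv hw =>
  ⟨(h v w hv hw).1.trans hη, (h v w hv hw).2.trans (by gcongr)⟩

theorem congr (h : Lip θ R) (e : ∀ v, S v = R v) : Lip θ S := by
  rwa [funext e]

theorem const {c : E} (h : ‖c‖ ≤ θ) : Lip θ fun _ => c := fun v w _ _ =>
  ⟨h, by rw [sub_self, norm_zero]; exact mul_nonneg ((norm_nonneg _).trans h) (norm_nonneg _)⟩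

theorem co (i : Fin 2) : Lip 1 fun v : Fin 2 → E => v i := fun v w hv _ =>
  ⟨co_le hv i, by rw [one_mul]; exact norm_le_pi_norm (v - w) i⟩

theorem add (h : Lip θ R) (h' : Lip θ S) : Lip θ fun v => R v + S v := fun v w hv hw =>
  ⟨add_le (h.bd hv) (h'.bd hv), by
    rw [add_sub_add_comm]; exact add_le (h v w hv hw).2 (h' v w hv hw).2⟩

theorem sub (h : Lip θ R) (h' : Lip θ S) : Lip θ fun v => R v - S v := fun v w hv hw =>
  ⟨sub_le (h.bd hv) (h'.bd hv), by
    rw [sub_sub_sub_comm]; exact sub_le (h v w hv hw).2 (h' v w hv hw).2⟩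

theorem mul (h : Lip θ R) (h' : Lip 1 S) : Lip θ fun v => R v * S v := fun v w hv hw =>
  ⟨mul_le1 (h.bd hv) (h'.bd hv), by
    rw [show R v * S v - R w * S w = (R v - R w) * S v + R w * (S v - S w) by ring]
    refine add_le (mul_le1 (h v w hv hw).2 (h'.bd hv)) ?_
    rw [norm_mul]
    exact mul_le_mul (h.bd hw) (by simpa using (h' v w hv hw).2) (norm_nonneg _) h.nonneg⟩

theorem mul' (h : Lip 1 R) (h' : Lip θ S) : Lip θ fun v => R v * S v :=
  (h'.mul h).congr fun _ => mul_comm _ _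

theorem pow (h : Lip 1 R) (n : ℕ) : Lip 1 fun v => R v ^ n := by
  induction n with
  | zero => exact (const (c := 1) (by simp)).congr fun _ => pow_zero _
  | succ n ih => exact (ih.mul h).congr fun _ => pow_succ _ _

theorem pow_sub (h : Lip 1 R) (h' : Lip 1 S) (h'' : Lip θ fun v => R v - S v) (n : ℕ) :
    Lip θ fun v => R v ^ n - S v ^ n := by
  induction n with
  | zero => exact (const (c := 0) (by simpa using h''.nonneg)).congr fun _ => by simp
  | succ n ih => exact ((ih.mul h).add (h''.mul (h'.pow n))).congr fun _ => by ring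

theorem sum {ι : Type*} (h0 : 0 ≤ θ) (s : Finset ι) (f : ι → (Fin 2 → E) → E)
    (h : ∀ i ∈ s, Lip θ (f i)) : Lip θ fun v => ∑ i ∈ s, f i v := by
  classical
  induction s using Finset.induction_on with
  | empty => exact (const (c := 0) (by simpa using h0)).congr fun _ => by simp
  | insert a s ha ih =>
    exact ((h a (mem_insert_self _ _)).add (ih fun i hi => h i (mem_insert_of_mem hi))).congr
      fun _ => sum_insert ha

theorem eval (h0 : 0 ≤ θ) (P : MvPolynomial (Fin 2) E) (h : ∀ m, ‖P.coeff m‖ ≤ θ) :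
    Lip θ fun v => MvPolynomial.eval v P :=
  (sum h0 P.support (fun m v => P.coeff m * (v 0 ^ m 0 * v 1 ^ m 1)) fun m _ =>
    (const (h m)).mul (((co 0).pow _).mul ((co 1).pow _))).congr fun v => by
      rw [MvPolynomial.eval_eq']; simp only [Fin.prod_univ_two]

theorem frob {p : ℕ} (hp : p.Prime) (h : Lip 1 R) (h' : Lip 1 S) (n : ℕ) :
    Lip ‖(p : E)‖ fun v => (R v + S v) ^ p ^ n - R v ^ p ^ n - S v ^ p ^ n := by
  obtain ⟨r, hr⟩ := exists_add_pow_prime_pow_eq hp (MvPolynomial.X 0 : MvPolynomial (Fin 2) ℤ)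
    (MvPolynomial.X 1) n
  have key : ∀ r : MvPolynomial (Fin 2) ℤ, Lip 1 fun v => MvPolynomial.aeval ![R v, S v] r := by
    intro r
    induction r using MvPolynomial.induction_on with
    | C a =>
      exact (const (c := (a : E)) (IsUltrametricDist.norm_intCast_le_one E a)).congr
        fun _ => by simp
    | add a b ha hb => exact (ha.add hb).congr fun _ => map_add _ _ _
    | mul_X a i ha =>
      fin_cases i
      · exact (ha.mul h).congr fun _ => by simp
      · exact (ha.mul h').congr fun _ => by simp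
  refine (((const le_rfl).mul h).mul h').mul (key r) |>.congr fun v => ?_
  have := congrArg (MvPolynomial.aeval ![R v, S v]) hr
  simp only [map_add, map_mul, map_pow, map_natCast, MvPolynomial.aeval_X, Matrix.cons_val_zero,
    Matrix.cons_val_one] at this
  rw [this]; ring

theorem vanish (h : Lip θ R) {v x : Fin 2 → E} (hv : ‖v‖ ≤ 1) (hx : ‖x‖ = 1)
    (hom : ∀ c : E, R (c • x) = 0) : ‖R v‖ ≤ θ * ‖dt v x‖ := by
  obtain ⟨c, hc, hc'⟩ : ∃ c : E, ‖c‖ ≤ 1 ∧ ‖v - c • x‖ ≤ ‖dt v x‖ := by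
    rcases nv_one hx with h1 | h1
    · have h2 : x 0 ≠ 0 := norm_ne_zero_iff.mp (by rw [h1]; exact one_ne_zero)
      refine ⟨v 0 / x 0, by rw [norm_div, h1, div_one]; exact co_le hv 0, nv_le ?_ ?_⟩
      · simp [h2]
      · have : (v - (v 0 / x 0) • x) 1 = -dt v x / x 0 := by
          simp only [Pi.sub_apply, Pi.smul_apply, smul_eq_mul, dt]; field_simp; ring
        rw [this, norm_div, norm_neg, h1, div_one]
    · have h2 : x 1 ≠ 0 := norm_ne_zero_iff.mp (by rw [h1]; exact one_ne_zero)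
      refine ⟨v 1 / x 1, by rw [norm_div, h1, div_one]; exact co_le hv 1, nv_le ?_ ?_⟩
      · have : (v - (v 1 / x 1) • x) 0 = dt v x / x 1 := by
          simp only [Pi.sub_apply, Pi.smul_apply, smul_eq_mul, dt]; field_simp
        rw [this, norm_div, h1, div_one]
      · simp [h2]
  have := (h v (c • x) hv (by rw [norm_smul, hx, mul_one]; exact hc)).2
  rw [hom, sub_zero] at this
  exact this.trans (mul_le_mul_of_nonneg_left hc' h.nonneg)

end Lip

/-- homogeneous Dickson polynomial functions -/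
def Dk {F : Type*} [CommRing F] (ε : F) : ℕ → (Fin 2 → F) → F
  | 0, _ => 2
  | 1, v => v 0
  | n + 2, v => v 0 * Dk ε (n + 1) v - ε * v 1 ^ 2 * Dk ε n v

theorem Dk_smul {F : Type*} [CommRing F] (ε c : F) (v : Fin 2 → F) :
    ∀ n, Dk ε n (c • v) = c ^ n * Dk ε n v
  | 0 => by simp [Dk]
  | 1 => by simp [Dk]
  | n + 2 => by
    simp only [Dk, Dk_smul ε c v (n + 1), Dk_smul ε c v n, Pi.smul_apply, smul_eq_mul]; ring

theorem Dk_eval {F : Type*} [CommRing F] (a b : F) :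
    ∀ n, Dk (a * b) n ![a + b, 1] = a ^ n + b ^ n
  | 0 => by simp [Dk]; norm_num
  | 1 => by simp [Dk]
  | n + 2 => by
    simp only [Dk, Dk_eval a b (n + 1), Dk_eval a b n, Matrix.cons_val_zero, Matrix.cons_val_one]
    ring

theorem Dk_lip {ε : E} (h : ‖ε‖ ≤ 1) : ∀ n, Lip 1 (Dk ε n)
  | 0 => Lip.const (by exact_mod_cast ncast_le (E := E) 2)
  | 1 => Lip.co 0
  | n + 2 => ((Lip.co 0).mul (Dk_lip h (n + 1))).sub
    (((Lip.const h).mul ((Lip.co 1).pow 2)).mul (Dk_lip h n))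

theorem Dk_lead {ε : E} (h : ‖ε‖ ≤ 1) (n : ℕ) :
    ∃ Q, Lip 1 Q ∧ ∀ v, Dk ε (n + 1) v = v 0 ^ (n + 1) + ε * v 1 * Q v := by
  induction n with
  | zero => exact ⟨fun _ => 0, Lip.const (by simp), fun v => by simp [Dk]⟩
  | succ n ih =>
    obtain ⟨Q, h1, h2⟩ := ih
    exact ⟨_, ((Lip.co 0).mul h1).sub ((Lip.co 1).mul (Dk_lip h n)), fun v => by
      simp only [Dk, h2]; ring⟩

theorem eval_dickson {F : Type*} [CommRing F] [Nontrivial F] (ε : F) (v : Fin 2 → F) :
    ∀ n, (Polynomial.dickson 1 ε n).natDegree ≤ n ∧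
      MvPolynomial.eval v ((Polynomial.dickson 1 ε n).homogenize n) = Dk ε n v
  | 0 => by
    have : Polynomial.dickson 1 ε 0 = Polynomial.C 2 := by
      rw [Polynomial.dickson_zero, Nat.cast_one]; norm_num; rfl
    rw [this, Polynomial.homogenize_C]
    simp [Dk]
  | 1 => by simp [Dk, Polynomial.homogenize_X]
  | n + 2 => by
    obtain ⟨a1, a2⟩ := eval_dickson ε v (n + 1)
    obtain ⟨b1, b2⟩ := eval_dickson ε v n
    rw [Polynomial.dickson_add_two]
    refine ⟨(Polynomial.natDegree_sub_le _ _).trans (max_le ?_ ?_), ?_⟩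
    · exact Polynomial.natDegree_mul_le.trans (by rw [Polynomial.natDegree_X]; omega)
    · exact (Polynomial.natDegree_C_mul_le _ _).trans (by omega)
    · rw [Polynomial.homogenize_sub, Dk, ← a2, ← b2]
      have e1 := Polynomial.homogenize_mul Polynomial.X _ Polynomial.natDegree_X_le a1
      have e2 := Polynomial.homogenize_mul (Polynomial.C ε) _ (m := 2) (by simp) b1
      rw [show 1 + (n + 1) = n + 2 by ring] at e1
      rw [show 2 + n = n + 2 by ring] at e2
      rw [e1, e2]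
      simp [Polynomial.homogenize_X]

end Pool.Agent.Lib.MP_a2c890_nt
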