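import Pool.Agent.Lib.MP_a2c890_nt.IntB

set_option autoImplicit false
set_option linter.unusedSectionVars false

namespace Pool.Agent.Lib.MP_a2c890_nt

open Finset

variable {p : ℕ} [hp : Fact p.Prime]

/-- the point `v` reduces to `w + ε / w` with `w` a root of unity of order prime to `p` -/
def Rel (ε : PadicAlgCl p) (v : Fin 2 → PadicAlgCl p) (w : PadicAlgCl p) : Prop :=
  ‖v 1‖ = 1 ∧ Teich p w ∧ w ≠ 0 ∧ ‖v 0 - (w + ε / w) * v 1‖ < 1

/-- root of unity of order prime to `l` -/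
def Per {F : Type*} [Monoid F] (l : ℕ) (w : F) : Prop := ∃ n, ¬ l ∣ n ∧ w ^ n = 1

/-- closed discs inside the exceptional residue classes -/
def Om (ε : PadicAlgCl p) (r : ℝ) (v : Fin 2 → PadicAlgCl p) : Prop :=
  ‖v 1‖ ≤ r ∨ (ε = 0 ∧ ‖v 0‖ ≤ r)

variable {ε : PadicAlgCl p}

theorem eps_le (hε : ε = 0 ∨ ε = 1) : ‖ε‖ ≤ 1 := by rcases hε with rfl | rfl <;> simp

theorem pi_le (hε : ε = 0 ∨ ε = 1) {w : PadicAlgCl p} (hw : ‖w‖ = 1) : ‖w + ε / w‖ ≤ 1 :=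
  add_le hw.le (by rw [norm_div, hw, div_one]; exact eps_le hε)

theorem Rel.nw {v : Fin 2 → PadicAlgCl p} {w : PadicAlgCl p} (h : Rel ε v w) : ‖w‖ = 1 :=
  h.2.1.norm_eq hp.out h.2.2.1

theorem Rel.norm (hε : ε = 0 ∨ ε = 1) {v : Fin 2 → PadicAlgCl p} {w : PadicAlgCl p}
    (h : Rel ε v w) : ‖v‖ = 1 := by
  refine nv_eq (nv_le ?_ h.1.le) 1 h.1
  have := add_le h.2.2.2.le (mul_le1 (pi_le hε h.nw) h.1.le)
  rwa [sub_add_cancel] at this

theorem Rel.inv {v : Fin 2 → PadicAlgCl p} {w : PadicAlgCl p} (h : Rel 1 v w) : Rel 1 v w⁻¹ :=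
  ⟨h.1, h.2.1.inv, inv_ne_zero h.2.2.1, by
    have := h.2.2.2
    rwa [one_div, inv_inv, add_comm, ← one_div]⟩

theorem exists_quad (z : PadicAlgCl p) : ∃ u : PadicAlgCl p, u ≠ 0 ∧ z = u + 1 / u := by
  obtain ⟨s, hs⟩ := IsAlgClosed.exists_pow_nat_eq (z ^ 2 - 4) two_pos
  have e : (z + s) / 2 * ((z - s) / 2) = 1 := by linear_combination (-1 / 4) * hs
  refine ⟨(z + s) / 2, left_ne_zero_of_mul_eq_one e, ?_⟩
  rw [one_div, ← eq_inv_of_mul_eq_one_right e]; ring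

theorem norm_quad {u : PadicAlgCl p} (hu : u ≠ 0) (h : ‖u + 1 / u‖ ≤ 1) : ‖u‖ = 1 := by
  have h0 : 0 < ‖u‖ := norm_pos_iff.mpr hu
  rcases lt_trichotomy ‖u‖ 1 with a | a | a
  · have b : 1 < ‖1 / u‖ := by rw [norm_div, norm_one]; exact one_lt_one_div h0 a
    have := norm_eq_of_sub_lt (x := u + 1 / u) (y := 1 / u) (by rw [add_sub_cancel_right]; linarith)
    linarith
  · exact a
  · have b : ‖1 / u‖ < 1 := by rw [norm_div, norm_one]; exact (div_lt_one h0).mpr a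
    have := norm_eq_of_sub_lt (x := u + 1 / u) (y := u) (by rw [add_sub_cancel_left]; linarith)
    linarith

theorem mul_lt_cases {a b : PadicAlgCl p} (h : ‖a * b‖ < 1) : ‖a‖ < 1 ∨ ‖b‖ < 1 := by
  by_contra hc
  push Not at hc
  rw [norm_mul] at h
  exact absurd (one_le_mul_of_one_le_of_one_le hc.1 hc.2) (not_le.mpr h)

theorem exists_u (hε : ε = 0 ∨ ε = 1) {z w : PadicAlgCl p} (hw : ‖w‖ = 1)
    (h : ‖z - (w + ε / w)‖ < 1) : ∃ u, ‖u - w‖ < 1 ∧ z = u + ε / u := by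
  rcases hε with rfl | rfl
  · exact ⟨z, by simpa using h, by simp⟩
  have hw0 : w ≠ 0 := norm_ne_zero_iff.mp (by rw [hw]; exact one_ne_zero)
  obtain ⟨u, hu0, rfl⟩ := exists_quad z
  have hu : ‖u‖ = 1 := norm_quad hu0 (by
    have := add_le h.le (pi_le (Or.inr rfl) hw); rwa [sub_add_cancel] at this)
  have e : u + 1 / u - (w + 1 / w) = (u - w) * ((w - 1 / u) / w) := by field_simp; ring
  rw [e] at h
  rcases mul_lt_cases h with a | a
  · exact ⟨u, a, rfl⟩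
  · rw [norm_div, hw, div_one, norm_sub_rev] at a
    exact ⟨1 / u, a, by rw [one_div_one_div, add_comm]⟩

theorem exists_rel (hε : ε = 0 ∨ ε = 1) {v : Fin 2 → PadicAlgCl p} (hv : ‖v‖ = 1)
    (h1 : ‖v 1‖ = 1) (h0 : ε = 0 → ‖v 0‖ = 1) : ∃ w, Rel ε v w := by
  have hv1 : v 1 ≠ 0 := norm_ne_zero_iff.mp (by rw [h1]; exact one_ne_zero)
  obtain ⟨u, hu, e⟩ : ∃ u : PadicAlgCl p, ‖u‖ = 1 ∧ v 0 / v 1 = u + ε / u := by
    rcases hε with rfl | rfl
    · exact ⟨v 0 / v 1, by rw [norm_div, h0 rfl, h1, div_one], by simp⟩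
    · obtain ⟨u, hu0, e⟩ := exists_quad (v 0 / v 1)
      exact ⟨u, norm_quad hu0 (by rw [← e, norm_div, h1, div_one]; exact co_le hv.le 0), e⟩
  obtain ⟨w, hw, hw'⟩ := exists_teich hu.le
  have hw0 : w ≠ 0 := by rintro rfl; rw [sub_zero, hu] at hw'; exact lt_irrefl _ hw'
  have hu0 : u ≠ 0 := norm_ne_zero_iff.mp (by rw [hu]; exact one_ne_zero)
  refine ⟨w, h1, hw, hw0, ?_⟩
  have e2 : v 0 - (w + ε / w) * v 1 = (u - w) * (1 - ε / (u * w)) * v 1 := by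
    rw [(div_eq_iff hv1).mp e]; field_simp; ring
  rw [e2]
  refine mul_lt1 (mul_lt1 hw' (sub_le (by simp) ?_)) h1.le
  rw [norm_div, norm_mul, hu, hw.norm_eq hp.out hw0, mul_one, div_one]
  exact eps_le hε

theorem Rel.uniq (hε : ε = 0 ∨ ε = 1) {v v' : Fin 2 → PadicAlgCl p} {w w' : PadicAlgCl p}
    (h : Rel ε v w) (h' : Rel ε v' w') (hd : ‖dt v v'‖ < 1) : w' = w ∨ (ε = 1 ∧ w' = w⁻¹) := by
  have h0 := h.2.2.1
  have h0' := h'.2.2.1
  have e : (w' - w) * (1 - ε / (w * w')) * (v 1 * v' 1) =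
      (v 0 - (w + ε / w) * v 1) * v' 1 - (v' 0 - (w' + ε / w') * v' 1) * v 1 - dt v v' := by
    rw [dt]; field_simp; ring
  have a := sub_lt (sub_lt (mul_lt1 h.2.2.2 h'.1.le) (mul_lt1 h'.2.2.2 h.1.le)) hd
  rw [← e, norm_mul, norm_mul (v 1), h.1, h'.1, mul_one, mul_one] at a
  rcases mul_lt_cases a with b | b
  · exact Or.inl (h'.2.1.eq_of_lt hp.out np1 h.2.1 b)
  · rcases hε with rfl | rfl
    · simp at b
    · refine Or.inr ⟨rfl, ?_⟩
      have c := Teich.one.eq_of_lt hp.out np1 (h.2.1.mul h'.2.1).inv (by rwa [one_div] at b)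
      exact eq_inv_of_mul_eq_one_right (inv_eq_one.mp c.symm)

theorem Rel.gal (hε : ε = 0 ∨ ε = 1) {v : Fin 2 → PadicAlgCl p} {w : PadicAlgCl p}
    (h : Rel ε v w) (τ : PadicAlgCl p ≃ₐ[ℚ_[p]] PadicAlgCl p) (hτ : ∀ i, τ (v i) = v i) :
    τ w = w ∨ τ w = w⁻¹ := by
  have h' : Rel ε v (τ w) := ⟨h.1, teich_map (τ : PadicAlgCl p →+* PadicAlgCl p) h.2.1,
    (map_ne_zero τ).mpr h.2.2.1, by
      have e : τ ε = ε := by rcases hε with rfl | rfl <;> simp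
      have := h.2.2.2
      rwa [← PadicAlgCl.spectralNorm_eq, spectralNorm_eq_of_equiv τ, PadicAlgCl.spectralNorm_eq,
        map_sub, map_mul, map_add, map_div₀, hτ, hτ, e] at this⟩
  exact (h.uniq hε h' (by rw [dt_self]; simp)).imp_right And.right

theorem tame {d : ℕ} (hd : Nat.Coprime p d) {a b : PadicAlgCl p} (hb : ‖b‖ = 1)
    (h : ‖a - b‖ < 1) : ‖a ^ d - b ^ d‖ = ‖a - b‖ := by
  have hb0 : b ≠ 0 := norm_ne_zero_iff.mp (by rw [hb]; exact one_ne_zero)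
  have e : ‖(a - b) / b‖ = ‖a - b‖ := by rw [norm_div, hb, div_one]
  have := norm_tame np1 hd (w := (a - b) / b) (by rwa [e])
  rw [e, show 1 + (a - b) / b = a / b by field_simp; ring, div_pow,
    div_sub_one (pow_ne_zero _ hb0), norm_div, norm_pow, hb, one_pow, div_one] at this
  exact this

theorem per_eq_one {F : Type*} [Monoid F] {l j : ℕ} (hl : l.Prime) {w : F} (h : Per l w)
    (h1 : w ^ l ^ j = 1) : w = 1 := by
  obtain ⟨n, hn, h2⟩ := h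
  have := pow_gcd_eq_one.mpr ⟨h1, h2⟩
  rwa [((Nat.Prime.coprime_iff_not_dvd hl).mpr hn).pow_left j, pow_one] at this

theorem noncrit (hε : ε = 0 ∨ ε = 1) {l j : ℕ} (hl : l.Prime) (hlp : l ≠ p)
    {z z' w : PadicAlgCl p} (hw : Teich p w) (hw0 : w ≠ 0) (hper : Per l w)
    (h : ‖z - (w + ε / w)‖ < 1) (h' : ‖z' - (w + ε / w)‖ < 1) :
    ‖Dk ε (l ^ j) ![z, 1] - Dk ε (l ^ j) ![z', 1]‖ = ‖z - z'‖ := by
  have hd : Nat.Coprime p (l ^ j) := ((Nat.coprime_primes hp.out hl).mpr hlp.symm).pow_right j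
  have nw := hw.norm_eq hp.out hw0
  obtain ⟨u, hu, rfl⟩ := exists_u hε nw h
  obtain ⟨u', hu', rfl⟩ := exists_u hε nw h'
  have nu : ‖u‖ = 1 := by rw [← nw]; exact norm_eq_of_sub_lt (by rwa [nw])
  have nu' : ‖u'‖ = 1 := by rw [← nw]; exact norm_eq_of_sub_lt (by rwa [nw])
  have u0 : u ≠ 0 := norm_ne_zero_iff.mp (by rw [nu]; exact one_ne_zero)
  have u0' : u' ≠ 0 := norm_ne_zero_iff.mp (by rw [nu']; exact one_ne_zero)
  have e1 := Dk_eval u (ε / u) (l ^ j)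
  have e2 := Dk_eval u' (ε / u') (l ^ j)
  rw [mul_div_cancel₀ _ u0] at e1
  rw [mul_div_cancel₀ _ u0'] at e2
  have t1 := tame hd nu' (a := u) (by
    have := sub_lt hu hu'; rwa [sub_sub_sub_cancel_right] at this)
  rw [e1, e2]
  rcases hε with rfl | rfl
  · simpa [zero_pow (pow_pos hl.pos j).ne'] using t1
  have f1 : u ^ l ^ j + (1 / u) ^ l ^ j - (u' ^ l ^ j + (1 / u') ^ l ^ j) =
      (u ^ l ^ j - u' ^ l ^ j) * ((u * u') ^ l ^ j - 1 ^ l ^ j) / (u * u') ^ l ^ j := by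
    simp only [one_div, inv_pow, mul_pow, one_pow]; field_simp; ring
  have f2 : u + 1 / u - (u' + 1 / u') = (u - u') * (u * u' - 1) / (u * u') := by
    field_simp; ring
  rw [f1, f2, norm_div, norm_div, norm_mul, norm_mul, t1, norm_pow, norm_mul, nu, nu', mul_one,
    one_pow (M := ℝ), div_one, div_one]
  congr 1
  have s1 : ‖u * u' - w ^ 2‖ < 1 := by
    rw [show u * u' - w ^ 2 = (u - w) * u' + (u' - w) * w by ring]
    exact add_lt (mul_lt1 hu nu'.le) (mul_lt1 hu' nw.le)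
  by_cases h2 : w ^ 2 = 1
  · exact tame hd norm_one (by rwa [h2] at s1)
  have n2 : ‖w ^ 2‖ = 1 := by rw [norm_pow, nw, one_pow]
  have h3 : (w ^ 2) ^ l ^ j ≠ 1 := fun h => h2 (per_eq_one hl (by
    obtain ⟨n, a, b⟩ := hper
    exact ⟨n, a, by rw [pow_right_comm, b, one_pow]⟩) h)
  have s2 : ‖(u * u') ^ l ^ j - (w ^ 2) ^ l ^ j‖ < 1 := by rw [tame hd n2 s1]; exact s1
  have d1 := (hw.pow 2).dist_eq hp.out np1 Teich.one h2
  have d2 := ((hw.pow 2).pow (l ^ j)).dist_eq hp.out np1 Teich.one h3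
  rw [one_pow, norm_eq_of_sub_lt (y := (w ^ 2) ^ l ^ j - 1) (by rwa [sub_sub_sub_cancel_right, d2]),
    d2, norm_eq_of_sub_lt (x := u * u' - 1) (y := w ^ 2 - 1)
      (by rwa [sub_sub_sub_cancel_right, d1]), d1]

/-- one-step properties of a map whose reduction is a power or Chebyshev map -/
structure Good (l d : ℕ) (ε s : PadicAlgCl p) (e : ℤ) (θ : ℝ)
    (Φ : (Fin 2 → PadicAlgCl p) → Fin 2 → PadicAlgCl p) : Prop where
  hom : ∀ (c : PadicAlgCl p) v, Φ (c • v) = c ^ d • Φ v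
  nor : ∀ v, ‖v‖ = 1 → ‖Φ v‖ = 1
  om : ∀ r v, θ ≤ r → ‖v‖ = 1 → Om ε r v → Om ε r (Φ v)
  tr : ∀ r x v, θ ≤ r → r < 1 → ‖x‖ = 1 → ‖v‖ ≤ 1 →
    (l = p ∧ ‖(p : PadicAlgCl p)‖ ≤ r) ∨ Om ε r x →
    ∃ c, ‖c‖ = 1 ∧ ‖dt (Φ v) (Φ x) - c * dt v x ^ d‖ ≤ r * ‖dt v x‖
  rel : ∀ v w, Rel ε v w → Rel ε (Φ v) (s * (w ^ d) ^ e)
  nc : l ≠ p → ∀ v x w, Rel ε v w → Rel ε x w → Per l w → dt (Φ v) (Φ x) = 0 → dt v x = 0

theorem good_base (hε : ε = 0 ∨ ε = 1) {l j : ℕ} (hl : l.Prime) (hj : 0 < j) (hpε : l = p → ε = 0)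
    {θ : ℝ} (hθ : θ < 1) {Ψ : (Fin 2 → PadicAlgCl p) → Fin 2 → PadicAlgCl p}
    (hom : ∀ (c : PadicAlgCl p) v, Ψ (c • v) = c ^ l ^ j • Ψ v)
    (h0 : Lip θ fun v => Ψ v 0 - Dk ε (l ^ j) v) (h1 : Lip θ fun v => Ψ v 1 - v 1 ^ l ^ j) :
    Good l (l ^ j) ε 1 1 θ Ψ := by
  have hd0 : l ^ j ≠ 0 := (pow_pos hl.pos j).ne'
  obtain ⟨Q, hQ, hD⟩ := Dk_lead (eps_le hε) (l ^ j - 1)
  rw [Nat.sub_add_cancel (Nat.pos_of_ne_zero hd0)] at hD
  have LD := Dk_lip (eps_le hε) (l ^ j)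
  have L0 : Lip 1 fun v => Ψ v 0 := ((h0.mono hθ.le).add LD).congr fun v => by ring
  have L1 : Lip 1 fun v => Ψ v 1 :=
    ((h1.mono hθ.le).add ((Lip.co 1).pow (l ^ j))).congr fun v => by ring
  have h0' : ε = 0 → Lip θ fun v => Ψ v 0 - v 0 ^ l ^ j := fun h =>
    h0.congr fun v => by rw [hD, h]; ring
  have nor : ∀ v, ‖v‖ = 1 → ‖Ψ v‖ = 1 := fun v hv => by
    have a := nv_le (L0.bd hv.le) (L1.bd hv.le)
    rcases (co_le hv.le 1).eq_or_lt with b | b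
    · have c : ‖v 1 ^ l ^ j‖ = 1 := by rw [norm_pow, b, one_pow]
      exact nv_eq a 1 (c ▸ norm_eq_of_sub_lt (c ▸ (h1.bd hv.le).trans_lt hθ))
    · have c : ‖v 0 ^ l ^ j‖ = 1 := by rw [norm_pow, (nv_one hv).resolve_right b.ne, one_pow]
      refine nv_eq a 0 (c ▸ norm_eq_of_sub_lt ?_)
      rw [c, show Ψ v 0 - v 0 ^ l ^ j = (Ψ v 0 - Dk ε (l ^ j) v) + v 1 * ε * Q v by rw [hD]; ring]
      exact add_lt ((h0.bd hv.le).trans_lt hθ) (mul_lt1 (mul_lt1 b (eps_le hε)) (hQ.bd hv.le))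
  have sm : ∀ (r : ℝ) (v : Fin 2 → PadicAlgCl p) (i : Fin 2), θ ≤ r → ‖v‖ = 1 → ‖v i‖ ≤ r →
      (Lip θ fun v => Ψ v i - v i ^ l ^ j) → ‖Ψ v i‖ ≤ r := fun r v i hr hv a b => by
    have := add_le ((b.bd hv.le).trans hr) (show ‖v i ^ l ^ j‖ ≤ r by
      rw [norm_pow]; exact (pow_le_of_le_one (norm_nonneg _) (co_le hv.le i) hd0).trans a)
    rwa [sub_add_cancel] at this
  have van : ∀ (x : Fin 2 → PadicAlgCl p) (c c' : PadicAlgCl p),
      dt (Ψ (c' • x)) (Ψ x) - c * dt (c' • x) x ^ l ^ j = 0 := fun x c c' => by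
    have a := dt_smul (c' ^ l ^ j) 1 (Ψ x) (Ψ x)
    have b := dt_smul c' 1 x x
    rw [one_smul, dt_self, mul_zero] at a b
    rw [hom, a, b, zero_pow hd0, mul_zero, sub_zero]
  have Ld : ∀ x : Fin 2 → PadicAlgCl p, ‖x‖ = 1 → Lip 1 fun v => dt v x := fun x hx =>
    ((Lip.co 0).mul (Lip.const (co_le hx.le 1))).sub ((Lip.co 1).mul (Lip.const (co_le hx.le 0)))
  refine ⟨hom, nor, fun r v hr hv h => h.imp (fun a => sm r v 1 hr hv a h1)
    fun a => ⟨a.1, sm r v 0 hr hv a.2 (h0' a.1)⟩, fun r x v hr hr1 hx hv h => ?_,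
    fun v w h => ?_, fun hlp v x w hv hx hw h => ?_⟩
  · have nx := nor x hx
    have c0 := Lip.const (E := PadicAlgCl p) (co_le nx.le 0)
    have c1 := Lip.const (E := PadicAlgCl p) (co_le nx.le 1)
    have x0 := Lip.const (E := PadicAlgCl p) (co_le hx.le 0)
    have x1 := Lip.const (E := PadicAlgCl p) (co_le hx.le 1)
    rcases h with ⟨rfl, h⟩ | h | ⟨h, h'⟩
    · refine ⟨1, norm_one, Lip.vanish (R := fun v => dt (Ψ v) (Ψ x) - 1 * dt v x ^ l ^ j) ?_ hv hx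
        (van x 1)⟩
      have a0 := (h0' (hpε rfl)).mono hr
      have a1 := h1.mono hr
      have b := (Lip.frob hl ((Lip.co 0).mul x1)
        ((Lip.const (c := (-1 : PadicAlgCl l)) (by simp)).mul ((Lip.co 1).mul x0)) j).mono h
      have s : ‖(1 + (-1) ^ l ^ j : PadicAlgCl l)‖ ≤ r := by
        rcases hl.eq_two_or_odd' with rfl | ho
        · rw [Even.neg_one_pow (by simp [Nat.even_pow, hj.ne']), one_add_one_eq_two]
          exact_mod_cast h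
        · rw [Odd.neg_one_pow ho.pow, add_neg_cancel, norm_zero]
          exact (norm_nonneg _).trans h
      exact ((((((a0.mul c1).add ((Lip.const (a1.bd hx.le)).mul ((Lip.co 0).pow (l ^ j)))).sub
        (a1.mul c0)).sub ((Lip.const (a0.bd hx.le)).mul ((Lip.co 1).pow (l ^ j)))).sub b).sub
        ((Lip.const s).mul (((Lip.co 1).mul x0).pow (l ^ j)))).congr fun v => by
          simp only [dt, mul_pow, neg_one_mul, ← sub_eq_add_neg, neg_pow (v 1 * x 0)]; ring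
    · have a := sm r x 1 hr hx h h1
      have n0 : ‖x 0‖ = 1 := (nv_one hx).resolve_right (h.trans_lt hr1).ne
      have n1 : ‖Ψ x 0‖ = 1 := (nv_one nx).resolve_right (a.trans_lt hr1).ne
      have x00 : x 0 ≠ 0 := norm_ne_zero_iff.mp (by rw [n0]; exact one_ne_zero)
      have nc : ‖-Ψ x 0 / (-x 0) ^ l ^ j‖ = 1 := by
        rw [norm_div, norm_neg, norm_pow, norm_neg, n0, n1, one_pow, div_one]
      refine ⟨_, nc, Lip.vanish (R := fun v => dt (Ψ v) (Ψ x) - _ * dt v x ^ l ^ j) ?_ hv hx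
        (van x _)⟩
      have b := (Ld x hx).pow_sub ((Lip.co 1).mul (Lip.const (c := -x 0) (by rw [norm_neg, n0])))
        (((Lip.const h).mul (Lip.co 0)).congr fun v => by rw [dt]; ring) (l ^ j)
      exact ((((Lip.const a).mul L0).sub ((h1.mono hr).mul c0)).sub
        (b.mul (Lip.const nc.le))).congr fun v => by
          have : (-x 0) ^ l ^ j ≠ 0 := pow_ne_zero _ (neg_ne_zero.mpr x00)
          rw [dt, mul_pow]; field_simp; ring
    · have a := sm r x 0 hr hx h' (h0' h)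
      have n0 : ‖x 1‖ = 1 := (nv_one hx).resolve_left (h'.trans_lt hr1).ne
      have n1 : ‖Ψ x 1‖ = 1 := (nv_one nx).resolve_left (a.trans_lt hr1).ne
      have x00 : x 1 ≠ 0 := norm_ne_zero_iff.mp (by rw [n0]; exact one_ne_zero)
      have nc : ‖Ψ x 1 / x 1 ^ l ^ j‖ = 1 := by
        rw [norm_div, norm_pow, n0, n1, one_pow, div_one]
      refine ⟨_, nc, Lip.vanish (R := fun v => dt (Ψ v) (Ψ x) - _ * dt v x ^ l ^ j) ?_ hv hx
        (van x _)⟩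
      have b := (Ld x hx).pow_sub ((Lip.co 0).mul x1)
        (((Lip.const (c := -x 0) (θ := r) (by rwa [norm_neg])).mul (Lip.co 1)).congr
          fun v => by rw [dt]; ring) (l ^ j)
      exact (((((h0' h).mono hr).mul c1).sub ((Lip.const a).mul L1)).sub
        (b.mul (Lip.const nc.le))).congr fun v => by
          rw [dt, mul_pow]; field_simp; ring
  · have hv := h.norm hε
    have hw := h.nw
    have c : ‖v 1 ^ l ^ j‖ = 1 := by rw [norm_pow, h.1, one_pow]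
    rw [one_mul, zpow_one]
    refine ⟨c ▸ norm_eq_of_sub_lt (c ▸ (h1.bd hv.le).trans_lt hθ), h.2.1.pow _,
      pow_ne_zero _ h.2.2.1, ?_⟩
    have e1 := Dk_eval w (ε / w) (l ^ j)
    have e2 : ε ^ l ^ j = ε := by
      rcases hε with rfl | rfl
      exacts [zero_pow hd0, one_pow _]
    rw [mul_div_cancel₀ _ h.2.2.1, div_pow, e2] at e1
    have a : ‖v 1 • ![w + ε / w, 1]‖ ≤ 1 := by
      rw [norm_smul, h.1, one_mul]; exact nv_le (pi_le hε hw) (by simp)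
    have b : ‖v - v 1 • ![w + ε / w, 1]‖ < 1 :=
      (nv_le (r := ‖v 0 - (w + ε / w) * v 1‖) (by simp [mul_comm]) (by simp)).trans_lt h.2.2.2
    have f := (LD _ _ hv.le a).2
    rw [one_mul, Dk_smul, e1] at f
    have g := sub_lt (add_lt ((h0.bd hv.le).trans_lt hθ) (f.trans_lt b))
      (mul_lt1 ((h1.bd hv.le).trans_lt hθ) (pi_le hε (w := w ^ l ^ j)
        (by rw [norm_pow, hw, one_pow])))
    convert g using 2
    ring
  · have nv := hv.norm hε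
    have nx := hx.norm hε
    have v1 : v 1 ≠ 0 := norm_ne_zero_iff.mp (by rw [hv.1]; exact one_ne_zero)
    have x1 : x 1 ≠ 0 := norm_ne_zero_iff.mp (by rw [hx.1]; exact one_ne_zero)
    have q : ∀ y : Fin 2 → PadicAlgCl p, Rel ε y w → ‖y 0 / y 1 - (w + ε / w)‖ < 1 ∧
        Dk ε (l ^ j) y = y 1 ^ l ^ j * Dk ε (l ^ j) ![y 0 / y 1, 1] := fun y hy => by
      have y1 : y 1 ≠ 0 := norm_ne_zero_iff.mp (by rw [hy.1]; exact one_ne_zero)
      refine ⟨?_, ?_⟩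
      · rw [div_sub' y1, norm_div, hy.1, div_one, mul_comm]; exact hy.2.2.2
      · rw [← Dk_smul]
        congr 1
        ext i; fin_cases i
        · simp [mul_div_cancel₀ _ y1]
        · simp
    have k := noncrit (j := j) hε hl hlp hv.2.1 hv.2.2.1 hw (q v hv).1 (q x hx).1
    have a := Lip.vanish (R := fun v => dt (Ψ v) (Ψ x) -
        (Dk ε (l ^ j) v * x 1 ^ l ^ j - v 1 ^ l ^ j * Dk ε (l ^ j) x))
      (((((h0.mul (Lip.const (L1.bd nx.le))).add ((Lip.const (h1.bd nx.le)).mul LD)).sub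
        (h1.mul (Lip.const (L0.bd nx.le)))).sub
        ((Lip.const (h0.bd nx.le)).mul ((Lip.co 1).pow (l ^ j)))).congr fun v => by
          rw [dt]; ring) nv.le nx fun c => by
        have := van x 0 c
        rw [zero_mul, sub_zero] at this
        simp only [this, Dk_smul, Pi.smul_apply, smul_eq_mul]; ring
    have b : Dk ε (l ^ j) v * x 1 ^ l ^ j - v 1 ^ l ^ j * Dk ε (l ^ j) x =
        (v 1 * x 1) ^ l ^ j * (Dk ε (l ^ j) ![v 0 / v 1, 1] - Dk ε (l ^ j) ![x 0 / x 1, 1]) := by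
      rw [(q v hv).2, (q x hx).2]; ring
    have c : dt v x = v 1 * x 1 * (v 0 / v 1 - x 0 / x 1) := by rw [dt]; field_simp
    rw [h, zero_sub, norm_neg, b, norm_mul, k, norm_pow, c, norm_mul, norm_mul, norm_mul, hv.1,
      hx.1, one_mul, one_pow, one_mul] at a
    rw [c, norm_eq_zero.mp (show ‖v 0 / v 1 - x 0 / x 1‖ = 0 by
      nlinarith [norm_nonneg (v 0 / v 1 - x 0 / x 1)]), mul_zero]

theorem Good.swap {l d : ℕ} {θ : ℝ} {Ψ : (Fin 2 → PadicAlgCl p) → Fin 2 → PadicAlgCl p}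
    (h : Good l d 0 1 1 θ Ψ) : Good l d 0 1 (-1) θ fun v => ![Ψ v 1, Ψ v 0] := by
  have e : ∀ a b : Fin 2 → PadicAlgCl p, dt ![a 1, a 0] ![b 1, b 0] = -dt a b := fun a b => by
    simp only [dt, Matrix.cons_val_zero, Matrix.cons_val_one]; ring
  refine ⟨fun c v => ?_, fun v hv => ?_, fun r v hr hv a => ?_, fun r x v a b c f g => ?_,
    fun v w a => ?_, fun a v x w b c f g => h.nc a v x w b c f (by rwa [e, neg_eq_zero] at g)⟩
  · rw [h.hom]; ext i; fin_cases i <;> simp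
  · have a := h.nor v hv
    have b := nv_le (v := ![Ψ v 1, Ψ v 0]) (co_le a.le 1) (co_le a.le 0)
    exact (nv_one a).elim (nv_eq b 1) (nv_eq b 0)
  · exact (h.om r v hr hv a).elim (fun b => Or.inr ⟨rfl, b⟩) fun b => Or.inl b.2
  · obtain ⟨c', h1, h2⟩ := h.tr r x v a b c f g
    exact ⟨-c', by rwa [norm_neg], by rwa [e, neg_mul, ← neg_sub', norm_neg]⟩
  · obtain ⟨h1, h2, h3, h4⟩ := h.rel v w a
    rw [one_mul, zpow_one] at h2 h3 h4
    rw [zero_div, add_zero] at h4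
    have n := h2.norm_eq hp.out h3
    rw [one_mul, zpow_neg_one]
    refine ⟨?_, h2.inv, inv_ne_zero h3, ?_⟩
    · have m : ‖w ^ d * Ψ v 1‖ = 1 := by rw [norm_mul, n, h1, one_mul]
      exact m ▸ norm_eq_of_sub_lt (m ▸ h4)
    · simp only [Matrix.cons_val_zero, Matrix.cons_val_one, zero_div, add_zero]
      rw [show Ψ v 1 - (w ^ d)⁻¹ * Ψ v 0 = -(Ψ v 0 - w ^ d * Ψ v 1) / w ^ d by field_simp; ring,
        norm_div, norm_neg, n, div_one]
      exact h4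

theorem Good.neg (hp2 : p ≠ 2) {l d : ℕ} {θ : ℝ}
    {Ψ : (Fin 2 → PadicAlgCl p) → Fin 2 → PadicAlgCl p} (h : Good l d ε 1 1 θ Ψ) :
    Good l d ε (-1) 1 θ fun v => ![-Ψ v 0, Ψ v 1] := by
  have e : ∀ a b : Fin 2 → PadicAlgCl p, dt ![-a 0, a 1] ![-b 0, b 1] = -dt a b := fun a b => by
    simp only [dt, Matrix.cons_val_zero, Matrix.cons_val_one]; ring
  refine ⟨fun c v => ?_, fun v hv => ?_, fun r v hr hv a => ?_, fun r x v a b c f g => ?_,
    fun v w a => ?_, fun a v x w b c f g => h.nc a v x w b c f (by rwa [e, neg_eq_zero] at g)⟩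
  · rw [h.hom]; ext i; fin_cases i <;> simp
  · have a := h.nor v hv
    have b := nv_le (v := ![-Ψ v 0, Ψ v 1]) (r := 1) (by simpa using co_le a.le 0) (co_le a.le 1)
    exact (nv_one a).elim (fun c => nv_eq b 0 (by simpa using c)) (nv_eq b 1)
  · exact (h.om r v hr hv a).imp id fun b => ⟨b.1, by simpa using b.2⟩
  · obtain ⟨c', h1, h2⟩ := h.tr r x v a b c f g
    exact ⟨-c', by rwa [norm_neg], by rwa [e, neg_mul, ← neg_sub', norm_neg]⟩
  · obtain ⟨h1, h2, h3, h4⟩ := h.rel v w a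
    rw [one_mul, zpow_one] at h2 h3 h4
    have t : Teich p (-1 : PadicAlgCl p) :=
      ⟨1, one_pos, by rw [pow_one, (hp.out.odd_of_ne_two hp2).neg_one_pow]⟩
    rw [zpow_one]
    refine ⟨h1, t.mul h2, mul_ne_zero (by simp) h3, ?_⟩
    change ‖-Ψ v 0 - _ * Ψ v 1‖ < 1
    rw [show -Ψ v 0 - (-1 * w ^ d + ε / (-1 * w ^ d)) * Ψ v 1 =
      -(Ψ v 0 - (w ^ d + ε / w ^ d) * Ψ v 1) by field_simp; ring, norm_neg]
    exact h4

end Pool.Agent.Lib.MP_a2c890_nt
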