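import Pool.Agent.Lib.MP_a2c890_nt.IntC

set_option autoImplicit false
set_option linter.unusedSectionVars false

namespace Pool.Agent.Lib.MP_a2c890_nt

open Finset

variable {p : ℕ} [hp : Fact p.Prime]

theorem close_pair2 (L : IntermediateField ℚ_[p] (PadicAlgCl p)) [FiniteDimensional ℚ_[p] L]
    (f : ℕ → Fin 2 → PadicAlgCl p) (h1 : ∀ n i, f n i ∈ L) (h2 : ∀ n, ‖f n‖ ≤ 1) :
    ∃ a b, a < b ∧ ‖dt (f b) (f a)‖ < 1 := by
  have : FiniteDimensional ℚ_[p] L.toSubalgebra.toSubmodule := ‹FiniteDimensional ℚ_[p] L›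
  have : ProperSpace L.toSubalgebra.toSubmodule := FiniteDimensional.proper ℚ_[p] _
  let g : ℕ → Fin 2 → L.toSubalgebra.toSubmodule := fun n i => ⟨f n i, h1 n i⟩
  obtain ⟨x, -, φ, hφ, hx⟩ :=
    (isCompact_closedBall (0 : Fin 2 → L.toSubalgebra.toSubmodule) 1).tendsto_subseq (x := g)
      (fun n => by
        rw [mem_closedBall_zero_iff, pi_norm_le_iff_of_nonneg zero_le_one]
        exact co_le (h2 n))
  obtain ⟨N, hN⟩ := Metric.cauchySeq_iff.mp hx.cauchySeq 1 one_pos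
  refine ⟨φ N, φ (N + 1), hφ (Nat.lt_succ_self _), ?_⟩
  have := hN (N + 1) (Nat.le_succ _) N le_rfl
  rw [dist_pi_lt_iff one_pos] at this
  have a : ∀ i, ‖f (φ (N + 1)) i - f (φ N) i‖ < 1 := fun i => by
    have := this i
    rw [dist_eq_norm] at this
    exact this
  rw [show dt (f (φ (N + 1))) (f (φ N)) = (f (φ (N + 1)) 0 - f (φ N) 0) * f (φ N) 1 -
    (f (φ (N + 1)) 1 - f (φ N) 1) * f (φ N) 0 by rw [dt]; ring]
  exact sub_lt (mul_lt1 (a 0) (co_le (h2 _) 1)) (mul_lt1 (a 1) (co_le (h2 _) 0))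

variable {l j : ℕ} {ε s : PadicAlgCl p} {e : ℤ} {θ : ℝ}
  {Φ : (Fin 2 → PadicAlgCl p) → Fin 2 → PadicAlgCl p}

theorem Good.nor_iter {d : ℕ} (G : Good l d ε s e θ Φ) (n : ℕ) {v : Fin 2 → PadicAlgCl p}
    (hv : ‖v‖ = 1) : ‖Φ^[n] v‖ = 1 := by
  induction n with
  | zero => exact hv
  | succ n ih => rw [Function.iterate_succ_apply']; exact G.nor _ ih

theorem Good.om_iter {d : ℕ} (G : Good l d ε s e θ Φ) {r : ℝ} (hr : θ ≤ r) (n : ℕ)
    {v : Fin 2 → PadicAlgCl p} (hv : ‖v‖ = 1) (h : Om ε r v) : Om ε r (Φ^[n] v) := by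
  induction n with
  | zero => exact h
  | succ n ih => rw [Function.iterate_succ_apply']; exact G.om _ _ hr (G.nor_iter n hv) ih

theorem Good.rel_iter {d : ℕ} (G : Good l d ε s e θ Φ) (n : ℕ) {v : Fin 2 → PadicAlgCl p}
    {w : PadicAlgCl p} (h : Rel ε v w) :
    Rel ε (Φ^[n] v) ((fun w => s * (w ^ d) ^ e)^[n] w) := by
  induction n with
  | zero => exact h
  | succ n ih => rw [Function.iterate_succ_apply', Function.iterate_succ_apply']; exact G.rel _ _ ih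

theorem ram_case {d : ℕ} (hd : 2 ≤ d) (G : Good l d ε s e θ Φ)
    (L : IntermediateField ℚ_[p] (PadicAlgCl p)) [FiniteDimensional ℚ_[p] L]
    (hL : ∀ v, (∀ i, v i ∈ L) → ∀ i, Φ v i ∈ L) {b : Fin 2 → PadicAlgCl p} (hb : ∀ i, b i ∈ L)
    (nb : ‖b‖ = 1) (hw : ∀ P, 0 < P → dt (Φ^[P] b) b ≠ 0) {r : ℝ} (h0 : 0 < r) (hr : θ ≤ r)
    (hr1 : r < 1) (hc : ∀ n, (l = p ∧ ‖(p : PadicAlgCl p)‖ ≤ r) ∨ Om ε r (Φ^[n] b)) :
    ∃ N0 A, 0 < A ∧ ∀ N, N0 ≤ N → ∀ k v (M : IntermediateField ℚ_[p] (PadicAlgCl p)),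
      FiniteDimensional ℚ_[p] M → L ≤ M → (∀ i, v i ∈ M) → ‖v‖ = 1 →
      dt (Φ^[N] (Φ^[k] v)) b = 0 → d ^ k ≤ A * Module.finrank ℚ_[p] M := by
  obtain ⟨η, η0, η1, hη⟩ : ∃ η : ℝ, 0 < η ∧ η < 1 ∧ η ^ (d - 1) = r :=
    ⟨r ^ ((d - 1 : ℕ) : ℝ)⁻¹, Real.rpow_pos_of_pos h0 _,
      Real.rpow_lt_one h0.le hr1 (inv_pos.mpr (Nat.cast_pos.mpr (by omega))),
      Real.rpow_inv_natCast_pow h0.le (by omega)⟩
  have hrη : r ≤ η := hη ▸ pow_le_of_le_one η0.le η1.le (by omega)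
  have st : ∀ (m : ℕ) (v : Fin 2 → PadicAlgCl p), ‖v‖ = 1 →
      (∀ i, η < ‖dt (Φ^[i] v) (Φ^[i] (Φ^[m] b))‖ →
        ‖dt (Φ^[i + 1] v) (Φ^[i + 1] (Φ^[m] b))‖ = ‖dt (Φ^[i] v) (Φ^[i] (Φ^[m] b))‖ ^ d) ∧
      (∀ i, ‖dt (Φ^[i] v) (Φ^[i] (Φ^[m] b))‖ ≤ η →
        ‖dt (Φ^[i + 1] v) (Φ^[i + 1] (Φ^[m] b))‖ ≤ η * ‖dt (Φ^[i] v) (Φ^[i] (Φ^[m] b))‖) := by
    intro m v hv
    refine forall_and.mp fun i => ?_
    obtain ⟨c, h1, h2⟩ := G.tr r (Φ^[i] (Φ^[m] b)) (Φ^[i] v) hr hr1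
      (G.nor_iter i (G.nor_iter m nb)) (G.nor_iter i hv).le
      (by rw [← Function.iterate_add_apply]; exact hc _)
    rw [Function.iterate_succ_apply', Function.iterate_succ_apply']
    set δ := dt (Φ^[i] v) (Φ^[i] (Φ^[m] b))
    have h3 : ‖c * δ ^ d‖ = ‖δ‖ ^ (d - 1) * ‖δ‖ := by
      rw [norm_mul, h1, one_mul, norm_pow, ← pow_succ, Nat.sub_add_cancel (by omega)]
    refine ⟨fun a => ?_, fun a => ?_⟩
    · rw [norm_eq_of_sub_lt (h2.trans_lt ?_), norm_mul, h1, one_mul, norm_pow]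
      rw [h3, ← hη]
      exact mul_lt_mul_of_pos_right (pow_lt_pow_left₀ a η0.le (by omega)) (η0.trans a)
    · have := add_le (h2.trans (mul_le_mul_of_nonneg_right hrη (norm_nonneg δ)))
        (show ‖c * δ ^ d‖ ≤ η * ‖δ‖ by
          rw [h3]
          exact mul_le_mul_of_nonneg_right ((pow_le_pow_left₀ (norm_nonneg _) a _).trans
            (hη.le.trans hrη)) (norm_nonneg _))
      rwa [sub_add_cancel] at this
  have hbL : ∀ n i, Φ^[n] b i ∈ L := fun n => by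
    induction n with
    | zero => exact hb
    | succ n ih => rw [Function.iterate_succ_apply']; exact hL _ ih
  obtain ⟨a, a', haa, h⟩ := close_pair2 L (fun n => Φ^[n] b) hbL fun n => (G.nor_iter n nb).le
  obtain ⟨P, rfl⟩ := Nat.exists_eq_add_of_lt haa
  have s0 := st 0 _ (G.nor_iter (P + 1) nb)
  have d1 : ‖dt (Φ^[P + 1] b) b‖ < 1 := seq_back η1 s0.1 a
    (by rwa [add_assoc, Function.iterate_add_apply] at h) 0 (Nat.zero_le _)
  have d0 : 0 < ‖dt (Φ^[P + 1] b) b‖ := norm_pos_iff.mpr (hw _ P.succ_pos)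
  have dm : ∀ m, ‖dt (Φ^[(m + 1) * (P + 1)] b) b‖ = ‖dt (Φ^[P + 1] b) b‖ := fun m => by
    induction m with
    | zero => rw [zero_add, one_mul]
    | succ m ih =>
      have t := seq_lt (fun i => norm_nonneg _) η1 hd s0.1 s0.2 d0 d1 ((m + 1) * (P + 1) - 1)
      rw [Nat.sub_add_cancel (Nat.mul_pos m.succ_pos P.succ_pos), ← Function.iterate_add_apply,
        ← Nat.succ_mul] at t
      have n1 := G.nor_iter ((m + 1 + 1) * (P + 1)) nb
      have n2 := G.nor_iter ((m + 1) * (P + 1)) nb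
      refine le_antisymm ((dt_tri n1.le n2 nb.le).trans (max_le t.le ih.le)) ?_
      have u := dt_tri n2.le n1 nb.le
      rw [ih, dt_swap (Φ^[(m + 1) * (P + 1)] b), norm_neg] at u
      exact (le_max_iff.mp u).resolve_left (not_le.mpr t)
  obtain ⟨N0, hN0⟩ := exists_pow_lt_of_lt_one d0 η1
  obtain ⟨A, hA, hA'⟩ := ram_bound (p := p) |Real.log η|
  refine ⟨N0, A, hA, fun N hN k v M hM hLM hv nv h => ?_⟩
  have hle : k + N ≤ (k + N + 1) * (P + 1) := by nlinarith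
  have s1 := st ((k + N + 1) * (P + 1) - (k + N)) v nv
  have e1 : ‖dt (Φ^[k + N] v) (Φ^[k + N] (Φ^[(k + N + 1) * (P + 1) - (k + N)] b))‖ =
      ‖dt (Φ^[P + 1] b) b‖ := by
    rw [← Function.iterate_add_apply, add_comm] at h
    obtain ⟨c, c1, c2⟩ := par_norm (G.nor_iter _ nv) nb h
    have := dt_smul c 1 b (Φ^[(k + N + 1) * (P + 1)] b)
    rw [one_smul, mul_one] at this
    rw [← Function.iterate_add_apply, Nat.add_sub_cancel' hle, c2, this, norm_mul, c1, one_mul,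
      dt_swap, norm_neg, dm]
  obtain ⟨t1, t2, t3⟩ := seq_small η0.le η1 s1.1 s1.2 (k := k) (N := N)
    (by rw [e1]; exact (pow_le_pow_of_le_one η0.le η1.le hN).trans_lt hN0) (by rw [e1]; exact d1)
  refine hA' M hM _ (sub_mem (mul_mem (hv 0) (hLM (hbL _ 1))) (mul_mem (hv 1) (hLM (hbL _ 0)))) _ _
    t1 (η0.trans t2) t3.ne ?_
  rw [abs_of_neg (Real.log_neg (η0.trans t2) t3), abs_of_neg (Real.log_neg η0 η1), neg_le_neg_iff]
  exact Real.log_le_log η0 t2.le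

theorem per_inj {F : Type*} [Field F] (hl : l.Prime) (he : e = 1 ∨ e = -1) {w w' : F} (h0 : w ≠ 0)
    (h : Per l w) (h' : Per l w') (h1 : (w' ^ l ^ j) ^ e = (w ^ l ^ j) ^ e) : w' = w := by
  have h2 : w' ^ l ^ j = w ^ l ^ j := by
    rcases he with rfl | rfl
    · simpa using h1
    · simpa using h1
  obtain ⟨n, a, b⟩ := h
  obtain ⟨n', a', b'⟩ := h'
  refine (div_eq_one_iff_eq h0).mp (per_eq_one (j := j) hl ⟨n * n', fun c => ?_, ?_⟩ ?_)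
  · exact ((Nat.Prime.dvd_mul hl).mp c).elim a a'
  · rw [div_pow, pow_mul w, b, mul_comm, pow_mul, b', one_pow, one_pow, div_one]
  · rw [div_pow, h2, div_self (pow_ne_zero _ h0)]

theorem unram_case (hε : ε = 0 ∨ ε = 1) (hl : l.Prime) (hlp : l ≠ p)
    (hs : s = 1 ∨ (s = -1 ∧ l ≠ 2)) (he : e = 1 ∨ e = -1) (hθ : θ < 1)
    (G : Good l (l ^ j) ε s e θ Φ) {b : Fin 2 → PadicAlgCl p} (nb : ‖b‖ = 1)
    (hb : ∀ r < 1, ¬ Om ε r b) (N : ℕ) :
    ∃ (Bad : (Fin 2 → PadicAlgCl p) → Prop) (A : ℕ), 0 < A ∧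
      (∀ y y', Bad y → Bad y' → dt y y' = 0) ∧
      ∀ k v (M : IntermediateField ℚ_[p] (PadicAlgCl p)), FiniteDimensional ℚ_[p] M →
        (∀ i, v i ∈ M) → ‖v‖ = 1 → dt (Φ^[N] (Φ^[k] v)) b = 0 → ¬ Bad (Φ^[k] v) →
        (l ^ j) ^ k ≤ A * Module.finrank ℚ_[p] M := by
  obtain ⟨t, ht, hst⟩ : ∃ t, ¬ l ∣ t ∧ s ^ t = 1 := by
    rcases hs with rfl | ⟨rfl, h⟩
    · exact ⟨1, hl.not_dvd_one, one_pow _⟩
    · exact ⟨2, fun a => h ((Nat.prime_dvd_prime_iff_eq hl Nat.prime_two).mp a), by ring⟩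
  have s2 : s⁻¹ = s := by rcases hs with rfl | ⟨rfl, -⟩ <;> simp
  have s0 : s ≠ 0 := by rcases hs with rfl | ⟨rfl, -⟩ <;> simp
  have pw : ∀ (w : PadicAlgCl p) (n : ℕ), w ^ (l ^ j * n) = 1 →
      (s * (w ^ l ^ j) ^ e) ^ (t * n) = 1 := fun w n h => by
    rw [mul_pow, pow_mul, hst, one_pow, one_mul, ← zpow_natCast, ← zpow_mul, mul_comm e, zpow_mul,
      zpow_natCast, ← pow_mul, mul_left_comm, mul_comm t, pow_mul, h, one_pow, one_zpow]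
  have nd : ∀ n, ¬ l ∣ n → ¬ l ∣ t * n := fun n h a => ((Nat.Prime.dvd_mul hl).mp a).elim ht h
  have pe : ∀ w : PadicAlgCl p, Per l w → Per l (s * (w ^ l ^ j) ^ e) := fun w ⟨n, a, c⟩ =>
    ⟨t * n, nd n a, pw w n (by rw [mul_comm, pow_mul, c, one_pow])⟩
  have un : ∀ (n : ℕ) y y' w w', Rel ε y w → Rel ε y' w' → Per l w → Per l w' →
      dt (Φ^[n] y) (Φ^[n] y') = 0 → dt y y' = 0 := fun n => by
    induction n with
    | zero => exact fun y y' _ _ _ _ _ _ h => h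
    | succ n ih =>
      intro y y' w w' h1 h2 h3 h4 h5
      have h6 := ih _ _ _ _ (G.rel _ _ h1) (G.rel _ _ h2) (pe _ h3) (pe _ h4) h5
      refine G.nc hlp y y' w h1 ?_ h3 h6
      rcases (G.rel _ _ h1).uniq hε (G.rel _ _ h2) (by rw [h6, norm_zero]; exact one_pos) with
        a | ⟨rfl, a⟩
      · rwa [← per_inj hl he h1.2.2.1 h3 h4 (mul_left_cancel₀ s0 a)]
      · rw [mul_inv, s2, ← inv_zpow, ← inv_pow] at a
        have := per_inj hl he (inv_ne_zero h1.2.2.1) (by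
          obtain ⟨n, c, c'⟩ := h3
          exact ⟨n, c, by rw [inv_pow, c', inv_one]⟩) h4 (mul_left_cancel₀ s0 a)
        have h7 := h2.inv
        rwa [this, inv_inv] at h7
  have it : ∀ (k n : ℕ) (w : PadicAlgCl p), ¬ l ∣ n → w ^ ((l ^ j) ^ k * n) = 1 →
      Per l ((fun w => s * (w ^ l ^ j) ^ e)^[k] w) := fun k => by
    induction k with
    | zero => exact fun n w a c => ⟨n, a, by simpa using c⟩
    | succ k ih =>
      intro n w a c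
      refine ih (t * n) _ (nd n a) ?_
      rw [mul_left_comm]
      exact pw w _ (by rw [← mul_assoc, ← pow_succ', c])
  obtain ⟨A, hA, hA'⟩ := unram_bound hl hlp
  have b0 : b ≠ 0 := norm_ne_zero_iff.mp (by rw [nb]; exact one_ne_zero)
  refine ⟨fun y => dt (Φ^[N] y) b = 0 ∧ ∃ w, Rel ε y w ∧ Per l w, A, hA,
    fun y y' ⟨a, w, h1, h2⟩ ⟨a', w', h1', h2'⟩ => un N _ _ _ _ h1 h1' h2 h2' (dt_trans b0 a a'),
    fun k v M hM hv nv h hbad => ?_⟩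
  have gen : ∀ r < 1, ¬ Om ε r v := fun r hr ho => by
    have a := G.om_iter (le_max_left θ r) N (G.nor_iter k nv) (G.om_iter (le_max_left θ r) k nv
      (ho.imp (fun c => c.trans (le_max_right _ _)) fun c => ⟨c.1, c.2.trans (le_max_right _ _)⟩))
    obtain ⟨c, c1, c2⟩ := par_norm (G.nor_iter N (G.nor_iter k nv)) nb h
    refine hb _ (max_lt hθ hr) ?_
    simpa only [Om, c2, Pi.smul_apply, norm_smul, c1, one_mul] using a
  obtain ⟨w, hw⟩ := exists_rel hε nv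
    ((co_le nv.le 1).eq_or_lt.resolve_right fun a => gen _ a (Or.inl le_rfl))
    fun a => (co_le nv.le 0).eq_or_lt.resolve_right fun c => gen _ c (Or.inr ⟨a, le_rfl⟩)
  have ho : 0 < orderOf w := by
    obtain ⟨m, hm, a⟩ := hw.2.1
    have c : 1 < p ^ m := Nat.one_lt_pow hm.ne' hp.out.one_lt
    refine (isOfFinOrder_iff_pow_eq_one.mpr ⟨p ^ m - 1, by omega, ?_⟩).orderOf_pos
    refine mul_right_cancel₀ hw.2.2.1 ?_
    rw [← pow_succ, Nat.sub_add_cancel c.le, a, one_mul]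
  rw [← pow_mul]
  refine hA' M hM _ w ho ?_ fun τ hτ => hw.gal hε τ fun i => hτ _ (hv i)
  by_contra hn
  obtain ⟨a, n, h1, h2⟩ := Nat.exists_eq_pow_mul_and_not_dvd ho.ne' l hl.ne_one
  refine hbad ⟨h, _, G.rel_iter k hw, it k n w h1 (orderOf_dvd_iff_pow_eq_one.mp ?_)⟩
  rw [h2, ← pow_mul]
  refine mul_dvd_mul_right (pow_dvd_pow l ?_) n
  by_contra hc
  exact hn (h2 ▸ (pow_dvd_pow l (not_le.mp hc).le).mul_right n)

theorem local_bound (hε : ε = 0 ∨ ε = 1) (hl : l.Prime) (hj : 0 < j)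
    (hs : s = 1 ∨ (s = -1 ∧ l ≠ 2)) (he : e = 1 ∨ e = -1) (hθ : θ < 1)
    (G : Good l (l ^ j) ε s e θ Φ)
    (L : IntermediateField ℚ_[p] (PadicAlgCl p)) [FiniteDimensional ℚ_[p] L]
    (hL : ∀ v, (∀ i, v i ∈ L) → ∀ i, Φ v i ∈ L) {b : Fin 2 → PadicAlgCl p} (hb : ∀ i, b i ∈ L)
    (nb : ‖b‖ = 1) (hw : ∀ P, 0 < P → dt (Φ^[P] b) b ≠ 0) :
    ∃ N0, ∀ N, N0 ≤ N → ∃ (Bad : (Fin 2 → PadicAlgCl p) → Prop) (A : ℕ), 0 < A ∧
      (∀ y y', Bad y → Bad y' → dt y y' = 0) ∧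
      ∀ k v (M : IntermediateField ℚ_[p] (PadicAlgCl p)), FiniteDimensional ℚ_[p] M → L ≤ M →
        (∀ i, v i ∈ M) → ‖v‖ = 1 → dt (Φ^[N] (Φ^[k] v)) b = 0 → ¬ Bad (Φ^[k] v) →
        (l ^ j) ^ k ≤ A * Module.finrank ℚ_[p] M := by
  by_cases h : ∃ r, 0 < r ∧ θ ≤ r ∧ r < 1 ∧
      ∀ n, (l = p ∧ ‖(p : PadicAlgCl p)‖ ≤ r) ∨ Om ε r (Φ^[n] b)
  · obtain ⟨r, h0, h1, h2, h3⟩ := h
    obtain ⟨N0, A, hA, h⟩ := ram_case (hl.two_le.trans (Nat.le_self_pow hj.ne' l)) G L hL hb nb hw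
      h0 h1 h2 h3
    exact ⟨N0, fun N hN => ⟨fun _ => False, A, hA, fun _ _ a => a.elim,
      fun k v M a b c d e _ => h N hN k v M a b c d e⟩⟩
  refine ⟨0, fun N _ => ?_⟩
  obtain ⟨Bad, A, h1, h2, h3⟩ := unram_case hε hl (fun a => h ⟨max θ ‖(p : PadicAlgCl p)‖,
    np0.trans_le (le_max_right _ _), le_max_left _ _, max_lt hθ np1,
    fun _ => Or.inl ⟨a, le_max_right _ _⟩⟩) hs he hθ G nb (fun r hr ho => h
      ⟨max θ (max r (1 / 2)), lt_max_of_lt_right (lt_max_of_lt_right one_half_pos),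
      le_max_left _ _, max_lt hθ (max_lt hr one_half_lt_one), fun n => Or.inr
        (G.om_iter (le_max_left _ _) n nb (ho.imp
          (fun c => c.trans (le_max_of_le_right (le_max_left _ _)))
          fun c => ⟨c.1, c.2.trans (le_max_of_le_right (le_max_left _ _))⟩))⟩) N
  exact ⟨Bad, A, h1, h2, fun k v M a _ => h3 k v M a⟩

end Pool.Agent.Lib.MP_a2c890_nt
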