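import Pool.Agent.Lib.MP_a2c890_nt.IntD

set_option autoImplicit false
set_option linter.unusedSectionVars false

namespace Pool.Agent.Lib.MP_a2c890_nt

open Finset MvPolynomial Height

/-- the self-map of the plane given by two polynomials -/
noncomputable def ev {K A : Type*} [CommRing K] [CommRing A] [Algebra K A]
    (F G : MvPolynomial (Fin 2) K) (v : Fin 2 → A) : Fin 2 → A := ![aeval v F, aeval v G]

section alg

variable {K A B : Type*} [Field K] [CommRing A] [Algebra K A] [CommRing B] [Algebra K B]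
  {F G : MvPolynomial (Fin 2) K} {d : ℕ}

theorem aeval_smul_hom (hF : F.IsHomogeneous d) (c : A) (v : Fin 2 → A) :
    aeval (c • v) F = c ^ d * aeval v F := by
  rw [aeval_def, aeval_def, eval₂_eq', eval₂_eq', mul_sum]
  refine sum_congr rfl fun m hm => ?_
  have : m 0 + m 1 = d := by
    by_contra h
    exact mem_support_iff.mp hm (hF.coeff_eq_zero (by rwa [Finsupp.degree_eq_sum, Fin.sum_univ_two]))
  simp only [Fin.prod_univ_two, Pi.smul_apply, smul_eq_mul, ← this]
  ring

theorem ev_smul (hF : F.IsHomogeneous d) (hG : G.IsHomogeneous d) (c : A) (v : Fin 2 → A) :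
    ev F G (c • v) = c ^ d • ev F G v := by
  ext i; fin_cases i <;> simp [ev, aeval_smul_hom hF, aeval_smul_hom hG]

theorem ev_iter_smul (hF : F.IsHomogeneous d) (hG : G.IsHomogeneous d) (n : ℕ) (c : A)
    (v : Fin 2 → A) : (ev F G)^[n] (c • v) = c ^ d ^ n • (ev F G)^[n] v := by
  induction n with
  | zero => simp
  | succ n ih =>
    rw [Function.iterate_succ_apply', Function.iterate_succ_apply', ih, ev_smul hF hG, ← pow_mul,
      pow_succ]

theorem ev_map (σ : A →ₐ[K] B) (v : Fin 2 → A) : σ ∘ ev F G v = ev F G (σ ∘ v) := by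
  ext i; fin_cases i
  · exact comp_aeval_apply v σ F
  · exact comp_aeval_apply v σ G

theorem ev_iter_map (σ : A →ₐ[K] B) (n : ℕ) (v : Fin 2 → A) :
    σ ∘ (ev F G)^[n] v = (ev F G)^[n] (σ ∘ v) := by
  induction n with
  | zero => rfl
  | succ n ih => rw [Function.iterate_succ_apply', Function.iterate_succ_apply', ev_map, ih]

theorem dt_map {A B : Type*} [CommRing A] [CommRing B] {H : Type*} [FunLike H A B]
    [RingHomClass H A B] (σ : H) (v w : Fin 2 → A) : dt (σ ∘ v) (σ ∘ w) = σ (dt v w) := by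
  simp [dt]

theorem iter_hom (hF : F.IsHomogeneous d) (hG : G.IsHomogeneous d) (n : ℕ) (i : Fin 2) :
    ((ev F G)^[n] (X : Fin 2 → MvPolynomial (Fin 2) K) i).IsHomogeneous (d ^ n) := by
  induction n generalizing i with
  | zero => exact isHomogeneous_X K i
  | succ n ih =>
    rw [Function.iterate_succ_apply', pow_succ]
    fin_cases i
    · exact hF.aeval _ ih
    · exact hG.aeval _ ih

theorem aeval_iter (n : ℕ) (v : Fin 2 → A) (i : Fin 2) :
    aeval v ((ev F G)^[n] (X : Fin 2 → MvPolynomial (Fin 2) K) i) = (ev F G)^[n] v i := by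
  have := congrFun (ev_iter_map (F := F) (G := G) (aeval v) n X) i
  rwa [show (aeval v : MvPolynomial (Fin 2) K →ₐ[K] A) ∘ X = v from funext fun i => aeval_X v i]
    at this

theorem iter_pair (n : ℕ) :
    (fun q : MvPolynomial (Fin 2) K × MvPolynomial (Fin 2) K =>
      (aeval ![q.1, q.2] F, aeval ![q.1, q.2] G))^[n] (X 0, X 1) =
    ((ev F G)^[n] X 0, (ev F G)^[n] X 1) := by
  induction n with
  | zero => rfl
  | succ n ih =>
    rw [Function.iterate_succ_apply', Function.iterate_succ_apply', ih]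
    have : ![(ev F G)^[n] (X : Fin 2 → MvPolynomial (Fin 2) K) 0, (ev F G)^[n] X 1] =
        (ev F G)^[n] X := by ext1 i; fin_cases i <;> rfl
    simp only [this]
    rfl

theorem aeval_dehom (H : MvPolynomial (Fin 2) K) (z : A) :
    Polynomial.aeval z (aeval ![Polynomial.X, 1] H : Polynomial K) = aeval ![z, 1] H := by
  rw [comp_aeval_apply]
  congr 2
  ext i; fin_cases i <;> simp

theorem dehom_deg {H : MvPolynomial (Fin 2) K} (h : H.IsHomogeneous d) :
    (aeval ![Polynomial.X, 1] H : Polynomial K).natDegree ≤ d := by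
  have := aeval_natDegree_le H h.totalDegree_le ![Polynomial.X, 1] (n := 1)
    (fun i => by fin_cases i <;> simp)
  rwa [mul_one] at this

theorem cert (hF : F.IsHomogeneous d) (hG : G.IsHomogeneous d)
    (h : ∀ z : AlgebraicClosure K, aeval ![z, 1] F ≠ 0 ∨ aeval ![z, 1] G ≠ 0) :
    ∃ m, ∀ m', m ≤ m' → ∃ P Q : MvPolynomial (Fin 2) K, P.IsHomogeneous m' ∧ Q.IsHomogeneous m' ∧
      P * F + Q * G = X 1 ^ (m' + d) := by
  obtain ⟨a, b, hab⟩ := (Polynomial.isCoprime_iff_aeval_ne_zero_of_isAlgClosed K (AlgebraicClosure K)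
    (aeval ![Polynomial.X, 1] F) (aeval ![Polynomial.X, 1] G)).mpr fun z => by
      rw [aeval_dehom, aeval_dehom]; exact h z
  refine ⟨max a.natDegree b.natDegree, fun m' hm => ⟨a.homogenize m', b.homogenize m',
    a.isHomogeneous_homogenize, b.isHomogeneous_homogenize, ?_⟩⟩
  rw [← Polynomial.homogenize_one, ← hab, Polynomial.homogenize_add,
    Polynomial.homogenize_mul _ _ (le_of_max_le_left hm) (dehom_deg hF),
    Polynomial.homogenize_mul _ _ (le_of_max_le_right hm) (dehom_deg hG),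
    Polynomial.homogenize_eq_of_isHomogeneous hF rfl,
    Polynomial.homogenize_eq_of_isHomogeneous hG rfl]

end alg

variable {K : Type*} [Field K] [NumberField K] {F G : MvPolynomial (Fin 2) K} {d : ℕ}

theorem ev_ne (h : ∀ v : Fin 2 → AlgebraicClosure K, aeval v F = 0 → aeval v G = 0 → v = 0)
    {A : Type*} [Field A] [Algebra K A] (σ : A →ₐ[K] AlgebraicClosure K) (n : ℕ) {v : Fin 2 → A}
    (hv : v ≠ 0) : (ev F G)^[n] v ≠ 0 := by
  induction n with
  | zero => exact hv
  | succ n ih =>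
    rw [Function.iterate_succ_apply']
    intro a
    have b := ev_map (F := F) (G := G) σ ((ev F G)^[n] v)
    rw [a] at b
    have c := h _ ((congrFun b 0).symm.trans (map_zero σ)) ((congrFun b 1).symm.trans (map_zero σ))
    exact ih (funext fun i => (map_eq_zero σ).mp (congrFun c i))

theorem north (hd : 2 ≤ d) (hF : F.IsHomogeneous d) (hG : G.IsHomogeneous d)
    (h : ∀ v : Fin 2 → AlgebraicClosure K, aeval v F = 0 → aeval v G = 0 → v = 0)
    {b : Fin 2 → K} (hb : b ≠ 0) (hw : ∀ P, 0 < P → dt ((ev F G)^[P] b) b ≠ 0) :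
    ∃ N1, ∀ N, N1 ≤ N → ∀ x : Fin 2 → K, x ≠ 0 → dt ((ev F G)^[N] x) b ≠ 0 := by
  have ne := fun n (x : Fin 2 → K) => ev_ne h (Algebra.ofId K _) n (v := x)
  obtain ⟨m1, h1⟩ := cert hF hG fun z => by
    by_contra hc
    push Not at hc
    simpa using congrFun (h _ hc.1 hc.2) 1
  obtain ⟨m0, h0⟩ := cert (hF.rename_isHomogeneous (f := Equiv.swap 0 1))
    (hG.rename_isHomogeneous (f := Equiv.swap 0 1)) fun z => by
      by_contra hc
      push Not at hc
      rw [aeval_rename, aeval_rename] at hc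
      simpa using congrFun (h _ hc.1 hc.2) 0
  obtain ⟨P1, Q1, a1, b1, c1⟩ := h1 (max m0 m1) (le_max_right _ _)
  obtain ⟨P0, Q0, a0, b0, c0⟩ := h0 (max m0 m1) (le_max_left _ _)
  have c0' := congrArg (rename (Equiv.swap (0 : Fin 2) 1)) c0
  simp only [map_add, map_mul, map_pow, rename_rename, rename_X, Equiv.swap_apply_right,
    ← Equiv.coe_trans, Equiv.swap_swap, Equiv.coe_refl, rename_id_apply] at c0'
  obtain ⟨C, hC, hq⟩ := mulHeight_eval_ge' (N := d) (q := fun a : Fin 2 × Fin 2 =>
    ![![rename (Equiv.swap 0 1) P0, rename (Equiv.swap 0 1) Q0], ![P1, Q1]] a.1 a.2)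
    (M := max m0 m1) (fun ⟨a, a'⟩ => by
      fin_cases a <;> fin_cases a'
      exacts [a0.rename_isHomogeneous, b0.rename_isHomogeneous, a1, b1])
  have key : ∀ x : Fin 2 → K, C * mulHeight x ^ d ≤ mulHeight (ev F G x) := fun x => by
    have := hq ![F, G] (x := x) fun k => by
      fin_cases k
      · simpa using congrArg (eval x) c0'
      · simpa using congrArg (eval x) c1
    convert this using 2
    ext i; fin_cases i <;> rfl
  have bd : ∀ (N : ℕ) (x : Fin 2 → K), x ≠ 0 → dt ((ev F G)^[N] x) b = 0 →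
      mulHeight x ≤ max (mulHeight b) C⁻¹ := fun N => by
    induction N with
    | zero =>
      intro x hx a
      obtain ⟨c, rfl⟩ := exists_smul hb a
      rw [mulHeight_smul_eq_mulHeight _ (left_ne_zero_of_smul hx)]
      exact le_max_left _ _
    | succ N ih =>
      intro x hx a
      have e1 := (key x).trans (ih _ (ne 1 x hx) a)
      have e2 := one_le_mulHeight x
      have e3 : mulHeight x ^ 2 ≤ mulHeight x ^ d := pow_le_pow_right₀ e2 hd
      have e4 : 1 ≤ C * max (mulHeight b) C⁻¹ :=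
        (mul_inv_cancel₀ hC.ne').ge.trans (mul_le_mul_of_nonneg_left (le_max_right _ _) hC.le)
      by_contra e5
      push Not at e5
      have e6 : 0 < max (mulHeight b) C⁻¹ := lt_max_of_lt_right (inv_pos.mpr hC)
      have e7 : max (mulHeight b) C⁻¹ ^ 2 < mulHeight x ^ 2 := pow_lt_pow_left₀ e5 e6.le two_ne_zero
      nlinarith
  have fin := ((((NumberField.finite_setOfPred_mulHeight₁_le K (max (mulHeight b) C⁻¹)).image
    fun z => ![z, 1]).insert ![1, 0]).biUnion (t := fun t => {N | t ≠ 0 ∧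
      dt ((ev F G)^[N] t) b = 0}) fun t _ => Set.Subsingleton.finite fun n hn n' hn' => by
        wlog hlt : n ≤ n' generalizing n n'
        · exact (this _ hn' _ hn (not_le.mp hlt).le).symm
        obtain ⟨P, rfl⟩ := Nat.exists_eq_add_of_le hlt
        by_contra hP
        obtain ⟨c, hc⟩ := exists_smul hb hn.2
        have a := hn'.2
        have e := dt_smul (c ^ d ^ P) 1 ((ev F G)^[P] b) b
        rw [add_comm, Function.iterate_add_apply, hc, ev_iter_smul hF hG] at a
        rw [one_smul, a, mul_one] at e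
        exact mul_ne_zero (pow_ne_zero _ (left_ne_zero_of_smul (hc ▸ ne n t hn.1)))
          (hw P (by omega)) e.symm).bddAbove
  obtain ⟨N1, hN1⟩ := fin
  refine ⟨N1 + 1, fun N hN x hx a => ?_⟩
  obtain ⟨t, ht, c, rfl⟩ : ∃ t ∈ insert ![1, 0] ((fun z => ![z, 1]) ''
      {z : K | mulHeight₁ z ≤ max (mulHeight b) C⁻¹}), ∃ c : K, x = c • t := by
    by_cases h1 : x 1 = 0
    · exact ⟨_, Set.mem_insert _ _, x 0, by ext i; fin_cases i <;> simp [h1]⟩
    · have e : x = x 1 • ![x 0 / x 1, 1] := by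
        ext i; fin_cases i <;> simp [mul_div_cancel₀ _ h1]
      refine ⟨_, Set.mem_insert_of_mem _ ⟨x 0 / x 1, ?_, rfl⟩, x 1, e⟩
      rw [Set.mem_setOf_eq, mulHeight₁_eq_mulHeight, ← mulHeight_smul_eq_mulHeight _ h1, ← e]
      exact bd N x hx a
  have e := dt_smul (c ^ d ^ N) 1 ((ev F G)^[N] t) b
  rw [one_smul, ← ev_iter_smul hF hG, a, mul_one] at e
  have := hN1 (Set.mem_biUnion ht (show N ∈ {N | t ≠ 0 ∧ dt ((ev F G)^[N] t) b = 0} from
    ⟨right_ne_zero_of_smul hx, (mul_eq_zero.mp e.symm).resolve_left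
      (pow_ne_zero _ (left_ne_zero_of_smul hx))⟩))
  omega

end Pool.Agent.Lib.MP_a2c890_nt
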