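import Pool.Agent.Lib.MP_a2c890_nt.IntE

set_option autoImplicit false
set_option linter.unusedSectionVars false

namespace Pool.Agent.Lib.MP_a2c890_nt

open Finset MvPolynomial

/-- a two by two matrix applied to a vector -/
def mv {E : Type*} [CommRing E] (a b c e : E) (v : Fin 2 → E) : Fin 2 → E :=
  ![a * v 0 + b * v 1, c * v 0 + e * v 1]

theorem dt_mv {E : Type*} [CommRing E] (a b c e : E) (v w : Fin 2 → E) :
    dt (mv a b c e v) (mv a b c e w) = (a * e - b * c) * dt v w := by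
  simp only [dt, mv, Matrix.cons_val_zero, Matrix.cons_val_one]; ring

variable {p : ℕ} [hp : Fact p.Prime]

theorem exists_norm {a b c e : PadicAlgCl p} (hdet : a * e - b * c ≠ 0)
    (M : IntermediateField ℚ_[p] (PadicAlgCl p)) (ha : a ∈ M) (hb : b ∈ M) (hc : c ∈ M) (he : e ∈ M)
    {x : Fin 2 → PadicAlgCl p} (hx : x ≠ 0) (hM : ∀ i, x i ∈ M) :
    ∃ (v : Fin 2 → PadicAlgCl p) (μ : PadicAlgCl p), μ ≠ 0 ∧ ‖v‖ = 1 ∧ (∀ i, v i ∈ M) ∧
      mv a b c e v = μ • x := by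
  let u := mv e (-b) (-c) a x
  have h1 : mv a b c e u = (a * e - b * c) • x := by
    ext i; fin_cases i <;> simp [mv, u] <;> ring
  have h2 : u ≠ 0 := fun h => by
    rw [h] at h1
    exact smul_ne_zero hdet hx (h1.symm.trans (by ext i; fin_cases i <;> simp [mv]))
  have h3 : ∀ i, u i ∈ M := fun i => by
    fin_cases i
    · exact add_mem (mul_mem he (hM 0)) (mul_mem (neg_mem hb) (hM 1))
    · exact add_mem (mul_mem (neg_mem hc) (hM 0)) (mul_mem ha (hM 1))
  obtain ⟨i, hi⟩ : ∃ i, ‖u‖ = ‖u i‖ := by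
    rcases le_total ‖u 0‖ ‖u 1‖ with h | h
    · exact ⟨1, le_antisymm (nv_le h le_rfl) (norm_le_pi_norm u 1)⟩
    · exact ⟨0, le_antisymm (nv_le le_rfl h) (norm_le_pi_norm u 0)⟩
  have h4 : u i ≠ 0 := norm_ne_zero_iff.mp (hi ▸ norm_ne_zero_iff.mpr h2)
  refine ⟨(u i)⁻¹ • u, (u i)⁻¹ * (a * e - b * c), mul_ne_zero (inv_ne_zero h4) hdet, ?_,
    fun k => mul_mem (inv_mem (h3 i)) (h3 k), ?_⟩
  · rw [norm_smul, norm_inv, hi, inv_mul_cancel₀ (norm_ne_zero_iff.mpr h4)]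
  · rw [mul_smul, ← h1]
    ext k; fin_cases k <;> simp [mv] <;> ring

theorem core {K : Type*} [Field K] [NumberField K] {F G : MvPolynomial (Fin 2) K} {l j : ℕ}
    (hl : l.Prime) (hj : 0 < j) (hF : F.IsHomogeneous (l ^ j)) (hG : G.IsHomogeneous (l ^ j))
    (h : ∀ v : Fin 2 → AlgebraicClosure K, aeval v F = 0 → aeval v G = 0 → v = 0)
    (ι : K →+* PadicAlgCl p) {a b c e lam ε s : PadicAlgCl p} {e' : ℤ} {θ : ℝ}
    (hdet : a * e - b * c ≠ 0) (hlam : lam ≠ 0) (hε : ε = 0 ∨ ε = 1)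
    (hs : s = 1 ∨ (s = -1 ∧ l ≠ 2)) (he : e' = 1 ∨ e' = -1) (hθ : θ < 1)
    {Ψ : (Fin 2 → PadicAlgCl p) → Fin 2 → PadicAlgCl p} (Gd : Good l (l ^ j) ε s e' θ Ψ)
    (hΨ : ∀ v, ![eval₂ ι (mv a b c e v) F, eval₂ ι (mv a b c e v) G] = lam • mv a b c e (Ψ v))
    {β : Fin 2 → K} (hβ : β ≠ 0) (hw : ∀ P, 0 < P → dt ((ev F G)^[P] β) β ≠ 0) :
    ∃ C : ℕ, ∀ n : ℕ, ∃ S : Finset (Fin 2 → AlgebraicClosure K), S.card ≤ C ∧
      ∀ v : Fin 2 → AlgebraicClosure K, v ≠ 0 →
        dt ((ev F G)^[n] v) (algebraMap K (AlgebraicClosure K) ∘ β) = 0 →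
        ∃ s ∈ S, ∃ σ : AlgebraicClosure K ≃ₐ[K] AlgebraicClosure K,
          ∃ c : AlgebraicClosure K, c ≠ 0 ∧ v = c • fun i => σ (s i) := by
  classical
  have hd : 2 ≤ l ^ j := hl.two_le.trans (Nat.le_self_pow hj.ne' l)
  let := ι.toAlgebra
  let φ : AlgebraicClosure K →ₐ[K] PadicAlgCl p := IsAlgClosed.lift
  set β' := algebraMap K (AlgebraicClosure K) ∘ β with hβ'
  have inj : ∀ {x : Fin 2 → AlgebraicClosure K}, x ≠ 0 → φ ∘ x ≠ 0 :=
    fun hx a => hx (funext fun i => (map_eq_zero φ).mp (congrFun a i))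
  have hβ0 : β' ≠ 0 := fun a => hβ (funext fun i => (map_eq_zero _).mp (congrFun a i))
  have hΨ' : ∀ v, ev F G (mv a b c e v) = lam • mv a b c e (Ψ v) := hΨ
  obtain ⟨L0, hL0, hL0'⟩ := exists_local ι
  have : FiniteDimensional ℚ_[p] (IntermediateField.adjoin ℚ_[p] {a, b, c, e, lam}) :=
    IntermediateField.finiteDimensional_adjoin fun x _ => Algebra.IsIntegral.isIntegral x
  let L := L0 ⊔ IntermediateField.adjoin ℚ_[p] {a, b, c, e, lam}
  have hι : ∀ x, ι x ∈ L := fun x => (le_sup_left : L0 ≤ L) (hL0' x)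
  have hφ : ∀ x, φ (algebraMap K _ x) ∈ L := fun x => by rw [φ.commutes]; exact hι x
  have mem : ∀ x ∈ ({a, b, c, e, lam} : Set (PadicAlgCl p)), x ∈ L := fun x hx =>
    (le_sup_right : _ ≤ L) (IntermediateField.subset_adjoin _ _ hx)
  have ma := mem a (by simp)
  have mb := mem b (by simp)
  have mc := mem c (by simp)
  have me := mem e (by simp)
  have ml := mem lam (by simp)
  have hL : ∀ v, (∀ i, v i ∈ L) → ∀ i, Ψ v i ∈ L := fun v hv i => by
    have m1 : ∀ i, mv a b c e v i ∈ L := fun i => by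
      fin_cases i
      · exact add_mem (mul_mem ma (hv 0)) (mul_mem mb (hv 1))
      · exact add_mem (mul_mem mc (hv 0)) (mul_mem me (hv 1))
    have m2 : eval₂ ι (mv a b c e v) F ∈ L := eval₂_mem (fun _ _ => hι _) m1
    have m3 : eval₂ ι (mv a b c e v) G ∈ L := eval₂_mem (fun _ _ => hι _) m1
    have e0 : _ = lam * (a * Ψ v 0 + b * Ψ v 1) := congrFun (hΨ v) 0
    have e1 : _ = lam * (c * Ψ v 0 + e * Ψ v 1) := congrFun (hΨ v) 1
    have md := mul_mem ml (sub_mem (mul_mem ma me) (mul_mem mb mc))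
    simp only [Matrix.cons_val_zero, Matrix.cons_val_one] at e0 e1
    fin_cases i
    · convert div_mem (sub_mem (mul_mem me m2) (mul_mem mb m3)) md using 1
      rw [e0, e1, eq_div_iff (mul_ne_zero hlam hdet)]; simp only [Fin.zero_eta]; ring
    · convert div_mem (sub_mem (mul_mem ma m3) (mul_mem mc m2)) md using 1
      rw [e0, e1, eq_div_iff (mul_ne_zero hlam hdet)]; simp only [Fin.mk_one]; ring
  have tp : ∀ (n : ℕ) (v : Fin 2 → PadicAlgCl p) (μ : PadicAlgCl p)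
      (x : Fin 2 → AlgebraicClosure K), μ ≠ 0 → mv a b c e v = μ • φ ∘ x →
      ∃ μ' : PadicAlgCl p, μ' ≠ 0 ∧ mv a b c e (Ψ^[n] v) = μ' • φ ∘ (ev F G)^[n] x := by
    intro n v μ x hμ hv
    induction n with
    | zero => exact ⟨μ, hμ, hv⟩
    | succ n ih =>
      obtain ⟨μ', h1, h2⟩ := ih
      refine ⟨lam⁻¹ * μ' ^ l ^ j, mul_ne_zero (inv_ne_zero hlam) (pow_ne_zero _ h1), ?_⟩
      rw [Function.iterate_succ_apply', Function.iterate_succ_apply', ev_map, mul_smul,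
        ← ev_smul hF hG, ← h2, hΨ', smul_smul, inv_mul_cancel₀ hlam, one_smul]
  have tq : ∀ {v w : Fin 2 → PadicAlgCl p} {μ ν : PadicAlgCl p} {x y : Fin 2 → AlgebraicClosure K},
      μ ≠ 0 → ν ≠ 0 → mv a b c e v = μ • φ ∘ x → mv a b c e w = ν • φ ∘ y →
      (dt v w = 0 ↔ dt x y = 0) := fun {v w μ ν x y} h1 h2 h3 h4 => by
    have := dt_mv a b c e v w
    rw [h3, h4, dt_smul, dt_map] at this
    rw [← mul_eq_zero_iff_left hdet, ← this, mul_eq_zero_iff_left (mul_ne_zero h1 h2), map_eq_zero]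
  have base : ∀ (n : ℕ) (x : Fin 2 → K), dt ((ev F G)^[n] (algebraMap K (AlgebraicClosure K) ∘ x))
      β' = 0 ↔ dt ((ev F G)^[n] x) β = 0 := fun n x => by
    have := ev_iter_map (F := F) (G := G) (Algebra.ofId K (AlgebraicClosure K)) n x
    rw [show ⇑(Algebra.ofId K (AlgebraicClosure K)) = algebraMap K _ from rfl] at this
    rw [← this, dt_map, map_eq_zero]
  obtain ⟨b0, ν, hν, nb, hb0, eb⟩ := exists_norm hdet L ma mb mc me (inj hβ0)
    fun i => hφ (β i)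
  obtain ⟨N0, hN0⟩ := local_bound hε hl hj hs he hθ Gd L hL hb0 nb fun P hP a => by
    obtain ⟨μ, h1, h2⟩ := tp P _ _ _ hν eb
    exact hw P hP ((base P β).mp ((tq h1 hν h2 eb).mp a))
  obtain ⟨N1, hN1⟩ := north hd hF hG h hβ hw
  obtain ⟨Bad, A, hA, hB, hB'⟩ := hN0 (max N0 N1) (le_max_left _ _)
  set N := max N0 N1
  have conj : ∀ (σ : AlgebraicClosure K ≃ₐ[K] AlgebraicClosure K) (n : ℕ) (z : AlgebraicClosure K),
      (ev F G)^[n] ![σ z, 1] = σ ∘ (ev F G)^[n] ![z, 1] := fun σ n z => by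
    refine Eq.trans ?_ (ev_iter_map (σ : AlgebraicClosure K →ₐ[K] AlgebraicClosure K) n _).symm
    congr 1
    ext i; fin_cases i <;> simp
  have conj' : ∀ (σ : AlgebraicClosure K ≃ₐ[K] AlgebraicClosure K) (n : ℕ) (z : AlgebraicClosure K),
      dt ((ev F G)^[n] ![z, 1]) β' = 0 → dt ((ev F G)^[n] ![σ z, 1]) β' = 0 := fun σ n z a => by
    have : β' = σ ∘ β' := funext fun i => (σ.commutes (β i)).symm
    rw [conj, this, dt_map, a, map_zero]
  have deg : ∀ k z, dt ((ev F G)^[N + k] ![z, 1]) β' = 0 →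
      (l ^ j) ^ k ≤ A * Module.finrank ℚ_[p] L * (minpoly K z).natDegree := by
    have loc : ∀ k z, dt ((ev F G)^[N + k] ![z, 1]) β' = 0 →
        (l ^ j) ^ k ≤ A * Module.finrank ℚ_[p] L * (minpoly K z).natDegree ∨
        ∃ (y : Fin 2 → PadicAlgCl p) (μ : PadicAlgCl p), μ ≠ 0 ∧ Bad y ∧
          mv a b c e y = μ • φ ∘ (ev F G)^[k] ![z, 1] := fun k z hz => by
      obtain ⟨M, hM, hLM, hzM, hr⟩ := exists_compositum (φ : _ →+* _) L
        hφ z
      obtain ⟨v, μ, hμ, nv, hv, ev0⟩ := exists_norm hdet M (hLM ma) (hLM mb) (hLM mc) (hLM me)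
        (x := φ ∘ ![z, 1]) (inj (by simp)) fun i => by
          fin_cases i
          · exact hzM
          · simpa using one_mem M
      obtain ⟨μ', h1, h2⟩ := tp k _ _ _ hμ ev0
      by_cases hb : Bad (Ψ^[k] v)
      · exact Or.inr ⟨_, μ', h1, hb, h2⟩
      obtain ⟨μ'', h3, h4⟩ := tp N _ _ _ h1 h2
      refine Or.inl ((hB' k v M hM hLM hv nv ((tq h3 hν h4 eb).mpr ?_) hb).trans ?_)
      · rwa [← Function.iterate_add_apply]
      · rw [mul_assoc]; exact Nat.mul_le_mul_left _ hr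
    intro k z hz
    have y0 : (ev F G)^[k] ![z, 1] ≠ 0 := ev_ne h (AlgHom.id K _) k (by simp)
    obtain ⟨σ, hσ⟩ : ∃ σ : AlgebraicClosure K ≃ₐ[K] AlgebraicClosure K,
        dt (σ ∘ (ev F G)^[k] ![z, 1]) ((ev F G)^[k] ![z, 1]) ≠ 0 := by
      by_contra hc
      push Not at hc
      rw [Function.iterate_add_apply] at hz
      generalize (ev F G)^[k] ![z, 1] = y at *
      obtain ⟨x, t, rfl⟩ : ∃ (x : Fin 2 → K) (t : AlgebraicClosure K),
          y = t • algebraMap K (AlgebraicClosure K) ∘ x := by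
        by_cases h1 : y 1 = 0
        · exact ⟨![1, 0], y 0, by ext i; fin_cases i <;> simp [h1]⟩
        · obtain ⟨x, hx⟩ := (InfiniteGalois.mem_range_algebraMap_iff_fixed (k := K) (y 0 / y 1)).mpr
            fun σ => by
              rw [map_div₀, div_eq_div_iff ((map_ne_zero σ).mpr h1) h1, mul_comm (y 0)]
              exact sub_eq_zero.mp (hc σ)
          exact ⟨![x, 1], y 1, by ext i; fin_cases i <;> simp [hx, mul_div_cancel₀ _ h1]⟩
      have e := dt_smul (t ^ (l ^ j) ^ N) 1 ((ev F G)^[N] (algebraMap K (AlgebraicClosure K) ∘ x)) β'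
      rw [one_smul, ← ev_iter_smul hF hG, hz, mul_one] at e
      refine hN1 N (le_max_right _ _) x (fun a => y0 (by rw [a]; ext i; simp)) ((base N x).mp ?_)
      exact (mul_eq_zero.mp e.symm).resolve_left (pow_ne_zero _ (left_ne_zero_of_smul y0))
    rcases loc k z hz with a | ⟨y, μ, h1, h2, h3⟩
    · exact a
    rcases loc k (σ z) (conj' σ _ z hz) with a | ⟨y', μ', h1', h2', h3'⟩
    · rwa [minpoly.algEquiv_eq] at a
    rw [conj] at h3'
    exact absurd ((tq h1' h1 h3' h3).mp (hB _ _ h2' h2)) hσ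
  refine ⟨A * Module.finrank ℚ_[p] L * (l ^ j) ^ N + 1, fun n => ?_⟩
  let H : MvPolynomial (Fin 2) K := C (β 1) * (ev F G)^[n] X 0 - C (β 0) * (ev F G)^[n] X 1
  have hH : H.IsHomogeneous ((l ^ j) ^ n) :=
    ((iter_hom hF hG n 0).C_mul _).sub ((iter_hom hF hG n 1).C_mul _)
  have eH : ∀ v : Fin 2 → AlgebraicClosure K, aeval v H = dt ((ev F G)^[n] v) β' := fun v => by
    simp only [H, map_sub, map_mul, aeval_C, aeval_iter, dt, hβ', Function.comp]; ring
  have h0 : (aeval ![Polynomial.X, 1] H : Polynomial K) ≠ 0 := fun a => by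
    have := Polynomial.homogenize_eq_of_isHomogeneous hH a
    rw [Polynomial.homogenize_zero] at this
    refine hw (n + 1) n.succ_pos ((base n (ev F G β)).mp ?_)
    rw [← eH, ← this, map_zero]
  let R := ((aeval ![Polynomial.X, 1] H : Polynomial K).aroots (AlgebraicClosure K)).toFinset
  have hR : ∀ z, z ∈ R ↔ dt ((ev F G)^[n] ![z, 1]) β' = 0 := fun z => by
    rw [Multiset.mem_toFinset, Polynomial.mem_aroots, aeval_dehom, eH, and_iff_right h0]
  have hRc : R.card ≤ (l ^ j) ^ n := (Multiset.toFinset_card_le _).trans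
    ((Polynomial.card_roots' _).trans (Polynomial.natDegree_map_le.trans (dehom_deg hH)))
  obtain ⟨S, h1, h2, h3⟩ := count_orbits R fun x hx σ => (hR _).mpr (conj' σ n x ((hR _).mp hx))
  have hA' : 0 < A * Module.finrank ℚ_[p] L := Nat.mul_pos hA Module.finrank_pos
  refine ⟨insert ![1, 0] (S.image fun z => ![z, 1]), (card_insert_le _ _).trans
    (Nat.succ_le_succ (card_image_le.trans ?_)), fun v hv hv' => ?_⟩
  · rcases le_or_gt N n with h | h
    · obtain ⟨k, rfl⟩ := Nat.exists_eq_add_of_le h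
      have h4 := h2 _ _ fun x hx => deg k x ((hR x).mp hx)
      refine Nat.le_of_mul_le_mul_left (h4.trans ((Nat.mul_le_mul_left _ hRc).trans ?_))
        (pow_pos (by omega) k)
      rw [pow_add]; ring_nf; exact le_rfl
    · exact (h1.trans hRc).trans ((Nat.pow_le_pow_right (by omega) h.le).trans
        (Nat.le_mul_of_pos_left _ hA'))
  by_cases v1 : v 1 = 0
  · exact ⟨_, mem_insert_self _ _, 1, v 0, fun a => hv (by ext i; fin_cases i <;> assumption),
      by ext i; fin_cases i <;> simp [v1]⟩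
  have e : v = v 1 • ![v 0 / v 1, 1] := by ext i; fin_cases i <;> simp [mul_div_cancel₀ _ v1]
  have e2 := dt_smul (v 1 ^ (l ^ j) ^ n) 1 ((ev F G)^[n] ![v 0 / v 1, 1]) β'
  rw [one_smul, ← ev_iter_smul hF hG, ← e, hv', mul_one] at e2
  obtain ⟨t, ht, σ, hσ⟩ := h3 _ ((hR _).mpr
    ((mul_eq_zero.mp e2.symm).resolve_left (pow_ne_zero _ v1)))
  refine ⟨_, mem_insert_of_mem (mem_image_of_mem _ ht), σ, v 1, v1, e.trans ?_⟩
  congr 1
  ext i; fin_cases i <;> simp [hσ]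

end Pool.Agent.Lib.MP_a2c890_nt
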