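import Pool.Agent.Lib.MP_a2c890_nt.IntF

set_option autoImplicit false
set_option linter.unusedSectionVars false

namespace Pool.Agent.Lib.MP_a2c890_nt

open Finset MvPolynomial

theorem Dk_zero {F : Type*} [CommRing F] (v : Fin 2 → F) : ∀ n, Dk 0 (n + 1) v = v 0 ^ (n + 1)
  | 0 => by simp [Dk]
  | n + 1 => by rw [Dk, Dk_zero v n]; ring

theorem Dk_neg {F : Type*} [CommRing F] (ε : F) (v : Fin 2 → F) :
    ∀ n, Dk ε n ![-v 0, v 1] = (-1) ^ n * Dk ε n v
  | 0 => by simp [Dk]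
  | 1 => by simp [Dk]
  | n + 2 => by
    simp only [Dk, Dk_neg ε v (n + 1), Dk_neg ε v n, Matrix.cons_val_zero, Matrix.cons_val_one]
    ring

variable {p : ℕ} [hp : Fact p.Prime]

theorem cheb_frob {j : ℕ} :
    Lip ‖(p : PadicAlgCl p)‖ fun v : Fin 2 → PadicAlgCl p => Dk 1 (p ^ j) v - v 0 ^ p ^ j := by
  have h1 : ∀ n, Polynomial.dickson 1 (1 : ZMod p) (p ^ n) = Polynomial.X ^ p ^ n := fun n => by
    induction n with
    | zero => simp
    | succ n ih =>
      rw [pow_succ, Polynomial.dickson_one_one_mul, ih, Polynomial.dickson_one_one_zmod_p,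
        Polynomial.X_pow_comp, ← pow_mul, mul_comm]
  refine (Lip.eval (norm_nonneg _) (((Polynomial.dickson 1 (1 : ℤ) (p ^ j) -
    Polynomial.X ^ p ^ j).map (Int.castRingHom _)).homogenize (p ^ j)) fun m => ?_).congr
      fun v => ?_
  · rw [Polynomial.coeff_homogenize]
    split_ifs
    · have h2 := congrArg (Polynomial.coeff · (m 0)) (show (Polynomial.dickson 1 (1 : ℤ) (p ^ j) -
        Polynomial.X ^ p ^ j).map (Int.castRingHom (ZMod p)) = 0 by
          rw [Polynomial.map_sub, Polynomial.map_dickson, map_one, h1]; simp)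
      simp only [Polynomial.coeff_map, Polynomial.coeff_zero, eq_intCast] at h2 ⊢
      obtain ⟨k, hk⟩ := (ZMod.intCast_zmod_eq_zero_iff_dvd _ _).mp h2
      rw [hk, Int.cast_mul, Int.cast_natCast]
      exact mul_le1 le_rfl (IsUltrametricDist.norm_intCast_le_one _ k)
    · simp
  · rw [Polynomial.map_sub, Polynomial.map_dickson, map_one, Polynomial.homogenize_sub, map_sub,
      (eval_dickson 1 v _).2, Polynomial.map_pow, Polynomial.map_X,
      Polynomial.homogenize_X_pow le_rfl]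
    simp

theorem good_cheb {l j : ℕ} (hl : l.Prime) (hj : 0 < j) {θ : ℝ} (hθ : θ < 1)
    {Ψ : (Fin 2 → PadicAlgCl p) → Fin 2 → PadicAlgCl p}
    (hom : ∀ (c : PadicAlgCl p) v, Ψ (c • v) = c ^ l ^ j • Ψ v)
    (h0 : Lip θ fun v => Ψ v 0 - Dk 1 (l ^ j) v) (h1 : Lip θ fun v => Ψ v 1 - v 1 ^ l ^ j) :
    ∃ (ε : PadicAlgCl p) (η : ℝ), (ε = 0 ∨ ε = 1) ∧ η < 1 ∧ Good l (l ^ j) ε 1 1 η Ψ := by
  by_cases h : l = p
  · subst h
    refine ⟨0, _, Or.inl rfl, max_lt hθ np1, good_base (Or.inl rfl) hl hj (fun _ => rfl)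
      (max_lt hθ np1) hom (((h0.mono (le_max_left _ _)).add
        ((cheb_frob (j := j)).mono (le_max_right _ _))).congr fun v => ?_)
      (h1.mono (le_max_left _ _))⟩
    have := Dk_zero v (l ^ j - 1)
    rw [Nat.sub_add_cancel (pow_pos hl.pos j)] at this
    rw [this]; ring
  · exact ⟨1, θ, Or.inr rfl, hθ, good_base (Or.inr rfl) hl hj (fun a => absurd a h) hθ hom h0 h1⟩

theorem core2 {K : Type*} [Field K] [NumberField K] {F G : MvPolynomial (Fin 2) K} {d : ℕ}
    (hd : IsPrimePow d) (hF : F.IsHomogeneous d) (hG : G.IsHomogeneous d)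
    (h : ∀ v : Fin 2 → AlgebraicClosure K, aeval v F = 0 → aeval v G = 0 → v = 0)
    (ι : K →+* PadicAlgCl p) {a b c e lam : PadicAlgCl p} {θ : ℝ}
    (hdet : a * e - b * c ≠ 0) (hlam : lam ≠ 0) (hθ : θ < 1)
    {Ψ : (Fin 2 → PadicAlgCl p) → Fin 2 → PadicAlgCl p}
    (hΨ : ∀ v, ![eval₂ ι (mv a b c e v) F, eval₂ ι (mv a b c e v) G] = lam • mv a b c e (Ψ v))
    (hm : ((Lip θ fun v => Ψ v 0 - v 0 ^ d) ∧ Lip θ fun v => Ψ v 1 - v 1 ^ d) ∨
      ((Lip θ fun v => Ψ v 0 - v 1 ^ d) ∧ Lip θ fun v => Ψ v 1 - v 0 ^ d) ∨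
      ((Lip θ fun v => Ψ v 0 - Dk 1 d v) ∧ Lip θ fun v => Ψ v 1 - v 1 ^ d) ∨
      ((Lip θ fun v => Ψ v 0 + Dk 1 d v) ∧ Lip θ fun v => Ψ v 1 - v 1 ^ d))
    {β : Fin 2 → K} (hβ : β ≠ 0) (hw : ∀ P, 0 < P → dt ((ev F G)^[P] β) β ≠ 0) :
    ∃ C : ℕ, ∀ n : ℕ, ∃ S : Finset (Fin 2 → AlgebraicClosure K), S.card ≤ C ∧
      ∀ v : Fin 2 → AlgebraicClosure K, v ≠ 0 →
        dt ((ev F G)^[n] v) (algebraMap K (AlgebraicClosure K) ∘ β) = 0 →
        ∃ s ∈ S, ∃ σ : AlgebraicClosure K ≃ₐ[K] AlgebraicClosure K,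
          ∃ c : AlgebraicClosure K, c ≠ 0 ∧ v = c • fun i => σ (s i) := by
  obtain ⟨l, j, hl, hj, rfl⟩ := (isPrimePow_nat_iff d).mp hd
  have hom : ∀ (t : PadicAlgCl p) v, Ψ (t • v) = t ^ l ^ j • Ψ v := fun t v => by
    let := ι.toAlgebra
    have e1 : ev F G _ = _ := hΨ (t • v)
    have e2 : ev F G _ = _ := hΨ v
    rw [show mv a b c e (t • v) = t • mv a b c e v by ext i; fin_cases i <;> simp [mv] <;> ring,
      ev_smul hF hG, e2] at e1
    have e3 := congrFun e1 0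
    have e4 := congrFun e1 1
    simp only [mv, Pi.smul_apply, smul_eq_mul, Matrix.cons_val_zero, Matrix.cons_val_one] at e3 e4
    ext i
    refine mul_left_cancel₀ (mul_ne_zero hlam hdet) ?_
    fin_cases i
    · simp only [Fin.zero_eta, Pi.smul_apply, smul_eq_mul]
      linear_combination -e * e3 + b * e4
    · simp only [Fin.mk_one, Pi.smul_apply, smul_eq_mul]
      linear_combination c * e3 - a * e4
  have D0 : ∀ v : Fin 2 → PadicAlgCl p, Dk 0 (l ^ j) v = v 0 ^ l ^ j := fun v => by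
    have := Dk_zero v (l ^ j - 1)
    rwa [Nat.sub_add_cancel (pow_pos hl.pos j)] at this
  rcases hm with ⟨h0, h1⟩ | ⟨h0, h1⟩ | ⟨h0, h1⟩ | ⟨h0, h1⟩
  · exact core hl hj hF hG h ι hdet hlam (Or.inl rfl) (Or.inl rfl) (Or.inl rfl) hθ
      (good_base (Or.inl rfl) hl hj (fun _ => rfl) hθ hom (h0.congr fun v => by rw [D0]) h1) hΨ hβ hw
  · have g := (good_base (Ψ := fun v => ![Ψ v 1, Ψ v 0]) (Or.inl rfl) hl hj (fun _ => rfl) hθ
      (fun t v => by rw [hom]; ext i; fin_cases i <;> rfl) (h1.congr fun v => by rw [D0]; rfl)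
      h0).swap
    exact core hl hj hF hG h ι hdet hlam (Or.inl rfl) (Or.inl rfl) (Or.inr rfl) hθ g
      (fun v => (hΨ v).trans rfl) hβ hw
  · obtain ⟨ε, η, h2, h3, g⟩ := good_cheb hl hj hθ hom h0 h1
    exact core hl hj hF hG h ι hdet hlam h2 (Or.inl rfl) (Or.inl rfl) h3 g hΨ hβ hw
  by_cases hp2 : p = 2
  · subst hp2
    obtain ⟨ε, η, h2, h3, g⟩ := good_cheb hl hj (max_lt hθ (np1 (p := 2))) hom
      (((h0.mono (le_max_left _ _)).sub ((Lip.const (le_max_right _ _)).mul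
        (Dk_lip (ε := 1) norm_one.le (l ^ j)))).congr fun v => by push_cast; ring)
      (h1.mono (le_max_left _ _))
    exact core hl hj hF hG h ι hdet hlam h2 (Or.inl rfl) (Or.inl rfl) h3 g hΨ hβ hw
  by_cases hl2 : l = 2
  · subst hl2
    have cmp : ∀ {R : (Fin 2 → PadicAlgCl p) → PadicAlgCl p}, Lip θ R →
        Lip θ fun v => R ![-v 0, v 1] := fun hR v w hv hw => by
      have n : ∀ u : Fin 2 → PadicAlgCl p, ‖![-u 0, u 1]‖ ≤ ‖u‖ := fun u =>
        nv_le (by simpa using norm_le_pi_norm u 0) (norm_le_pi_norm u 1)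
      obtain ⟨a1, a2⟩ := hR _ _ ((n v).trans hv) ((n w).trans hw)
      refine ⟨a1, a2.trans (mul_le_mul_of_nonneg_left (le_trans (le_of_eq ?_) (n (v - w)))
        hR.nonneg)⟩
      congr 1
      ext i; fin_cases i <;> simp [neg_add_eq_sub]
    obtain ⟨ε, η, h2, h3, g⟩ := good_cheb (Ψ := fun v => ![-Ψ ![-v 0, v 1] 0, Ψ ![-v 0, v 1] 1])
      hl hj hθ (fun t v => by
        rw [show ![-(t • v) 0, (t • v) 1] = t • ![-v 0, v 1] by ext i; fin_cases i <;> simp, hom]
        ext i; fin_cases i <;> simp)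
      (((cmp h0).mul (Lip.const (c := -1) (by simp))).congr fun v => by
        rw [Dk_neg, Even.neg_one_pow (by simp [Nat.even_pow, hj.ne'])]
        simp only [Matrix.cons_val_zero]; ring)
      ((cmp h1).congr fun v => by simp only [Matrix.cons_val_one, Matrix.cons_val_zero])
    refine core hl hj hF hG h ι (a := -a) (b := b) (c := -c) (e := e)
      (fun x => hdet (by linear_combination -x)) hlam h2 (Or.inl rfl) (Or.inl rfl) h3 g
      (fun v => ?_) hβ hw
    have := hΨ ![-v 0, v 1]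
    simp only [mv, Matrix.cons_val_zero, Matrix.cons_val_one, mul_neg, neg_mul, neg_neg] at this ⊢
    exact this
  obtain ⟨ε, η, h2, h3, g⟩ := good_cheb (Ψ := fun v => ![-Ψ v 0, Ψ v 1]) hl hj hθ
    (fun t v => by rw [hom]; ext i; fin_cases i <;> simp)
    ((h0.mul (Lip.const (c := -1) (by simp))).congr fun v => by
      simp only [Matrix.cons_val_zero]; ring) h1
  exact core hl hj hF hG h ι hdet hlam h2 (Or.inr ⟨rfl, hl2⟩) (Or.inl rfl) h3 (g.neg hp2)
    (fun v => (hΨ v).trans (by simp [mv])) hβ hw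

theorem exists_theta (P : MvPolynomial (Fin 2) (PadicAlgCl p)) (h : ∀ m, ‖P.coeff m‖ < 1) :
    ∃ θ < 1, Lip θ fun v => eval v P := by
  refine ⟨(P.support.sup fun m => ‖P.coeff m‖₊ : NNReal), ?_, Lip.eval (NNReal.coe_nonneg _) P
    fun m => ?_⟩
  · exact_mod_cast (Finset.sup_lt_iff (by simp)).mpr fun m _ => show ‖P.coeff m‖₊ < 1 from h m
  · by_cases hm : m ∈ P.support
    · exact_mod_cast Finset.le_sup (f := fun m => ‖P.coeff m‖₊) hm
    · rw [notMem_support_iff.mp hm, norm_zero]; exact NNReal.coe_nonneg _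

/-- an element that is integral under every embedding into every `PadicAlgCl p` is integral -/
theorem int_of_emb {K : Type*} [Field K] [NumberField K] {x : K}
    (h : ∀ (p : ℕ) [Fact p.Prime] (ι : K →+* PadicAlgCl p), ‖ι x‖ ≤ 1) : IsIntegral ℤ x := by
  have hi : IsIntegral ℚ x := Algebra.IsIntegral.isIntegral x
  have hc : ∀ i, ((minpoly ℚ x).coeff i).den = 1 := fun i => by
    by_contra hn
    obtain ⟨p, hp, hd⟩ := Nat.exists_prime_and_dvd hn
    have := Fact.mk hp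
    have hm := (minpoly.monic hi).map (algebraMap ℚ (PadicAlgCl p))
    have h1 : IntP ((minpoly ℚ x).map (algebraMap ℚ (PadicAlgCl p))) := by
      rw [(IsAlgClosed.splits _).eq_prod_roots_of_monic hm]
      refine Multiset.prod_induction IntP _ (fun _ _ => IntP.mul) IntP.one fun q hq => ?_
      obtain ⟨y, hy, rfl⟩ := Multiset.mem_map.mp hq
      have : y ∈ (minpoly ℚ x).rootSet (PadicAlgCl p) := by
        rw [Polynomial.mem_rootSet_of_ne (minpoly.ne_zero hi), ← Polynomial.eval_map_algebraMap]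
        exact (Polynomial.mem_roots hm.ne_zero).mp hy
      rw [← NumberField.Embeddings.range_eval_eq_rootSet_minpoly] at this
      obtain ⟨φ, rfl⟩ := this
      intro k
      rw [Polynomial.coeff_sub, Polynomial.coeff_X, Polynomial.coeff_C]
      refine sub_le ?_ ?_ <;> split_ifs <;> simp [h p φ]
    have h2 := h1 i
    rw [Polynomial.coeff_map] at h2
    set r := (minpoly ℚ x).coeff i
    have e : (r.num : PadicAlgCl p) = algebraMap ℚ _ r * r.den := by
      rw [eq_ratCast, Rat.cast_def, div_mul_cancel₀ _ (Nat.cast_ne_zero.mpr r.den_nz)]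
    have h3 : ‖(r.num.natAbs : PadicAlgCl p)‖ = 1 :=
      norm_coprime np1 (Nat.Coprime.coprime_dvd_left hd r.reduced.symm)
    have h4 : ‖(r.num : PadicAlgCl p)‖ < 1 := by
      obtain ⟨k, hk⟩ := hd
      rw [e, hk, Nat.cast_mul, mul_comm]
      exact mul_lt1 (mul_lt1 np1 (ncast_le _)) h2
    rw [Nat.cast_natAbs] at h3
    rcases abs_choice r.num with a | a <;> rw [a] at h3
    · exact h4.ne h3
    · rw [Int.cast_neg, norm_neg] at h3; exact h4.ne h3
  obtain ⟨q, hq, -, hq'⟩ := Polynomial.lifts_and_degree_eq_and_monic (f := algebraMap ℤ ℚ)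
    ((Polynomial.lifts_iff_coeff_lifts _).mpr fun i => ⟨_, (Rat.den_eq_one_iff _).mp (hc i)⟩)
    (minpoly.monic hi)
  refine ⟨q, hq', ?_⟩
  rw [← Polynomial.aeval_def, ← Polynomial.aeval_map_algebraMap ℚ, hq, minpoly.aeval]

end Pool.Agent.Lib.MP_a2c890_nt
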