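import Pool.Agent.Lib.MP_a2c890_nt.IntG

set_option autoImplicit false

namespace Pool.Agent.Lib.MP_a2c890_nt

open NumberField MvPolynomial

theorem quad_main (K : Type) [Field K] [NumberField K] (a b c : K) (ha : a ≠ 0)
    (h : ∀ ε : (𝓞 K)ˣ, (8 : 𝓞 K) ∣ (ε : 𝓞 K) - 1 →
      (4 * a * c + 2 * b - b ^ 2) * (((ε : 𝓞 K) : K) - 1) = 8 → IsOfFinOrder ε)
    (β : K) (hβ : ∀ m : ℕ, 0 < m → (fun x : K => a * x ^ 2 + b * x + c)^[m] β ≠ β) :
    ∃ N : ℕ, ∀ n : ℕ, ∃ S : Finset (AlgebraicClosure K), S.card ≤ N ∧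
      ∀ x : AlgebraicClosure K,
        (fun y : AlgebraicClosure K =>
          algebraMap K _ a * y ^ 2 + algebraMap K _ b * y + algebraMap K _ c)^[n] x =
          algebraMap K _ β →
        ∃ s ∈ S, ∃ σ : AlgebraicClosure K ≃ₐ[K] AlgebraicClosure K, x = σ s := by
  classical
  set k : K := a * c + b / 2 - b ^ 2 / 4 with hk
  obtain ⟨p, hp, ι, x, hx⟩ : ∃ (p : ℕ) (_ : Fact p.Prime) (ι : K →+* PadicAlgCl p)
      (x : PadicAlgCl p), (‖2 * x‖ < 1 ∧ ‖x ^ 2 + ι k - x‖ < 1) ∨ (x = 0 ∧ ‖ι k + 2‖ < 1) := by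
    by_contra hc
    have c1 : ∀ (p : ℕ) [Fact p.Prime] (ι : K →+* PadicAlgCl p), 1 ≤ ‖ι k‖ := fun p hp ι =>
      not_lt.mp fun l => hc ⟨p, hp, ι, 0, Or.inl ⟨by simp, by simpa using l⟩⟩
    have c2 : ∀ (p : ℕ) [Fact p.Prime] (ι : K →+* PadicAlgCl p), 1 ≤ ‖ι k + 2‖ := fun p hp ι =>
      not_lt.mp fun l => hc ⟨p, hp, ι, 0, Or.inr ⟨rfl, l⟩⟩
    have c3 : ∀ (p : ℕ) [Fact p.Prime] (ι : K →+* PadicAlgCl p), 1 ≤ ‖4 * ι k‖ := fun p hp ι => by
      by_cases h2 : p = 2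
      · subst h2
        refine not_lt.mp fun l => ?_
        obtain ⟨s, hs⟩ := IsAlgClosed.exists_pow_nat_eq (1 - 4 * ι k) two_pos
        refine hc ⟨2, hp, ι, (1 + s) / 2, Or.inl ⟨?_, ?_⟩⟩
        · have n2 : ‖(2 : PadicAlgCl 2)‖ < 1 := by exact_mod_cast np1 (p := 2)
          rcases mul_lt_cases (a := 1 + s) (b := 1 + s - 2)
            (by rwa [show (1 + s) * (1 + s - 2) = -(4 * ι k) by linear_combination hs, norm_neg])
            with l | l
          · rwa [mul_div_cancel₀ _ two_ne_zero]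
          · have := add_lt l n2
            rwa [sub_add_cancel, ← mul_div_cancel₀ (1 + s) two_ne_zero] at this
        · rw [show ((1 + s) / 2) ^ 2 + ι k - (1 + s) / 2 = 0 by linear_combination hs / 4]
          simp
      · have := norm_coprime (m := 4) (np1 (p := p))
          (((Nat.coprime_primes hp.out Nat.prime_two).mpr h2).pow_right 2)
        rw [norm_mul, show ‖(4 : PadicAlgCl p)‖ = 1 by exact_mod_cast this, one_mul]
        exact c1 p ι
    let ι : K →+* PadicAlgCl 2 := (IsAlgClosed.lift : K →ₐ[ℚ] PadicAlgCl 2)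
    have k0 : k ≠ 0 := fun e => by have := c1 2 ι; rw [e, map_zero, norm_zero] at this; linarith
    have k2 : k + 2 ≠ 0 := fun e => by
      have := c2 2 ι
      rw [← map_ofNat ι 2, ← map_add, e, map_zero, norm_zero] at this; linarith
    have i1 : IsIntegral ℤ (4 * k)⁻¹ := int_of_emb fun p _ ι => by
      rw [map_inv₀, norm_inv, map_mul, map_ofNat]; exact inv_le_one_of_one_le₀ (c3 p ι)
    have i2 : IsIntegral ℤ (k / (k + 2)) := int_of_emb fun p _ ι => by
      rw [map_div₀, norm_div, map_add, map_ofNat, div_le_one (one_pos.trans_le (c2 p ι))]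
      have := sub_le le_rfl ((show ‖(2 : PadicAlgCl p)‖ ≤ 1 by
        exact_mod_cast ncast_le (E := PadicAlgCl p) 2).trans (c2 p ι))
      rwa [add_sub_cancel_right] at this
    let δ : 𝓞 K := ⟨_, i1⟩
    let η : 𝓞 K := ⟨_, i2⟩
    have e : (1 + 8 * δ) * η = 1 := by
      apply RingOfIntegers.coe_injective
      simp only [map_mul, map_add, map_one, map_ofNat]
      change (1 + 8 * (4 * k)⁻¹) * (k / (k + 2)) = 1
      field_simp; ring
    obtain ⟨n, hn, hn'⟩ := isOfFinOrder_iff_pow_eq_one.mp (h (Units.mkOfMulEqOne _ _ e)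
      ⟨δ, by simp⟩ (by
        rw [show 4 * a * c + 2 * b - b ^ 2 = 4 * k by rw [hk]; ring]
        simp only [Units.val_mkOfMulEqOne, map_mul, map_add, map_one, map_ofNat]
        change 4 * k * (1 + 8 * (4 * k)⁻¹ - 1) = 8
        field_simp; ring))
    obtain ⟨r, m, hm, rfl⟩ := Nat.exists_eq_pow_mul_and_not_dvd hn.ne' 2 (by norm_num)
    have e2 := congrArg (fun u : (𝓞 K)ˣ => ι ((u : 𝓞 K) : K)) hn'
    simp only [Units.val_pow_eq_pow_val, Units.val_mkOfMulEqOne, map_mul, map_add, map_one,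
      map_ofNat, map_pow, Units.val_one] at e2
    have n2 : ‖((2 : ℕ) : PadicAlgCl 2)‖ < 1 := np1
    have := root_close n2 ((Nat.Prime.coprime_iff_not_dvd Nat.prime_two).mpr hm) (by
      rw [show (8 : PadicAlgCl 2) = (2 : ℕ) * ((2 : ℕ) * (2 : ℕ)) by norm_num, mul_assoc, norm_mul]
      refine mul_lt_of_lt_one_right np0 (mul_lt1 (mul_lt1 n2 n2.le) ?_)
      change ‖ι (4 * k)⁻¹‖ ≤ 1
      rw [map_inv₀, norm_inv, map_mul, map_ofNat]; exact inv_le_one_of_one_le₀ (c3 2 ι)) e2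
    exact mul_ne_zero (by norm_num) ((map_ne_zero ι).mpr (inv_ne_zero
      (mul_ne_zero (by norm_num) k0))) this
  let F : MvPolynomial (Fin 2) K := C a * X 0 ^ 2 + C b * (X 0 * X 1) + C c * X 1 ^ 2
  have it : ∀ {A : Type} [CommRing A] [Algebra K A] (n : ℕ) (y : A),
      (ev F (X 1 ^ 2))^[n] ![y, 1] =
        ![(fun y => algebraMap K A a * y ^ 2 + algebraMap K A b * y + algebraMap K A c)^[n] y, 1] :=
    fun n y => by
      induction n with
      | zero => rfl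
      | succ n ih =>
        rw [Function.iterate_succ_apply', Function.iterate_succ_apply', ih]
        simp [ev, F]
  have ha' : ι a ≠ 0 := (map_ne_zero ι).mpr ha
  obtain ⟨N, hN⟩ := core2 (F := F) (G := X 1 ^ 2) Nat.prime_two.isPrimePow
    (((isHomogeneous_C_mul_X_pow a 0 2).add
      (((isHomogeneous_X K 0).mul (isHomogeneous_X K 1)).C_mul b)).add
      (isHomogeneous_C_mul_X_pow c 1 2)) (isHomogeneous_X_pow 1 2)
    (fun v h1 h2 => by
      have v1 : v 1 = 0 := by simpa using h2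
      have v0 : v 0 = 0 := by simpa [F, v1, ha] using h1
      ext i; fin_cases i <;> assumption)
    ι (a := (ι a)⁻¹) (b := (x - ι b / 2) / ι a) (c := 0) (e := 1) (lam := 1)
    (θ := max ‖2 * x‖ (min ‖x ^ 2 + ι k - x‖ ‖x ^ 2 + ι k - x + 2‖))
    (by simpa using ha) one_ne_zero
    (by
      rcases hx with ⟨h1, h2⟩ | ⟨rfl, h2⟩
      · exact max_lt h1 (min_lt_of_left_lt h2)
      · exact max_lt (by simp) (min_lt_of_right_lt (by simpa using h2)))
    (Ψ := fun v => ![v 0 ^ 2 + 2 * x * v 0 * v 1 + (x ^ 2 + ι k - x) * v 1 ^ 2, v 1 ^ 2])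
    (fun v => by
      ext i; fin_cases i
      · simp only [F, mv, hk, eval₂_add, eval₂_mul, eval₂_pow, eval₂_C, eval₂_X, map_sub, map_add,
          map_mul, map_div₀, map_pow, map_ofNat, Fin.zero_eta, Matrix.cons_val_zero,
          Matrix.cons_val_one, one_smul]
        field_simp; ring
      · simp [mv])
    (by
      have l1 := ((Lip.const (le_max_left ‖2 * x‖
        (min ‖x ^ 2 + ι k - x‖ ‖x ^ 2 + ι k - x + 2‖))).mul (Lip.co 0)).mul (Lip.co 1)
      have l2 := Lip.const (E := PadicAlgCl p) (c := 0) (norm_zero.trans_le l1.nonneg)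
      rcases min_choice ‖x ^ 2 + ι k - x‖ ‖x ^ 2 + ι k - x + 2‖ with e | e
      · exact Or.inl ⟨(l1.add ((Lip.const (le_max_of_le_right e.ge)).mul ((Lip.co 1).pow 2))).congr
          fun v => by simp only [Matrix.cons_val_zero]; ring, l2.congr fun v => by simp⟩
      · exact Or.inr (Or.inr (Or.inl
          ⟨(l1.add ((Lip.const (le_max_of_le_right e.ge)).mul ((Lip.co 1).pow 2))).congr
          fun v => by simp only [Matrix.cons_val_zero, Dk]; ring, l2.congr fun v => by simp⟩)))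
    (β := ![β, 1]) (by simp) (fun m hm e => hβ m hm (by simpa [it, dt, sub_eq_zero] using e))
  refine ⟨N, fun n => ?_⟩
  obtain ⟨S, h1, h2⟩ := hN n
  refine ⟨S.image fun s => s 0 / s 1, Finset.card_image_le.trans h1, fun y hy => ?_⟩
  obtain ⟨s, hs, σ, u, hu, e⟩ := h2 ![y, 1] (by simp) (by simp [it, dt, hy])
  refine ⟨_, Finset.mem_image_of_mem _ hs, σ, ?_⟩
  have e0 : y = u * σ (s 0) := congrFun e 0
  have e1 : 1 = u * σ (s 1) := congrFun e 1
  rw [map_div₀, ← mul_div_mul_left _ _ hu, ← e0, ← e1, div_one]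

theorem integ_main (K : Type) [Field K] [NumberField K] (d : ℕ) (hd : IsPrimePow d)
    (F G : MvPolynomial (Fin 2) K) (hF : F.IsHomogeneous d) (hG : G.IsHomogeneous d)
    (hFG : ∀ v : Fin 2 → AlgebraicClosure K, aeval v F = 0 → aeval v G = 0 → v = 0)
    (p : ℕ) [Fact p.Prime] (ι : K →+* PadicAlgCl p) (a b c e t : PadicAlgCl p)
    (hdet : a * e - b * c ≠ 0) (ht : t ≠ 0) (P Q P₀ Q₀ : MvPolynomial (Fin 2) (PadicAlgCl p))
    (hP : aeval ![C a * X 0 + C b * X 1, C c * X 0 + C e * X 1] (map ι F) =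
      C t * (C a * P + C b * Q))
    (hQ : aeval ![C a * X 0 + C b * X 1, C c * X 0 + C e * X 1] (map ι G) =
      C t * (C c * P + C e * Q))
    (hred : ∀ m : Fin 2 →₀ ℕ, ‖coeff m (P - P₀)‖ < 1 ∧ ‖coeff m (Q - Q₀)‖ < 1)
    (hmod : (P₀ = X 0 ^ d ∧ Q₀ = X 1 ^ d) ∨ (P₀ = X 1 ^ d ∧ Q₀ = X 0 ^ d) ∨
      (P₀ = (Polynomial.Chebyshev.C (PadicAlgCl p) d).homogenize d ∧ Q₀ = X 1 ^ d) ∨
      (P₀ = -(Polynomial.Chebyshev.C (PadicAlgCl p) d).homogenize d ∧ Q₀ = X 1 ^ d))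
    (β : Fin 2 → K) (hβ : β ≠ 0)
    (hper : ∀ m : ℕ, 0 < m →
      eval β ((fun q : MvPolynomial (Fin 2) K × MvPolynomial (Fin 2) K =>
          (aeval ![q.1, q.2] F, aeval ![q.1, q.2] G))^[m] (X 0, X 1)).1 * β 1 ≠
      eval β ((fun q : MvPolynomial (Fin 2) K × MvPolynomial (Fin 2) K =>
          (aeval ![q.1, q.2] F, aeval ![q.1, q.2] G))^[m] (X 0, X 1)).2 * β 0) :
    ∃ N : ℕ, ∀ n : ℕ, ∃ S : Finset (Fin 2 → AlgebraicClosure K), S.card ≤ N ∧
      ∀ v : Fin 2 → AlgebraicClosure K, v ≠ 0 →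
        aeval v ((fun q : MvPolynomial (Fin 2) K × MvPolynomial (Fin 2) K =>
            (aeval ![q.1, q.2] F, aeval ![q.1, q.2] G))^[n] (X 0, X 1)).1 *
            algebraMap K (AlgebraicClosure K) (β 1) =
          aeval v ((fun q : MvPolynomial (Fin 2) K × MvPolynomial (Fin 2) K =>
            (aeval ![q.1, q.2] F, aeval ![q.1, q.2] G))^[n] (X 0, X 1)).2 *
            algebraMap K (AlgebraicClosure K) (β 0) →
        ∃ s ∈ S, ∃ σ : AlgebraicClosure K ≃ₐ[K] AlgebraicClosure K,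
          ∃ u : AlgebraicClosure K, u ≠ 0 ∧ v = u • (fun i => σ (s i)) := by
  obtain ⟨θ1, h1, L1⟩ := exists_theta _ fun m => (hred m).1
  obtain ⟨θ2, h2, L2⟩ := exists_theta _ fun m => (hred m).2
  replace L1 := L1.mono (le_max_left θ1 θ2)
  replace L2 := L2.mono (le_max_right θ1 θ2)
  have ev1 : ∀ (H : MvPolynomial (Fin 2) K) (v : Fin 2 → PadicAlgCl p),
      eval₂ ι (mv a b c e v) H =
        eval v (aeval ![C a * X 0 + C b * X 1, C c * X 0 + C e * X 1] (map ι H)) := fun H v => by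
    rw [← aeval_eq_eval, comp_aeval_apply, aeval_eq_eval, ← eval₂_eq_eval_map]
    congr 1
    ext i; fin_cases i <;> simp [mv]
  have ch : ∀ v : Fin 2 → PadicAlgCl p,
      eval v ((Polynomial.Chebyshev.C (PadicAlgCl p) d).homogenize d) = Dk 1 d v := fun v => by
    rw [← Polynomial.dickson_one_one_eq_chebyshev_C, (eval_dickson 1 v d).2]
  obtain ⟨N, hN⟩ := core2 hd hF hG hFG ι hdet ht (max_lt h1 h2)
    (Ψ := fun v => ![eval v P, eval v Q])
    (fun v => by rw [ev1, ev1, hP, hQ]; ext i; fin_cases i <;> simp [mv])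
    (by
      rcases hmod with ⟨rfl, rfl⟩ | ⟨rfl, rfl⟩ | ⟨rfl, rfl⟩ | ⟨rfl, rfl⟩
      · exact Or.inl ⟨L1.congr fun v => by simp, L2.congr fun v => by simp⟩
      · exact Or.inr (Or.inl ⟨L1.congr fun v => by simp, L2.congr fun v => by simp⟩)
      · exact Or.inr (Or.inr (Or.inl ⟨L1.congr fun v => by simp [ch], L2.congr fun v => by simp⟩))
      · exact Or.inr (Or.inr (Or.inr ⟨L1.congr fun v => by simp [ch], L2.congr fun v => by simp⟩)))
    hβ (fun m hm h => hper m hm (by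
      rw [iter_pair, ← aeval_eq_eval, aeval_iter, aeval_iter]; exact sub_eq_zero.mp h))
  refine ⟨N, fun n => ?_⟩
  obtain ⟨S, h3, h4⟩ := hN n
  refine ⟨S, h3, fun v hv h => h4 v hv ?_⟩
  rw [iter_pair, aeval_iter, aeval_iter] at h
  exact sub_eq_zero.mpr h

end Pool.Agent.Lib.MP_a2c890_nt
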