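import Pool.Agent.Lib.MP_a2c890_nt.Pair

set_option autoImplicit false
set_option linter.unusedSectionVars false

namespace Pool.Agent.Lib.MP_a2c890_nt

open Polynomial Finset

variable {p : ℕ} [hp : Fact p.Prime]

theorem norm_p : ‖(p : PadicAlgCl p)‖ = (p : ℝ)⁻¹ := by
  rw [← map_natCast (algebraMap ℚ_[p] (PadicAlgCl p)), PadicAlgCl.norm_extends, Padic.norm_p]

theorem p_gt : (1 : ℝ) < p := by exact_mod_cast hp.out.one_lt

theorem np0 : 0 < ‖(p : PadicAlgCl p)‖ := by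
  rw [norm_p]; have := p_gt (p := p); positivity

theorem np1 : ‖(p : PadicAlgCl p)‖ < 1 := by
  rw [norm_p]; exact inv_lt_one_of_one_lt₀ p_gt

theorem norm_aut (L : IntermediateField ℚ_[p] (PadicAlgCl p))
    (σ : PadicAlgCl p ≃ₐ[L] PadicAlgCl p) (x : PadicAlgCl p) : ‖σ x‖ = ‖x‖ :=
  (spectralNorm_eq_of_equiv (σ.restrictScalars ℚ_[p]) x).symm

theorem teich_map {F G : Type*} [NormedField F] [NormedField G] {q : ℕ} (σ : F →+* G) {t : F}
    (h : Teich q t) : Teich q (σ t) := by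
  obtain ⟨k, hk, h⟩ := h
  exact ⟨k, hk, by rw [← map_pow, h]⟩

theorem close_pair (L : IntermediateField ℚ_[p] (PadicAlgCl p)) [FiniteDimensional ℚ_[p] L]
    (f : ℕ → PadicAlgCl p) (h1 : ∀ n, f n ∈ L) (h2 : ∀ n, ‖f n‖ ≤ 1) :
    ∃ a b, a < b ∧ ‖f a - f b‖ < 1 := by
  have : FiniteDimensional ℚ_[p] L.toSubalgebra.toSubmodule := ‹FiniteDimensional ℚ_[p] L›
  have : ProperSpace L.toSubalgebra.toSubmodule := FiniteDimensional.proper ℚ_[p] _
  let g : ℕ → L.toSubalgebra.toSubmodule := fun n => ⟨f n, h1 n⟩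
  obtain ⟨x, -, φ, hφ, hx⟩ := (isCompact_closedBall (0 : L.toSubalgebra.toSubmodule) 1).tendsto_subseq
    (x := g) (fun n => by rw [mem_closedBall_zero_iff]; exact h2 n)
  obtain ⟨N, hN⟩ := Metric.cauchySeq_iff.mp hx.cauchySeq 1 one_pos
  refine ⟨φ N, φ (N + 1), hφ (Nat.lt_succ_self _), ?_⟩
  have := hN N le_rfl (N + 1) (Nat.le_succ _)
  rw [dist_eq_norm] at this
  exact this

theorem exists_teich {x : PadicAlgCl p} (hx : ‖x‖ ≤ 1) : ∃ t, Teich p t ∧ ‖x - t‖ < 1 := by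
  have := IntermediateField.adjoin.finiteDimensional
    (Algebra.IsIntegral.isIntegral (R := ℚ_[p]) x)
  obtain ⟨a, b, hab, h⟩ := close_pair (IntermediateField.adjoin ℚ_[p] {x}) (fun n => x ^ p ^ n)
    (fun n => pow_mem (IntermediateField.mem_adjoin_simple_self _ x) _) (fun n => pow_le1 hx _)
  obtain ⟨k, rfl⟩ := Nat.exists_eq_add_of_lt hab
  have h1 : ‖x - x ^ p ^ (k + 1)‖ < 1 := by
    apply lt_one_of_pow hp.out np1 hx (pow_le1 hx _) a
    rwa [← pow_mul, ← pow_add, show k + 1 + a = a + k + 1 by ring]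
  have h2 : 1 < p ^ (k + 1) := Nat.one_lt_pow (Nat.succ_ne_zero k) hp.out.one_lt
  have hm : (X ^ p ^ (k + 1) - X : (PadicAlgCl p)[X]).Monic :=
    monic_X_pow_sub (by rw [degree_X]; exact_mod_cast h2)
  have e := (IsAlgClosed.splits (X ^ p ^ (k + 1) - X : (PadicAlgCl p)[X])).eval_eq_prod_roots_of_monic
    hm x
  by_contra hcon
  push Not at hcon
  have h3 : 1 ≤ ‖((X ^ p ^ (k + 1) - X : (PadicAlgCl p)[X]).roots.map (x - ·)).prod‖ := by
    refine Multiset.prod_induction (fun y : PadicAlgCl p => 1 ≤ ‖y‖) _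
      (fun y z hy hz => by rw [norm_mul]; exact one_le_mul_of_one_le_of_one_le hy hz) (by simp) ?_
    intro y hy
    obtain ⟨t, ht, rfl⟩ := Multiset.mem_map.mp hy
    refine hcon t ⟨k + 1, Nat.succ_pos _, ?_⟩
    have := (mem_roots hm.ne_zero).mp ht
    simpa [sub_eq_zero] using this
  rw [← e, eval_sub, eval_pow, eval_X, norm_sub_rev] at h3
  linarith

theorem finite_teich (L : IntermediateField ℚ_[p] (PadicAlgCl p)) [FiniteDimensional ℚ_[p] L] :
    {t : PadicAlgCl p | t ∈ L ∧ Teich p t}.Finite := by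
  by_contra hinf
  let f := Set.Infinite.natEmbedding _ hinf
  obtain ⟨a, b, hab, h⟩ := close_pair L (fun n => (f n).1) (fun n => (f n).2.1)
    (fun n => (f n).2.2.norm_le hp.out)
  exact hab.ne (f.injective (Subtype.ext ((f a).2.2.eq_of_lt hp.out np1 (f b).2.2 h)))

theorem exists_move (L : IntermediateField ℚ_[p] (PadicAlgCl p)) {t : PadicAlgCl p} (ht : t ∉ L) :
    ∃ σ : PadicAlgCl p ≃ₐ[L] PadicAlgCl p, σ t ≠ t := by
  by_contra hcon
  push Not at hcon
  have : IsGalois ℚ_[p] (PadicAlgCl p) := IsGalois.mk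
  apply ht
  rw [← InfiniteGalois.fixedField_fixingSubgroup L]
  intro σ
  exact hcon (L.fixingSubgroupEquiv σ)

theorem finite_range_of_periodic {A : Type*} {f : A → A} {x : A} {P : ℕ} (hP : 0 < P)
    (h : f^[P] x = x) : (Set.range fun n => f^[n] x).Finite := by
  refine ((Set.finite_lt_nat P).image fun n => f^[n] x).subset ?_
  rintro _ ⟨n, rfl⟩
  exact ⟨n % P, Nat.mod_lt _ hP, Function.IsPeriodicPt.iterate_mod_apply h n⟩

theorem no_branch {r m : ℕ} (hr : 0 < r) (hm : Nat.Coprime p m) (hd : 0 < p ^ r * m)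
    {c τ : PadicAlgCl p} (hτ : Teich p τ) (h2 : ‖c - τ‖ < 1) {α t : ℕ → PadicAlgCl p}
    (h : Br p (p ^ r * m) c (max ‖(p : PadicAlgCl p)‖ ‖c - τ‖) α t) :
    (Set.range fun n => (fun x => x ^ (p ^ r * m) + c)^[n] (α 0)).Finite := by
  classical
  have h3 : max ‖(p : PadicAlgCl p)‖ ‖c - τ‖ < 1 := max_lt np1 h2
  by_cases hc : c = 0
  · subst hc
    have a := (h.small hp.out np1 hr (le_max_left _ _) h3 (by simp)).2 0
    rw [norm_zero, norm_le_zero_iff, sub_eq_zero] at a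
    obtain ⟨k, hk, hk'⟩ := h.te 0
    have h2 : 1 < p ^ k := Nat.one_lt_pow hk.ne' hp.out.one_lt
    have hm : (X ^ p ^ k - X : (PadicAlgCl p)[X]).Monic :=
      monic_X_pow_sub (by rw [degree_X]; exact_mod_cast h2)
    refine (Multiset.finite_toSet (X ^ p ^ k - X : (PadicAlgCl p)[X]).roots).subset ?_
    rintro _ ⟨n, rfl⟩
    have b : ∀ n, ((fun x => x ^ (p ^ r * m) + 0)^[n] (α 0)) ^ p ^ k =
        (fun x => x ^ (p ^ r * m) + 0)^[n] (α 0) := by
      intro n
      induction n with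
      | zero => rw [a]; exact hk'
      | succ n ih =>
        rw [Function.iterate_succ_apply', add_zero, pow_right_comm, ih]
    refine (mem_roots hm.ne_zero).mpr ?_
    rw [IsRoot.def, eval_sub, eval_pow, eval_X, b, sub_self]
  by_contra hinf
  obtain ⟨B, hB, hE⟩ := exc_all hp.out np0 np1 hr hm hd hc hτ h2
  have fin : ∀ S : Set (PadicAlgCl p), S.Finite → ∃ N, ∀ n, N ≤ n → t n ∉ S := by
    intro S hS
    have : {n | t n ∈ S}.Finite := by
      refine (hS.biUnion (t := fun b => {n | t n = b}) fun b _ => ?_).subset fun n hn => ?_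
      · by_contra hb
        obtain ⟨P, hP, hper⟩ := h.periodic hp.out np1 hr (le_max_left _ _) h3 hb
        exact hinf (finite_range_of_periodic hP hper)
      · exact Set.mem_biUnion hn rfl
    obtain ⟨N, hN⟩ := this.bddAbove
    exact ⟨N + 1, fun n hn hS => by have := hN hS; omega⟩
  obtain ⟨N, hN⟩ := fin _ (hB.insert 0)
  let L := IntermediateField.adjoin ℚ_[p] ({c, α N} : Set (PadicAlgCl p))
  have : FiniteDimensional ℚ_[p] L :=
    IntermediateField.finiteDimensional_adjoin fun x _ => Algebra.IsIntegral.isIntegral x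
  obtain ⟨N', hN'⟩ := fin _ (finite_teich L)
  obtain ⟨σ, hσ⟩ := exists_move L (t := t (N + N')) fun hL =>
    hN' (N + N') (by omega) ⟨hL, h.te _⟩
  have hcL : σ c = c := σ.commutes ⟨c, IntermediateField.subset_adjoin _ _ (by simp)⟩
  have haL : σ (α N) = α N := σ.commutes ⟨α N, IntermediateField.subset_adjoin _ _ (by simp)⟩
  have ex : ∃ j, t (N + j) ≠ σ (t (N + j)) := ⟨N', hσ.symm⟩
  have := hE (fun n => α (N + n)) (fun n => t (N + n)) (fun n => σ (α (N + n)))
    (fun n => σ (t (N + n))) ⟨fun n => h.step _, fun n => h.te _, fun n => h.cl _⟩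
    ⟨fun n => by rw [← map_pow, ← hcL, ← map_add]; exact congrArg σ (h.step _),
      fun n => teich_map (σ : PadicAlgCl p →+* PadicAlgCl p) (h.te _),
      fun n => by rw [← map_sub, norm_aut]; exact h.cl _⟩ haL.symm
    (fun n e => hN (N + n) (by omega) (by rw [e]; exact Set.mem_insert _ _))
    (Nat.find ex) (Nat.find_spec ex) (fun i hi => not_not.mp (Nat.find_min ex hi))
  exact hN _ (by omega) (Set.mem_insert_of_mem _ this)

theorem rigid {r m : ℕ} (hr : 0 < r) (hm : Nat.Coprime p m) (hd : 0 < p ^ r * m)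
    {c τ β : PadicAlgCl p} (hτ : Teich p τ) (h2 : ‖c - τ‖ < 1)
    (hβ : (Set.range fun n => (fun x => x ^ (p ^ r * m) + c)^[n] β).Infinite) :
    ∃ n0, ∀ n, n0 ≤ n → ∀ γ, (fun x => x ^ (p ^ r * m) + c)^[n] γ = β →
      ∀ t, Teich p t → max ‖(p : PadicAlgCl p)‖ ‖c - τ‖ < ‖γ - t‖ := by
  classical
  set θ := max ‖(p : PadicAlgCl p)‖ ‖c - τ‖ with hθ
  set f : PadicAlgCl p → PadicAlgCl p := fun x => x ^ (p ^ r * m) + c with hf
  have h3 : θ < 1 := max_lt np1 h2
  have hc : ‖c‖ ≤ 1 := norm_le_of_near hp.out hτ h2.le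
  let Cl : PadicAlgCl p → Prop := fun x => ∃ t, Teich p t ∧ ‖x - t‖ ≤ θ
  have fwd : ∀ x, Cl x → Cl (f x) := by
    rintro x ⟨t, ht, hx⟩
    obtain ⟨t', ht', h'⟩ := exists_teich (add_le (pow_le1 (ht.norm_le hp.out) (p ^ r * m)) hc)
    refine ⟨t', ht', ?_⟩
    have e : f x - t' = (x ^ (p ^ r * m) - t ^ (p ^ r * m)) + (t ^ (p ^ r * m) + c - t') := by
      rw [hf]; ring
    rw [e]
    exact add_le ((pow_sub_pow_le (norm_le_of_near hp.out ht (hx.trans h3.le))
      (ht.norm_le hp.out) _).trans hx)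
      (teich_step hp.out hτ (le_max_left _ _) (le_max_right _ _) h3 ht ht' h').2
  have fwdn : ∀ n x, Cl x → Cl (f^[n] x) := by
    intro n
    induction n with
    | zero => intro x hx; exact hx
    | succ n ih => intro x hx; rw [Function.iterate_succ_apply]; exact ih _ (fwd x hx)
  let A : PadicAlgCl p → Prop := fun x => ∀ n, ∃ y, f^[n] y = x ∧ Cl y
  have lower : ∀ x n N, n ≤ N → (∃ y, f^[N] y = x ∧ Cl y) → ∃ y, f^[n] y = x ∧ Cl y := by
    rintro x n N hn ⟨y, hy, hy'⟩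
    obtain ⟨k, rfl⟩ := Nat.exists_eq_add_of_le hn
    exact ⟨f^[k] y, by rw [← Function.iterate_add_apply, hy], fwdn k y hy'⟩
  by_contra hcon
  push Not at hcon
  have A0 : A β := by
    intro n
    obtain ⟨N, hN, γ, hγ, t, ht, h⟩ := hcon n
    exact lower β n N hN ⟨γ, hγ, t, ht, h⟩
  have As : ∀ x, A x → ∃ y, f y = x ∧ A y := by
    intro x hx
    by_contra hno
    push Not at hno
    have hS : {y | f y = x}.Finite := by
      refine (Multiset.finite_toSet (nthRoots (p ^ r * m) (x - c))).subset fun y hy => ?_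
      exact (mem_nthRoots hd).mpr (eq_sub_of_add_eq hy)
    have : ∀ y, ∃ n, f y = x → ¬∃ z, f^[n] z = y ∧ Cl z := by
      intro y
      by_cases hy : f y = x
      · obtain ⟨n, hn⟩ := not_forall.mp (hno y hy)
        exact ⟨n, fun _ => hn⟩
      · exact ⟨0, fun h => absurd h hy⟩
    choose g hg using this
    obtain ⟨N, hN⟩ := (hS.image g).bddAbove
    obtain ⟨z, hz, hz'⟩ := hx (N + 1)
    rw [Function.iterate_succ_apply'] at hz
    exact hg _ hz (lower _ _ N (hN ⟨_, hz, rfl⟩) ⟨z, rfl, hz'⟩)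
  choose g hg hg' using As
  let s : ℕ → {x // A x} := fun n => (fun x : {x // A x} => (⟨g x.1 x.2, hg' x.1 x.2⟩ : {x // A x}))^[n]
    ⟨β, A0⟩
  have cl : ∀ n, Cl (s n).1 := fun n => by
    obtain ⟨y, hy, hy'⟩ := (s n).2 0
    rw [← hy]; exact hy'
  choose t ht ht' using cl
  have br : Br p (p ^ r * m) c θ (fun n => (s n).1) t := ⟨fun n => by
    have : s (n + 1) = ⟨g (s n).1 (s n).2, hg' (s n).1 (s n).2⟩ := Function.iterate_succ_apply' _ _ _
    rw [this]; exact hg _ _, ht, ht'⟩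
  exact hβ (no_branch hr hm hd hτ h2 br)

end Pool.Agent.Lib.MP_a2c890_nt
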