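import Pool.Agent.Lib.MP_a2c890_nt.Dyn

set_option autoImplicit false
set_option linter.unusedSectionVars false

namespace Pool.Agent.Lib.MP_a2c890_nt

open Polynomial Finset

section poly
variable {F : Type*} [Field F]

/-- the iterates of the unicritical polynomial -/
noncomputable def itP (d : ℕ) (c : F) : ℕ → F[X]
  | 0 => X
  | k + 1 => itP d c k ^ d + C c

theorem itP_eval (d : ℕ) (c x : F) (k : ℕ) :
    (itP d c k).eval x = (fun y => y ^ d + c)^[k] x := by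
  induction k with
  | zero => simp [itP]
  | succ k ih => rw [Function.iterate_succ_apply', itP, eval_add, eval_pow, eval_C, ih]

theorem itP_monic {d : ℕ} (hd : 0 < d) (c : F) (k : ℕ) :
    (itP d c k).Monic ∧ (itP d c k).natDegree = d ^ k := by
  induction k with
  | zero => simp [itP]
  | succ k ih =>
    have h1 : (itP d c k ^ d).natDegree = d ^ (k + 1) := by
      rw [ih.1.natDegree_pow, ih.2, pow_succ, mul_comm]
    have h2 : 0 < (itP d c k ^ d).natDegree := by rw [h1]; positivity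
    refine ⟨?_, by rw [itP, natDegree_add_C, h1]⟩
    rw [itP]
    exact (ih.1.pow d).add_of_left (degree_C_le.trans_lt (natDegree_pos_iff_degree_pos.mp h2))

theorem finite_roots_one {n : ℕ} (hn : 0 < n) : {x : F | x ^ n = 1}.Finite := by
  classical
  refine (Multiset.finite_toSet (nthRoots n (1 : F))).subset fun x hx => ?_
  exact (mem_nthRoots hn).mpr hx

end poly

variable {E : Type*} [NormedField E] [IsUltrametricDist E]

theorem lead {p r m : ℕ} (hp : p.Prime) (hp0 : 0 < ‖(p : E)‖) (hp1 : ‖(p : E)‖ < 1)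
    (hm : Nat.Coprime p m) (hd : 0 < p ^ r * m) (c lam : E) (k : ℕ) :
    ∃ (P Q : E[X]) (L : E), Q.Monic ∧ P.natDegree < Q.natDegree ∧
      ∀ (T : E) (a Y : ℕ → E), (∀ i < k, a (i + 1) = a i ^ (p ^ r * m) + c) →
        (∀ i ≤ k, ‖a i‖ = 1) → ‖a 0 - T‖ < 1 →
        (∀ i < k, Y (i + 1) = a i ^ (p ^ r * m) * ((1 + Y i) ^ (p ^ r * m) - 1) / a (i + 1)) →
        (∀ i ≤ k, ‖Y i‖ < 1 ∧ ‖(p : E)‖ ≤ ‖Y i‖) → Ap (Y 0) (lam / T) →
        Ap (Y k) (L * P.eval T / Q.eval T) ∧ ‖Q.eval T‖ = 1 ∧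
          ‖(itP (p ^ r * m) c k).eval T - a k‖ < 1 := by
  induction k with
  | zero =>
    refine ⟨1, X, lam, monic_X, by simp, fun T a Y _ h2 h3 _ _ h6 => ⟨by simpa using h6, ?_, ?_⟩⟩
    · rw [eval_X, ← h2 0 le_rfl]
      apply norm_eq_of_sub_lt
      rw [norm_sub_rev, h2 0 le_rfl]; exact h3
    · rw [norm_sub_rev]; simpa [itP] using h3
  | succ k ih =>
    obtain ⟨P, Q, L, hQ, hPQ, h⟩ := ih
    have m1 := itP_monic hd c k
    have m2 := itP_monic hd c (k + 1)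
    refine ⟨P ^ p ^ r * itP (p ^ r * m) c k ^ (p ^ r * m), Q ^ p ^ r * itP (p ^ r * m) c (k + 1),
      m * L ^ p ^ r, (hQ.pow _).mul m2.1, ?_, fun T a Y h1 h2 h3 h4 h5 h6 => ?_⟩
    · rw [(hQ.pow _).natDegree_mul m2.1, hQ.natDegree_pow, m2.2]
      refine natDegree_mul_le.trans_lt ?_
      rw [m1.1.natDegree_pow, m1.2, ← pow_succ']
      refine Nat.add_lt_add_right (natDegree_pow_le.trans_lt ?_) _
      exact Nat.mul_lt_mul_of_pos_left hPQ (pow_pos hp.pos r)
    · obtain ⟨b1, b2, b3⟩ := h T a Y (fun i hi => h1 i (by omega)) (fun i hi => h2 i (by omega)) h3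
        (fun i hi => h4 i (by omega)) (fun i hi => h5 i (by omega)) h6
      have n0 := h2 k (by omega)
      have n1 := h2 (k + 1) le_rfl
      have A0 : Ap ((itP (p ^ r * m) c k).eval T) (a k) := by unfold Ap; rw [n0]; exact b3
      have b4 : ‖(itP (p ^ r * m) c (k + 1)).eval T - a (k + 1)‖ < 1 := by
        rw [h1 k (by omega), itP, eval_add, eval_pow, eval_C, add_sub_add_right_eq_sub]
        exact (pow_sub_pow_le (by rw [A0.norm, n0]) n0.le _).trans_lt b3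
      have A1 : Ap ((itP (p ^ r * m) c (k + 1)).eval T) (a (k + 1)) := by
        unfold Ap; rw [n1]; exact b4
      have e := h4 k (by omega)
      have b5 : ‖(p : E)‖ ≤ ‖(1 + Y k) ^ (p ^ r * m) - 1‖ := by
        have := (h5 (k + 1) le_rfl).2
        rwa [e, norm_div, norm_mul, norm_pow, n0, n1, one_pow, one_mul, div_one] at this
      have A2 := ap_lead hp hp0 hp1 hm (h5 k (by omega)).1 b5
      have hm0 : (m : E) ≠ 0 := norm_pos_iff.mp (by rw [norm_coprime hp1 hm]; exact one_pos)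
      have A3 := ((A0.symm.pow (p ^ r * m)).mul
        (A2.trans ((Ap.refl hm0).mul (b1.pow (p ^ r))))).div A1.symm
      refine ⟨?_, ?_, b4⟩
      · rw [e]
        convert A3 using 1
        rw [eval_mul, eval_mul, eval_pow, eval_pow, eval_pow, div_pow, mul_pow]
        ring
      · rw [eval_mul, eval_pow, norm_mul, norm_pow, b2, A1.norm, n1, one_pow, one_mul]

/-- data extracted from two branches with a common base point -/
theorem pair_data {p r m : ℕ} (hp : p.Prime) (hp1 : ‖(p : E)‖ < 1) (hr : 0 < r)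
    {c : E} {θ : ℝ} (h1 : ‖(p : E)‖ ≤ θ) (h3 : θ < 1) {α t α' t' : ℕ → E}
    (h : Br p (p ^ r * m) c θ α t) (h' : Br p (p ^ r * m) c θ α' t') (h0 : α 0 = α' 0)
    (hne : ∀ n, t n ≠ 0) {j : ℕ} (hj : t j ≠ t' j) (hlt : ∀ i < j, t i = t' i) :
    ∃ (η : E) (Y : ℕ → E) (k : ℕ), Teich p η ∧ η ^ (p ^ r * m) = 1 ∧ η ≠ 1 ∧ t' j = η * t j ∧
      Y 0 = (α' j - η * α j) / (η * α j) ∧ k < j ∧
      (∀ i < j, Y (i + 1) =
        α (j - i) ^ (p ^ r * m) * ((1 + Y i) ^ (p ^ r * m) - 1) / α (j - (i + 1))) ∧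
      (1 + Y k) ^ (p ^ r * m) = 1 ∧ (∀ i < k, Y (i + 1) ≠ 0) ∧ ‖Y 0‖ ≤ θ ∧
      (∀ i < j, ‖Y (i + 1)‖ ≤ θ * ‖Y i‖) := by
  classical
  have hθ : 0 ≤ θ := (norm_nonneg _).trans h1
  have hu : ∀ n, ‖α n‖ = 1 := fun n =>
    norm_eq_of_near hp (h.te n) (hne n) ((h.cl n).trans_lt h3)
  have hu0 : ∀ n, α n ≠ 0 := fun n => norm_pos_iff.mp (by rw [hu n]; exact one_pos)
  have hj0 : j ≠ 0 := by
    rintro rfl
    apply hj
    apply (h.te 0).eq_of_lt hp hp1 (h'.te 0)
    have e : t 0 - t' 0 = (α' 0 - t' 0) - (α 0 - t 0) := by rw [h0]; ring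
    rw [e]; exact sub_lt ((h'.cl 0).trans_lt h3) ((h.cl 0).trans_lt h3)
  obtain ⟨i0, rfl⟩ := Nat.exists_eq_succ_of_ne_zero hj0
  have a1 : t' (i0 + 1) ^ (p ^ r * m) = t (i0 + 1) ^ (p ^ r * m) := by
    apply ((h'.te _).pow _).eq_of_lt hp hp1 ((h.te _).pow _)
    have e : t' (i0 + 1) ^ (p ^ r * m) - t (i0 + 1) ^ (p ^ r * m) =
        (t' (i0 + 1) ^ (p ^ r * m) + c - t' i0) - (t (i0 + 1) ^ (p ^ r * m) + c - t i0) := by
      rw [hlt i0 (Nat.lt_succ_self _)]; ring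
    rw [e]; exact sub_lt (h'.near hp h3 _) (h.near hp h3 _)
  set η := t' (i0 + 1) / t (i0 + 1) with hη
  have hη1 : t' (i0 + 1) = η * t (i0 + 1) := by rw [hη, div_mul_cancel₀ _ (hne _)]
  have hηT : Teich p η := by rw [hη, div_eq_mul_inv]; exact (h'.te _).mul (h.te _).inv
  have hηd : η ^ (p ^ r * m) = 1 := by rw [hη, div_pow, a1, div_self (pow_ne_zero _ (hne _))]
  have hd0 : p ^ r * m ≠ 0 := by
    intro e
    have s1 := h.step 0
    have s2 := h.step (i0 + 1)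
    have s3 := h'.step (i0 + 1)
    rw [e] at s2 s3
    simp only [pow_zero] at s2 s3
    apply hj
    apply (h.te _).eq_of_lt hp hp1 (h'.te _)
    have e : t (i0 + 1) - t' (i0 + 1) = (α' (i0 + 1) - t' (i0 + 1)) - (α (i0 + 1) - t (i0 + 1)) := by
      rw [← s2, ← s3]; ring
    rw [e]; exact sub_lt ((h'.cl _).trans_lt h3) ((h.cl _).trans_lt h3)
  have hη0 : η ≠ 0 := by rintro e; rw [e, zero_pow hd0] at hηd; exact zero_ne_one hηd
  have hηn := hηT.norm_eq hp hη0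
  set Y : ℕ → E := fun k => if k = 0 then (α' (i0 + 1) - η * α (i0 + 1)) / (η * α (i0 + 1))
    else α' (i0 + 1 - k) / α (i0 + 1 - k) - 1 with hY
  have y0 : Y 0 = (α' (i0 + 1) - η * α (i0 + 1)) / (η * α (i0 + 1)) := by simp [hY]
  have ys : ∀ k, Y (k + 1) = α' (i0 + 1 - (k + 1)) / α (i0 + 1 - (k + 1)) - 1 := by
    intro k; simp [hY]
  have ypow : ∀ k, α (i0 + 1 - k) ^ (p ^ r * m) * (1 + Y k) ^ (p ^ r * m) =
      α' (i0 + 1 - k) ^ (p ^ r * m) := by
    intro k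
    rcases k with _ | k
    · have : 1 + Y 0 = α' (i0 + 1) / (η * α (i0 + 1)) := by
        rw [y0]; have := hu0 (i0 + 1); field_simp; ring
      rw [this, div_pow, mul_pow, hηd, one_mul, Nat.sub_zero,
        mul_div_cancel₀ _ (pow_ne_zero _ (hu0 _))]
    · rw [ys, add_sub_cancel, div_pow, mul_div_cancel₀ _ (pow_ne_zero _ (hu0 _))]
  have yrec : ∀ i < i0 + 1, Y (i + 1) = α (i0 + 1 - i) ^ (p ^ r * m) *
      ((1 + Y i) ^ (p ^ r * m) - 1) / α (i0 + 1 - (i + 1)) := by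
    intro i hi
    have e : i0 + 1 - i = (i0 + 1 - (i + 1)) + 1 := by omega
    have s1 := h.step (i0 + 1 - (i + 1))
    have s2 := h'.step (i0 + 1 - (i + 1))
    rw [mul_sub, ypow, ys, e, mul_one, eq_div_iff (hu0 _), sub_mul, div_mul_cancel₀ _ (hu0 _),
      one_mul]
    linear_combination s1 - s2
  have ynorm : ∀ i < i0 + 1, ‖Y (i + 1)‖ = ‖(1 + Y i) ^ (p ^ r * m) - 1‖ := by
    intro i hi
    rw [yrec i hi, norm_div, norm_mul, norm_pow, hu, hu, one_pow, one_mul, div_one]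
  have y0le : ‖Y 0‖ ≤ θ := by
    rw [y0, norm_div, norm_mul, hηn, hu, one_mul, div_one]
    have e : α' (i0 + 1) - η * α (i0 + 1) =
      (α' (i0 + 1) - t' (i0 + 1)) - (α (i0 + 1) - t (i0 + 1)) * η := by rw [hη1]; ring
    rw [e]; exact sub_le (h'.cl _) (mul_le1 (h.cl _) hηn.le)
  have ystep : ∀ i < i0 + 1, ‖Y i‖ ≤ θ → ‖Y (i + 1)‖ ≤ θ * ‖Y i‖ := by
    intro i hi hY
    rw [ynorm i hi]
    have := contr_d (m := m) hp hr (x := 1 + Y i) (y := 1) (add_le (by simp) (hY.trans h3.le))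
      (by simp)
    rw [one_pow, add_sub_cancel_left] at this
    exact this.trans (mul_le_mul_of_nonneg_right (max_le h1 hY) (norm_nonneg _))
  have yle : ∀ i ≤ i0 + 1, ‖Y i‖ ≤ θ := by
    intro i
    induction i with
    | zero => intro _; exact y0le
    | succ i ih =>
      intro hi
      have := ih (by omega)
      exact (ystep i (by omega) this).trans
        (mul_le_of_le_one_right hθ (this.trans h3.le))
  have yex : ∃ k, (1 + Y k) ^ (p ^ r * m) = 1 := by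
    refine ⟨i0, ?_⟩
    have e := ynorm i0 (Nat.lt_succ_self _)
    rw [ys, Nat.sub_self, ← h0, div_self (hu0 0), sub_self, norm_zero] at e
    exact sub_eq_zero.mp (norm_eq_zero.mp e.symm)
  have hk : Nat.find yex ≤ i0 := by
    apply Nat.find_min'
    have e := ynorm i0 (Nat.lt_succ_self _)
    rw [ys, Nat.sub_self, ← h0, div_self (hu0 0), sub_self, norm_zero] at e
    exact sub_eq_zero.mp (norm_eq_zero.mp e.symm)
  refine ⟨η, Y, Nat.find yex, hηT, hηd, ?_, hη1, y0, by omega, yrec, Nat.find_spec yex, ?_, y0le,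
    fun i hi => ystep i hi (yle i hi.le)⟩
  · intro e; rw [e, one_mul] at hη1; exact hj hη1.symm
  · intro i hi e
    have := ynorm i (by omega)
    rw [e, norm_zero] at this
    exact Nat.find_min yex hi (sub_eq_zero.mp (norm_eq_zero.mp this.symm))

/-- the property of the exceptional set -/
def Exc (p d : ℕ) (c : E) (θ : ℝ) (B : Set E) : Prop :=
  ∀ α t α' t' : ℕ → E, Br p d c θ α t → Br p d c θ α' t' → α 0 = α' 0 → (∀ n, t n ≠ 0) →
    ∀ j, t j ≠ t' j → (∀ i < j, t i = t' i) → t j ∈ B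

theorem exc_one {p r m : ℕ} (hp : p.Prime) (hp0 : 0 < ‖(p : E)‖) (hp1 : ‖(p : E)‖ < 1) (hr : 0 < r)
    (hm : Nat.Coprime p m) (hd : 0 < p ^ r * m) {c c' : E} {θ : ℝ} (h1 : ‖(p : E)‖ ≤ θ) (h3 : θ < 1)
    (hc : ∀ α t : ℕ → E, Br p (p ^ r * m) c θ α t → ∀ n, Ap (α n - t n) c') :
    ∃ B : Set E, B.Finite ∧ Exc p (p ^ r * m) c θ B := by
  have hθ : 0 ≤ θ := (norm_nonneg _).trans h1
  choose P Q L hQ hPQ hL using fun (η : E) (k : ℕ) =>
    lead hp hp0 hp1 hm hd c ((1 - η) * c' / η) k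
  obtain ⟨M, hM⟩ := exists_pow_lt_of_lt_one hp0 h3
  refine ⟨⋃ η ∈ {x : E | x ^ (p ^ r * m) = 1}, ⋃ ξ ∈ {x : E | x ^ (p ^ r * m) = 1},
    ⋃ k ∈ {k : ℕ | k < M}, {T | Teich p T ∧ ‖(Q η k - C (L η k / (ξ - 1)) * P η k).eval T‖ < 1},
    ?_, ?_⟩
  · refine (finite_roots_one hd).biUnion fun η _ => (finite_roots_one hd).biUnion fun ξ _ =>
      (Set.finite_lt_nat M).biUnion fun k _ => finite_small hp hp1 _ (Q η k).natDegree ?_
    rw [coeff_sub, coeff_C_mul, coeff_eq_zero_of_natDegree_lt (hPQ η k), (hQ η k).coeff_natDegree]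
    simp
  intro α t α' t' h h' h0 hne j hj hlt
  obtain ⟨η, Y, k, hηT, hηd, hη1, ht', y0, hk, yrec, yk, yne, y0le, ystep⟩ :=
    pair_data hp hp1 hr h1 h3 h h' h0 hne hj hlt
  have hη0 : η ≠ 0 := by rintro e; rw [e, zero_pow hd.ne'] at hηd; exact zero_ne_one hηd
  have hu : ∀ n, ‖α n‖ = 1 := fun n =>
    norm_eq_of_near hp (h.te n) (hne n) ((h.cl n).trans_lt h3)
  have n1 : ‖1 - η‖ = 1 := Teich.one.dist_eq hp hp1 hηT hη1.symm
  have A0 : Ap (Y 0) ((1 - η) * c' / η / t j) := by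
    have a1 : Ap (α' j - η * α j) ((1 - η) * c') := by
      unfold Ap
      have e : α' j - η * α j - (1 - η) * c' =
        (α' j - t' j - c') - (α j - t j - c') * η := by rw [ht']; ring
      rw [e, norm_mul, n1, one_mul]
      exact sub_lt (hc _ _ h' j) (mul_lt1 (hc _ _ h j) (hηT.norm_le hp))
    have a2 : Ap (α j) (t j) := by
      unfold Ap; rw [(h.te j).norm_eq hp (hne j)]; exact (h.cl j).trans_lt h3
    rw [y0, div_div]
    exact a1.div ((Ap.refl hη0).mul a2)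
  have yk0 : Y k ≠ 0 := by
    rcases k with _ | k
    · exact norm_pos_iff.mp A0.symm.pos
    · exact yne k (Nat.lt_succ_self _)
  have ykp : ‖(p : E)‖ ≤ ‖Y k‖ := not_lt.mp fun hlt => yk0 (root_close hp1 hm hlt yk)
  have mono : ∀ l i, i + l ≤ j → ‖Y (i + l)‖ ≤ θ ^ l * ‖Y i‖ := by
    intro l i
    induction l with
    | zero => intro _; simp
    | succ l ih =>
      intro hi
      refine (ystep (i + l) (by omega)).trans ?_
      rw [pow_succ', mul_assoc]
      exact mul_le_mul_of_nonneg_left (ih (by omega)) hθ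
  have mono' : ∀ l i, i + l ≤ j → ‖Y (i + l)‖ ≤ ‖Y i‖ := fun l i hi =>
    (mono l i hi).trans (mul_le_of_le_one_left (norm_nonneg _) (pow_le_one₀ hθ h3.le))
  have hkM : k < M := by
    by_contra hge
    have a := mono k 0 (by omega)
    rw [zero_add] at a
    have b : θ ^ k ≤ θ ^ M := pow_le_pow_of_le_one hθ h3.le (not_lt.mp hge)
    have b2 : θ ^ k * ‖Y 0‖ ≤ θ ^ k := mul_le_of_le_one_right (by positivity) (y0le.trans h3.le)
    linarith
  obtain ⟨b1, b2, -⟩ := hL η k (t j) (fun i => α (j - i)) Y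
    (fun i hi => by
      have e : j - i = (j - (i + 1)) + 1 := by omega
      simp only [e, h.step])
    (fun i _ => hu _) ((h.cl j).trans_lt h3) (fun i hi => yrec i (by omega))
    (fun i hi => by
      constructor
      · have := mono' i 0 (by omega)
        rw [zero_add] at this
        exact (this.trans y0le).trans_lt h3
      · have := mono' (k - i) i (by omega)
        rw [Nat.add_sub_cancel' hi] at this
        exact ykp.trans this) A0
  simp only [Set.mem_iUnion, Set.mem_ofPred_eq]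
  refine ⟨η, hηd, 1 + Y k, yk, k, hkM, h.te j, ?_⟩
  have hq : (Q η k).eval (t j) ≠ 0 := norm_pos_iff.mp (by rw [b2]; exact one_pos)
  have e : (Q η k - C (L η k / (1 + Y k - 1)) * P η k).eval (t j) =
      (Y k - L η k * (P η k).eval (t j) / (Q η k).eval (t j)) / Y k * (Q η k).eval (t j) := by
    rw [eval_sub, eval_mul, eval_C, add_sub_cancel_left]; field_simp
  rw [e, norm_mul, b2, mul_one, norm_div, div_lt_one (norm_pos_iff.mpr yk0), b1.norm]
  exact b1

theorem exc_two {p r m : ℕ} (hp : p.Prime) (hp0 : 0 < ‖(p : E)‖) (hp1 : ‖(p : E)‖ < 1) (hr : 0 < r)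
    (hm : Nat.Coprime p m) (hd : 0 < p ^ r * m) {c τ : E} (hτ : Teich p τ) (hτ0 : τ ≠ 0)
    (h2 : ‖c - τ‖ ≤ ‖(p : E)‖) :
    ∃ B : Set E, B.Finite ∧ Exc p (p ^ r * m) c ‖(p : E)‖ B := by
  obtain ⟨κ, hκ, hκp⟩ := hτ.root
  have hκ0 : κ ≠ 0 := by rintro rfl; exact hτ0 (by rw [← hκp, zero_pow hp.ne_zero])
  let Φ : E → E → E[X] := fun H ζ =>
    C (H ^ p) * (X + C (-κ / H)) ^ p + C c - C ζ * ((X + C (-κ)) ^ p + C c)
  refine ⟨⋃ H ∈ {x : E | x ^ (p * (p ^ r * m)) = 1}, ⋃ ζ ∈ {x : E | x ^ (p ^ r * m) = 1},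
    ⋃ _ : ‖H ^ (p - 1) - ζ‖ = 1, (fun x => x ^ p) '' {T | Teich p T ∧ ‖(Φ H ζ).eval T‖ < ‖(p : E)‖},
    ?_, ?_⟩
  · refine (finite_roots_one (Nat.mul_pos hp.pos hd)).biUnion fun H hH =>
      (finite_roots_one hd).biUnion fun ζ _ => Set.finite_iUnion fun hζ =>
      (finite_small hp hp1 _ (p - 1) ?_).image _
    have hH0 : H ≠ 0 := by
      rintro rfl
      simp only [Set.mem_ofPred_eq] at hH
      rw [zero_pow (Nat.mul_pos hp.pos hd).ne'] at hH; exact zero_ne_one hH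
    have h2 := hp.two_le
    have e0 : p - (p - 1) = 1 := by omega
    have e1 : p.choose (p - 1) = p := by
      rw [← Nat.choose_symm (Nat.sub_le p 1), e0, Nat.choose_one_right]
    have e2 : (C c : E[X]).coeff (p - 1) = 0 := coeff_C_of_ne_zero (by omega)
    have e3 : H ^ p = H ^ (p - 1) * H := by rw [← pow_succ, Nat.sub_add_cancel hp.pos]
    have e : (Φ H ζ).coeff (p - 1) = -κ * (H ^ (p - 1) - ζ) * p := by
      simp only [Φ, coeff_sub, coeff_add, coeff_C_mul, coeff_X_add_C_pow, e0, e1, e2, pow_one]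
      rw [e3]; field_simp; ring
    rw [e, norm_mul, norm_mul, norm_neg, hκ.norm_eq hp hκ0, hζ]; simp
  intro α t α' t' h h' h0 hne j hj hlt
  obtain ⟨η, Y, k, hηT, hηd, hη1, ht', y0, hk, yrec, yk, yne, y0le, ystep⟩ :=
    pair_data hp hp1 hr le_rfl hp1 h h' h0 hne hj hlt
  have hη0 : η ≠ 0 := by rintro e; rw [e, zero_pow hd.ne'] at hηd; exact zero_ne_one hηd
  have hu : ‖α j‖ = 1 := norm_eq_of_near hp (h.te j) (hne j) ((h.cl j).trans_lt hp1)
  have hu0 : α j ≠ 0 := norm_pos_iff.mp (by rw [hu]; exact one_pos)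
  have hk0 : k = 0 := by
    rcases k with _ | k
    · rfl
    exfalso
    have mono : ∀ i < j, ‖Y (i + 1)‖ < ‖(p : E)‖ := by
      intro i
      induction i with
      | zero => intro hi; have := ystep 0 hi; nlinarith [norm_nonneg (Y 0)]
      | succ i ih =>
        intro hi
        have a := ystep (i + 1) hi
        have b := ih (by omega)
        nlinarith [norm_nonneg (Y (i + 1))]
    exact yne k (Nat.lt_succ_self _) (root_close hp1 hm (mono k (by omega)) yk)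
  subst hk0
  obtain ⟨H, hH, hHp⟩ := hηT.root
  obtain ⟨T, hT, hTp⟩ := (h.te j).root
  have hH0 : H ≠ 0 := by rintro rfl; exact hη0 (by rw [← hHp, zero_pow hp.ne_zero])
  have hH1 : H ≠ 1 := by rintro rfl; exact hη1 (by rw [← hHp, one_pow])
  have hζ : α' j = η * (1 + Y 0) * α j := by rw [y0]; field_simp; ring
  have key : ∀ (a s : ℕ → E) (S : E), Br p (p ^ r * m) c ‖(p : E)‖ a s → Teich p S → S ^ p = s j →
      ‖(S - κ) ^ p + c - a j‖ < ‖(p : E)‖ := by
    intro a s S hb hS hSp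
    obtain ⟨U, hU, hUp⟩ := ((hb.te (j + 1)).pow (p ^ r * m)).root
    have b1 := hb.key hp hr le_rfl hp1 j
    have b2 := (teich_step hp hτ le_rfl h2 hp1 (hb.te _) (hb.te _) (hb.near hp hp1 j)).1
    have nS : ‖S - κ‖ ≤ 1 := sub_le (hS.norm_le hp) (hκ.norm_le hp)
    have b3 := add_pow_le hp (hU.norm_le hp) (hκ.norm_le hp) 1
    have nUκ : ‖U + κ‖ ≤ 1 := add_le (hU.norm_le hp) (hκ.norm_le hp)
    have b4 : ‖U + κ - S‖ < 1 := by
      apply lt_one_of_pow hp hp1 nUκ (hS.norm_le hp) 1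
      rw [pow_one] at b3 ⊢
      have e : (U + κ) ^ p - S ^ p = ((U + κ) ^ p - U ^ p - κ ^ p) +
        (s (j + 1) ^ (p ^ r * m) + τ - s j) := by rw [hUp, hκp, hSp]; ring
      rw [e]
      exact add_lt ((b3.trans (mul_le_of_le_one_right (norm_nonneg _) (hκ.norm_le hp))).trans_lt hp1)
        (b2.trans_lt hp1)
    have b5 := Teich.add_le hp hU hκ hS b4
    have b6 := contr hp (hU.norm_le hp) nS one_pos
    rw [pow_one, hUp, show U - (S - κ) = U + κ - S by ring, max_eq_left b5] at b6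
    have e : (S - κ) ^ p + c - a j = -(s (j + 1) ^ (p ^ r * m) - (S - κ) ^ p) -
      (a j - (s (j + 1) ^ (p ^ r * m) + c)) := by ring
    rw [e]
    have b7 := hb.cl (j + 1)
    refine sub_lt (by rw [norm_neg]; nlinarith [norm_nonneg (U + κ - S)]) ?_
    nlinarith [norm_nonneg (a (j + 1) - s (j + 1))]
  have k1 := key α t T h hT hTp
  have k2 := key α' t' (H * T) h' (hH.mul hT) (by rw [mul_pow, hHp, hTp, ht'])
  have nζ : ‖η * (1 + Y 0)‖ ≤ 1 := mul_le1 (hηT.norm_le hp) (add_le (by simp) (y0le.trans hp1.le))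
  simp only [Set.mem_iUnion, Set.mem_ofPred_eq]
  refine ⟨H, by rw [pow_mul, hHp, hηd], η * (1 + Y 0), by rw [mul_pow, hηd, yk, one_mul], ?_,
    T, ⟨hT, ?_⟩, hTp⟩
  · have e3 : H ^ p = H ^ (p - 1) * H := by rw [← pow_succ, Nat.sub_add_cancel hp.pos]
    have n1 : ‖H ^ (p - 1) * (1 - H)‖ = 1 := by
      rw [norm_mul, norm_pow, hH.norm_eq hp hH0, Teich.one.dist_eq hp hp1 hH hH1.symm]; simp
    rw [← n1]
    apply norm_eq_of_sub_lt
    have e : H ^ (p - 1) - η * (1 + Y 0) - H ^ (p - 1) * (1 - H) = -(Y 0 * η) := by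
      rw [← hHp, e3]; ring
    rw [e, n1, norm_neg]
    exact mul_lt1 (y0le.trans_lt hp1) (hηT.norm_le hp)
  · have e : (Φ H (η * (1 + Y 0))).eval T = ((H * T - κ) ^ p + c - α' j) -
        ((T - κ) ^ p + c - α j) * (η * (1 + Y 0)) := by
      have e1 : H ^ p * (T + -κ / H) ^ p = (H * T - κ) ^ p := by
        rw [← mul_pow]; congr 1; field_simp; ring
      simp only [Φ, eval_sub, eval_add, eval_mul, eval_C, eval_pow, eval_X]
      rw [e1, hζ, ← sub_eq_add_neg]; ring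
    rw [e]
    exact sub_lt k2 (mul_lt1 k1 nζ)

theorem exc_all {p r m : ℕ} (hp : p.Prime) (hp0 : 0 < ‖(p : E)‖) (hp1 : ‖(p : E)‖ < 1) (hr : 0 < r)
    (hm : Nat.Coprime p m) (hd : 0 < p ^ r * m) {c τ : E} (hc : c ≠ 0) (hτ : Teich p τ)
    (h2 : ‖c - τ‖ < 1) :
    ∃ B : Set E, B.Finite ∧ Exc p (p ^ r * m) c (max ‖(p : E)‖ ‖c - τ‖) B := by
  have h3 : max ‖(p : E)‖ ‖c - τ‖ < 1 := max_lt hp1 h2
  by_cases h0 : τ = 0
  · subst h0
    refine exc_one (c' := c) hp hp0 hp1 hr hm hd (le_max_left _ _) h3 fun α t h n => ?_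
    obtain ⟨a, b⟩ := h.small hp hp1 hr (le_max_left _ _) h3 (by simpa using h2)
    have k := h.key hp hr (le_max_left _ _) h3 n
    unfold Ap
    rw [a, ← sub_sub] at k
    have := b (n + 1)
    have := norm_pos_iff.mpr hc
    have h4 : 0 ≤ max ‖(p : E)‖ ‖c - 0‖ := le_max_of_le_left (norm_nonneg _)
    nlinarith [norm_nonneg (α (n + 1) - t (n + 1))]
  by_cases h4 : ‖c - τ‖ ≤ ‖(p : E)‖
  · rw [max_eq_left h4]
    exact exc_two hp hp0 hp1 hr hm hd hτ h0 h4
  · push Not at h4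
    rw [max_eq_right h4.le] at h3 ⊢
    refine exc_one (c' := c - τ) hp hp0 hp1 hr hm hd h4.le h3 fun α t h n => ?_
    have k := h.key hp hr h4.le h3 n
    have b2 := (teich_step hp hτ h4.le le_rfl h3 (h.te _) (h.te _) (h.near hp h3 n)).1
    unfold Ap
    have e : α n - t n - (c - τ) = (α n - (t (n + 1) ^ (p ^ r * m) + c)) +
      (t (n + 1) ^ (p ^ r * m) + τ - t n) := by ring
    rw [e]
    refine add_lt (k.trans_lt ?_) (b2.trans_lt h4)
    have := h.cl (n + 1)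
    nlinarith [norm_nonneg (α (n + 1) - t (n + 1))]

end Pool.Agent.Lib.MP_a2c890_nt
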