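import Pool.Agent.Lib.MP_a2c890_nt.TLoc

set_option autoImplicit false
set_option linter.unusedSectionVars false

namespace Pool.Agent.Lib.MP_a2c890_nt.T

open Polynomial

variable {F : Type*} [NormedField F] [IsUltrametricDist F] [IsAlgClosed F]

theorem prod_eq_one_each (s : Multiset ℝ) (h : ∀ x ∈ s, 0 ≤ x ∧ x ≤ 1) (hp : s.prod = 1) :
    ∀ x ∈ s, x = 1 := by
  have le1 : ∀ s : Multiset ℝ, (∀ x ∈ s, 0 ≤ x ∧ x ≤ 1) → s.prod ≤ 1 := fun s h => by
    induction s using Multiset.induction_on with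
    | empty => simp
    | cons a s ih =>
      rw [Multiset.prod_cons]
      exact mul_le_one₀ (h a (Multiset.mem_cons_self _ _)).2
        (Multiset.prod_nonneg fun x hx => (h x (Multiset.mem_cons_of_mem hx)).1)
        (ih fun x hx => h x (Multiset.mem_cons_of_mem hx))
  intro x hx
  obtain ⟨t, rfl⟩ := Multiset.exists_cons_of_mem hx
  rw [Multiset.prod_cons] at hp
  have h1 := le1 t fun y hy => h y (Multiset.mem_cons_of_mem hy)
  obtain ⟨h2, h3⟩ := h x hx
  nlinarith

theorem norm_mprod (s : Multiset F) : ‖s.prod‖ = (s.map norm).prod := by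
  induction s using Multiset.induction_on with
  | empty => simp
  | cons a s ih => simp [ih]

theorem gen1 (S : Multiset F) (h : ∀ u ∈ S, ‖u‖ ≤ 1) : ∃ T : F, ‖T‖ ≤ 1 ∧ ∀ u ∈ S, ‖T - u‖ = 1 := by
  rcases eq_or_ne S 0 with rfl | h0
  · exact ⟨0, by simp, by simp⟩
  have hc : S.card ≠ 0 := by simpa using h0
  obtain ⟨T, hT⟩ := IsAlgClosed.eval_surjective (p := (S.map fun u => X - C u).prod)
    (by rwa [natDegree_multiset_prod_X_sub_C_eq_card]) 1
  have h1 : (S.map fun u => ‖T - u‖).prod = 1 := by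
    have := congrArg norm hT
    beta_reduce at this
    rw [eval_multiset_prod, norm_mprod, norm_one] at this
    simpa [Multiset.map_map] using this
  have h2 : ‖T‖ ≤ 1 := by
    by_contra hn
    have : (S.map fun u => ‖T - u‖) = S.map fun _ => ‖T‖ := Multiset.map_congr rfl fun u hu => by
      rw [sub_eq_add_neg, uadd_eq (by rw [norm_neg]; exact (h u hu).trans_lt (not_le.mp hn))]
    rw [this, Multiset.map_const', Multiset.prod_replicate] at h1
    exact absurd h1 (one_lt_pow₀ (not_le.mp hn) hc).ne'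
  refine ⟨T, h2, fun u hu => prod_eq_one_each _ (fun x hx => ?_) h1 _
    (Multiset.mem_map_of_mem (fun u => ‖T - u‖) hu)⟩
  obtain ⟨v, hv, rfl⟩ := Multiset.mem_map.mp hx
  exact ⟨norm_nonneg _, usub_le h2 (h v hv)⟩

theorem gen (S : Multiset F) (x : F) {π : F} (hπ : π ≠ 0) :
    ∃ T : F, ‖T - x‖ ≤ ‖π‖ ∧ ∀ z ∈ S, ‖T - z‖ = max ‖x - z‖ ‖π‖ := by
  classical
  have p0 : 0 < ‖π‖ := norm_pos_iff.mpr hπ
  obtain ⟨T, h1, h2⟩ := gen1 ((S.filter fun z => ‖x - z‖ ≤ ‖π‖).map fun z => (z - x) / π)
    fun u hu => by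
      obtain ⟨z, hz, rfl⟩ := Multiset.mem_map.mp hu
      rw [norm_div, div_le_one p0, norm_sub_rev]
      exact (Multiset.mem_filter.mp hz).2
  have h3 : ‖π * T‖ ≤ ‖π‖ := by rw [norm_mul]; exact mul_le_of_le_one_right p0.le h1
  refine ⟨x + π * T, by rwa [add_sub_cancel_left], fun z hz => ?_⟩
  rcases le_or_gt ‖x - z‖ ‖π‖ with h | h
  · have := h2 _ (Multiset.mem_map_of_mem _ (Multiset.mem_filter.mpr ⟨hz, h⟩))
    rw [max_eq_right h, show x + π * T - z = π * (T - (z - x) / π) by field_simp; ring, norm_mul,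
      this, mul_one]
  · rw [max_eq_left h.le, show x + π * T - z = (x - z) + π * T by ring, uadd_eq (h3.trans_lt h)]

theorem units (n : ℕ) : ∃ Y : Finset F, Y.card = n ∧ (∀ y ∈ Y, ‖y‖ ≤ 1) ∧
    ∀ y ∈ Y, ∀ y' ∈ Y, y ≠ y' → ‖y - y'‖ = 1 := by
  classical
  induction n with
  | zero => exact ⟨∅, rfl, by simp, by simp⟩
  | succ n ih =>
    obtain ⟨Y, h1, h2, h3⟩ := ih
    obtain ⟨T, a1, a2⟩ := gen1 Y.val h2
    have hT : T ∉ Y := fun h => by simpa using a2 T h
    refine ⟨insert T Y, by rw [Finset.card_insert_of_notMem hT, h1], fun y hy => ?_,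
      fun y hy y' hy' hne => ?_⟩
    · rcases Finset.mem_insert.mp hy with rfl | hy
      exacts [a1, h2 y hy]
    · rcases Finset.mem_insert.mp hy with b | b <;> rcases Finset.mem_insert.mp hy' with b' | b'
      · exact absurd (b.trans b'.symm) hne
      · rw [b]; exact a2 _ b'
      · rw [norm_sub_rev, b']; exact a2 _ b
      · exact h3 _ b _ b' hne

/-- preimages with multiplicity -/
noncomputable def kids (g : F[X]) (y : F) : Multiset F := (g - C y).roots

/-- iterated preimages with multiplicity -/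
noncomputable def pre (g : F[X]) : ℕ → F → Multiset F
  | 0, y => {y}
  | n + 1, y => (pre g n y).bind (kids g)

/-- geometric sum -/
def sig (d : ℕ) : ℕ → ℕ
  | 0 => 0
  | n + 1 => sig d n + d ^ n

theorem sig_eq (e n : ℕ) : e * sig (e + 1) n + 1 = (e + 1) ^ n := by
  induction n with
  | zero => rfl
  | succ n ih => rw [sig, mul_add, pow_succ]; linarith

open Classical in
/-- indicator -/
noncomputable def ind (P : Prop) : ℝ := if P then 1 else 0

theorem ind_pos {P : Prop} (h : P) : ind P = 1 := if_pos h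
theorem ind_neg {P : Prop} (h : ¬ P) : ind P = 0 := if_neg h
theorem ind_nonneg (P : Prop) : 0 ≤ ind P := by unfold ind; split_ifs <;> norm_num
theorem ind_le_one (P : Prop) : ind P ≤ 1 := by unfold ind; split_ifs <;> norm_num
theorem ind_congr {P Q : Prop} (h : P ↔ Q) : ind P = ind Q := by rw [propext h]
theorem ind_and (P Q : Prop) : ind (P ∧ Q) = ind P * ind Q := by
  by_cases h : P <;> by_cases h' : Q <;> simp [ind, h, h']
theorem ind_mono {P Q : Prop} (h : P → Q) : ind P ≤ ind Q := by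
  by_cases hp : P
  · rw [ind_pos hp, ind_pos (h hp)]
  · rw [ind_neg hp]; exact ind_nonneg _

theorem pre_add (g : F[X]) (k n : ℕ) (y : F) : pre g (n + k) y = (pre g n y).bind (pre g k) := by
  induction k with
  | zero => exact (Multiset.bind_singleton _ id).trans (Multiset.map_id _) |>.symm
  | succ k ih => rw [← add_assoc, pre, ih, Multiset.bind_assoc]; rfl

namespace Loc

variable {g : F[X]} {e : ℕ} {R : ℝ} (L : Loc g e R)
include L

theorem sub_deg (y : F) : (g - C y).natDegree = e + 1 := by rw [natDegree_sub_C, L.deg]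

theorem sub_ne (y : F) : g - C y ≠ 0 := fun h => by
  have := L.sub_deg y
  rw [h, natDegree_zero] at this
  omega

theorem mem_kids {x y : F} : x ∈ kids g y ↔ g.eval x = y := by
  rw [kids, mem_roots (L.sub_ne y), IsRoot, eval_sub, eval_C, sub_eq_zero]

theorem card_kids (y : F) : (kids g y).card = e + 1 := by
  rw [kids, IsAlgClosed.card_roots_eq_natDegree, L.sub_deg]

theorem prod_kids (T y : F) :
    g.coeff (e + 1) * ((kids g y).map fun z => T - z).prod = g.eval T - y := by
  have := (IsAlgClosed.splits (g - C y)).eval_eq_prod_roots T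
  rw [eval_sub, eval_C, leadingCoeff, L.sub_deg, coeff_sub, coeff_C_succ, sub_zero] at this
  exact this.symm

theorem mem_pre {n : ℕ} {x y : F} (h : x ∈ pre g n y) : (fun z => g.eval z)^[n] x = y := by
  induction n generalizing x with
  | zero => exact Multiset.mem_singleton.mp h
  | succ n ih =>
    obtain ⟨w, h1, h2⟩ := Multiset.mem_bind.mp h
    rw [Function.iterate_succ_apply, L.mem_kids.mp h2]
    exact ih h1

theorem card_pre (n : ℕ) (y : F) : (pre g n y).card = (e + 1) ^ n := by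
  induction n with
  | zero => rfl
  | succ n ih =>
    rw [pre, Multiset.card_bind,
      Multiset.map_congr rfl fun w _ => show (Multiset.card ∘ kids g) w = e + 1 from L.card_kids w,
      Multiset.map_const', Multiset.sum_replicate, ih, smul_eq_mul, pow_succ]

theorem prod_pre (n : ℕ) (T y : F) :
    g.coeff (e + 1) ^ sig (e + 1) n * ((pre g n y).map fun z => T - z).prod =
      (fun z => g.eval z)^[n] T - y := by
  induction n generalizing T with
  | zero => simp [pre, sig]
  | succ n ih =>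
    rw [Function.iterate_succ_apply, ← ih, sig, pow_add, mul_assoc, pre, Multiset.map_bind,
      Multiset.prod_bind, ← L.card_pre n y,
      Multiset.map_congr rfl fun w _ => (L.prod_kids T w).symm, Multiset.prod_map_mul,
      Multiset.map_const', Multiset.prod_replicate]

theorem log_pre (n : ℕ) {T y : F} (h : ∀ z ∈ pre g n y, T ≠ z) :
    ((pre g n y).map fun z => Real.log ‖T - z‖).sum =
      Real.log ‖(fun z => g.eval z)^[n] T - y‖ + sig (e + 1) n * Real.log R ∧
    (fun z => g.eval z)^[n] T ≠ y := by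
  have h0 : 0 < R := one_pos.trans L.hR
  have h1 := congrArg norm (L.prod_pre n T y)
  rw [norm_mul, norm_pow, L.top, norm_mprod, Multiset.map_map] at h1
  have h2 : ∀ x ∈ (pre g n y).map (norm ∘ fun z => T - z), x ≠ 0 := fun x hx => by
    obtain ⟨z, hz, rfl⟩ := Multiset.mem_map.mp hx
    exact norm_ne_zero_iff.mpr (sub_ne_zero.mpr (h z hz))
  have h3 : ((pre g n y).map (norm ∘ fun z => T - z)).prod ≠ 0 :=
    Multiset.prod_ne_zero fun h => h2 0 h rfl
  refine ⟨?_, fun h => ?_⟩
  · rw [← h1, Real.log_mul (by positivity) h3, Real.log_pow, Real.log_inv,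
      Real.log_multiset_prod h2, Multiset.map_map]
    simp only [Function.comp_def]
    ring
  · rw [h, sub_self, norm_zero] at h1
    exact absurd h1 (mul_ne_zero (by positivity) h3)

theorem hole {y : F} (hy : ‖y‖ ≤ R) : ((kids g y).filter fun x => ‖x‖ = R).card = 1 := by
  classical
  have h0 : 0 < R := one_pos.trans L.hR
  have he := L.he
  obtain ⟨T, hT⟩ := IsAlgClosed.exists_pow_nat_eq ((g.coeff (e + 1))⁻¹ ^ 2) (n := e + 1) (by omega)
  have t1 : ‖T‖ ^ (e + 1) = R ^ 2 := by rw [← norm_pow, hT, norm_pow, norm_inv, L.top, inv_inv]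
  have t2 : ‖T‖ < R := lt_of_pow_lt_pow_left₀ (e + 1) h0.le
    (t1 ▸ pow_lt_pow_right₀ L.hR (by omega))
  have t3 : R < ‖T‖ ^ e := by
    have : ‖T‖ ^ e * ‖T‖ = R * R := by rw [← pow_succ, t1, sq]
    by_contra h
    have h' := not_lt.mp h
    nlinarith [norm_nonneg T, pow_nonneg (norm_nonneg T) e]
  have t4 : 1 < ‖T‖ := by
    by_contra h
    exact absurd (pow_le_one₀ (norm_nonneg T) (not_lt.mp h)) (not_le.mpr (L.hR.trans t3))
  have h1 := congrArg norm (L.prod_kids T y)
  rw [sub_eq_add_neg (g.eval T), uadd_eq (by rw [norm_neg, L.ev_mid t4 t2]; exact hy.trans_lt t3),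
    L.ev_mid t4 t2, norm_mul, L.top, norm_mprod, Multiset.map_map,
    ← Multiset.filter_add_not (fun x => ‖x‖ = R) (kids g y), Multiset.map_add,
    Multiset.prod_add] at h1
  have a1 : ((kids g y).filter fun x => ‖x‖ = R).map (norm ∘ fun z => T - z) =
      ((kids g y).filter fun x => ‖x‖ = R).map fun _ => R := Multiset.map_congr rfl fun z hz => by
    have := (Multiset.mem_filter.mp hz).2
    simp only [Function.comp]
    rw [norm_sub_rev, sub_eq_add_neg, uadd_eq (by rw [norm_neg, this]; exact t2), this]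
  have a2 : ((kids g y).filter fun x => ¬ ‖x‖ = R).map (norm ∘ fun z => T - z) =
      ((kids g y).filter fun x => ¬ ‖x‖ = R).map fun _ => ‖T‖ := Multiset.map_congr rfl fun z hz => by
    obtain ⟨b1, b2⟩ := Multiset.mem_filter.mp hz
    have b3 := L.mem_kids.mp b1
    have b4 : ‖z‖ < R := (L.kid_le (b3 ▸ hy)).lt_of_ne b2
    simp only [Function.comp]
    rw [sub_eq_add_neg, uadd_eq]
    rw [norm_neg]
    rcases le_or_gt ‖z‖ 1 with h | h
    · exact h.trans_lt t4
    · refine lt_of_pow_lt_pow_left₀ e (norm_nonneg _) ?_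
      rw [← L.ev_mid h b4, b3]
      exact hy.trans_lt t3
  have a3 := congrArg Multiset.card (Multiset.filter_add_not (fun x => ‖x‖ = R) (kids g y))
  rw [Multiset.card_add, L.card_kids] at a3
  rw [a1, a2, Multiset.map_const', Multiset.map_const', Multiset.prod_replicate,
    Multiset.prod_replicate] at h1
  generalize ((kids g y).filter fun x => ‖x‖ = R).card = a at *
  generalize ((kids g y).filter fun x => ¬ ‖x‖ = R).card = b at *
  have n0 : 0 < ‖T‖ := one_pos.trans t4
  rw [inv_mul_eq_iff_eq_mul₀ h0.ne'] at h1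
  rcases a with _ | _ | a
  · exfalso
    rw [show b = e + 1 by omega, pow_zero, one_mul, pow_succ, mul_comm R] at h1
    exact t2.ne (mul_left_cancel₀ (by positivity) h1)
  · rfl
  · exfalso
    rw [show e = b + (a + 1) by omega, pow_add ‖T‖ b, pow_succ' R (a + 1), mul_assoc] at h1
    have h2 := mul_left_cancel₀ h0.ne' h1
    rw [mul_comm] at h2
    exact (pow_lt_pow_left₀ t2 n0.le (by omega)).ne' (mul_left_cancel₀ (by positivity) h2)

theorem hole_unique {x x' : F} (hy : ‖g.eval x‖ ≤ R) (h : g.eval x' = g.eval x) (h1 : ‖x‖ = R)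
    (h2 : ‖x'‖ = R) : x' = x := by
  classical
  obtain ⟨a, ha⟩ := Multiset.card_eq_one.mp (L.hole hy)
  have b1 : x ∈ ({a} : Multiset F) := ha ▸ Multiset.mem_filter.mpr ⟨L.mem_kids.mpr rfl, h1⟩
  have b2 : x' ∈ ({a} : Multiset F) := ha ▸ Multiset.mem_filter.mpr ⟨L.mem_kids.mpr h, h2⟩
  rw [Multiset.mem_singleton.mp b1, Multiset.mem_singleton.mp b2]

theorem sum_kids {y : F} (hy : ‖y‖ ≤ R) (j : ℕ) :
    ((kids g y).map fun x => ind (‖x‖ ≤ rad e R (j + 1))).sum = e * ind (‖y‖ ≤ rad e R j) := by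
  classical
  have a3 := congrArg Multiset.card (Multiset.filter_add_not (fun x => ‖x‖ = R) (kids g y))
  rw [Multiset.card_add, L.card_kids, L.hole hy] at a3
  rw [← Multiset.filter_add_not (fun x => ‖x‖ = R) (kids g y), Multiset.map_add, Multiset.sum_add,
    Multiset.map_congr rfl (g := fun _ => (0 : ℝ)) fun z hz => ind_neg (by
      rw [(Multiset.mem_filter.mp hz).2]
      exact not_le.mpr ((L.rad_lt j).trans_le (L.rad_le j))),
    Multiset.map_congr rfl (s := (kids g y).filter fun x => ¬ ‖x‖ = R)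
      (g := fun _ => ind (‖y‖ ≤ rad e R j)) fun z hz => by
      obtain ⟨b1, b2⟩ := Multiset.mem_filter.mp hz
      have b3 := L.mem_kids.mp b1
      exact ind_congr (b3 ▸ L.kid_iff ((L.kid_le (b3 ▸ hy)).lt_of_ne b2) j)]
  simp only [Multiset.map_const', Multiset.sum_replicate, smul_zero, zero_add, nsmul_eq_mul]
  rw [show ((kids g y).filter fun x => ¬ ‖x‖ = R).card = e by omega]

theorem pre_val {n : ℕ} {y z : F} (hy : ‖y‖ ≤ R) (hz : z ∈ pre g n y) : Val e R n z := by
  have := L.val_iter (n := 0) (k := n) (x := z)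
    (Or.inl (by rw [L.mem_pre hz, L.rad_zero]; exact hy))
  rwa [zero_add] at this

theorem sum_pre {y : F} (hy : ‖y‖ ≤ R) {j n : ℕ} (h : j ≤ n) :
    ((pre g n y).map fun x => ind (‖x‖ ≤ rad e R j)).sum =
      ((e : ℝ) / (e + 1)) ^ j * (e + 1) ^ n := by
  induction j generalizing n with
  | zero =>
    rw [Multiset.map_congr rfl (g := fun _ => (1 : ℝ)) fun z hz =>
      ind_pos (L.rad_zero.symm ▸ L.val_le (L.pre_val hy hz)), Multiset.map_const',
      Multiset.sum_replicate, L.card_pre]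
    simp
  | succ j ih =>
    obtain ⟨n, rfl⟩ : ∃ m, n = m + 1 := ⟨n - 1, by omega⟩
    rw [pre, Multiset.map_bind, Multiset.sum_bind,
      Multiset.map_congr rfl fun w hw => L.sum_kids (L.val_le (L.pre_val hy hw)) j,
      Multiset.sum_map_mul_left, ih (by omega), pow_succ, pow_succ]
    have : (0 : ℝ) < e + 1 := by positivity
    field_simp

theorem sum_pre2 {y : F} (hy : ‖y‖ ≤ R) {j k n : ℕ} (h : j ≤ k) (h' : j ≤ n) :
    ((pre g (n + k) y).map fun x =>
      ind (‖x‖ ≤ rad e R j ∧ ‖(fun z => g.eval z)^[k] x‖ ≤ rad e R j)).sum =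
      (((e : ℝ) / (e + 1)) ^ j) ^ 2 * (e + 1) ^ (n + k) := by
  rw [pre_add, Multiset.map_bind, Multiset.sum_bind,
    Multiset.map_congr rfl (g := fun w => ((e : ℝ) / (e + 1)) ^ j * (e + 1) ^ k *
      ind (‖w‖ ≤ rad e R j)) fun w hw => by
      rw [Multiset.map_congr rfl (g := fun x => ind (‖x‖ ≤ rad e R j) * ind (‖w‖ ≤ rad e R j))
        fun x hx => by rw [ind_and, L.mem_pre hx], Multiset.sum_map_mul_right,
        L.sum_pre (L.val_le (L.pre_val hy hw)) h],
    Multiset.sum_map_mul_left, L.sum_pre hy h']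
  ring

end Loc

end Pool.Agent.Lib.MP_a2c890_nt.T
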