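import Pool.Agent.Lib.MP_a2c890_nt.TCov

set_option autoImplicit false
set_option linter.unusedSectionVars false

namespace Pool.Agent.Lib.MP_a2c890_nt.T

open Polynomial Finset

variable {K : Type*} [Field K] [NumberField K] {p : ℕ} [Fact p.Prime]

/-- model mass -/
noncomputable def th (e : ℕ) : ℝ := (e : ℝ) / (e + 1)

theorem th_nonneg (e : ℕ) : 0 ≤ th e := by unfold th; positivity

theorem th_lt (e : ℕ) : th e < 1 := by
  rw [th, div_lt_one (by positivity)]; linarith

/-- usable forms of equidistribution -/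
structure Eqd (φ : K[X]) (N : AlgebraicClosure K → ℝ) (ρ : ℕ → ℝ) (e : ℕ)
    (Bs : AlgebraicClosure K → Prop) (C lam : ℝ) : Prop where
  C1 : 1 ≤ C
  l0 : 0 < lam
  l1 : lam < 1
  geo : ∀ u : ℕ, th e ^ (u / (2 * (e + 1))) ≤ C * lam ^ u
  abs : ∀ (m j u : ℕ) (x : AlgebraicClosure K), Bs ((Phi φ)^[m] x) → 2 * (e + 1) * (j + 1) ≤ u →
    u ≤ Nat.log 2 (rel φ x m) → |av x (fun z => ind (N z ≤ ρ (j + 1))) - th e ^ (j + 1)| ≤ C * lam ^ u
  rel1 : ∀ (m l j u : ℕ) (x : AlgebraicClosure K), Bs ((Phi φ)^[m] x) → l ≤ m →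
    2 * (e + 1) * (j + 1) ≤ u → u ≤ Nat.log 2 (rel φ x l) → ∀ P : AlgebraicClosure K → Prop,
      av x (fun z => ind (N z ≤ ρ (j + 1)) * ind (P ((Phi φ)^[l] z))) ≤
        th e ^ (j + 1) * av ((Phi φ)^[l] x) (fun y => ind (P y)) + C * lam ^ u
  joint : ∀ (m j k u : ℕ) (x : AlgebraicClosure K), Bs ((Phi φ)^[m] x) → 0 < k →
    2 * (e + 1) * (2 * k + (j + 1)) ≤ u → u ≤ Nat.log 2 (rel φ x m) →
      av x (fun z => ind (N z = ρ (j + 1)) * ind (N ((Phi φ)^[k] z) ≤ ρ (j + 1))) ≤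
        (th e ^ (j + 1)) ^ 2 + C * lam ^ u

namespace Dat

variable {φ : K[X]} {ι : AlgebraicClosure K →+* PadicAlgCl p} {a b : PadicAlgCl p}
  {g : (PadicAlgCl p)[X]} {e : ℕ} {R : ℝ} {c : ℕ} {B : ℝ} {Bs : AlgebraicClosure K → Prop}
  (D : Dat φ ι a b g e R c B Bs)
include D

theorem eqd : ∃ C lam, Eqd φ (fun z => ‖pos ι a b z‖) (rad e R) e Bs C lam := by
  obtain ⟨C, lam, C1, l0, l1, geo, h⟩ := D.equi
  have mo : ∀ {u v : ℕ}, u ≤ v → C * lam ^ v ≤ C * lam ^ u := fun h =>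
    mul_le_mul_of_nonneg_left (pow_le_pow_of_le_one l0.le l1.le h) (by linarith)
  have ev0 : ∀ j z, ind (Ev g e R j 0 (pos ι a b z)) = ind (‖pos ι a b z‖ ≤ rad e R j) :=
    fun j z => ind_congr and_self_iff
  refine ⟨C, lam, C1, l0, l1, geo, fun m j u x hx h1 h2 => ?_, fun m l j u x hx hl h1 h2 P => ?_,
    fun m j k u x hx k0 h1 h2 => ?_⟩
  · have := h m m j 0 x _ hx le_rfl (by simpa using h1.trans h2) (Or.inl ⟨rfl, rfl⟩) (fun _ => 1)
      fun _ => ⟨zero_le_one, le_rfl⟩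
    simp only [ev0, mul_one, av_one] at this
    exact this.trans (mo h2)
  · have := h m l j 0 x _ hx hl (by simpa using h1.trans h2) (Or.inl ⟨rfl, rfl⟩)
      (fun y => ind (P y)) fun _ => ⟨ind_nonneg _, ind_le_one _⟩
    simp only [ev0] at this
    have h3 := (abs_le.mp (this.trans (mo h2))).2
    unfold th
    linarith
  · rcases le_or_gt (j + 1) k with hk | hk
    · have := h m m j k x _ hx le_rfl (h1.trans h2) (Or.inr ⟨hk, rfl⟩) (fun _ => 1)
        fun _ => ⟨zero_le_one, le_rfl⟩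
      simp only [mul_one, av_one] at this
      have h3 := (abs_le.mp (this.trans (mo h2))).2
      refine (av_mono fun z _ => ?_).trans (sub_le_iff_le_add'.mp h3)
      rw [← ind_and]
      exact ind_mono fun h => ⟨h.1.le, by rw [D.conj_iter]; exact h.2⟩
    · refine le_trans (av_mono (h' := fun _ => 0) fun z _ => ?_) ?_
      · rw [← ind_and, ind_neg]
        rintro ⟨a1, a2⟩
        have := D.L.fwd_iter (x := pos ι a b z) (i := j + 1 - k) (k := k)
          (by rw [Nat.sub_add_cancel hk.le]; exact a1)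
        rw [D.conj_iter] at this
        exact absurd (this ▸ a2) (not_le.mpr (D.L.rad_anti (by omega)))
      · have : 0 ≤ C * lam ^ u := by positivity
        simp only [av, sum_const_zero, zero_div]
        positivity

variable {C lam : ℝ} (E : Eqd φ (fun z => ‖pos ι a b z‖) (rad e R) e Bs C lam)
include E

theorem low {m j u : ℕ} {x : AlgebraicClosure K} (hx : Bs ((Phi φ)^[m] x))
    (h1 : 2 * (e + 1) * (j + 2) ≤ u) (h2 : u ≤ Nat.log 2 (rel φ x m)) :
    th e ^ (j + 1) / (e + 1) - 2 * (C * lam ^ u) ≤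
      av x (fun z => ind (‖pos ι a b z‖ = rad e R (j + 1))) := by
  have a1 := (abs_le.mp (E.abs m j u x hx (le_trans (by gcongr; omega) h1) h2)).1
  have a2 := (abs_le.mp (E.abs m (j + 1) u x hx h1 h2)).2
  have hm : j + 2 ≤ m := by
    have := h1.trans (h2.trans (log_rel_le D.deg (Nat.succ_pos e) x m))
    nlinarith
  have a3 : av x (fun z => ind (‖pos ι a b z‖ ≤ rad e R (j + 1))) ≤
      av x (fun z => ind (‖pos ι a b z‖ = rad e R (j + 1))) +
        av x (fun z => ind (‖pos ι a b z‖ ≤ rad e R (j + 1 + 1))) := by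
    rw [← av_add]
    refine av_mono fun z hz => ?_
    by_cases h : ‖pos ι a b z‖ ≤ rad e R (j + 1)
    · rcases D.L.val_gap (D.L.val_mono (D.lv_val (D.lv_orb hx hz)) hm) with h' | h'
      · rw [ind_pos h, ind_pos h']; linarith [ind_nonneg (‖pos ι a b z‖ = rad e R (j + 1))]
      · rw [ind_pos h, ind_pos (le_antisymm h h')]
        linarith [ind_nonneg (‖pos ι a b z‖ ≤ rad e R (j + 1 + 1))]
    · rw [ind_neg h]; exact add_nonneg (ind_nonneg _) (ind_nonneg _)
  have a4 : th e ^ (j + 1) / (e + 1) = th e ^ (j + 1) - th e ^ (j + 1 + 1) := by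
    rw [pow_succ _ (j + 1), th]; field_simp; ring
  linarith

theorem bad_le {m j : ℕ} {x : AlgebraicClosure K} (hx : Bs ((Phi φ)^[m] x)) :
    av x (fun z => ind (‖pos ι a b z‖ ≤ rad e R (min (j + 1) m))) ≤
      th e ^ (j + 1) + 2 * (C * lam ^ Nat.log 2 (rel φ x m)) := by
  set u := Nat.log 2 (rel φ x m) with hu
  have g1 := E.geo u
  have q0 : 0 ≤ th e ^ (j + 1) := pow_nonneg (th_nonneg e) _
  have c0 : 0 ≤ C * lam ^ u := le_trans (pow_nonneg (th_nonneg e) _) g1
  have hm : u / (2 * (e + 1)) ≤ m := Nat.div_le_of_le_mul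
    ((log_rel_le D.deg (Nat.succ_pos e) x m).trans (by gcongr; omega))
  have hu2 := Nat.mul_div_le u (2 * (e + 1))
  generalize u / (2 * (e + 1)) = s at *
  rcases s with _ | s
  · rw [pow_zero] at g1
    have := (av_mono (x := x) fun z _ => ind_le_one (‖pos ι a b z‖ ≤ rad e R (min (j + 1) m))).trans_eq
      (av_one x)
    linarith
  rcases le_total j s with h | h
  · have a1 := (abs_le.mp (E.abs m j u x hx (le_trans (by gcongr) hu2) le_rfl)).2
    rw [min_eq_left (by omega)]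
    linarith
  · have a1 := (abs_le.mp (E.abs m s u x hx hu2 le_rfl)).2
    have a2 := av_mono (x := x) fun z _ => ind_mono
      (P := ‖pos ι a b z‖ ≤ rad e R (min (j + 1) m)) (Q := ‖pos ι a b z‖ ≤ rad e R (s + 1))
      fun h' => h'.trans (D.L.rad_anti.antitone (le_min (by omega) hm))
    linarith

variable {H : Subgroup (PadicAlgCl p ≃ₐ[ℚ_[p]] PadicAlgCl p)} (G : LG ι a b g H)
include G

open Classical in
theorem pre_ineq {γ : ℝ} {n0 j n t l u0 u1 : ℕ} (hn : Real.log R = n0 * γ) (hj : n0 ≤ j)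
    (hb : ∀ y, Bs ((Phi φ)^[n] y) → Good H (AddSubgroup.zmultiples γ) (pos ι a b y))
    {x : AlgebraicClosure K} (hx : Bs ((Phi φ)^[n + t + l] x)) (thin : rel φ x 1 < e)
    (flat : ∀ s, 0 < s → s < l → rel φ ((Phi φ)^[s] x) 1 = 1)
    (hu1 : u1 ≤ Nat.log 2 (rel φ ((Phi φ)^[t + l] x) n))
    (k0 : 2 * (e + 1) * (j + 1) ≤ u0)
    (k1 : 2 * (e + 1) * (j + 2) ≤ Nat.log 2 (rel φ ((Phi φ)^[l] x) (n + t)))
    (k2 : u0 ≤ Nat.log 2 (rel φ ((Phi φ)^[l] x) (n + t)))
    (c1 : (Nat.log 2 (rel φ ((Phi φ)^[l] x) (n + t)) + 1) * th e ^ (j + 1) ≤ 1 / (12 * (e + 1)))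
    (c2 : 2 * (C * (lam ^ u1 / (1 - lam))) ≤ 1 / (12 * (e + 1)))
    (c3 : C * (lam ^ u0 / (1 - lam)) ≤ 1 / (12 * (e + 1)) * th e ^ (j + 1)) :
    l * (th e ^ (j + 1) / (2 * (e + 1))) ≤ av x fun z =>
      (∑ s ∈ range l, ind (‖pos ι a b ((Phi φ)^[s] z)‖ = rad e R (j + 1))) *
        ind (∃ i < t, rel φ ((Phi φ)^[i] ((Phi φ)^[l] x)) 1 ≠ 1 ∧
          Nat.log 2 (rel φ ((Phi φ)^[l] x) i) < u0 ∧
          ‖pos ι a b ((Phi φ)^[i] ((Phi φ)^[l] z))‖ ≤ rad e R (min (j + 1) (n + t - i))) := by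
  set w := (Phi φ)^[l] x with hw
  set U := Nat.log 2 (rel φ w (n + t)) with hU
  set q := th e ^ (j + 1) with hq
  have q0 : 0 ≤ q := pow_nonneg (th_nonneg e) _
  have C0 : 0 ≤ C := zero_le_one.trans E.C1
  have he := D.L.he
  set Gs := (range t).filter fun i => rel φ ((Phi φ)^[i] w) 1 ≠ 1 with hGs
  set Far := Gs.filter fun i => u0 ≤ Nat.log 2 (rel φ w i) with hFar
  let Bad : ℕ → AlgebraicClosure K → Prop := fun i y =>
    ‖pos ι a b y‖ ≤ rad e R (min (j + 1) (n + t - i))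
  have hw0 : Bs ((Phi φ)^[n + t] w) := by rw [hw, ← Function.iterate_add_apply]; exact hx
  have lv : ∀ s ≤ l, Bs ((Phi φ)^[n + t + (l - s)] ((Phi φ)^[s] x)) := fun s hs => by
    rw [← Function.iterate_add_apply, show n + t + (l - s) + s = n + t + l by omega]; exact hx
  have ws : ∀ s ≤ l, ∀ z, (Phi φ)^[l - s] ((Phi φ)^[s] z) = (Phi φ)^[l] z := fun s hs z => by
    rw [← Function.iterate_add_apply, Nat.sub_add_cancel hs]
  have mG : ∀ i ∈ Gs, i < t ∧ rel φ ((Phi φ)^[i] w) 1 ≠ 1 := fun i hi =>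
    ⟨mem_range.mp (mem_filter.mp hi).1, (mem_filter.mp hi).2⟩
  have iu : Set.InjOn (fun i => Nat.log 2 (rel φ w i)) Gs := fun i hi i' hi' h => by
    rcases lt_trichotomy i i' with h' | h' | h'
    · exact absurd h (uu_lt φ w h' (mG i hi).2).ne
    · exact h'
    · exact absurd h (uu_lt φ w h' (mG i' hi').2).ne'
  have iv : Set.InjOn (fun i => Nat.log 2 (rel φ ((Phi φ)^[i] w) (n + t - i))) Gs :=
    fun i hi i' hi' h => by
      have := (mG i hi).1
      have := (mG i' hi').1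
      rcases lt_trichotomy i i' with h' | h' | h'
      · exact absurd h (vv_lt φ w h' (by omega) (mG i hi).2).ne'
      · exact h'
      · exact absurd h (vv_lt φ w h' (by omega) (mG i' hi').2).ne
  have cG : (Gs.card : ℝ) ≤ U + 1 := by
    exact_mod_cast card_le_of_lt Gs _ iu fun i hi => Nat.lt_succ_of_le
      (Nat.log_mono_right (rel_mono φ w (by have := (mG i hi).1; omega)))
  have sa : ∑ i ∈ Gs, av ((Phi φ)^[i] w) (fun y => ind (Bad i y)) ≤ 2 * (1 / (12 * (e + 1))) := by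
    refine (sum_le_sum fun i hi => D.bad_le E (m := n + t - i) (j := j) (by
      rw [← Function.iterate_add_apply, Nat.sub_add_cancel (by have := (mG i hi).1; omega)]
      exact hw0)).trans ?_
    rw [sum_add_distrib, sum_const, nsmul_eq_mul, ← mul_sum, ← mul_sum]
    have h1 := geom_le Gs _ iv (u := u1) (fun i hi => hu1.trans (Nat.log_mono_right (by
      have h2 := (mG i hi).1
      have := rel_anc φ ((Phi φ)^[i] w) (t - i) n
      rwa [← Function.iterate_add_apply, Nat.sub_add_cancel h2.le, hw,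
        ← Function.iterate_add_apply, show n + (t - i) = n + t - i by omega] at this)))
      E.l0.le E.l1
    have h2 := mul_le_mul_of_nonneg_left h1 C0
    have h3 := mul_le_mul_of_nonneg_right cG q0
    linarith
  have far : ∀ s ∈ range l, ∑ i ∈ Far, av x (fun z =>
      ind (‖pos ι a b ((Phi φ)^[s] z)‖ ≤ rad e R (j + 1)) *
        ind (Bad i ((Phi φ)^[i] ((Phi φ)^[l] z)))) ≤ 3 * (1 / (12 * (e + 1))) * q := fun s hs => by
    have sl := (mem_range.mp hs).le
    have e1 : ∀ i z, (Phi φ)^[i + (l - s)] ((Phi φ)^[s] z) = (Phi φ)^[i] ((Phi φ)^[l] z) :=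
      fun i z => by rw [Function.iterate_add_apply, ws s sl]
    refine (sum_le_sum (g := fun i => q * av ((Phi φ)^[i] w) (fun y => ind (Bad i y)) +
      C * lam ^ Nat.log 2 (rel φ w i)) fun i hi => ?_).trans ?_
    · obtain ⟨a1, a2⟩ := mem_filter.mp hi
      have := E.rel1 _ (i + (l - s)) j _ _ (lv s sl) (by have := (mG i a1).1; omega) (k0.trans a2)
        (Nat.log_mono_right (by rw [hw, ← ws s sl]; exact rel_anc φ _ _ _)) (Bad i)
      rw [← av_comp φ x s, e1] at this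
      simpa only [e1] using this
    · rw [sum_add_distrib, ← mul_sum, ← mul_sum]
      have h1 := geom_le Far _ (iu.mono (coe_subset.mpr (filter_subset _ _))) (u := u0)
        (fun i hi => (mem_filter.mp hi).2) E.l0.le E.l1
      have h2 := mul_le_mul_of_nonneg_left h1 C0
      have h3 := mul_le_mul_of_nonneg_left ((sum_le_sum_of_subset_of_nonneg
        (show Far ⊆ Gs from filter_subset _ Gs)
        fun i _ _ => av_nonneg fun y => ind_nonneg (Bad i y)).trans sa) q0
      linarith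
  have lo : ∀ s ∈ range l, 3 * (q / (4 * (e + 1))) ≤
      av x fun z => ind (‖pos ι a b ((Phi φ)^[s] z)‖ = rad e R (j + 1)) := fun s hs => by
    have sl := (mem_range.mp hs).le
    have := D.low E (lv s sl) k1 (Nat.log_mono_right (by
      rw [hw, ← ws s sl]; exact rel_anc φ _ _ _))
    rw [← av_comp φ x s] at this
    refine le_trans ?_ this
    have h1 : C * lam ^ U ≤ C * (lam ^ u0 / (1 - lam)) := by
      have l0 := E.l0
      have l1 := E.l1
      refine mul_le_mul_of_nonneg_left ((pow_le_pow_of_le_one l0.le l1.le k2).trans ?_) C0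
      exact le_div_self (by positivity) (by linarith) (by linarith)
    have h2 : q / (e + 1) - 2 * (1 / (12 * (e + 1)) * q) - 3 * (q / (4 * (e + 1))) =
        q / (12 * (e + 1)) := by field_simp; ring
    have h3 : 0 ≤ q / (12 * (e + 1)) := by positivity
    linarith
  have pt : ∀ s ∈ range l, ∀ z ∈ orb x, ind (‖pos ι a b ((Phi φ)^[s] z)‖ = rad e R (j + 1)) ≤
      ∑ i ∈ Far, ind (‖pos ι a b ((Phi φ)^[s] z)‖ ≤ rad e R (j + 1)) *
        ind (Bad i ((Phi φ)^[i] ((Phi φ)^[l] z))) +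
      ind (‖pos ι a b ((Phi φ)^[s] z)‖ = rad e R (j + 1)) *
        ind (∃ i < t, rel φ ((Phi φ)^[i] w) 1 ≠ 1 ∧ Nat.log 2 (rel φ w i) < u0 ∧
          Bad i ((Phi φ)^[i] ((Phi φ)^[l] z))) := fun s hs z hz => by
    have sl := mem_range.mp hs
    have nn : ∀ i ∈ Far, 0 ≤ ind (‖pos ι a b ((Phi φ)^[s] z)‖ ≤ rad e R (j + 1)) *
        ind (Bad i ((Phi φ)^[i] ((Phi φ)^[l] z))) := fun i _ =>
      mul_nonneg (ind_nonneg _) (ind_nonneg _)
    by_cases h : ‖pos ι a b ((Phi φ)^[s] z)‖ = rad e R (j + 1)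
    swap
    · rw [ind_neg h, zero_mul, add_zero]; exact sum_nonneg nn
    obtain ⟨k, a1, a2, a3⟩ := D.cover G (t := t + (l - s - 1)) hn hj hb
      (x := (Phi φ)^[s] x) (by
        rw [show n + (t + (l - s - 1)) + 1 = n + t + (l - s) by omega]; exact lv s sl.le)
      (Phi_orb φ s hz) (by
        rcases Nat.eq_zero_or_pos s with rfl | s0
        · exact thin
        · rw [flat s s0 sl]; omega) h
    rw [← Function.iterate_add_apply] at a2 a3
    have a4 : l ≤ k + 1 + s := by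
      by_contra hlt
      exact a2 (flat _ (by omega) (by omega))
    obtain ⟨i, hi⟩ := Nat.exists_eq_add_of_le' a4
    rw [hi, Function.iterate_add_apply] at a2 a3
    rw [show n + (t + (l - s - 1)) - k = n + t - i by omega] at a3
    have it : i < t := by omega
    rw [ind_pos h, one_mul]
    rcases lt_or_ge (Nat.log 2 (rel φ w i)) u0 with b1 | b1
    · exact (ind_pos ⟨i, it, a2, b1, a3⟩).ge.trans (le_add_of_nonneg_left (sum_nonneg nn))
    · have := single_le_sum nn (mem_filter.mpr ⟨mem_filter.mpr ⟨mem_range.mpr it, a2⟩, b1⟩)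
      refine le_trans (le_of_eq ?_) (this.trans (le_add_of_nonneg_right (ind_nonneg _)))
      rw [ind_pos h.le, ind_pos (P := Bad i _) a3, mul_one]
  have fin : ∀ s ∈ range l, q / (2 * (e + 1)) ≤ av x fun z =>
      ind (‖pos ι a b ((Phi φ)^[s] z)‖ = rad e R (j + 1)) *
        ind (∃ i < t, rel φ ((Phi φ)^[i] w) 1 ≠ 1 ∧ Nat.log 2 (rel φ w i) < u0 ∧
          Bad i ((Phi φ)^[i] ((Phi φ)^[l] z))) := fun s hs => by
    have h1 := (lo s hs).trans (av_mono (pt s hs))
    rw [av_add, av_sum] at h1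
    have h2 := far s hs
    have h3 : q / (2 * (e + 1)) = 3 * (q / (4 * (e + 1))) - 3 * (1 / (12 * (e + 1))) * q := by
      field_simp; ring
    linarith
  have := sum_le_sum fin
  rw [sum_const, card_range, nsmul_eq_mul, ← av_sum] at this
  simpa only [sum_mul] using this

end Dat

end Pool.Agent.Lib.MP_a2c890_nt.T
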