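import Pool.Agent.Lib.MP_a2c890_nt.TPre

set_option autoImplicit false
set_option linter.unusedSectionVars false

namespace Pool.Agent.Lib.MP_a2c890_nt.T

open Polynomial Finset

theorem arith {e : ℕ} : ∀ n : ℕ, 0 < n → ∀ J : ℕ, n ≤ J → ∀ t u v : ℤ,
    t * n = e * (u * e ^ J + v * n) → (e : ℤ) ∣ t := by
  intro n
  induction n using Nat.strong_induction_on with
  | _ n ih =>
    intro hn J hJ t u v h
    by_cases hc : Nat.gcd n e = 1
    · exact (Nat.isCoprime_iff_coprime.mpr (Nat.Coprime.symm hc)).dvd_of_dvd_mul_right ⟨_, h⟩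
    obtain ⟨n', h1⟩ := Nat.gcd_dvd_left n e
    obtain ⟨e', h2⟩ := Nat.gcd_dvd_right n e
    have g0 : 0 < Nat.gcd n e := Nat.gcd_pos_of_pos_left e hn
    generalize Nat.gcd n e = G at *
    have n0 : 0 < n' := Nat.pos_of_mul_pos_left (h1 ▸ hn)
    have n1 : n' < n := by rw [h1]; nlinarith [show 2 ≤ G by omega]
    obtain ⟨J, rfl⟩ : ∃ J', J = J' + 1 := ⟨J - 1, by omega⟩
    refine ih n' n1 n0 J (by omega) t (u * e') v (mul_left_cancel₀ (a := (G : ℤ)) (by omega) ?_)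
    have h3 : (n : ℤ) = G * n' := by exact_mod_cast h1
    have h4 : (e : ℤ) = G * e' := by exact_mod_cast h2
    rw [pow_succ, h3] at h
    linear_combination h + e * u * e ^ J * h4

variable {F : Type*} [NormedField F] [IsUltrametricDist F] [IsAlgClosed F]

/-- bound for the Gauss norm -/
def GB (ρ : ℝ) (P : F[X]) (c : ℝ) : Prop := ∀ s, ‖P.coeff s‖ * ρ ^ s ≤ c

theorem GB.mul {ρ : ℝ} (h0 : 0 < ρ) {P Q : F[X]} {c c' : ℝ} (h : GB ρ P c) (h' : GB ρ Q c') :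
    GB ρ (P * Q) (c * c') := fun s => by
  have c0 : 0 ≤ c := le_trans (by positivity) (h 0)
  have c1 : 0 ≤ c' := le_trans (by positivity) (h' 0)
  rw [coeff_mul, ← le_div_iff₀ (by positivity)]
  refine IsUltrametricDist.norm_sum_le_of_forall_le_of_nonneg (by positivity) fun x hx => ?_
  rw [le_div_iff₀ (by positivity), norm_mul, ← mem_antidiagonal.mp hx, pow_add, mul_mul_mul_comm]
  exact mul_le_mul (h _) (h' _) (by positivity) c0

theorem GB.const (ρ : ℝ) (a : F) : GB ρ (C a) ‖a‖ := fun s => by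
  rcases s with _ | s
  · simp
  · simp [coeff_C_succ]

theorem GB.lin {ρ : ℝ} (h0 : 0 < ρ) {a : F} (h : ‖a‖ = ρ) : GB ρ (X - C a) ρ := fun s => by
  rcases s with _ | _ | s
  · simp [h]
  · simp
  · simp [coeff_X, coeff_C_succ, h0.le]

theorem GB.sum {ι : Type*} {ρ : ℝ} (h0 : 0 < ρ) (s : Finset ι) (P : ι → F[X]) {c : ℝ} (c0 : 0 ≤ c)
    (h : ∀ i ∈ s, GB ρ (P i) c) : GB ρ (∑ i ∈ s, P i) c := fun n => by
  rw [finsetSum_coeff, ← le_div_iff₀ (by positivity)]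
  exact IsUltrametricDist.norm_sum_le_of_forall_le_of_nonneg (by positivity) fun i hi =>
    (le_div_iff₀ (by positivity)).mpr (h i hi n)

theorem GB.prod {ι : Type*} {ρ : ℝ} (h0 : 0 < ρ) (s : Finset ι) (P : ι → F[X])
    (h : ∀ i ∈ s, GB ρ (P i) 1) : GB ρ (∏ i ∈ s, P i) 1 :=
  prod_induction P (fun Q => GB ρ Q 1) (fun _ _ a b => by simpa using a.mul h0 b)
    (by simpa using GB.const ρ (1 : F)) h

variable {k : Type*} [Field k] [Algebra k F]

/-- fixed by the stabiliser of `y` -/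
def Fx (H : Subgroup (F ≃ₐ[k] F)) (y t : F) : Prop := ∀ σ ∈ H, σ y = y → σ t = t

/-- the value group of the field of `y` lies in `S` -/
def Good (H : Subgroup (F ≃ₐ[k] F)) (S : AddSubgroup ℝ) (y : F) : Prop :=
  ∀ t, Fx H y t → t ≠ 0 → Real.log ‖t‖ ∈ S

variable {H : Subgroup (F ≃ₐ[k] F)} {S : AddSubgroup ℝ}

theorem Good.fixed {x y : F} (h : Good H S y) (hx : Fx H y x) : Good H S x :=
  fun t ht => h t fun σ hσ hy => ht σ hσ (hx σ hσ hy)

theorem Good.thin (iso : ∀ σ ∈ H, ∀ x, ‖σ x‖ = ‖x‖) {y x : F} (h : Good H S y) (Y : Finset F)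
    (hY : ∀ σ ∈ H, σ y = y → ∀ ξ ∈ Y, σ ξ ∈ Y) (hx : x ∈ Y) (h0 : x ≠ 0) :
    ∃ a : ℕ, 0 < a ∧ a ≤ Y.card ∧ a * Real.log ‖x‖ ∈ S := by
  classical
  refine ⟨(Y.filter fun ξ => ‖ξ‖ = ‖x‖).card, card_pos.mpr ⟨x, mem_filter.mpr ⟨hx, rfl⟩⟩,
    card_filter_le _ _, ?_⟩
  have h1 : ‖∏ ξ ∈ Y.filter (fun ξ => ‖ξ‖ = ‖x‖), ξ‖ = ‖x‖ ^ (Y.filter fun ξ => ‖ξ‖ = ‖x‖).card := by
    rw [norm_prod, prod_congr rfl fun ξ hξ => (mem_filter.mp hξ).2, prod_const]
  rw [← Real.log_pow, ← h1]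
  refine h _ (fun σ hσ hy => ?_) (norm_ne_zero_iff.mp (h1 ▸ pow_ne_zero _ (norm_ne_zero_iff.mpr h0)))
  have : (Y.filter fun ξ => ‖ξ‖ = ‖x‖).image σ = Y.filter fun ξ => ‖ξ‖ = ‖x‖ := by
    refine eq_of_subset_of_card_le (fun w hw => ?_) (card_image_of_injective _ σ.injective).ge
    obtain ⟨ξ, hξ, rfl⟩ := mem_image.mp hw
    obtain ⟨a1, a2⟩ := mem_filter.mp hξ
    exact mem_filter.mpr ⟨hY σ hσ hy ξ a1, (iso σ hσ ξ).trans a2⟩
  conv_rhs => rw [← this, prod_image fun _ _ _ _ h => σ.injective h]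
  rw [map_prod]

namespace Loc

variable {g : F[X]} {e : ℕ} {R : ℝ} (L : Loc g e R)
include L

theorem good_reg (iso : ∀ σ ∈ H, ∀ x, ‖σ x‖ = ‖x‖)
    (fix : ∀ σ ∈ H, ∀ x, g.eval (σ x) = σ (g.eval x)) {x : F} (h1 : 1 < ‖x‖) (h2 : ‖x‖ < R)
    (hS : Real.log ‖x‖ ∈ S) (h : Good H S (g.eval x)) : Good H S x := by
  classical
  intro t ht t0
  have n0 : 0 < ‖x‖ := one_pos.trans h1
  set y := g.eval x with hy
  set O := (kids g y).toFinset.filter fun ξ => ∃ σ ∈ H, σ y = y ∧ σ x = ξ with hO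
  have mO : ∀ σ ∈ H, σ y = y → σ x ∈ O := fun σ hσ hσy => mem_filter.mpr
    ⟨Multiset.mem_toFinset.mpr (L.mem_kids.mpr ((fix σ hσ x).trans hσy)), σ, hσ, hσy, rfl⟩
  let val : F → F := fun ξ => if h : ∃ σ ∈ H, σ y = y ∧ σ x = ξ then h.choose t else 0
  have hv : ∀ σ ∈ H, σ y = y → val (σ x) = σ t := fun σ hσ hσy => by
    have ex : ∃ τ ∈ H, τ y = y ∧ τ x = σ x := ⟨σ, hσ, hσy, rfl⟩
    simp only [val, dif_pos ex]
    obtain ⟨a1, -, a3⟩ := ex.choose_spec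
    have := ht (σ⁻¹ * ex.choose) (H.mul_mem (H.inv_mem hσ) a1) (by
      rw [AlgEquiv.mul_apply, a3]; simp)
    rw [AlgEquiv.mul_apply] at this
    have h3 := congrArg σ this
    simpa using h3
  have inj : Set.InjOn (id : F → F) O := fun _ _ _ _ h => h
  set P := Lagrange.interpolate O id val with hP
  have ev : ∀ σ ∈ H, σ y = y → P.eval (σ x) = σ t := fun σ hσ hσy =>
    (Lagrange.eval_interpolate_at_node val inj (mO σ hσ hσy)).trans (hv σ hσ hσy)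
  have fx : ∀ s, Fx H y (P.coeff s) := fun s σ hσ hσy => by
    have : P.map (σ : F →+* F) = P := by
      refine Lagrange.eq_interpolate_of_eval_eq val inj
        (by rw [degree_map]; exact Lagrange.degree_interpolate_lt val inj) fun ξ hξ => ?_
      obtain ⟨τ, a1, a2, rfl⟩ := (mem_filter.mp hξ).2
      have b1 := ev (σ⁻¹ * τ) (H.mul_mem (H.inv_mem hσ) a1) (by
        rw [AlgEquiv.mul_apply, a2]
        exact σ.injective (by simpa using hσy.symm))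
      have b2 : τ x = (σ : F →+* F) ((σ⁻¹ * τ) x) := by simp
      rw [id, hv τ a1 a2, b2, eval_map, eval₂_at_apply, b1]
      simp
    have h3 := congrArg (fun Q => Q.coeff s) this
    simpa using h3
  have nO : ∀ ξ ∈ O, ‖ξ‖ = ‖x‖ ∧ g.eval ξ = y ∧ ‖val ξ‖ = ‖t‖ := fun ξ hξ => by
    obtain ⟨τ, a1, a2, rfl⟩ := (mem_filter.mp hξ).2
    exact ⟨iso τ a1 x, (fix τ a1 x).trans a2, by rw [hv τ a1 a2, iso τ a1]⟩
  have gb : GB ‖x‖ P ‖t‖ := by
    rw [hP, Lagrange.interpolate_apply]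
    refine GB.sum n0 _ _ (norm_nonneg _) fun ξ hξ => ?_
    obtain ⟨a1, a2, a3⟩ := nO ξ hξ
    have := (GB.const ‖x‖ (val ξ)).mul n0 (GB.prod n0 (O.erase ξ)
      (fun j => Lagrange.basisDivisor ξ j) fun ξ' hξ' => by
        obtain ⟨b0, b1⟩ := mem_erase.mp hξ'
        obtain ⟨b2, b3, -⟩ := nO ξ' b1
        have b4 := L.sep (b2 ▸ h1) (b2 ▸ h2) (a1.trans b2.symm) (a2.trans b3.symm) b0.symm
        have := (GB.const ‖x‖ (ξ - ξ')⁻¹).mul n0 (GB.lin n0 b2)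
        rwa [norm_inv, b4, b2, inv_mul_cancel₀ n0.ne'] at this)
    rwa [a3, mul_one] at this
  have e1 : P.eval x = t := ev 1 H.one_mem rfl
  obtain ⟨s, -, hs⟩ := IsUltrametricDist.exists_norm_finsetSum_le_of_nonempty
    (t := range (P.natDegree + 1)) nonempty_range_add_one (fun i => P.coeff i * x ^ i)
  rw [← eval_eq_sum_range, e1, norm_mul, norm_pow] at hs
  have e2 := le_antisymm hs (gb s)
  have c0 : P.coeff s ≠ 0 := fun h => by
    rw [h, norm_zero, zero_mul] at e2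
    exact t0 (norm_eq_zero.mp e2)
  rw [e2, Real.log_mul (norm_ne_zero_iff.mpr c0) (by positivity), Real.log_pow, ← nsmul_eq_mul]
  exact S.add_mem (h _ (fx s) c0) (S.nsmul_mem hS s)

theorem good_kid (iso : ∀ σ ∈ H, ∀ x, ‖σ x‖ = ‖x‖)
    (fix : ∀ σ ∈ H, ∀ x, g.eval (σ x) = σ (g.eval x)) {x : F} {j : ℕ} (hv : Val e R j x)
    (hx : ¬ ‖x‖ ≤ rad e R j) (hS : ∀ i < j, Real.log (rad e R i) ∈ S) (hy : ‖g.eval x‖ ≤ R)
    (h : Good H S (g.eval x)) : Good H S x := by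
  obtain ⟨i, hi, h1⟩ := hv.resolve_left hx
  rcases i with _ | i
  · rw [L.rad_zero] at h1
    exact h.fixed fun σ hσ hσy =>
      L.hole_unique hy ((fix σ hσ x).trans hσy) h1 ((iso σ hσ x).trans h1)
  · exact L.good_reg iso fix (h1 ▸ L.rad_gt _) (h1 ▸ (L.rad_lt i).trans_le (L.rad_le i))
      (h1 ▸ hS _ hi) h

theorem sg_mem (γ : ℝ) {i j : ℕ} (h : i < j + 1) :
    Real.log (rad e R i) ∈ AddSubgroup.closure {γ, Real.log (rad e R j)} := by
  obtain ⟨m, rfl⟩ := Nat.exists_eq_add_of_le (Nat.lt_succ_iff.mp h)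
  have e0 := L.e_pos
  have : Real.log (rad e R i) = (e ^ m : ℕ) • Real.log (rad e R (i + m)) := by
    rw [rad, rad, Real.log_exp, Real.log_exp, nsmul_eq_mul, pow_add]
    push_cast
    field_simp
  rw [this]
  exact AddSubgroup.nsmul_mem _ (AddSubgroup.subset_closure (by simp)) _

theorem sg_not {γ : ℝ} {n : ℕ} (hn : Real.log R = n * γ) {j a : ℕ} (hj : n ≤ j) (a0 : 0 < a)
    (ae : a < e) :
    a * Real.log (rad e R (j + 1)) ∉ AddSubgroup.closure {γ, Real.log (rad e R j)} := by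
  intro h
  obtain ⟨u, v, h⟩ := AddSubgroup.mem_closure_pair.mp h
  have e0 := L.e_pos
  have r0 := L.r_pos
  have γ0 : γ ≠ 0 := fun h => by rw [h, mul_zero] at hn; exact r0.ne' hn
  have n0 : 0 < n := Nat.pos_of_ne_zero fun h => by
    rw [h, Nat.cast_zero, zero_mul] at hn; exact r0.ne' hn
  rw [rad, rad, Real.log_exp, Real.log_exp, hn, zsmul_eq_mul, zsmul_eq_mul, pow_succ] at h
  field_simp at h
  have h2 : (a : ℤ) * n = e * (u * e ^ j + v * n) := by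
    have : (a : ℝ) * n = e * (u * e ^ j + v * n) := by linarith
    exact_mod_cast this
  have := Int.le_of_dvd (by exact_mod_cast a0) (arith n n0 j hj a u v h2)
  omega

end Loc

end Pool.Agent.Lib.MP_a2c890_nt.T
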