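import Pool.Agent.Lib.MP_a2c890_nt.TEq
import Pool.Agent.Lib.MP_a2c890_nt.TRam

set_option autoImplicit false
set_option linter.unusedSectionVars false

namespace Pool.Agent.Lib.MP_a2c890_nt.T

open Polynomial Finset

variable {K : Type*} [Field K] [NumberField K] {p : ℕ} [Fact p.Prime]

/-- the local Galois group -/
structure LG (ι : AlgebraicClosure K →+* PadicAlgCl p) (a b : PadicAlgCl p)
    (g : (PadicAlgCl p)[X]) (H : Subgroup (PadicAlgCl p ≃ₐ[ℚ_[p]] PadicAlgCl p)) : Prop where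
  iso : ∀ σ ∈ H, ∀ x, ‖σ x‖ = ‖x‖
  fix : ∀ σ ∈ H, ∀ x, g.eval (σ x) = σ (g.eval x)
  perm : ∀ σ ∈ H, ∀ z, ∃ z' ∈ orb z, σ (pos ι a b z) = pos ι a b z'

theorem log_rel_le {φ : K[X]} {d : ℕ} (hd : φ.natDegree = d) (h0 : 0 < d) (x : AlgebraicClosure K)
    (l : ℕ) : Nat.log 2 (rel φ x l) ≤ d * l := by
  have h1 := (Nat.pow_log_le_self 2 (rel_pos φ x l).ne').trans ((rel_le hd h0 x l).trans
    (Nat.pow_le_pow_left (Nat.lt_two_pow_self (n := d)).le l))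
  rw [← pow_mul] at h1
  exact (Nat.pow_le_pow_iff_right one_lt_two).mp h1

theorem rel_mono (φ : K[X]) (x : AlgebraicClosure K) {k l : ℕ} (h : k ≤ l) :
    rel φ x k ≤ rel φ x l := by
  obtain ⟨m, rfl⟩ := Nat.exists_eq_add_of_le' h
  rw [rel_add]
  exact Nat.le_mul_of_pos_right _ (rel_pos _ _ _)

theorem rel_anc (φ : K[X]) (x : AlgebraicClosure K) (k l : ℕ) :
    rel φ ((Phi φ)^[k] x) l ≤ rel φ x (l + k) := by
  rw [rel_add]
  exact Nat.le_mul_of_pos_left _ (rel_pos _ _ _)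

theorem log_lt_of_two {m n : ℕ} (hm : 0 < m) (h : m * 2 ≤ n) : Nat.log 2 m < Nat.log 2 n :=
  lt_of_lt_of_le (by rw [Nat.log_mul_base one_lt_two hm.ne']; omega) (Nat.log_mono_right h)

theorem log_mul_le {m n : ℕ} : Nat.log 2 (m * n) ≤ Nat.log 2 m + Nat.log 2 n + 1 := by
  rcases Nat.eq_zero_or_pos (m * n) with h | h
  · simp [h]
  refine Nat.lt_succ_iff.mp (Nat.log_lt_of_lt_pow h.ne' ?_)
  rw [show (Nat.log 2 m + Nat.log 2 n + 1).succ = (Nat.log 2 m).succ + (Nat.log 2 n).succ by omega,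
    pow_add]
  exact Nat.mul_lt_mul'' (Nat.lt_pow_succ_log_self one_lt_two m) (Nat.lt_pow_succ_log_self one_lt_two n)

theorem uu_lt (φ : K[X]) (w : AlgebraicClosure K) {i i' : ℕ} (h : i < i')
    (hi : rel φ ((Phi φ)^[i] w) 1 ≠ 1) : Nat.log 2 (rel φ w i) < Nat.log 2 (rel φ w i') := by
  obtain ⟨m, rfl⟩ := Nat.exists_eq_add_of_le' h.le
  refine log_lt_of_two (rel_pos _ _ _) ?_
  rw [rel_add]
  refine Nat.mul_le_mul_left _ (le_trans ?_ (rel_mono φ _ (show 1 ≤ m by omega)))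
  have := rel_pos φ ((Phi φ)^[i] w) 1
  omega

theorem vv_lt (φ : K[X]) (w : AlgebraicClosure K) {i i' a : ℕ} (h : i < i') (ha : i' ≤ a)
    (hi : rel φ ((Phi φ)^[i] w) 1 ≠ 1) :
    Nat.log 2 (rel φ ((Phi φ)^[i'] w) (a - i')) < Nat.log 2 (rel φ ((Phi φ)^[i] w) (a - i)) := by
  obtain ⟨m, rfl⟩ := Nat.exists_eq_add_of_le' h.le
  refine log_lt_of_two (rel_pos _ _ _) ?_
  rw [show a - i = a - (m + i) + m by omega, rel_add, Function.iterate_add_apply, mul_comm]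
  refine Nat.mul_le_mul_right _ (le_trans ?_ (rel_mono φ _ (show 1 ≤ m by omega)))
  have := rel_pos φ ((Phi φ)^[i] w) 1
  omega

theorem geom_le {ι : Type*} (s : Finset ι) (f : ι → ℕ) (hf : Set.InjOn f s) {u : ℕ}
    (hu : ∀ i ∈ s, u ≤ f i) {x : ℝ} (h0 : 0 ≤ x) (h1 : x < 1) :
    ∑ i ∈ s, x ^ f i ≤ x ^ u / (1 - x) := by
  rw [← sum_image (f := fun n => x ^ n) hf]
  refine le_trans (sum_le_sum_of_subset_of_nonneg (t := Ico u (s.sup f + 1)) (fun n hn => ?_)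
    fun _ _ _ => pow_nonneg h0 _) (geom_sum_Ico_le_of_lt_one h0 h1)
  obtain ⟨i, hi, rfl⟩ := mem_image.mp hn
  exact mem_Ico.mpr ⟨hu i hi, Nat.lt_succ_of_le (le_sup hi)⟩

theorem card_le_of_lt {ι : Type*} (s : Finset ι) (f : ι → ℕ) (hf : Set.InjOn f s) {u : ℕ}
    (hu : ∀ i ∈ s, f i < u) : s.card ≤ u :=
  (card_le_card_of_injOn f (fun i hi => mem_coe.mpr (mem_range.mpr (hu i hi))) hf).trans_eq
    (card_range u)

namespace Dat

variable {φ : K[X]} {ι : AlgebraicClosure K →+* PadicAlgCl p} {a b : PadicAlgCl p}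
  {g : (PadicAlgCl p)[X]} {e : ℕ} {R : ℝ} {c : ℕ} {B : ℝ} {Bs : AlgebraicClosure K → Prop}
  (D : Dat φ ι a b g e R c B Bs) {H : Subgroup (PadicAlgCl p ≃ₐ[ℚ_[p]] PadicAlgCl p)}
  (G : LG ι a b g H)
include D G

theorem fib_stable {x y z : AlgebraicClosure K} {σ : PadicAlgCl p ≃ₐ[ℚ_[p]] PadicAlgCl p}
    (hσ : σ ∈ H) (hy : σ (pos ι a b y) = pos ι a b y) (hz : z ∈ fib φ x 1 y) :
    ∃ z' ∈ fib φ x 1 y, σ (pos ι a b z) = pos ι a b z' := by
  obtain ⟨z', h1, h2⟩ := G.perm σ hσ z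
  obtain ⟨h3, h4⟩ := mem_fib.mp hz
  refine ⟨z', mem_fib.mpr ⟨orb_eq h3 ▸ h1, D.pos_inj ?_⟩, h2⟩
  rw [Function.iterate_one] at h4 ⊢
  rw [← D.conj, ← h2, G.fix σ hσ, D.conj, h4, hy]

theorem hist {S : AddSubgroup ℝ} {j n : ℕ} (hS : ∀ i < j, Real.log (rad e R i) ∈ S)
    (hb : ∀ y, Bs ((Phi φ)^[n] y) → Good H S (pos ι a b y)) (t : ℕ) :
    ∀ x, Bs ((Phi φ)^[n + t] x) → ∀ z ∈ orb x, (∀ k < t, rel φ ((Phi φ)^[k] x) 1 ≠ 1 →
      ¬ ‖pos ι a b ((Phi φ)^[k] z)‖ ≤ rad e R (min j (n + t - k))) → Good H S (pos ι a b z) := by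
  induction t with
  | zero => exact fun x hx z hz _ => hb z (D.lv_orb hx hz)
  | succ t ih =>
    intro x hx z hz h
    have h1 : Good H S (pos ι a b (Phi φ z)) := ih (Phi φ x) hx (Phi φ z) (Phi_orb φ 1 hz)
      fun k hk hr => by
        have := h (k + 1) (by omega) hr
        rwa [show n + (t + 1) - (k + 1) = n + t - k by omega] at this
    by_cases hr : rel φ x 1 = 1
    · refine h1.fixed fun σ hσ hy => ?_
      have m1 : z ∈ fib φ x 1 (Phi φ z) := mem_fib.mpr ⟨hz, rfl⟩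
      obtain ⟨z', a1, a2⟩ := D.fib_stable G hσ hy m1
      rw [a2, card_le_one.mp ((card_fib φ (Phi_orb φ 1 hz)).trans hr).le z' a1 z m1]
    · rw [← D.conj] at h1
      refine D.L.good_kid G.iso G.fix (D.L.val_mono (D.lv_val (D.lv_orb hx hz)) (min_le_right j _))
        (h 0 (Nat.succ_pos t) hr) (fun i hi => hS i (hi.trans_le (min_le_left _ _))) ?_ h1
      rw [D.conj]
      exact D.L.val_le (D.lv_val (m := n + t) (x := Phi φ z) (D.lv_orb (m := n + (t + 1)) hx hz))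

theorem cover {γ : ℝ} {n0 j n t : ℕ} (hn : Real.log R = n0 * γ) (hj : n0 ≤ j)
    (hb : ∀ y, Bs ((Phi φ)^[n] y) → Good H (AddSubgroup.zmultiples γ) (pos ι a b y))
    {x z : AlgebraicClosure K} (hx : Bs ((Phi φ)^[n + t + 1] x)) (hz : z ∈ orb x)
    (thin : rel φ x 1 < e) (h : ‖pos ι a b z‖ = rad e R (j + 1)) :
    ∃ k < t, rel φ ((Phi φ)^[k + 1] x) 1 ≠ 1 ∧
      ‖pos ι a b ((Phi φ)^[k + 1] z)‖ ≤ rad e R (min (j + 1) (n + t - k)) := by
  classical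
  by_contra hc
  have h1 := D.hist G (S := AddSubgroup.closure {γ, Real.log (rad e R j)}) (j := j + 1)
    (fun i hi => D.L.sg_mem γ hi) (fun y hy s hs s0 => by
      obtain ⟨u, hu⟩ := AddSubgroup.mem_zmultiples_iff.mp (hb y hy s hs s0)
      rw [← hu]
      exact AddSubgroup.zsmul_mem _ (AddSubgroup.subset_closure (by simp)) _) t (Phi φ x) hx
    (Phi φ z) (Phi_orb φ 1 hz) fun k hk hr h' => hc ⟨k, hk, hr, h'⟩
  obtain ⟨s, s0, s1, s2⟩ := h1.thin G.iso ((fib φ x 1 (Phi φ z)).image (pos ι a b))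
    (fun σ hσ hy ξ hξ => by
      obtain ⟨w, hw, rfl⟩ := mem_image.mp hξ
      obtain ⟨w', a1, a2⟩ := D.fib_stable G hσ hy hw
      exact a2 ▸ mem_image_of_mem _ a1)
    (mem_image_of_mem _ (mem_fib.mpr ⟨hz, rfl⟩))
    (norm_pos_iff.mp (h ▸ D.L.rad_pos _))
  rw [h] at s2
  exact D.L.sg_not hn hj s0
    ((s1.trans (card_image_le.trans (card_fib φ (Phi_orb φ 1 hz)).le)).trans_lt thin) s2

end Dat

end Pool.Agent.Lib.MP_a2c890_nt.T
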