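import Mathlib

set_option autoImplicit false

namespace Pool.Agent.Lib.MP_a2c890_nt.T

open Finset

/-- quadratic form of a symmetric transitive relation with few classes -/
theorem form_ge {α ι : Type*} (S : Finset α) (c : α → ℝ) (rel : α → α → Prop)
    [DecidableRel rel] (hs : ∀ a b, rel a b → rel b a) (ht : ∀ a b e, rel a b → rel b e → rel a e)
    (T : Finset ι) (lab : α → ι) (hT : ∀ a ∈ S, lab a ∈ T)
    (hl : ∀ a ∈ S, ∀ b ∈ S, rel a a → rel b b → lab a = lab b → rel a b) :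
    (∑ a ∈ S.filter (fun a => rel a a), c a) ^ 2 ≤
      T.card * ∑ a ∈ S, ∑ b ∈ S, c a * c b * (if rel a b then 1 else 0) := by
  classical
  set C := S.filter (fun a => rel a a) with hC
  have ex : ∀ s : Finset α, ∀ a0 : α, ∃ x : α, s.Nonempty → x ∈ s := fun s a0 => by
    by_cases h : s.Nonempty
    · exact ⟨h.choose, fun _ => h.choose_spec⟩
    · exact ⟨a0, fun h' => absurd h' h⟩
  rcases S.eq_empty_or_nonempty with h0 | ⟨a0, -⟩
  · subst h0; simp [hC]
  choose pick hpick using fun s => ex s a0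
  let rep : α → ι := fun a => lab (pick (C.filter (rel a)))
  have hp : ∀ a ∈ C, pick (C.filter (rel a)) ∈ C ∧ rel a (pick (C.filter (rel a))) := fun a ha =>
    mem_filter.mp (hpick _ ⟨a, mem_filter.mpr ⟨ha, (mem_filter.mp ha).2⟩⟩)
  have hrep : ∀ a ∈ C, ∀ b ∈ C, (rel a b ↔ rep a = rep b) := fun a ha b hb => by
    constructor
    · intro h
      have : C.filter (rel a) = C.filter (rel b) :=
        filter_congr fun x _ => ⟨fun h' => ht _ _ _ (hs _ _ h) h', fun h' => ht _ _ _ h h'⟩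
      simp only [rep, this]
    · intro h
      obtain ⟨h1, h2⟩ := hp a ha
      obtain ⟨h3, h4⟩ := hp b hb
      exact ht _ _ _ h2 (ht _ _ _ (hl _ (mem_filter.mp h1).1 _ (mem_filter.mp h3).1
        (mem_filter.mp h1).2 (mem_filter.mp h3).2 h) (hs _ _ h4))
  have hmem : ∀ a ∈ C, rep a ∈ T := fun a ha => hT _ (mem_filter.mp (hp a ha).1).1
  have e1 : ∑ a ∈ S, ∑ b ∈ S, c a * c b * (if rel a b then 1 else 0) =
      ∑ a ∈ C, ∑ b ∈ C, c a * c b * (if rep a = rep b then (1 : ℝ) else 0) := by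
    rw [← sum_subset (filter_subset (fun a => rel a a) S)]
    · refine sum_congr rfl fun a ha => ?_
      rw [← sum_subset (filter_subset (fun a => rel a a) S)]
      · exact sum_congr rfl fun b hb => by rw [if_congr (hrep a ha b hb) rfl rfl]
      · intro b hb hb'
        rw [if_neg, mul_zero]
        exact fun h => hb' (mem_filter.mpr ⟨hb, ht _ _ _ (hs _ _ h) h⟩)
    · intro a ha ha'
      refine sum_eq_zero fun b _ => ?_
      rw [if_neg, mul_zero]
      exact fun h => ha' (mem_filter.mpr ⟨ha, ht _ _ _ h (hs _ _ h)⟩)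
  have e2 : ∑ a ∈ C, ∑ b ∈ C, c a * c b * (if rep a = rep b then (1 : ℝ) else 0) =
      ∑ l ∈ T, (∑ a ∈ C.filter (fun a => rep a = l), c a) ^ 2 := by
    rw [← sum_fiberwise_of_maps_to hmem]
    refine sum_congr rfl fun l _ => ?_
    rw [sq, sum_mul]
    refine sum_congr rfl fun a ha => ?_
    rw [mul_sum, sum_filter (s := C)]
    refine sum_congr rfl fun b _ => ?_
    rw [(mem_filter.mp ha).2]
    by_cases h : rep b = l
    · rw [if_pos h, if_pos h.symm, mul_one]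
    · rw [if_neg h, if_neg (Ne.symm h), mul_zero]
  rw [e1, e2, ← sum_fiberwise_of_maps_to hmem]
  exact sq_sum_le_card_mul_sum_sq

/-- clamp to an interval -/
noncomputable def clamp (s t x : ℝ) : ℝ := max s (min x t)

theorem clamp_split {s v t : ℝ} (h1 : s ≤ v) (h2 : v ≤ t) (x : ℝ) :
    clamp s t x = clamp s v x + clamp v t x - v := by
  unfold clamp
  simp only [max_def, min_def]
  split_ifs <;> linarith

theorem clamp_lip (s t : ℝ) {x y : ℝ} (h : x ≤ y) :
    clamp s t x ≤ clamp s t y ∧ clamp s t y - clamp s t x ≤ y - x := by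
  unfold clamp
  simp only [max_def, min_def]
  split_ifs <;> constructor <;> linarith

theorem layer {α : Type*} (S : Finset α) (c : α → ℝ) (hc : ∑ a ∈ S, c a = 0) (κ : α → α → ℝ)
    (B : ℝ) (n : ℕ) : ∀ s t : ℝ, s ≤ t →
    (((S ×ˢ S).image fun x => κ x.1 x.2).filter fun v => s < v ∧ v < t).card ≤ n →
    (∀ τ, s ≤ τ → τ < t → B ≤ ∑ a ∈ S, ∑ b ∈ S, c a * c b * (if κ a b ≤ τ then 1 else 0)) →
    ∑ a ∈ S, ∑ b ∈ S, c a * c b * clamp s t (κ a b) ≤ -((t - s) * B) := by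
  classical
  have z : ∀ u : ℝ, ∑ a ∈ S, ∑ b ∈ S, c a * c b * u = 0 := fun u => by
    simp only [← sum_mul, ← mul_sum, hc, mul_zero, zero_mul, sum_const_zero]
  have base : ∀ s t : ℝ, s ≤ t →
      (((S ×ˢ S).image fun x => κ x.1 x.2).filter fun v => s < v ∧ v < t) = ∅ →
      (∀ τ, s ≤ τ → τ < t → B ≤ ∑ a ∈ S, ∑ b ∈ S, c a * c b * (if κ a b ≤ τ then 1 else 0)) →
      ∑ a ∈ S, ∑ b ∈ S, c a * c b * clamp s t (κ a b) ≤ -((t - s) * B) := by
    intro s t hst he hB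
    have e : ∑ a ∈ S, ∑ b ∈ S, c a * c b * clamp s t (κ a b) =
        ∑ a ∈ S, ∑ b ∈ S, c a * c b * t -
          (t - s) * ∑ a ∈ S, ∑ b ∈ S, c a * c b * (if κ a b ≤ s then 1 else 0) := by
      rw [mul_sum, ← sum_sub_distrib]
      refine sum_congr rfl fun a ha => ?_
      rw [mul_sum, ← sum_sub_distrib]
      refine sum_congr rfl fun b hb => ?_
      have hn : ¬ (s < κ a b ∧ κ a b < t) := fun h =>
        notMem_empty (κ a b) (he ▸ mem_filter.mpr ⟨mem_image.mpr ⟨(a, b), mem_product.mpr ⟨ha, hb⟩, rfl⟩, h⟩)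
      by_cases h : κ a b ≤ s
      · rw [if_pos h, clamp, max_eq_left ((min_le_left _ _).trans h)]; ring
      · have : t ≤ κ a b := by
          by_contra h'
          exact hn ⟨not_le.mp h, not_le.mp h'⟩
        rw [if_neg h, clamp, min_eq_right this, max_eq_right hst]; ring
    rw [e, z, zero_sub, neg_le_neg_iff]
    rcases hst.eq_or_lt with rfl | h
    · simp
    · exact mul_le_mul_of_nonneg_left (hB s le_rfl h) (by linarith)
  induction n with
  | zero => exact fun s t hst he hB => base s t hst (card_eq_zero.mp (Nat.le_zero.mp he)) hB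
  | succ n ih =>
    intro s t hst he hB
    rcases (((S ×ˢ S).image fun x => κ x.1 x.2).filter fun v => s < v ∧ v < t).eq_empty_or_nonempty
      with h0 | ⟨v, hv⟩
    · exact base s t hst h0 hB
    obtain ⟨-, h1, h2⟩ := mem_filter.mp hv
    have sub : ∀ s' t' : ℝ, s ≤ s' → t' ≤ t → ¬ (s' < v ∧ v < t') →
        (((S ×ˢ S).image fun x => κ x.1 x.2).filter fun v => s' < v ∧ v < t').card ≤ n := by
      intro s' t' a1 a2 a3
      refine Nat.lt_succ_iff.mp (lt_of_lt_of_le (card_lt_card ⟨fun x hx => ?_, fun h => ?_⟩) he)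
      · obtain ⟨b1, b2, b3⟩ := mem_filter.mp hx
        exact mem_filter.mpr ⟨b1, a1.trans_lt b2, b3.trans_le a2⟩
      · exact a3 (mem_filter.mp (h hv)).2
    have i1 := ih s v h1.le (sub s v le_rfl h2.le fun h => lt_irrefl _ h.2)
      fun τ a b => hB τ a (b.trans h2)
    have i2 := ih v t h2.le (sub v t h1.le le_rfl fun h => lt_irrefl _ h.1)
      fun τ a b => hB τ (h1.le.trans a) b
    have e : ∑ a ∈ S, ∑ b ∈ S, c a * c b * clamp s t (κ a b) =
        ∑ a ∈ S, ∑ b ∈ S, c a * c b * clamp s v (κ a b) +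
          ∑ a ∈ S, ∑ b ∈ S, c a * c b * clamp v t (κ a b) - ∑ a ∈ S, ∑ b ∈ S, c a * c b * v := by
      rw [← sum_add_distrib, ← sum_sub_distrib]
      refine sum_congr rfl fun a _ => ?_
      rw [← sum_add_distrib, ← sum_sub_distrib]
      exact sum_congr rfl fun b _ => by rw [clamp_split h1.le h2.le]; ring
    rw [e, z]
    linarith

theorem ultra_nonpos {α : Type*} (S : Finset α) (c : α → ℝ) (hc : ∑ a ∈ S, c a = 0)
    (κ : α → α → ℝ) (hs : ∀ a b, κ a b = κ b a) (hu : ∀ a b e, κ a e ≤ max (κ a b) (κ b e)) :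
    ∑ a ∈ S, ∑ b ∈ S, c a * c b * κ a b ≤ 0 := by
  classical
  obtain ⟨t, ht⟩ := ((S ×ˢ S).image fun x => |κ x.1 x.2|).bddAbove
  have ht' : ∀ a ∈ S, ∀ b ∈ S, |κ a b| ≤ |t| := fun a ha b hb =>
    (ht (mem_coe.mpr (mem_image.mpr ⟨(a, b), mem_product.mpr ⟨ha, hb⟩, rfl⟩))).trans (le_abs_self t)
  have h := layer S c hc κ 0 _ (-|t|) |t| (by linarith [abs_nonneg t]) le_rfl fun τ _ _ => by
    rcases S.eq_empty_or_nonempty with h0 | hne
    · simp [h0]
    have := form_ge S c (fun a b => κ a b ≤ τ) (fun a b h => hs a b ▸ h)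
      (fun a b e h1 h2 => (hu a b e).trans (max_le h1 h2)) S id (fun _ h => h)
      (fun a _ b _ h _ e => by rw [show b = a from e.symm]; exact h)
    exact nonneg_of_mul_nonneg_right ((sq_nonneg _).trans this) (by exact_mod_cast hne.card_pos) 
  rw [mul_zero, neg_zero] at h
  refine le_of_eq_of_le (sum_congr rfl fun a ha => sum_congr rfl fun b hb => ?_) h
  obtain ⟨h1, h2⟩ := abs_le.mp (ht' a ha b hb)
  rw [clamp, min_eq_left h2, max_eq_right h1]

variable {F : Type*} [NormedAddCommGroup F] [IsUltrametricDist F]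

theorem ker_ultra {ε : ℝ} (hε : 0 < ε) (Ψ : F → ℝ → ℝ)
    (h1 : ∀ a a' t, 0 < t → ‖a - a'‖ ≤ t → Ψ a t = Ψ a' t)
    (h2 : ∀ a t t', 0 < t → t ≤ t' → Ψ a t ≤ Ψ a t') :
    (∀ a b, Ψ a (max ‖a - b‖ ε) = Ψ b (max ‖b - a‖ ε)) ∧
    ∀ a b e, Ψ a (max ‖a - e‖ ε) ≤ max (Ψ a (max ‖a - b‖ ε)) (Ψ b (max ‖b - e‖ ε)) := by
  have p : ∀ x : ℝ, 0 < max x ε := fun x => lt_max_of_lt_right hε
  refine ⟨fun a b => by rw [norm_sub_rev b a]; exact h1 _ _ _ (p _) (le_max_left _ _),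
    fun a b e => ?_⟩
  have u : ‖a - e‖ ≤ max ‖a - b‖ ‖b - e‖ := by
    rw [← sub_add_sub_cancel a b e]; exact IsUltrametricDist.norm_add_le_max _ _
  rcases le_total ‖a - b‖ ‖b - e‖ with h | h
  · rw [max_eq_right h] at u
    refine le_max_of_le_right ((h2 _ _ _ (p _) (max_le_max_right ε u)).trans_eq ?_)
    exact h1 _ _ _ (p _) (le_max_of_le_left h)
  · rw [max_eq_left h] at u
    exact le_max_of_le_left (h2 _ _ _ (p _) (max_le_max_right ε u))

/-- energy controls the discrepancy of an event with a margin -/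
theorem disc {ι : Type*} (S : Finset F) (c : F → ℝ) (hc : ∑ a ∈ S, c a = 0) {ε : ℝ} (hε : 0 < ε)
    (Λ : F → ℝ → ℝ) {N : ℝ} (hN : 0 < N)
    (h1 : ∀ a a' t, 0 < t → ‖a - a'‖ ≤ t → Λ a t = Λ a' t)
    (h2 : ∀ a t t', 0 < t → t ≤ t' →
      Λ a t ≤ Λ a t' ∧ Λ a t' - Λ a t ≤ N * (Real.log t' - Real.log t))
    {s t : ℝ} (hst : s ≤ t) (gap : ∀ a ∈ S, Λ a ε ≤ s ∨ t ≤ Λ a ε)
    (T : Finset ι) (hT0 : 0 < T.card) (lab : F → ι) (hT : ∀ a ∈ S, lab a ∈ T)
    (hl : ∀ a ∈ S, ∀ b ∈ S, Λ a ε ≤ s → Λ b ε ≤ s → lab a = lab b → Λ a (max ‖a - b‖ ε) ≤ s) :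
    ∑ a ∈ S, ∑ b ∈ S, c a * c b * Real.log (max ‖a - b‖ ε) ≤
      -((t - s) * (∑ a ∈ S.filter (fun a => Λ a ε ≤ s), c a) ^ 2 / (N * T.card)) := by
  classical
  obtain ⟨s1, u1⟩ := ker_ultra hε Λ h1 fun a t t' a1 a2 => (h2 a t t' a1 a2).1
  obtain ⟨s2, u2⟩ := ker_ultra hε (fun a x => Real.log x - clamp s t (Λ a x) / N)
    (fun a a' x a1 a2 => by simp only [h1 a a' x a1 a2]) fun a x x' a1 a2 => by
      obtain ⟨b1, b2⟩ := h2 a x x' a1 a2
      have b3 := (clamp_lip s t b1).2.trans b2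
      have : (clamp s t (Λ a x') - clamp s t (Λ a x)) / N ≤ Real.log x' - Real.log x := by
        rw [div_le_iff₀ hN]; linarith
      rw [sub_div] at this
      linarith
  have k1 := ultra_nonpos S c hc _ s2 u2
  have hT1 : (0 : ℝ) < T.card := by exact_mod_cast hT0
  have dg : ∀ a : F, max ‖a - a‖ ε = ε := fun a => by rw [sub_self, norm_zero, max_eq_right hε.le]
  have k2 := layer S c hc (fun a b => Λ a (max ‖a - b‖ ε))
    ((∑ a ∈ S.filter (fun a => Λ a ε ≤ s), c a) ^ 2 / T.card) _ s t hst le_rfl fun τ a1 a2 => by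
      have g : ∀ a ∈ S, (Λ a (max ‖a - a‖ ε) ≤ τ ↔ Λ a ε ≤ s) := fun a ha => by
        rw [dg]
        exact ⟨fun h => (gap a ha).resolve_right (not_le.mpr (h.trans_lt a2)), fun h => h.trans a1⟩
      have := form_ge S c (fun a b => Λ a (max ‖a - b‖ ε) ≤ τ) (fun a b h => s1 a b ▸ h)
        (fun a b e h1 h2 => (u1 a b e).trans (max_le h1 h2)) T lab hT
        fun a ha b hb b1 b2 e => (hl a ha b hb ((g a ha).mp b1) ((g b hb).mp b2) e).trans a1
      rw [filter_congr g] at this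
      rw [div_le_iff₀ hT1, mul_comm]
      exact this
  have e : ∑ a ∈ S, ∑ b ∈ S, c a * c b * Real.log (max ‖a - b‖ ε) =
      ∑ a ∈ S, ∑ b ∈ S, c a * c b *
        (Real.log (max ‖a - b‖ ε) - clamp s t (Λ a (max ‖a - b‖ ε)) / N) +
      (∑ a ∈ S, ∑ b ∈ S, c a * c b * clamp s t (Λ a (max ‖a - b‖ ε))) / N := by
    rw [sum_div, ← sum_add_distrib]
    refine sum_congr rfl fun a _ => ?_
    rw [sum_div, ← sum_add_distrib]
    exact sum_congr rfl fun b _ => by ring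
  have k3 := div_le_div_of_nonneg_right k2 hN.le
  have e2 : -((t - s) * ((∑ a ∈ S.filter (fun a => Λ a ε ≤ s), c a) ^ 2 / T.card)) / N =
      -((t - s) * (∑ a ∈ S.filter (fun a => Λ a ε ≤ s), c a) ^ 2 / (N * T.card)) := by
    field_simp
  rw [e, ← e2]
  linarith

end Pool.Agent.Lib.MP_a2c890_nt.T
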