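import Pool.Agent.Lib.MP_a2c890_nt.TPre
import Pool.Agent.Lib.MP_a2c890_nt.TKer

set_option autoImplicit false
set_option linter.unusedSectionVars false

namespace Pool.Agent.Lib.MP_a2c890_nt.T

open Polynomial Finset

variable {F : Type*} [NormedField F] [IsUltrametricDist F] [IsAlgClosed F]

/-- logarithm of the sup norm of a polynomial with zeros `W` on a disc -/
noncomputable def Lam (W : Multiset F) (c0 : ℝ) (a : F) (t : ℝ) : ℝ :=
  c0 + (W.map fun α => Real.log (max ‖a - α‖ t)).sum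

theorem Lam_center (W : Multiset F) (c0 : ℝ) {a a' : F} {t : ℝ} (h : ‖a - a'‖ ≤ t) :
    Lam W c0 a t = Lam W c0 a' t := by
  have k : ∀ {a a' : F} (α : F), ‖a - a'‖ ≤ t → max ‖a - α‖ t ≤ max ‖a' - α‖ t := fun {a a'} α h => by
    refine max_le ?_ (le_max_right _ _)
    rw [← sub_add_sub_cancel a a' α]
    exact uadd_le (le_max_of_le_right h) (le_max_left _ _)
  unfold Lam
  rw [Multiset.map_congr rfl fun α _ => by
    rw [le_antisymm (k α h) (k α (by rwa [norm_sub_rev]))]]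

theorem Lam_lip (W : Multiset F) (c0 : ℝ) (a : F) {t t' : ℝ} (ht : 0 < t) (h : t ≤ t') :
    Lam W c0 a t ≤ Lam W c0 a t' ∧
      Lam W c0 a t' - Lam W c0 a t ≤ W.card * (Real.log t' - Real.log t) := by
  have k : ∀ x : ℝ, Real.log (max x t) ≤ Real.log (max x t') ∧
      Real.log (max x t') - Real.log (max x t) ≤ Real.log t' - Real.log t := fun x => by
    refine ⟨Real.log_le_log (lt_max_of_lt_right ht) (max_le_max_left x h), ?_⟩
    have h1 : Real.log t ≤ Real.log (max x t) := Real.log_le_log ht (le_max_right _ _)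
    rcases le_total x t' with h' | h'
    · rw [max_eq_right h']; linarith
    · rw [max_eq_left h', max_eq_left (h.trans h')]
      linarith [Real.log_le_log ht h]
  unfold Lam
  induction W using Multiset.induction_on with
  | empty => simp
  | cons α W ih =>
    simp only [Multiset.map_cons, Multiset.sum_cons, Multiset.card_cons]
    obtain ⟨k1, k2⟩ := k ‖a - α‖
    push_cast
    constructor <;> linarith [ih.1, ih.2]

theorem Lam_near (W : Multiset F) (c0 : ℝ) (a : F) {s : ℝ} (t : ℝ) (h : ∀ α ∈ W, s ≤ ‖a - α‖) :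
    Lam W c0 a (max s t) = Lam W c0 a t := by
  unfold Lam
  rw [Multiset.map_congr rfl fun α hα => by rw [← max_assoc, max_eq_left (h α hα)]]

/-- the joint event -/
def Ev (g : F[X]) (e : ℕ) (R : ℝ) (j k : ℕ) (x : F) : Prop :=
  ‖x‖ ≤ rad e R j ∧ ‖(fun z => g.eval z)^[k] x‖ ≤ rad e R j

theorem wsum [DecidableEq F] (Y : Finset F) (Z : Multiset F) (u v : ℝ) (h : F → ℝ) :
    ∑ a ∈ Y ∪ Z.toFinset, (ind (a ∈ Y) * u - Z.count a * v) * h a =
      u * ∑ a ∈ Y, h a - v * (Z.map h).sum := by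
  simp only [sub_mul, sum_sub_distrib]
  congr 1
  · rw [mul_sum, ← sum_subset (subset_union_left (s₂ := Z.toFinset))]
    · exact sum_congr rfl fun a ha => by rw [ind_pos ha, one_mul]
    · intro a _ ha; rw [ind_neg ha, zero_mul, zero_mul]
  · rw [sum_multiset_map_count, mul_sum, ← sum_subset (subset_union_right (s₁ := Y))]
    · exact sum_congr rfl fun a _ => by rw [nsmul_eq_mul]; ring
    · intro a _ ha
      rw [Multiset.count_eq_zero.mpr (fun h => ha (Multiset.mem_toFinset.mpr h))]; simp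

namespace Loc

variable {g : F[X]} {e : ℕ} {R : ℝ} (L : Loc g e R)
include L

theorem iter_le {n i : ℕ} {x : F} (h : ‖(fun z => g.eval z)^[n] x‖ ≤ R) (hi : i ≤ n) :
    ‖(fun z => g.eval z)^[i] x‖ ≤ R ∧ Val e R (n - i) ((fun z => g.eval z)^[i] x) := by
  obtain ⟨m, rfl⟩ := Nat.exists_eq_add_of_le' hi
  rw [Function.iterate_add_apply] at h
  have := L.val_iter (n := 0) (Or.inl (L.rad_zero.symm ▸ h))
  rw [zero_add] at this
  rw [Nat.add_sub_cancel]
  exact ⟨L.val_le this, this⟩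

theorem lip_iter (i : ℕ) {x T : F} {δ : ℝ} (hx : ‖(fun z => g.eval z)^[i] x‖ ≤ R)
    (hT : ‖T - x‖ ≤ δ) (hδ : (R ^ e) ^ i * δ ≤ 1) :
    ‖(fun z => g.eval z)^[i] T - (fun z => g.eval z)^[i] x‖ ≤ (R ^ e) ^ i * δ := by
  induction i generalizing x T δ with
  | zero => simpa using hT
  | succ i ih =>
    have x1 : ‖x‖ ≤ R := (L.iter_le hx (Nat.zero_le _)).1
    have d0 : 0 ≤ δ := (norm_nonneg _).trans hT
    have d1 : δ ≤ 1 := (le_mul_of_one_le_left d0 (one_le_pow₀ (one_le_pow₀ L.hR.le))).trans hδ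
    have T1 : ‖T‖ ≤ R := by
      rw [← add_sub_cancel x T]; exact uadd_le x1 (hT.trans (d1.trans L.hR.le))
    have h0 : 0 < R := one_pos.trans L.hR
    rw [Function.iterate_succ_apply] at hx
    rw [Function.iterate_succ_apply, Function.iterate_succ_apply, pow_succ, mul_assoc]
    rw [pow_succ, mul_assoc] at hδ
    exact ih hx ((L.lip T1 x1).trans (by gcongr)) hδ

theorem Lam_pre (k : ℕ) {π : F} (hπ : π ≠ 0) (hδ : (R ^ e) ^ k * ‖π‖ ≤ 1) {a : F} (y : F)
    (ha : ‖(fun z => g.eval z)^[k] a‖ ≤ R) :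
    ∃ w : F, ‖w‖ ≤ 1 ∧ (fun z => g.eval z)^[k] a - y + w ≠ 0 ∧
      Lam (pre g k y) (-(sig (e + 1) k * Real.log R)) a ‖π‖ =
        Real.log ‖(fun z => g.eval z)^[k] a - y + w‖ := by
  obtain ⟨T, h1, h2⟩ := gen (pre g k y) a hπ
  obtain ⟨h3, h4⟩ := L.log_pre k (T := T) (y := y) fun z hz h => by
    have := h2 z hz
    rw [h, sub_self, norm_zero] at this
    exact absurd this (lt_max_of_lt_right (norm_pos_iff.mpr hπ)).ne
  refine ⟨_, (L.lip_iter k ha h1 hδ).trans hδ, ?_, ?_⟩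
  · rw [sub_add_sub_cancel']; exact sub_ne_zero.mpr h4
  · rw [sub_add_sub_cancel', Lam, Multiset.map_congr rfl (g := fun z => Real.log ‖T - z‖)
      fun z hz => by rw [h2 z hz], h3]
    ring

theorem disc_ev (S : Finset F) (c : F → ℝ) (hc : ∑ a ∈ S, c a = 0) {π : F} (hπ : π ≠ 0)
    {j k n : ℕ} (hjk : k + (j + 1) ≤ n) (hδ : (R ^ e) ^ k * ‖π‖ ≤ 1)
    (hS : ∀ a ∈ S, ‖(fun z => g.eval z)^[n] a‖ ≤ R) :
    ∑ a ∈ S, ∑ b ∈ S, c a * c b * Real.log (max ‖a - b‖ ‖π‖) ≤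
      -(Real.log R / (e : ℝ) ^ (j + 1) * (∑ a ∈ S, c a * ind (Ev g e R (j + 1) k a)) ^ 2 /
        (2 * ((e + 1 : ℝ) ^ k) ^ 2)) := by
  classical
  have p0 : 0 < ‖π‖ := norm_pos_iff.mpr hπ
  have p1 : ‖π‖ ≤ 1 := (le_mul_of_one_le_left p0.le (one_le_pow₀ (one_le_pow₀ L.hR.le))).trans hδ
  set W := pre g k 0 with hW
  set c0 := -(sig (e + 1) k * Real.log R) with hc0
  set T := insert 0 W.toFinset with hT
  have N1 : (1 : ℝ) ≤ (e + 1 : ℝ) ^ k := one_le_pow₀ (by linarith [L.e_pos])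
  have cW : (W.card : ℝ) = (e + 1 : ℝ) ^ k := by rw [hW, L.card_pre]; push_cast; rfl
  have cT : (T.card : ℝ) ≤ 2 * (e + 1 : ℝ) ^ k := by
    have : T.card ≤ W.card + 1 :=
      (card_insert_le _ _).trans (Nat.succ_le_succ (Multiset.toFinset_card_le W))
    have h' : (T.card : ℝ) ≤ W.card + 1 := by exact_mod_cast this
    linarith
  have T0 : 0 < T.card := card_pos.mpr (insert_nonempty _ _)
  choose lab hl1 hl2 using fun a : F => T.exists_min_image (fun α => ‖a - α‖) (insert_nonempty _ _)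
  let Λ : F → ℝ → ℝ := fun a t => max (Lam {0} 0 a t) (Lam W c0 a t)
  have lr : ∀ i, Real.log (rad e R i) = Real.log R / (e : ℝ) ^ i := fun i => Real.log_exp _
  have h1 : ∀ a a' t, 0 < t → ‖a - a'‖ ≤ t → Λ a t = Λ a' t := fun a a' t _ h => by
    simp only [Λ, Lam_center _ _ h]
  have h2 : ∀ a t t', 0 < t → t ≤ t' → Λ a t ≤ Λ a t' ∧
      Λ a t' - Λ a t ≤ (e + 1 : ℝ) ^ k * (Real.log t' - Real.log t) := fun a t t' ht h => by
    obtain ⟨a1, a2⟩ := Lam_lip {0} 0 a ht h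
    obtain ⟨a3, a4⟩ := Lam_lip W c0 a ht h
    have a5 : 0 ≤ Real.log t' - Real.log t := sub_nonneg.mpr (Real.log_le_log ht h)
    rw [Multiset.card_singleton, Nat.cast_one] at a2
    rw [cW] at a4
    have a6 := mul_le_mul_of_nonneg_right N1 a5
    refine ⟨max_le_max a1 a3, sub_le_iff_le_add.mpr (max_le ?_ ?_)⟩
    · linarith [le_max_left (Lam {0} 0 a t) (Lam W c0 a t)]
    · linarith [le_max_right (Lam {0} 0 a t) (Lam W c0 a t)]
  have key : ∀ a ∈ S, (Ev g e R (j + 1) k a → Λ a ‖π‖ ≤ Real.log (rad e R (j + 1))) ∧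
      (¬ Ev g e R (j + 1) k a → Real.log (rad e R j) ≤ Λ a ‖π‖) := fun a ha => by
    obtain ⟨b1, b2⟩ := L.iter_le (hS a ha) (show k ≤ n by omega)
    obtain ⟨w, w1, w2, w3⟩ := L.Lam_pre k hπ hδ 0 b1
    rw [sub_zero] at w2 w3
    have l0 : Lam {0} 0 a ‖π‖ = Real.log (max ‖a‖ ‖π‖) := by simp [Lam]
    refine ⟨fun h => max_le ?_ ?_, fun h => ?_⟩
    · rw [l0]
      exact Real.log_le_log (lt_max_of_lt_right p0) (max_le h.1 (p1.trans (L.rad_gt _).le))
    · rw [w3]
      exact Real.log_le_log (norm_pos_iff.mpr w2) (uadd_le h.2 (w1.trans (L.rad_gt _).le))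
    · rcases not_and_or.mp h with h | h
      · have := (L.val_gap (L.val_mono (L.iter_le (hS a ha) (Nat.zero_le n)).2
          (show j + 1 ≤ n - 0 by omega))).resolve_left h
        refine le_max_of_le_left ?_
        rw [l0]
        exact Real.log_le_log (L.rad_pos j) (le_max_of_le_left this)
      · have := (L.val_gap (L.val_mono b2 (show j + 1 ≤ n - k by omega))).resolve_left h
        refine le_max_of_le_right ?_
        rw [w3, uadd_eq (w1.trans_lt ((L.rad_gt j).trans_le this))]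
        exact Real.log_le_log (L.rad_pos j) this
  have st : Real.log (rad e R (j + 1)) < Real.log (rad e R j) :=
    Real.log_lt_log (L.rad_pos _) (L.rad_lt j)
  have iff : ∀ a ∈ S, (Λ a ‖π‖ ≤ Real.log (rad e R (j + 1)) ↔ Ev g e R (j + 1) k a) := fun a ha =>
    ⟨fun h => by_contra fun h' => absurd (((key a ha).2 h').trans h) (not_le.mpr st), (key a ha).1⟩
  have near : ∀ a, Λ a (max ‖a - lab a‖ ‖π‖) = Λ a ‖π‖ := fun a => by
    simp only [Λ]
    rw [Lam_near _ _ _ _ fun α hα => hl2 a α (by rw [Multiset.mem_singleton.mp hα]; simp [hT]),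
      Lam_near _ _ _ _ fun α hα => hl2 a α (mem_insert_of_mem (Multiset.mem_toFinset.mpr hα))]
  have main := disc S c hc p0 Λ (N := (e + 1 : ℝ) ^ k) (by positivity) h1 h2 st.le
    (fun a ha => (em _).imp (key a ha).1 (key a ha).2) T T0 lab (fun a _ => hl1 a)
    fun a _ b _ a1 a2 hab => by
      have pp : ∀ x : ℝ, 0 < max x ‖π‖ := fun x => lt_max_of_lt_right p0
      have u : ‖a - b‖ ≤ max ‖a - lab a‖ ‖b - lab b‖ := by
        rw [← sub_sub_sub_cancel_right a b (lab a)]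
        exact usub_le (le_max_left _ _) (hab ▸ le_max_right _ _)
      rcases le_max_iff.mp u with h | h
      · exact ((h2 a _ _ (pp _) (max_le_max_right _ h)).1.trans_eq (near a)).trans a1
      · rw [h1 a b _ (pp _) (le_max_left _ _)]
        exact ((h2 b _ _ (pp _) (max_le_max_right _ h)).1.trans_eq (near b)).trans a2
  rw [filter_congr iff] at main
  have e1 : ∑ a ∈ S.filter (Ev g e R (j + 1) k), c a = ∑ a ∈ S, c a * ind (Ev g e R (j + 1) k a) := by
    rw [sum_filter]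
    refine sum_congr rfl fun a _ => ?_
    split_ifs with h
    · rw [ind_pos h, mul_one]
    · rw [ind_neg h, mul_zero]
  rw [e1] at main
  refine main.trans (neg_le_neg ?_)
  have e2 : Real.log R / (e : ℝ) ^ (j + 1) ≤ Real.log (rad e R j) - Real.log (rad e R (j + 1)) := by
    have e0 := L.e_pos
    have e3 : (2 : ℝ) ≤ e := by exact_mod_cast L.he
    have e4 : Real.log R / (e : ℝ) ^ j = e * (Real.log R / (e : ℝ) ^ (j + 1)) := by
      rw [pow_succ]; field_simp
    have e5 : 0 < Real.log R / (e : ℝ) ^ (j + 1) := div_pos L.r_pos (by positivity)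
    rw [lr, lr, e4]
    nlinarith
  have T1 : (0 : ℝ) < T.card := by exact_mod_cast T0
  exact div_le_div₀ (mul_nonneg (sub_nonneg.mpr st.le) (sq_nonneg _))
    (mul_le_mul_of_nonneg_right e2 (sq_nonneg _)) (by positivity) (by nlinarith)

theorem energy [DecidableEq F] (Y : Finset F) (hY : Y.Nonempty) {n j k : ℕ} (μ : ℝ)
    (hn : ∀ x ∈ Y, ‖(fun z => g.eval z)^[n] x‖ ≤ R) (hjk : k + (j + 1) ≤ n)
    (hμ : ∀ y : F, ‖y‖ ≤ R →
      ((pre g n y).map fun x => ind (Ev g e R (j + 1) k x)).sum = μ * (e + 1) ^ n) :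
    ∑ x ∈ Y, ∑ x' ∈ Y.erase x, Real.log ‖x - x'‖ ≤ (Y.card : ℝ) ^ 2 *
      (Real.log R / e + 3 * Real.log R / (e + 1) ^ n + (2 * e * (n + 1) + 1) * Real.log R / Y.card -
        Real.log R / (e : ℝ) ^ (j + 1) *
          ((∑ x ∈ Y, ind (Ev g e R (j + 1) k x)) / Y.card - μ) ^ 2 / (2 * ((e + 1 : ℝ) ^ k) ^ 2)) := by
  have h0 : 0 < R := one_pos.trans L.hR
  have r0 := L.r_pos
  have e0 := L.e_pos
  have e1 : (1 : ℝ) ≤ e := by have := L.he; exact_mod_cast (by omega : 1 ≤ e)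
  obtain ⟨π, hπ⟩ : ∃ π : F, ‖π‖ = ((R ^ e) ^ (n + 1))⁻¹ :=
    ⟨(g.coeff (e + 1) ^ e) ^ (n + 1), by rw [norm_pow, norm_pow, L.top, inv_pow, inv_pow]⟩
  have p0 : 0 < ‖π‖ := by rw [hπ]; positivity
  have π0 : π ≠ 0 := norm_pos_iff.mp p0
  have hδ : ∀ i ≤ n, (R ^ e) ^ i * ‖π‖ ≤ 1 := fun i hi => by
    rw [hπ, mul_inv_le_iff₀ (by positivity), one_mul]
    exact pow_le_pow_right₀ (one_le_pow₀ L.hR.le) (by omega)
  have lπ : Real.log ‖π‖ = -(e * (n + 1) * Real.log R) := by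
    rw [hπ, Real.log_inv, Real.log_pow, Real.log_pow]; push_cast; ring
  obtain ⟨U, u1, u2, u3⟩ := units (F := F) Y.card
  set M : ℝ := (Y.card : ℝ) with hM
  have M0 : 0 < M := by rw [hM]; exact_mod_cast hY.card_pos
  set N : ℝ := ((e : ℝ) + 1) ^ n with hN
  have N0 : 0 < N := by positivity
  set s : ℝ := (sig (e + 1) n : ℝ) with hs
  have hs1 : e * s + 1 = N := by rw [hs, hN]; exact_mod_cast sig_eq e n
  have s0 : 0 ≤ s := Nat.cast_nonneg _
  set Z := U.val.bind (pre g n) with hZ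
  have zs : ∀ h : F → ℝ, (Z.map h).sum = ∑ y ∈ U, ((pre g n y).map h).sum := fun h => by
    rw [hZ, Multiset.map_bind, Multiset.sum_bind]; rfl
  have uc : (U.card : ℝ) = M := by rw [u1]
  have zmem : ∀ z ∈ Z, ∃ y ∈ U, z ∈ pre g n y := fun z hz => Multiset.mem_bind.mp hz
  let κ : F → F → ℝ := fun a b => Real.log (max ‖a - b‖ ‖π‖)
  have z1 : (Z.map fun _ => (1 : ℝ)).sum = M * N := by
    rw [zs, sum_congr rfl (g := fun _ => N) fun y _ => by
      rw [Multiset.map_const', Multiset.sum_replicate, L.card_pre]; simp [hN]]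
    rw [sum_const, nsmul_eq_mul, uc]
  have main := L.disc_ev (Y ∪ Z.toFinset) (fun a => ind (a ∈ Y) * M⁻¹ - Z.count a * (M * N)⁻¹)
    (by
      have := wsum Y Z M⁻¹ (M * N)⁻¹ fun _ => 1
      simp only [mul_one] at this
      rw [this, z1, sum_const, nsmul_eq_mul, mul_one, ← hM]
      field_simp
      ring) π0 hjk (hδ k (by omega)) fun a ha => by
      rcases mem_union.mp ha with h | h
      · exact hn a h
      · obtain ⟨y, hy, hz⟩ := zmem a (Multiset.mem_toFinset.mp h)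
        rw [L.mem_pre hz]; exact (u2 y hy).trans L.hR.le
  have ev : ∑ a ∈ Y ∪ Z.toFinset, (ind (a ∈ Y) * M⁻¹ - Z.count a * (M * N)⁻¹) *
      ind (Ev g e R (j + 1) k a) = (∑ x ∈ Y, ind (Ev g e R (j + 1) k x)) / M - μ := by
    rw [wsum, zs, sum_congr rfl fun y hy => hμ y ((u2 y hy).trans L.hR.le), sum_const, nsmul_eq_mul,
      uc]
    field_simp
  have ex : ∑ a ∈ Y ∪ Z.toFinset, ∑ b ∈ Y ∪ Z.toFinset,
      (ind (a ∈ Y) * M⁻¹ - Z.count a * (M * N)⁻¹) * (ind (b ∈ Y) * M⁻¹ - Z.count b * (M * N)⁻¹) *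
        κ a b = M⁻¹ * (M⁻¹ * ∑ a ∈ Y, ∑ b ∈ Y, κ a b - (M * N)⁻¹ * ∑ a ∈ Y, (Z.map (κ a)).sum) -
          (M * N)⁻¹ * (M⁻¹ * ∑ a ∈ Y, (Z.map (κ a)).sum -
            (M * N)⁻¹ * (Z.map fun a => (Z.map (κ a)).sum).sum) := by
    simp only [mul_assoc, ← mul_sum]
    simp only [wsum]
    rw [sum_sub_distrib, ← mul_sum, ← mul_sum, Multiset.sum_map_sub, Multiset.sum_map_mul_left,
      Multiset.sum_map_mul_left, Multiset.sum_map_sum]
    congr 4
    exact sum_congr rfl fun a _ => congrArg _ (Multiset.map_congr rfl fun b _ => by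
      simp only [κ, norm_sub_rev])
  have hA : ∑ a ∈ Y, (Z.map (κ a)).sum ≤ M * (M * ((s + 1) * Real.log R)) := by
    rw [← nsmul_eq_mul]
    refine sum_le_card_nsmul _ _ _ fun x hx => ?_
    rw [zs, ← uc, ← nsmul_eq_mul]
    refine sum_le_card_nsmul _ _ _ fun y hy => ?_
    obtain ⟨w, w1, w2, w3⟩ := L.Lam_pre n π0 (hδ n le_rfl) y (hn x hx)
    have := Real.log_le_log (norm_pos_iff.mpr w2)
      (uadd_le (usub_le (hn x hx) ((u2 y hy).trans L.hR.le)) (w1.trans L.hR.le))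
    rw [← w3, Lam] at this
    linarith
  have hB : M * N * ((M - 1) * (s * Real.log R) + N * Real.log ‖π‖) ≤
      (Z.map fun a => (Z.map (κ a)).sum).sum := by
    rw [← z1, ← Multiset.sum_map_mul_right]
    refine Multiset.sum_map_le_sum_map _ _ fun z hz => ?_
    obtain ⟨y, hy, hz⟩ := zmem z hz
    rw [one_mul, zs, ← add_sum_erase _ _ hy, add_comm]
    refine add_le_add ?_ ?_
    · have : N * Real.log ‖π‖ = ((pre g n y).map fun _ => Real.log ‖π‖).sum := by
        rw [Multiset.map_const', Multiset.sum_replicate, L.card_pre]; simp [hN]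
      rw [this]
      exact Multiset.sum_map_le_sum_map _ _ fun b _ => Real.log_le_log p0 (le_max_right _ _)
    · have c1 : M - 1 = ((U.erase y).card : ℝ) := by
        rw [card_erase_of_mem hy, Nat.cast_sub (card_pos.mpr ⟨y, hy⟩), uc, Nat.cast_one]
      rw [c1, ← nsmul_eq_mul]
      refine card_nsmul_le_sum _ _ _ fun y' hy' => ?_
      obtain ⟨a1, a2⟩ := mem_erase.mp hy'
      have ne : ∀ b ∈ pre g n y', z ≠ b := fun b hb h => a1 (by rw [← L.mem_pre hb, ← h, L.mem_pre hz])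
      have := (L.log_pre n ne).1
      rw [L.mem_pre hz, u3 y hy y' a2 a1.symm, Real.log_one, zero_add] at this
      rw [← this]
      exact Multiset.sum_map_le_sum_map _ _ fun b hb =>
        Real.log_le_log (norm_pos_iff.mpr (sub_ne_zero.mpr (ne b hb))) (le_max_left _ _)
  have hC : ∑ x ∈ Y, ∑ x' ∈ Y.erase x, Real.log ‖x - x'‖ + M * Real.log ‖π‖ ≤
      ∑ a ∈ Y, ∑ b ∈ Y, κ a b := by
    rw [← nsmul_eq_mul, ← sum_const, ← sum_add_distrib]
    refine sum_le_sum fun x hx => ?_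
    rw [← add_sum_erase _ _ hx, add_comm]
    refine add_le_add (Real.log_le_log p0 (le_max_right _ _)) (sum_le_sum fun b hb => ?_)
    exact Real.log_le_log (norm_pos_iff.mpr (sub_ne_zero.mpr (mem_erase.mp hb).1.symm))
      (le_max_left _ _)
  rw [ev] at main
  replace main := ex.symm.trans_le main
  generalize Real.log R / (e : ℝ) ^ (j + 1) *
    ((∑ x ∈ Y, ind (Ev g e R (j + 1) k x)) / M - μ) ^ 2 / (2 * ((e + 1 : ℝ) ^ k) ^ 2) = G at *
  generalize ∑ a ∈ Y, ∑ b ∈ Y, κ a b = A1 at *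
  generalize ∑ a ∈ Y, (Z.map (κ a)).sum = A2 at *
  generalize (Z.map fun a => (Z.map (κ a)).sum).sum = A3 at *
  generalize ∑ x ∈ Y, ∑ x' ∈ Y.erase x, Real.log ‖x - x'‖ = A0 at *
  rw [lπ] at hB hC
  generalize Real.log R = r at *
  have m2 : A1 - 2 * A2 / N + A3 / N ^ 2 ≤ -(M ^ 2 * G) := by
    have := mul_le_mul_of_nonneg_left main (sq_nonneg M)
    refine le_of_eq_of_le ?_ (this.trans_eq (by ring))
    field_simp
    ring
  have b2 : 2 * A2 / N ≤ 2 * (M * (M * ((s + 1) * r))) / N := by gcongr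
  have b3 : M * N * ((M - 1) * (s * r) + N * -(e * (n + 1) * r)) / N ^ 2 ≤ A3 / N ^ 2 := by gcongr
  have sN : s / N ≤ 1 / e := by rw [div_le_div_iff₀ N0 e0]; linarith
  have sN' : s / N ≤ 1 := sN.trans (by rw [div_le_one e0]; exact e1)
  have c2 : 2 * (M * (M * ((s + 1) * r))) / N = M ^ 2 * r * (2 * (s / N) + 2 / N) := by
    field_simp
  have c3 : M * N * ((M - 1) * (s * r) + N * -(e * (n + 1) * r)) / N ^ 2 =
      M ^ 2 * r * (s / N) - M * r * (s / N) - M * (e * (n + 1) * r) := by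
    field_simp
    ring
  have c4 : M ^ 2 * (r / e + 3 * r / N + (2 * e * (n + 1) + 1) * r / M - G) =
      M ^ 2 * r * (1 / e) + M ^ 2 * r * (3 / N) + M * (2 * e * (n + 1) + 1) * r - M ^ 2 * G := by
    field_simp
  have c5 : M ^ 2 * r * (s / N) ≤ M ^ 2 * r * (1 / e) := by gcongr
  have c6 : M * r * (s / N) ≤ M * r * 1 := by gcongr
  have c7 : M ^ 2 * r * (2 / N) ≤ M ^ 2 * r * (3 / N) := by gcongr; norm_num
  rw [c4]
  rw [c2] at b2
  rw [c3] at b3
  nlinarith

end Loc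

end Pool.Agent.Lib.MP_a2c890_nt.T
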