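import Pool.Agent.Lib.MP_a2c890_nt.TOrb
import Pool.Agent.Lib.MP_a2c890_nt.TEn

set_option autoImplicit false
set_option linter.unusedSectionVars false

namespace Pool.Agent.Lib.MP_a2c890_nt.T

open Polynomial Finset

variable {K : Type*} [Field K] [NumberField K] {p : ℕ} [Fact p.Prime]

/-- position of a point in the local coordinate -/
noncomputable def pos (ι : AlgebraicClosure K →+* PadicAlgCl p) (a b : PadicAlgCl p)
    (z : AlgebraicClosure K) : PadicAlgCl p := (ι z - b) / a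

/-- the global and local data -/
structure Dat (φ : K[X]) (ι : AlgebraicClosure K →+* PadicAlgCl p) (a b : PadicAlgCl p)
    (g : (PadicAlgCl p)[X]) (e : ℕ) (R : ℝ) (c : ℕ) (B : ℝ) (Bs : AlgebraicClosure K → Prop) :
    Prop where
  L : Loc g e R
  deg : φ.natDegree = e + 1
  a0 : a ≠ 0
  conj : ∀ z, g.eval (pos ι a b z) = pos ι a b (Phi φ z)
  lead : ‖ι (algebraMap K _ φ.leadingCoeff)‖ * ‖a‖ ^ e = R⁻¹
  c0 : 0 < c
  hB : ((e + 1 : ℕ) : ℝ) ≤ B
  gal : ∀ (σ : Gal(AlgebraicClosure K/K)) y, Bs y → Bs (σ y)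
  small : ∀ y, Bs y → ‖pos ι a b y‖ ≤ R
  sz : ∀ m z, Bs ((Phi φ)^[m] z) → Sz c B 1 z

namespace Dat

variable {φ : K[X]} {ι : AlgebraicClosure K →+* PadicAlgCl p} {a b : PadicAlgCl p}
  {g : (PadicAlgCl p)[X]} {e : ℕ} {R : ℝ} {c : ℕ} {B : ℝ} {Bs : AlgebraicClosure K → Prop}
  (D : Dat φ ι a b g e R c B Bs)
include D

theorem pos_sub (z z' : AlgebraicClosure K) : pos ι a b z - pos ι a b z' = (ι z - ι z') / a := by
  unfold pos; ring

theorem pos_inj : Function.Injective (pos ι a b) := fun z z' h => by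
  have := D.pos_sub z z'
  rw [h, sub_self, eq_comm, div_eq_zero_iff, or_iff_left D.a0, sub_eq_zero] at this
  exact ι.injective this

theorem conj_iter (k : ℕ) (z : AlgebraicClosure K) :
    (fun w => g.eval w)^[k] (pos ι a b z) = pos ι a b ((Phi φ)^[k] z) := by
  induction k with
  | zero => rfl
  | succ k ih => rw [Function.iterate_succ_apply', Function.iterate_succ_apply', ih, D.conj]

theorem lv_orb {m : ℕ} {x z : AlgebraicClosure K} (h : Bs ((Phi φ)^[m] x)) (hz : z ∈ orb x) :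
    Bs ((Phi φ)^[m] z) := by
  obtain ⟨σ, rfl⟩ := mem_orb.mp hz
  rw [gal_Phi]; exact D.gal σ _ h

theorem lv_val {m : ℕ} {x : AlgebraicClosure K} (h : Bs ((Phi φ)^[m] x)) :
    Val e R m (pos ι a b x) := by
  have := (D.L.iter_le (n := m) (x := pos ι a b x) (by rw [D.conj_iter]; exact D.small _ h)
    (Nat.zero_le m)).2
  exact this

theorem eq1 : ∃ C : ℝ, 0 ≤ C ∧ ∀ (m l j k n : ℕ) (x : AlgebraicClosure K) (μ : ℝ),
    Bs ((Phi φ)^[m] x) → l ≤ m → (e + 1) ^ n ≤ rel φ x l → rel φ x l ≤ (e + 1) ^ (n + 1) →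
    k + (j + 1) ≤ n → (∀ y : PadicAlgCl p, ‖y‖ ≤ R →
      ((pre g n y).map fun x => ind (Ev g e R (j + 1) k x)).sum = μ * (e + 1) ^ n) →
    ∑ y ∈ orb ((Phi φ)^[l] x),
      ((∑ z ∈ fib φ x l y, ind (Ev g e R (j + 1) k (pos ι a b z))) / rel φ x l - μ) ^ 2 ≤
      (orb ((Phi φ)^[l] x)).card *
        (C * (n + 1) * ((e : ℝ) ^ (j + 1) * ((e + 1 : ℝ) ^ k) ^ 2) / rel φ x l) := by
  classical
  have L := D.L
  have r0 := L.r_pos
  have e0 := L.e_pos
  have e1 : (1 : ℝ) ≤ e := by have := L.he; exact_mod_cast (by omega : 1 ≤ e)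
  have h0 : 0 < R := one_pos.trans L.hR
  have a0 : 0 < ‖a‖ := norm_pos_iff.mpr D.a0
  have cB : 0 ≤ Real.log (c * B) := Real.log_nonneg (one_le_mul_of_one_le_of_one_le
    (by exact_mod_cast D.c0) (le_trans (by exact_mod_cast Nat.succ_pos e) D.hB))
  set C1 : ℝ := Module.finrank ℚ K * (2 * (e + 2) * Real.log (c * B)) with hC1
  have C10 : 0 ≤ C1 := by positivity
  have ll : Real.log ‖ι (algebraMap K _ φ.leadingCoeff)‖ = -Real.log R - e * Real.log ‖a‖ := by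
    have h1 : ‖ι (algebraMap K _ φ.leadingCoeff)‖ ≠ 0 := fun h => by
      have := D.lead
      rw [h, zero_mul] at this
      exact absurd this (by positivity)
    have := congrArg Real.log D.lead
    rw [Real.log_mul h1 (by positivity), Real.log_pow, Real.log_inv] at this
    linarith
  refine ⟨2 * ((7 * e + 7) * Real.log R + 2 * (e + 1) * |Real.log ‖a‖| + C1) / Real.log R,
    by positivity, fun m l j k n x μ hx hl h1 h2 hjk hμ => ?_⟩
  have nl : n ≤ l := (Nat.pow_le_pow_iff_right (by have := L.he; omega)).mp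
    (h1.trans (rel_le D.deg (Nat.succ_pos e) x l))
  have G := glob ι D.deg (Nat.succ_pos e) D.c0 D.hB x l (n + 1) h2 fun z hz i hi =>
    D.sz (m - i) _ (by
      rw [← Function.iterate_add_apply, Nat.sub_add_cancel (by omega)]; exact D.lv_orb hx hz)
  have M0 : (0 : ℝ) < rel φ x l := by exact_mod_cast rel_pos φ x l
  have E : ∀ y ∈ orb ((Phi φ)^[l] x), ∑ z ∈ fib φ x l y, ∑ z' ∈ (fib φ x l y).erase z,
      Real.log ‖ι z - ι z'‖ ≤ rel φ x l * ((rel φ x l - 1) * Real.log ‖a‖) + (rel φ x l : ℝ) ^ 2 *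
      (Real.log R / e + 3 * Real.log R / (e + 1) ^ n + (2 * e * (n + 1) + 1) * Real.log R / rel φ x l -
        Real.log R / (e : ℝ) ^ (j + 1) *
          ((∑ z ∈ fib φ x l y, ind (Ev g e R (j + 1) k (pos ι a b z))) / rel φ x l - μ) ^ 2 /
            (2 * ((e + 1 : ℝ) ^ k) ^ 2)) := fun y hy => by
    have c1 := card_fib φ hy
    have := L.energy ((fib φ x l y).image (pos ι a b))
      (image_nonempty.mpr (card_pos.mp (c1 ▸ rel_pos φ x l))) μ (fun w hw => by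
        obtain ⟨z, hz, rfl⟩ := mem_image.mp hw
        exact (L.iter_le (n := m) (by
          rw [D.conj_iter]; exact D.small _ (D.lv_orb hx (mem_fib.mp hz).1)) (nl.trans hl)).1) hjk hμ
    rw [card_image_of_injective _ D.pos_inj, c1, sum_image fun _ _ _ _ h => D.pos_inj h,
      sum_image fun _ _ _ _ h => D.pos_inj h] at this
    refine le_trans (le_of_eq ?_) (add_le_add_right this _)
    rw [← c1, ← nsmul_eq_mul, ← sum_const, ← sum_add_distrib]
    refine sum_congr rfl fun z hz => ?_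
    have c2 : ((fib φ x l y).card : ℝ) - 1 = (((fib φ x l y).erase z).card : ℝ) := by
      rw [card_erase_of_mem hz, Nat.cast_sub (card_pos.mpr ⟨z, hz⟩), Nat.cast_one]
    rw [← image_erase D.pos_inj, sum_image fun _ _ _ _ h => D.pos_inj h, c2, ← nsmul_eq_mul,
      ← sum_const, ← sum_add_distrib]
    refine sum_congr rfl fun z' hz' => ?_
    rw [D.pos_sub, norm_div, Real.log_div (norm_ne_zero_iff.mpr (sub_ne_zero.mpr fun h =>
      (mem_erase.mp hz').1 (ι.injective h).symm)) a0.ne']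
    ring
  have S := G.trans (sum_le_sum E)
  have s1 : e * ∑ i ∈ range (rel φ x l), sx (e + 1) (n + 1) i ≤ ∑ i ∈ range (rel φ x l), i := by
    rw [mul_sum]
    exact sum_le_sum fun i hi => (sx_bd e _ i ((mem_range.mp hi).trans_le h2)).1
  have s2 : ∑ i ∈ range (rel φ x l), i ≤ e * ∑ i ∈ range (rel φ x l), sx (e + 1) (n + 1) i +
      rel φ x l * ((e + 1) * (n + 1)) := by
    refine (sum_le_sum fun i hi => (sx_bd e _ i ((mem_range.mp hi).trans_le h2)).2).trans_eq ?_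
    rw [sum_add_distrib, ← mul_sum, sum_const, card_range, smul_eq_mul]
  have s3 : ((∑ i ∈ range (rel φ x l), i : ℕ) : ℝ) * 2 = rel φ x l * (rel φ x l - 1) := by
    have := congrArg (Nat.cast : ℕ → ℝ) (sum_range_id_mul_two (rel φ x l))
    rwa [Nat.cast_mul, Nat.cast_mul, Nat.cast_sub (rel_pos φ x l), Nat.cast_one, Nat.cast_ofNat]
      at this
  have s1' : (e : ℝ) * (∑ i ∈ range (rel φ x l), sx (e + 1) (n + 1) i : ℕ) ≤
      (∑ i ∈ range (rel φ x l), i : ℕ) := by exact_mod_cast s1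
  have s2' : ((∑ i ∈ range (rel φ x l), i : ℕ) : ℝ) ≤
      e * (∑ i ∈ range (rel φ x l), sx (e + 1) (n + 1) i : ℕ) + rel φ x l * ((e + 1) * (n + 1)) := by
    exact_mod_cast s2
  have h2' : (rel φ x l : ℝ) ≤ (e + 1) ^ n * (e + 1) := by
    rw [← pow_succ]; exact_mod_cast h2
  rw [ll, sum_add_distrib, sum_const, nsmul_eq_mul, ← mul_sum, sum_sub_distrib, sum_const,
    nsmul_eq_mul, ← sum_div, ← mul_sum] at S
  simp only [Nat.cast_add, Nat.cast_one] at S
  have D0 : (0 : ℝ) < (orb ((Phi φ)^[l] x)).card := by exact_mod_cast orb_pos _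
  have N0 : (0 : ℝ) < (e + 1) ^ n := by positivity
  have P0 : (0 : ℝ) < (e : ℝ) ^ (j + 1) := by positivity
  have Q0 : (0 : ℝ) < ((e + 1 : ℝ) ^ k) ^ 2 := by positivity
  have ν1 : (1 : ℝ) ≤ n + 1 := by linarith [Nat.cast_nonneg (α := ℝ) n]
  have kk : (Module.finrank ℚ K : ℝ) * (2 * ((e + 1 + 1) * (n + 1) * rel φ x l) *
      Real.log (c * B)) = C1 * ((n + 1) * rel φ x l) := by rw [hC1]; ring
  rw [kk] at S
  generalize ∑ y ∈ orb ((Phi φ)^[l] x),
    ((∑ z ∈ fib φ x l y, ind (Ev g e R (j + 1) k (pos ι a b z))) / rel φ x l - μ) ^ 2 = T at *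
  generalize ((∑ i ∈ range (rel φ x l), sx (e + 1) (n + 1) i : ℕ) : ℝ) = A at *
  generalize ((∑ i ∈ range (rel φ x l), i : ℕ) : ℝ) = A' at *
  generalize ((orb ((Phi φ)^[l] x)).card : ℝ) = Dy at *
  generalize (rel φ x l : ℝ) = M at *
  generalize ((e : ℝ) + 1) ^ n = N at *
  generalize (e : ℝ) ^ (j + 1) = P at *
  generalize (((e : ℝ) + 1) ^ k) ^ 2 = Q at *
  generalize (n : ℝ) + 1 = ν at *
  generalize Real.log R = r at *
  generalize Real.log ‖a‖ = α at *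
  have t1 : M ^ 2 * (r / e) - 2 * A * r ≤ r * (M + 2 * (M * ((e + 1) * ν))) := by
    have u1 : M ^ 2 * (r / e) - 2 * A * r = r * ((M ^ 2 - 2 * (e * A)) / e) := by field_simp
    have u2 : M ^ 2 - 2 * (e * A) ≤ M + 2 * (M * ((e + 1) * ν)) := by nlinarith
    rw [u1]
    exact mul_le_mul_of_nonneg_left ((div_le_div_of_nonneg_right u2 e0.le).trans
      (div_le_self (by positivity) e1)) r0.le
  have t2 : M ^ 2 * (3 * r / N) ≤ 3 * r * M * (e + 1) := by
    have u1 : M ^ 2 * (3 * r / N) = 3 * r * M * (M / N) := by ring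
    rw [u1]
    exact mul_le_mul_of_nonneg_left (by rw [div_le_iff₀ N0]; linarith) (by positivity)
  have t3 : M ^ 2 * ((2 * e * ν + 1) * r / M) = (2 * e * ν + 1) * r * M := by field_simp
  have t4 : (M * (M - 1) - 2 * (e * A)) * α ≤ 2 * (M * ((e + 1) * ν)) * |α| :=
    (mul_le_mul_of_nonneg_left (le_abs_self α) (by linarith)).trans
      (mul_le_mul_of_nonneg_right (by linarith) (abs_nonneg α))
  have t5 : r * M ≤ r * M * ν := le_mul_of_one_le_right (by positivity) ν1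
  have t6 : r * M * e ≤ r * M * e * ν := le_mul_of_one_le_right (by positivity) ν1
  have t7 : M ^ 2 * (r / P * T / (2 * Q)) ≤
      Dy * (M * ν * ((7 * e + 7) * r + 2 * (e + 1) * |α| + C1)) := by
    have u : M * ((M - 1) * α) + M ^ 2 * (r / e + 3 * r / N + (2 * e * ν + 1) * r / M) +
        (C1 * (ν * M) + 2 * A * (-r - e * α)) ≤
        M * ν * ((7 * e + 7) * r + 2 * (e + 1) * |α| + C1) := by
      rw [mul_add (M ^ 2), mul_add (M ^ 2), t3]
      nlinarith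
    nlinarith [mul_le_mul_of_nonneg_left u D0.le]
  have t8 : T = M ^ 2 * (r / P * T / (2 * Q)) * (2 * P * Q / (r * M ^ 2)) := by field_simp
  rw [t8]
  refine (mul_le_mul_of_nonneg_right t7 (by positivity)).trans_eq ?_
  field_simp

theorem equi : ∃ C lam : ℝ, 1 ≤ C ∧ 0 < lam ∧ lam < 1 ∧
    (∀ u : ℕ, ((e : ℝ) / (e + 1)) ^ (u / (2 * (e + 1))) ≤ C * lam ^ u) ∧
    ∀ (m l j k : ℕ) (x : AlgebraicClosure K) (μ : ℝ), Bs ((Phi φ)^[m] x) → l ≤ m →
      2 * (e + 1) * (2 * k + (j + 1)) ≤ Nat.log 2 (rel φ x l) →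
      (k = 0 ∧ μ = ((e : ℝ) / (e + 1)) ^ (j + 1) ∨
        j + 1 ≤ k ∧ μ = (((e : ℝ) / (e + 1)) ^ (j + 1)) ^ 2) →
      ∀ w : AlgebraicClosure K → ℝ, (∀ y, 0 ≤ w y ∧ w y ≤ 1) →
        |av x (fun z => ind (Ev g e R (j + 1) k (pos ι a b z)) * w ((Phi φ)^[l] z)) -
          μ * av ((Phi φ)^[l] x) w| ≤ C * lam ^ Nat.log 2 (rel φ x l) := by
  obtain ⟨C3, C0, h3⟩ := D.eq1
  have L := D.L
  have e0 := L.e_pos
  have he := L.he
  set θ : ℝ := e / (e + 1) with hθ
  have θ0 : 0 < θ := by positivity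
  have θ1 : θ < 1 := by rw [hθ, div_lt_one (by positivity)]; linarith
  obtain ⟨l1, l0, hl1⟩ : ∃ l1 : ℝ, 0 < l1 ∧ l1 ^ (2 * (e + 1)) = θ :=
    ⟨θ ^ ((2 * (e + 1) : ℕ) : ℝ)⁻¹, by positivity, Real.rpow_inv_natCast_pow θ0.le (by omega)⟩
  have l2 : l1 < 1 := by
    by_contra h
    exact absurd (hl1 ▸ one_le_pow₀ (not_lt.mp h)) (not_le.mpr θ1)
  have i1 : 1 ≤ θ⁻¹ := (one_le_inv₀ θ0).mpr θ1.le
  refine ⟨θ⁻¹ + 13 * C3, max l1 (9 / 10), by linarith, lt_max_of_lt_left l0,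
    max_lt l2 (by norm_num), fun u => ?_, fun m l j k x μ hx hl hu hμ w hw => ?_⟩
  · have h1 : θ ^ (u / (2 * (e + 1))) * θ ≤ l1 ^ u := by
      rw [← pow_succ, ← hl1, ← pow_mul]
      exact pow_le_pow_of_le_one l0.le l2.le (Nat.lt_mul_div_succ u (by omega)).le
    have h2 : l1 ^ u ≤ max l1 (9 / 10) ^ u := pow_le_pow_left₀ l0.le (le_max_left _ _) u
    calc θ ^ (u / (2 * (e + 1))) = θ⁻¹ * (θ ^ (u / (2 * (e + 1))) * θ) := by field_simp
      _ ≤ θ⁻¹ * max l1 (9 / 10) ^ u := by gcongr; exact h1.trans h2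
      _ ≤ _ := by gcongr; linarith
  set u := Nat.log 2 (rel φ x l) with hu'
  set n := Nat.log (e + 1) (rel φ x l) with hn
  have M0 := rel_pos φ x l
  have u1 : 2 ^ u ≤ rel φ x l := Nat.pow_log_le_self 2 M0.ne'
  have n1 : (e + 1) ^ n ≤ rel φ x l := Nat.pow_log_le_self _ M0.ne'
  have n2 : n ≤ u := Nat.le_log_of_pow_le one_lt_two ((Nat.pow_le_pow_left (by omega) n).trans n1)
  have s1 : ((e + 1) ^ (2 * k + (j + 1))) ^ 2 ≤ 2 ^ u := by
    refine le_trans ?_ (Nat.pow_le_pow_right two_pos hu)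
    rw [← pow_mul, mul_comm 2 (e + 1), mul_assoc, pow_mul 2, mul_comm _ 2]
    exact Nat.pow_le_pow_left Nat.lt_two_pow_self.le _
  have n3 : k + (j + 1) ≤ n := Nat.le_log_of_pow_le (by omega) (le_trans (by
    rw [← pow_mul]; exact Nat.pow_le_pow_right (by omega) (by omega)) (s1.trans u1))
  have h4 := h3 m l j k n x μ hx hl n1 (Nat.lt_pow_succ_log_self (by omega) _).le n3 fun y hy => by
    rcases hμ with ⟨rfl, rfl⟩ | ⟨h, rfl⟩
    · rw [← L.sum_pre hy (show j + 1 ≤ n by omega)]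
      exact congrArg _ (Multiset.map_congr rfl fun z _ => ind_congr (and_self_iff))
    · have := L.sum_pre2 hy h (show j + 1 ≤ n - k by omega)
      rwa [Nat.sub_add_cancel (by omega)] at this
  have M1 : (0 : ℝ) < rel φ x l := by exact_mod_cast M0
  have D0 : (0 : ℝ) < (orb ((Phi φ)^[l] x)).card := by exact_mod_cast orb_pos _
  have h5 : C3 * (n + 1) * ((e : ℝ) ^ (j + 1) * ((e + 1 : ℝ) ^ k) ^ 2) / rel φ x l ≤
      ((θ⁻¹ + 13 * C3) * max l1 (9 / 10) ^ u) ^ 2 := by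
    have a1 : (e : ℝ) ^ (j + 1) * ((e + 1 : ℝ) ^ k) ^ 2 ≤ (3 / 2) ^ u := by
      have b1 : (e : ℝ) ^ (j + 1) * ((e + 1 : ℝ) ^ k) ^ 2 ≤ (e + 1 : ℝ) ^ (2 * k + (j + 1)) := by
        rw [pow_add (e + 1 : ℝ), mul_comm 2 k, pow_mul, mul_comm]
        gcongr
        linarith
      refine b1.trans (le_of_sq_le_sq (le_trans (b := 2 ^ u) (by exact_mod_cast s1) ?_)
        (by positivity))
      rw [← pow_mul, mul_comm, pow_mul]
      exact pow_le_pow_left₀ (by norm_num) (by norm_num) u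
    have a2 : (n : ℝ) + 1 ≤ 13 * (27 / 25) ^ u := by
      have b1 := one_add_mul_le_pow (a := (2 / 25 : ℝ)) (by norm_num) u
      have b2 : (n : ℝ) ≤ u := by exact_mod_cast n2
      rw [show (1 : ℝ) + 2 / 25 = 27 / 25 by norm_num] at b1
      linarith [Nat.cast_nonneg (α := ℝ) u]
    have a3 : (2 : ℝ) ^ u ≤ rel φ x l := by exact_mod_cast u1
    have a4 : ((9 / 10 : ℝ) ^ u) ^ 2 * 2 ^ u = (27 / 25) ^ u * (3 / 2) ^ u := by
      rw [← pow_mul, mul_comm u 2, pow_mul, ← mul_pow, ← mul_pow]; norm_num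
    have a5 : 13 * C3 ≤ (θ⁻¹ + 13 * C3) ^ 2 := by nlinarith
    rw [div_le_iff₀ M1, mul_pow]
    calc C3 * (n + 1) * ((e : ℝ) ^ (j + 1) * ((e + 1 : ℝ) ^ k) ^ 2)
        ≤ C3 * (13 * (27 / 25) ^ u) * (3 / 2) ^ u := by gcongr
      _ = 13 * C3 * ((9 / 10 : ℝ) ^ u) ^ 2 * 2 ^ u := by rw [mul_assoc (13 * C3), a4]; ring
      _ ≤ _ := by gcongr; exact le_max_right _ _
  have e1 : av x (fun z => ind (Ev g e R (j + 1) k (pos ι a b z)) * w ((Phi φ)^[l] z)) -
      μ * av ((Phi φ)^[l] x) w = (∑ y ∈ orb ((Phi φ)^[l] x), w y *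
        ((∑ z ∈ fib φ x l y, ind (Ev g e R (j + 1) k (pos ι a b z))) / rel φ x l - μ)) /
          (orb ((Phi φ)^[l] x)).card := by
    rw [av, av, sum_orb φ x l, card_orb φ x l, Nat.cast_mul, ← div_div, ← mul_div_assoc, ← sub_div,
      sum_div, mul_sum, ← sum_sub_distrib]
    congr 1
    refine sum_congr rfl fun y _ => ?_
    rw [sum_congr rfl (g := fun z => ind (Ev g e R (j + 1) k (pos ι a b z)) * w y) fun z hz => by
      rw [(mem_fib.mp hz).2], ← sum_mul]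
    ring
  rw [e1]
  refine abs_le_of_sq_le_sq ?_ (by positivity)
  rw [div_pow, div_le_iff₀ (by positivity)]
  refine sq_sum_le_card_mul_sum_sq.trans ?_
  refine (mul_le_mul_of_nonneg_left ((sum_le_sum fun y _ => ?_).trans
    (h4.trans (mul_le_mul_of_nonneg_left h5 D0.le))) D0.le).trans_eq (by ring)
  rw [mul_pow]
  exact mul_le_of_le_one_left (sq_nonneg _) (pow_le_one₀ (hw y).1 (hw y).2)

end Dat

end Pool.Agent.Lib.MP_a2c890_nt.T
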