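import Pool.Agent.Lib.MP_a2c890_nt.TOrb

set_option autoImplicit false
set_option linter.unusedSectionVars false

namespace Pool.Agent.Lib.MP_a2c890_nt.T

open Polynomial Finset

variable {K : Type*} [Field K] [NumberField K]

theorem int_step {A : Type*} [Field A] {P : A[X]} {d : ℕ} (hd : P.natDegree = d) (h2 : 2 ≤ d)
    {c z : A} (hc : IsIntegral ℤ c) (h1 : ∀ i, IsIntegral ℤ (c * (P.coeff i / P.leadingCoeff)))
    (h3 : IsIntegral ℤ (c * P.leadingCoeff⁻¹)) (h : IsIntegral ℤ (c * P.eval z)) :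
    IsIntegral ℤ (c * z) := by
  have l0 : P.leadingCoeff ≠ 0 := leadingCoeff_ne_zero.mpr fun h => by
    rw [h, natDegree_zero] at hd; omega
  have d1 : (P - C (P.eval z)).natDegree = d := by rw [natDegree_sub_C, hd]
  have l1 : (P - C (P.eval z)).leadingCoeff = P.leadingCoeff := by
    obtain ⟨k, rfl⟩ : ∃ k, d = k + 1 := ⟨d - 1, by omega⟩
    rw [leadingCoeff, d1, coeff_sub, coeff_C_succ, sub_zero, leadingCoeff, hd]
  set Q := (P - C (P.eval z)) * C P.leadingCoeff⁻¹ with hQ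
  have m1 : Q.Monic := by
    rw [Monic, hQ, leadingCoeff_mul, l1, leadingCoeff_C, mul_inv_cancel₀ l0]
  have d2 : Q.natDegree = d := by rw [hQ, natDegree_mul_C (inv_ne_zero l0), d1]
  have r1 : aeval (algebraMap A A c * z) (Q.scaleRoots c) = 0 :=
    scaleRoots_aeval_eq_zero (by simp [hQ])
  obtain ⟨q, q1, -, q2⟩ := lifts_and_natDegree_eq_and_monic
    (f := algebraMap (integralClosure ℤ A) A) (p := Q.scaleRoots c)
    ((lifts_iff_coeff_lifts _).mpr fun i => by
      suffices h : IsIntegral ℤ ((Q.scaleRoots c).coeff i) from ⟨⟨_, h⟩, rfl⟩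
      rw [coeff_scaleRoots, d2]
      rcases lt_trichotomy i d with hi | hi | hi
      · rw [hQ, coeff_mul_C, coeff_sub]
        rcases i with _ | i
        · obtain ⟨k, rfl⟩ : ∃ k, d = k + 2 := ⟨d - 2, by omega⟩
          have := (((h1 0).mul hc).sub (h3.mul h)).mul (hc.pow k)
          rw [coeff_C_zero, Nat.sub_zero]
          refine (congrArg (IsIntegral ℤ) ?_).mp this
          ring
        · obtain ⟨k, hk⟩ : ∃ k, d - (i + 1) = k + 1 := ⟨d - (i + 1) - 1, by omega⟩
          have := (h1 (i + 1)).mul (hc.pow k)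
          rw [coeff_C_succ, hk]
          refine (congrArg (IsIntegral ℤ) ?_).mp this
          ring
      · rw [hi, ← d2, m1.coeff_natDegree, Nat.sub_self, pow_zero, mul_one]; exact isIntegral_one
      · rw [coeff_eq_zero_of_natDegree_lt (d2 ▸ hi), zero_mul]; exact isIntegral_zero)
    ((monic_scaleRoots_iff c).mpr m1)
  refine isIntegral_trans (A := integralClosure ℤ A) _ ⟨q, q2, ?_⟩
  rw [← eval_map, q1]
  exact r1

theorem arch_step {P : ℂ[X]} {d : ℕ} (hd : P.natDegree = d) (h2 : 2 ≤ d) {B : ℝ} (h1 : 1 ≤ B)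
    (hB : (1 + ∑ i ∈ range d, ‖P.coeff i‖) / ‖P.leadingCoeff‖ ≤ B) {z : ℂ} (h : ‖P.eval z‖ ≤ B) :
    ‖z‖ ≤ B := by
  by_contra hz
  replace hz := not_le.mp hz
  have l0 : 0 < ‖P.leadingCoeff‖ := norm_pos_iff.mpr (leadingCoeff_ne_zero.mpr fun h => by
    rw [h, natDegree_zero] at hd; omega)
  obtain ⟨k, rfl⟩ : ∃ k, d = k + 1 := ⟨d - 1, by omega⟩
  have z1 : 1 ≤ ‖z‖ := h1.trans hz.le
  have e1 : P.leadingCoeff * z ^ (k + 1) = P.eval z - ∑ i ∈ range (k + 1), P.coeff i * z ^ i := by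
    rw [eval_eq_sum_range, hd, sum_range_succ _ (k + 1), leadingCoeff, hd]; ring
  have e2 : ‖∑ i ∈ range (k + 1), P.coeff i * z ^ i‖ ≤ (∑ i ∈ range (k + 1), ‖P.coeff i‖) * ‖z‖ ^ k := by
    rw [sum_mul]
    refine norm_sum_le_of_le _ fun i hi => ?_
    rw [norm_mul, norm_pow]
    exact mul_le_mul_of_nonneg_left (pow_le_pow_right₀ z1 (Nat.lt_succ_iff.mp (mem_range.mp hi)))
      (norm_nonneg _)
  have e3 : ‖z‖ ≤ ‖z‖ ^ k := le_self_pow₀ z1 (by omega)
  have e4 := (congrArg norm e1).trans_le (norm_sub_le _ _)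
  rw [norm_mul, norm_pow, pow_succ] at e4
  rw [div_le_iff₀ l0] at hB
  have p0 : 0 < ‖z‖ ^ k := by positivity
  have e5 : B * ‖P.leadingCoeff‖ * ‖z‖ ^ k < ‖P.leadingCoeff‖ * (‖z‖ ^ k * ‖z‖) := by
    rw [mul_comm B, mul_assoc, mul_comm B]; gcongr
  nlinarith [mul_le_mul_of_nonneg_right hB p0.le]

theorem exists_sz (φ : K[X]) (h2 : 2 ≤ φ.natDegree) (β : K) : ∃ (c : ℕ) (B : ℝ), 0 < c ∧
    (φ.natDegree : ℝ) ≤ B ∧ ∀ n z, (Phi φ)^[n] z = algebraMap K _ β → Sz c B 1 z := by
  classical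
  obtain ⟨y, y0, hy⟩ := exists_integral_multiples ℤ ℚ (L := K) (insert β (insert φ.leadingCoeff⁻¹
    ((range (φ.natDegree + 1)).image fun i => φ.coeff i / φ.leadingCoeff)))
  have hy' : ∀ x : K, IsIntegral ℤ (y • x) →
      IsIntegral ℤ ((y.natAbs : AlgebraicClosure K) * algebraMap K _ x) := fun x hx => by
    have := hx.map (algebraMap K (AlgebraicClosure K)).toIntAlgHom
    rw [zsmul_eq_mul, map_mul, map_intCast] at this
    rw [Nat.cast_natAbs]
    rcases abs_choice y with h | h <;> rw [h]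
    · exact this
    · rw [Int.cast_neg, neg_mul]; exact this.neg
  obtain ⟨B, hB⟩ := Finite.bddAbove_range fun σ : K →+* ℂ => max ‖σ β‖
    ((1 + ∑ i ∈ range φ.natDegree, ‖(φ.map σ).coeff i‖) / ‖(φ.map σ).leadingCoeff‖)
  have B1 : (1 : ℝ) ≤ max B φ.natDegree := le_max_of_le_right (by exact_mod_cast (by omega))
  refine ⟨y.natAbs, max B φ.natDegree, Int.natAbs_pos.mpr y0, le_max_right _ _, fun n => ?_⟩
  induction n with
  | zero =>
    rintro z rfl
    rw [Sz, pow_one, pow_one]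
    exact ⟨hy' β (hy β (mem_insert_self _ _)), fun τ => le_max_of_le_left
      ((le_max_left _ _).trans (hB ⟨τ.comp (algebraMap K _), rfl⟩))⟩
  | succ n ih =>
    intro z hz
    obtain ⟨a1, a2⟩ := ih _ hz
    rw [pow_one] at a1
    rw [Sz, pow_one, pow_one]
    refine ⟨int_step (natDegree_map _) h2 Sz.cint (fun i => ?_) ?_ a1, fun τ => ?_⟩
    · rw [leadingCoeff_map, coeff_map, ← map_div₀]
      rcases le_or_gt i φ.natDegree with hi | hi
      · exact hy' _ (hy _ (mem_insert_of_mem (mem_insert_of_mem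
          (mem_image_of_mem _ (mem_range.mpr (by omega))))))
      · rw [coeff_eq_zero_of_natDegree_lt hi, zero_div, map_zero, mul_zero]; exact isIntegral_zero
    · rw [leadingCoeff_map, ← map_inv₀]
      exact hy' _ (hy _ (mem_insert_of_mem (mem_insert_self _ _)))
    · refine arch_step (P := φ.map (τ.comp (algebraMap K _))) (natDegree_map _) h2 B1
        (le_max_of_le_left ((le_max_right _ _).trans (hB ⟨τ.comp (algebraMap K _), rfl⟩))) ?_
      have := a2 τ
      rwa [pow_one, Phi, eval_map, hom_eval₂, ← eval_map] at this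

theorem card_orb_eq (z : AlgebraicClosure K) : (orb z).card = (minpoly K z).natDegree := by
  classical
  have hi : IsIntegral K z := Algebra.IsIntegral.isIntegral z
  rw [orb, Multiset.toFinset_card_of_nodup (nodup_roots (minpoly.irreducible hi).separable.map),
    IsAlgClosed.card_aroots_eq_natDegree]

theorem north {c : ℕ} (hc : 0 < c) (B : ℝ) (n : ℕ) :
    {z : AlgebraicClosure K | Sz c B 1 z ∧ (orb z).card ≤ n}.Finite := by
  classical
  set N := Module.finrank ℚ K * n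
  let C := Nat.ceil (max (c * B) 1 ^ N * N.choose (N / 2))
  have fin := bUnion_roots_finite (algebraMap ℤ (AlgebraicClosure K)) N (Set.finite_Icc (-C : ℤ) C)
  have alg : Algebra.IsAlgebraic ℚ (AlgebraicClosure K) := Algebra.IsAlgebraic.trans ℚ K _
  refine (fin.preimage (f := fun z => (c : AlgebraicClosure K) * z)
    (mul_right_injective₀ (Nat.cast_ne_zero.mpr hc.ne')).injOn).subset fun z hz => ?_
  obtain ⟨⟨h1, h2⟩, h3⟩ := hz
  rw [pow_one] at h1 h2
  have hi : IsIntegral K z := Algebra.IsIntegral.isIntegral z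
  have d1 : (minpoly ℚ ((c : AlgebraicClosure K) * z)).natDegree ≤ N := by
    have := IntermediateField.adjoin.finiteDimensional hi
    have := Module.Finite.trans (R := ℚ) K (IntermediateField.adjoin K {z})
    have h4 := minpoly.natDegree_le (A := ℚ) ((c : IntermediateField.adjoin K {z}) *
      IntermediateField.AdjoinSimple.gen K z)
    rw [← minpoly.algebraMap_eq (algebraMap (IntermediateField.adjoin K {z})
      (AlgebraicClosure K)).injective, map_mul, map_natCast,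
      IntermediateField.AdjoinSimple.algebraMap_gen, ← Module.finrank_mul_finrank ℚ K,
      IntermediateField.adjoin.finrank hi, ← card_orb_eq] at h4
    exact h4.trans (Nat.mul_le_mul_left _ h3)
  have hq : IsIntegral ℚ ((c : AlgebraicClosure K) * z) := h1.tower_top
  have hm := minpoly.isIntegrallyClosed_eq_field_fractions' ℚ h1
  simp only [Set.mem_preimage, Set.mem_iUnion]
  refine ⟨_, ⟨?_, fun i => ?_⟩, mem_rootSet.2 ⟨minpoly.ne_zero h1, minpoly.aeval ℤ _⟩⟩
  · rwa [← (minpoly.monic h1).natDegree_map (algebraMap ℤ ℚ), ← hm]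
  have h5 := coeff_bdd_of_roots_le (B := c * B) (algebraMap ℚ ℂ) (minpoly.monic hq)
    (IsAlgClosed.splits _) d1 (fun w hw => by
      obtain ⟨τ, rfl⟩ := IntermediateField.exists_algHom_of_splits_of_aeval (F := ℚ)
        (E := AlgebraicClosure K) (K := ℂ)
        (fun s => ⟨Algebra.IsIntegral.isIntegral s, IsAlgClosed.splits _⟩)
        (mem_aroots.mp hw).2
      rw [map_mul, map_natCast, norm_mul, Complex.norm_natCast]
      exact mul_le_mul_of_nonneg_left (h2 (τ : AlgebraicClosure K →+* ℂ)) (Nat.cast_nonneg _)) i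
  rw [coeff_map, norm_algebraMap'] at h5
  rw [Set.mem_Icc, ← abs_le, ← @Int.cast_le ℝ]
  refine (Eq.trans_le ?_ h5).trans (Nat.le_ceil _)
  rw [hm, coeff_map, eq_intCast, Int.norm_cast_rat, Int.norm_eq_abs, Int.cast_abs]

theorem deg_large (φ : K[X]) (h2 : 2 ≤ φ.natDegree) {β : K}
    (hβ : ∀ m, 0 < m → (Phi φ)^[m] (algebraMap K _ β) ≠ algebraMap K _ β) (n : ℕ) :
    ∃ m0, ∀ m, m0 ≤ m → ∀ z, (Phi φ)^[m] z = algebraMap K _ β → n < (orb z).card := by
  obtain ⟨c, B, c0, -, h⟩ := exists_sz φ h2 β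
  have uq : ∀ z m m', m < m' → (Phi φ)^[m] z = algebraMap K _ β →
      (Phi φ)^[m'] z ≠ algebraMap K _ β := fun z m m' hm a1 a2 => by
    obtain ⟨k, rfl⟩ := Nat.exists_eq_add_of_le' hm.le
    rw [Function.iterate_add_apply, a1] at a2
    exact hβ k (by omega) a2
  have fin : (⋃ z ∈ {z : AlgebraicClosure K | Sz c B 1 z ∧ (orb z).card ≤ n},
      {m | (Phi φ)^[m] z = algebraMap K _ β}).Finite :=
    (north c0 B n).biUnion fun z _ => Set.Subsingleton.finite fun m a1 m' a2 => by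
      rcases lt_trichotomy m m' with h | h | h
      · exact absurd a2 (uq z m m' h a1)
      · exact h
      · exact absurd a1 (uq z m' m h a2)
  obtain ⟨m0, hm⟩ := fin.bddAbove
  refine ⟨m0 + 1, fun m h1 z hz => not_le.mp fun h3 => ?_⟩
  have := hm (Set.mem_biUnion (show z ∈ {z | Sz c B 1 z ∧ (orb z).card ≤ n} from ⟨h m z hz, h3⟩) hz)
  omega

theorem pre_fin {φ : K[X]} (h0 : 0 < φ.natDegree) (n : ℕ) (y : AlgebraicClosure K) :
    {z | (Phi φ)^[n] z = y}.Finite := by
  by_contra h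
  obtain ⟨t, h1, h2⟩ := Set.Infinite.exists_subset_card_eq h (φ.natDegree ^ n + 1)
  have := card_pre_le rfl h0 n y t fun z hz => h1 hz
  omega

theorem cover_of {φ : K[X]} {e : ℕ} (hd : φ.natDegree = e + 1) (he : 2 ≤ e) {y : AlgebraicClosure K}
    {m0 : ℕ} (h : ∀ m, m0 ≤ m → ∀ x, (Phi φ)^[m + 1] x = y → e ≤ rel φ x 1) :
    ∃ C : ℕ, ∀ n : ℕ, ∃ S : Finset (AlgebraicClosure K), S.card ≤ C ∧
      ∀ x, (Phi φ)^[n] x = y → ∃ s ∈ S, x ∈ orb s := by
  classical
  have d0 : 0 < φ.natDegree := by omega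
  have triv : ∀ n ≤ m0, ∃ S : Finset (AlgebraicClosure K), S.card ≤ (e + 1) ^ m0 ∧
      ∀ x, (Phi φ)^[n] x = y → ∃ s ∈ S, x ∈ orb s := fun n hn =>
    ⟨(pre_fin d0 n y).toFinset, (card_pre_le hd (Nat.succ_pos e) n y _ fun z hz =>
      (pre_fin d0 n y).mem_toFinset.mp hz).trans (Nat.pow_le_pow_right (Nat.succ_pos e) hn),
      fun x hx => ⟨x, (pre_fin d0 n y).mem_toFinset.mpr hx, self_orb x⟩⟩
  refine ⟨(e + 1) ^ m0, fun n => ?_⟩
  rcases le_total n m0 with hn | hn
  · exact triv n hn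
  induction n, hn using Nat.le_induction with
  | base => exact triv m0 le_rfl
  | succ n hn ih =>
    obtain ⟨S, h1, h2⟩ := ih
    have ex : ∀ s : AlgebraicClosure K, ∃ t, (∃ x, (Phi φ)^[n + 1] x = y ∧ Phi φ x ∈ orb s) →
        (Phi φ)^[n + 1] t = y ∧ Phi φ t ∈ orb s := fun s => by
      by_cases hs : ∃ x, (Phi φ)^[n + 1] x = y ∧ Phi φ x ∈ orb s
      · exact ⟨hs.choose, fun _ => hs.choose_spec⟩
      · exact ⟨s, fun h => absurd h hs⟩
    choose f hf using ex
    refine ⟨S.image f, card_image_le.trans h1, fun x hx => ?_⟩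
    obtain ⟨s, a1, a2⟩ := h2 (Phi φ x) hx
    obtain ⟨b1, b2⟩ := hf s ⟨x, hx, a2⟩
    refine ⟨f s, mem_image_of_mem _ a1, ?_⟩
    by_contra hc
    have c1 : (fib φ (f s) 1 (Phi φ x)).card = rel φ (f s) 1 :=
      card_fib φ (by rw [Function.iterate_one, orb_eq b2]; exact a2)
    have c2 : Disjoint (fib φ x 1 (Phi φ x)) (fib φ (f s) 1 (Phi φ x)) :=
      disjoint_left.mpr fun z z1 z2 => hc (by
        rw [← orb_eq (mem_fib.mp z2).1, orb_eq (mem_fib.mp z1).1]; exact self_orb x)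
    have c3 := card_pre_le hd (Nat.succ_pos e) 1 (Phi φ x) (fib φ x 1 (Phi φ x) ∪
      fib φ (f s) 1 (Phi φ x)) fun z hz => (mem_union.mp hz).elim (fun h => (mem_fib.mp h).2)
        fun h => (mem_fib.mp h).2
    rw [card_union_of_disjoint c2, c1, pow_one] at c3
    have c4 : e ≤ (fib φ x 1 (Phi φ x)).card := h n hn x hx
    have c5 := h n hn (f s) b1
    omega

end Pool.Agent.Lib.MP_a2c890_nt.T
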