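import Pool.Agent.Lib.MP_a2c890_nt.TMain
import Pool.Agent.Lib.MP_a2c890_nt.TSz

set_option autoImplicit false
set_option linter.unusedSectionVars false

namespace Pool.Agent.Lib.MP_a2c890_nt.T

open Polynomial Finset

variable {K : Type*} [Field K] [NumberField K] {p : ℕ} [hp : Fact p.Prime]

theorem val_grp (L : IntermediateField ℚ_[p] (PadicAlgCl p)) [FiniteDimensional ℚ_[p] L] :
    ∃ γ : ℝ, 0 < γ ∧ ∀ x ∈ L, x ≠ 0 → Real.log ‖x‖ ∈ AddSubgroup.zmultiples γ := by
  have n0 : (0 : ℝ) < (Module.finrank ℚ_[p] L).factorial := by exact_mod_cast Nat.factorial_pos _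
  refine ⟨Real.log p / (Module.finrank ℚ_[p] L).factorial,
    div_pos (Real.log_pos (by exact_mod_cast hp.out.one_lt)) n0, fun x hx h0 => ?_⟩
  have hi : IsIntegral ℚ_[p] x := Algebra.IsIntegral.isIntegral x
  have h1 := minpoly.natDegree_pos hi
  have h2 : (minpoly ℚ_[p] x).natDegree ≤ Module.finrank ℚ_[p] L := by
    have := minpoly.natDegree_le (A := ℚ_[p]) (⟨x, hx⟩ : L)
    rwa [IntermediateField.minpoly_eq] at this
  obtain ⟨k, hk⟩ := Nat.dvd_factorial h1 h2
  have h3 := spectralNorm.spectralNorm_eq_norm_coeff_zero_rpow (K := ℚ_[p]) (L := PadicAlgCl p) x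
  rw [PadicAlgCl.spectralNorm_eq] at h3
  have h4 : ‖x‖ ^ (minpoly ℚ_[p] x).natDegree = ‖(minpoly ℚ_[p] x).coeff 0‖ := by
    rw [h3, one_div, Real.rpow_inv_natCast_pow (norm_nonneg _) h1.ne']
  have h5 : (minpoly ℚ_[p] x).coeff 0 ≠ 0 := minpoly.coeff_zero_ne_zero hi h0
  have h6 : ‖x‖ ^ (Module.finrank ℚ_[p] L).factorial =
      (p : ℝ) ^ (-((minpoly ℚ_[p] x).coeff 0).valuation * k) := by
    rw [hk, pow_mul, h4, Padic.norm_eq_zpow_neg_valuation h5, zpow_mul, zpow_natCast]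
  have h7 := congrArg Real.log h6
  rw [Real.log_pow, Real.log_zpow] at h7
  refine ⟨-((minpoly ℚ_[p] x).coeff 0).valuation * k, ?_⟩
  simp only [zsmul_eq_mul]
  rw [← mul_div_assoc, ← h7, mul_div_cancel_left₀ _ n0.ne']

theorem ex_loc (ι : K →+* PadicAlgCl p) (a b : PadicAlgCl p) :
    ∃ L : IntermediateField ℚ_[p] (PadicAlgCl p),
      FiniteDimensional ℚ_[p] L ∧ (∀ x, ι x ∈ L) ∧ a ∈ L ∧ b ∈ L := by
  classical
  obtain ⟨s, hs⟩ := Module.Finite.fg_top (R := ℚ) (M := K)
  refine ⟨IntermediateField.adjoin ℚ_[p] ((insert a (insert b (s.image ι)) : Finset _) :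
      Set (PadicAlgCl p)),
    IntermediateField.finiteDimensional_adjoin fun x _ => Algebra.IsIntegral.isIntegral x,
    fun x => ?_, IntermediateField.subset_adjoin _ _ (by simp),
    IntermediateField.subset_adjoin _ _ (by simp)⟩
  have hx : x ∈ Submodule.span ℚ (s : Set K) := hs ▸ Submodule.mem_top
  induction hx using Submodule.span_induction with
  | mem y hy =>
    exact IntermediateField.subset_adjoin _ _
      (mem_coe.mpr (mem_insert_of_mem (mem_insert_of_mem (mem_image_of_mem _ hy))))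
  | zero => rw [map_zero]; exact zero_mem _
  | add y z _ _ hy hz => rw [map_add]; exact add_mem hy hz
  | smul q y _ hy =>
    rw [Rat.smul_def, map_mul, map_ratCast]; exact mul_mem (SubfieldClass.ratCast_mem _ q) hy

theorem lg_of {φ : K[X]} {ι : AlgebraicClosure K →+* PadicAlgCl p} {a b : PadicAlgCl p}
    {g : (PadicAlgCl p)[X]}
    (hg : ∀ x, g.eval x = ((φ.map (ι.comp (algebraMap K _))).eval (a * x + b) - b) / a)
    {L : IntermediateField ℚ_[p] (PadicAlgCl p)} (hL : ∀ x, ι (algebraMap K _ x) ∈ L) (ha : a ∈ L)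
    (hb : b ∈ L) : LG ι a b g L.fixingSubgroup := by
  classical
  have ev : ∀ σ ∈ L.fixingSubgroup, ∀ (q : K[X]) x, σ ((q.map (ι.comp (algebraMap K _))).eval x) =
      (q.map (ι.comp (algebraMap K _))).eval (σ x) := fun σ hσ q x => by
    have h1 : (σ : PadicAlgCl p →+* PadicAlgCl p).comp (ι.comp (algebraMap K _)) =
        ι.comp (algebraMap K _) :=
      RingHom.ext fun y => (IntermediateField.mem_fixingSubgroup_iff _ _).mp hσ _ (hL y)
    have := hom_eval₂ q (ι.comp (algebraMap K _)) (σ : PadicAlgCl p →+* PadicAlgCl p) x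
    rw [h1, ← eval_map, ← eval_map] at this
    exact this
  refine ⟨fun σ _ x => ?_, fun σ hσ x => ?_, fun σ hσ z => ?_⟩
  · rw [← PadicAlgCl.spectralNorm_eq, ← PadicAlgCl.spectralNorm_eq, ← spectralNorm_eq_of_equiv]
  · have h := (IntermediateField.mem_fixingSubgroup_iff _ _).mp hσ
    rw [hg, hg, map_div₀, map_sub, ev σ hσ, map_add, map_mul, h a ha, h b hb]
  · have h := (IntermediateField.mem_fixingSubgroup_iff _ _).mp hσ
    have hi : IsIntegral K z := Algebra.IsIntegral.isIntegral z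
    have h1 : ((minpoly K z).map (ι.comp (algebraMap K _))).eval (ι z) = 0 := by
      rw [eval_map, ← hom_eval₂, ← aeval_def, minpoly.aeval, map_zero]
    have h2 := ev σ hσ (minpoly K z) (ι z)
    rw [h1, map_zero] at h2
    have h3 : σ (ι z) ∈ (((minpoly K z).map (algebraMap K (AlgebraicClosure K))).map ι).roots := by
      rw [Polynomial.map_map]
      exact (mem_roots (Polynomial.map_ne_zero (minpoly.ne_zero hi))).mpr h2.symm
    rw [(IsAlgClosed.splits _).roots_map, Multiset.mem_map] at h3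
    obtain ⟨z', h4, h5⟩ := h3
    refine ⟨z', Multiset.mem_toFinset.mpr h4, ?_⟩
    rw [pos, pos, map_div₀, map_sub, h a ha, h b hb, h5]

theorem Loc.big_iter {F : Type*} [NormedField F] [IsUltrametricDist F] {g : F[X]} {e : ℕ} {R : ℝ}
    (L : Loc g e R) {x : F} (hx : R < ‖x‖) (k : ℕ) :
    R ^ k * ‖x‖ ≤ ‖(fun z => g.eval z)^[k] x‖ := by
  have R0 := one_pos.trans L.hR
  induction k with
  | zero => simp
  | succ k ih =>
    rw [Function.iterate_succ_apply', pow_succ', mul_assoc]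
    refine (mul_le_mul_of_nonneg_left ih R0.le).trans (L.big_grow (hx.trans_le (le_trans ?_ ih)))
    exact le_mul_of_one_le_left (norm_nonneg _) (one_le_pow₀ L.hR.le)

theorem rel_large {φ : K[X]} (h2 : 2 ≤ φ.natDegree) {β : K}
    (hβ : ∀ m, 0 < m → (Phi φ)^[m] (algebraMap K _ β) ≠ algebraMap K _ β) (n0 u : ℕ) :
    ∃ m0, ∀ m, m0 ≤ m → ∀ w, (Phi φ)^[n0] ((Phi φ)^[m] w) = algebraMap K _ β →
      u ≤ Nat.log 2 (rel φ w m) := by
  obtain ⟨m0, h⟩ := deg_large φ h2 hβ (2 ^ u * φ.natDegree ^ n0)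
  refine ⟨m0, fun m hm w hw => ?_⟩
  have h1 := h (n0 + m) (by omega) w (by rw [Function.iterate_add_apply, hw])
  have h3 := card_pre_le rfl (show 0 < φ.natDegree by omega) n0 (algebraMap K _ β)
    (orb ((Phi φ)^[m] w)) fun z hz => by
      obtain ⟨σ, rfl⟩ := mem_orb.mp hz
      rw [gal_Phi, hw, AlgEquiv.commutes]
  rw [card_orb φ w m] at h1
  exact Nat.le_log_of_pow_le one_lt_two
    (Nat.lt_of_mul_lt_mul_right (h1.trans_le (Nat.mul_le_mul_left _ h3))).le

theorem fin_main {φ : K[X]} {ι : AlgebraicClosure K →+* PadicAlgCl p} {a b : PadicAlgCl p}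
    {g : (PadicAlgCl p)[X]} {e : ℕ} {R : ℝ} (L : Loc g e R) (deg : φ.natDegree = e + 1) (a0 : a ≠ 0)
    (hg : ∀ x, g.eval x = ((φ.map (ι.comp (algebraMap K _))).eval (a * x + b) - b) / a)
    (lead : ‖ι (algebraMap K _ φ.leadingCoeff)‖ * ‖a‖ ^ e = R⁻¹) {β : K}
    (hβ : ∀ m, 0 < m → (Phi φ)^[m] (algebraMap K _ β) ≠ algebraMap K _ β) :
    ∃ C : ℕ, ∀ n : ℕ, ∃ S : Finset (AlgebraicClosure K), S.card ≤ C ∧
      ∀ x, (Phi φ)^[n] x = algebraMap K _ β → ∃ s ∈ S, x ∈ orb s := by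
  classical
  have he := L.he
  have R0 := one_pos.trans L.hR
  have h2 : 2 ≤ φ.natDegree := by omega
  have conj : ∀ z, g.eval (pos ι a b z) = pos ι a b (Phi φ z) := fun z => by
    rw [hg, pos, pos, mul_div_cancel₀ _ a0, sub_add_cancel, Phi, eval_map, eval_map, hom_eval₂]
  have conj' : ∀ k z, (fun w => g.eval w)^[k] (pos ι a b z) = pos ι a b ((Phi φ)^[k] z) :=
    fun k z => by
      induction k with
      | zero => rfl
      | succ k ih => rw [Function.iterate_succ_apply', Function.iterate_succ_apply', ih, conj]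
  obtain ⟨n0, hn0⟩ := pow_unbounded_of_one_lt ‖pos ι a b (algebraMap K _ β)‖ L.hR
  obtain ⟨c, B, c0, hB, sz⟩ := exists_sz φ h2 β
  have D : Dat φ ι a b g e R c B fun y => (Phi φ)^[n0] y = algebraMap K _ β :=
    ⟨L, deg, a0, conj, lead, c0, deg ▸ hB, fun σ y h => by rw [gal_Phi, h, AlgEquiv.commutes],
      fun y h => not_lt.mp fun h' => by
        have := L.big_iter h' n0
        rw [conj', h] at this
        exact (hn0.trans_le (le_mul_of_one_le_right (by positivity) (L.hR.trans h').le)).not_ge this,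
      fun m z h => sz (n0 + m) z (by rw [Function.iterate_add_apply, h])⟩
  obtain ⟨C, lam, E⟩ := D.eqd
  obtain ⟨L0, f0, k0, ha, hb⟩ := ex_loc (ι.comp (algebraMap K _)) a b
  have G := lg_of hg k0 ha hb
  have C0 : 0 < C := one_pos.trans_le E.C1
  have l2 : 0 < 1 - lam := sub_pos.mpr E.l1
  obtain ⟨u1, hu1⟩ := exists_pow_lt_of_lt_one
    (x := 1 / (12 * (e + 1)) * (1 - lam) / (2 * C)) (by positivity) E.l1
  have c2 : 2 * (C * (lam ^ u1 / (1 - lam))) ≤ 1 / (12 * (e + 1)) := by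
    rw [lt_div_iff₀ (by positivity), ← div_lt_iff₀ l2] at hu1
    refine le_of_eq_of_le ?_ hu1.le
    ring
  obtain ⟨n, hn⟩ := rel_large h2 hβ n0 u1
  have fin := ((pre_fin (show 0 < φ.natDegree by omega) (n0 + n) (algebraMap K _ β)).image
    (pos ι a b))
  have f1 : FiniteDimensional ℚ_[p] (IntermediateField.adjoin ℚ_[p] (fin.toFinset : Set (PadicAlgCl p))) :=
    IntermediateField.finiteDimensional_adjoin fun x _ => Algebra.IsIntegral.isIntegral x
  obtain ⟨γ, γ0, hγ⟩ := val_grp (L0 ⊔ IntermediateField.adjoin ℚ_[p] (fin.toFinset : Set (PadicAlgCl p)))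
  have nt : ‖ι (algebraMap K _ φ.leadingCoeff) * a ^ e‖ = R⁻¹ := by rw [norm_mul, norm_pow, lead]
  obtain ⟨z, hz⟩ := AddSubgroup.neg_mem _ (hγ _ (le_sup_left (a := L0) (mul_mem (k0 φ.leadingCoeff)
    (pow_mem ha e))) (norm_pos_iff.mp (nt ▸ inv_pos.mpr R0)))
  simp only [zsmul_eq_mul] at hz
  rw [show (ι.comp (algebraMap K _)) φ.leadingCoeff = ι (algebraMap K _ φ.leadingCoeff) from rfl,
    nt, Real.log_inv, neg_neg] at hz
  have z0 : 0 ≤ z := by
    have := (pos_iff_pos_of_mul_pos (hz ▸ L.r_pos)).mpr γ0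
    exact_mod_cast this.le
  lift z to ℕ using z0
  obtain ⟨U0, hU⟩ := D.main E G (n := n) (u1 := u1) (n0 := z) (γ := γ) (by rw [← hz]; simp)
    (fun y hy t ht t0 => hγ t (by
      rw [← InfiniteGalois.fixedField_fixingSubgroup (L0 ⊔ _), IntermediateField.mem_fixedField_iff]
      intro σ hσ
      rw [IntermediateField.mem_fixingSubgroup_iff] at hσ
      refine ht σ ((IntermediateField.mem_fixingSubgroup_iff _ _).mpr fun x hx =>
        hσ x (le_sup_left (a := L0) hx)) (hσ _ (le_sup_right (a := L0)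
          (IntermediateField.subset_adjoin _ _ (mem_coe.mpr (fin.mem_toFinset.mpr ⟨y, ?_, rfl⟩)))))
      exact (Function.iterate_add_apply _ _ _ _).trans hy) t0) c2
  obtain ⟨m1, hm1⟩ := rel_large h2 hβ n0 U0
  refine cover_of deg he (m0 := n0 + n + m1) fun m hm x hx => ?_
  obtain ⟨t, rfl⟩ : ∃ t, m = n0 + n + t := ⟨m - (n0 + n), by omega⟩
  refine hU t x ?_ (hn n le_rfl _ ?_) (hm1 _ (by omega) _ ?_)
  · rw [← Function.iterate_add_apply, ← hx]; congr 1; omega
  · rw [← Function.iterate_add_apply, ← Function.iterate_add_apply, ← hx]; congr 1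
  · rw [← Function.iterate_add_apply, ← Function.iterate_add_apply, ← hx]; congr 1; omega

end Pool.Agent.Lib.MP_a2c890_nt.T
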