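import Pool.Agent.Lib.MP_a2c890_nt.TLoc

set_option autoImplicit false
set_option linter.unusedSectionVars false

namespace Pool.Agent.Lib.MP_a2c890_nt.T

open Polynomial Finset

/-- dynamical basis -/
noncomputable def bas {A : Type*} [CommRing A] (P : A[X]) (d : ℕ) : ℕ → ℕ → A[X]
  | 0, _ => 1
  | ν + 1, n => X ^ (n % d) * (bas P d ν (n / d)).comp P

/-- exponent of the leading coefficient -/
def sx (d : ℕ) : ℕ → ℕ → ℕ
  | 0, _ => 0
  | ν + 1, n => n / d + sx d ν (n / d)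

theorem sx_bd (e ν : ℕ) : ∀ n < (e + 1) ^ ν,
    e * sx (e + 1) ν n ≤ n ∧ n ≤ e * sx (e + 1) ν n + (e + 1) * ν := by
  induction ν with
  | zero => intro n hn; simp [sx] at hn ⊢; exact hn
  | succ ν ih =>
    intro n hn
    obtain ⟨h1, h2⟩ := ih (n / (e + 1)) (Nat.div_lt_of_lt_mul (by rwa [← pow_succ']))
    have h3 := Nat.div_add_mod n (e + 1)
    have h4 := Nat.mod_lt n (Nat.succ_pos e)
    rw [sx, mul_add e, mul_add (e + 1) ν]
    rw [add_mul, one_mul] at h3
    simp only [Nat.succ_eq_add_one] at h4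
    constructor <;> omega

theorem bas_deg {A : Type*} [Field A] {P : A[X]} {d : ℕ} (hd : P.natDegree = d) (h0 : 0 < d)
    (ν : ℕ) : ∀ n < d ^ ν, (bas P d ν n).natDegree = n ∧
      (bas P d ν n).leadingCoeff = P.leadingCoeff ^ sx d ν n := by
  have hP : P.leadingCoeff ≠ 0 := leadingCoeff_ne_zero.mpr fun h => by
    rw [h, natDegree_zero] at hd; omega
  induction ν with
  | zero => intro n hn; simp [bas, sx] at hn ⊢; exact hn.symm
  | succ ν ih =>
    intro n hn
    obtain ⟨h1, h2⟩ := ih (n / d) (Nat.div_lt_of_lt_mul (by rwa [← pow_succ']))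
    have h3 : ((bas P d ν (n / d)).comp P).leadingCoeff = P.leadingCoeff ^ sx d (ν + 1) n := by
      rw [leadingCoeff_comp (by omega), h1, h2, sx, pow_add, mul_comm]
    have h4 : (bas P d ν (n / d)).comp P ≠ 0 := leadingCoeff_ne_zero.mp (h3 ▸ pow_ne_zero _ hP)
    rw [bas, natDegree_mul (pow_ne_zero _ X_ne_zero) h4, natDegree_X_pow, natDegree_comp, h1, hd,
      leadingCoeff_mul, leadingCoeff_X_pow, one_mul, h3]
    exact ⟨Nat.mod_add_div' n d, rfl⟩

variable {Ω : Type*} [Field Ω]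

/-- size of an algebraic number -/
def Sz (c : ℕ) (B : ℝ) (E : ℕ) (z : Ω) : Prop :=
  IsIntegral ℤ ((c : Ω) ^ E * z) ∧ ∀ τ : Ω →+* ℂ, ‖τ z‖ ≤ B ^ E

namespace Sz

variable {c : ℕ} {B : ℝ} {E E' : ℕ} {z z' : Ω}

theorem cint : IsIntegral ℤ (c : Ω) := by
  simpa using isIntegral_algebraMap (R := ℤ) (A := Ω) (x := (c : ℤ))

theorem one : Sz c B 0 (1 : Ω) := ⟨by simpa using isIntegral_one, fun τ => by simp⟩

theorem mul (h : Sz c B E z) (h' : Sz c B E' z') : Sz c B (E + E') (z * z') :=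
  ⟨by rw [pow_add, mul_mul_mul_comm]; exact h.1.mul h'.1, fun τ => by
    rw [map_mul, norm_mul, pow_add]
    exact mul_le_mul (h.2 τ) (h'.2 τ) (norm_nonneg _) ((norm_nonneg _).trans (h.2 τ))⟩

theorem mono (hB : 1 ≤ B) (h : Sz c B E z) (hE : E ≤ E') : Sz c B E' z := by
  obtain ⟨k, rfl⟩ := Nat.exists_eq_add_of_le' hE
  refine ⟨?_, fun τ => (h.2 τ).trans (pow_le_pow_right₀ hB hE)⟩
  rw [pow_add, mul_assoc]
  exact (cint.pow k).mul h.1

theorem pow (h : Sz c B E z) (n : ℕ) : Sz c B (E * n) (z ^ n) := by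
  induction n with
  | zero => simpa using one
  | succ n ih => rw [mul_add, mul_one, pow_succ]; exact ih.mul h

theorem prod {ι : Type*} (s : Finset ι) (f : ι → Ω) (h : ∀ i ∈ s, Sz c B E (f i)) :
    Sz c B (E * s.card) (∏ i ∈ s, f i) := by
  classical
  induction s using Finset.induction_on with
  | empty => simpa using one
  | insert a s ha ih =>
    rw [prod_insert ha, card_insert_of_notMem ha, mul_add, mul_one, add_comm]
    exact (h a (mem_insert_self _ _)).mul (ih fun i hi => h i (mem_insert_of_mem hi))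

theorem neg_one : Sz c B 0 (-1 : Ω) := ⟨by simpa using isIntegral_one.neg, fun τ => by simp⟩

theorem det {M ν : ℕ} (hB : 1 ≤ B) (hM : (M : ℝ) ≤ B ^ ν) (A : Matrix (Fin M) (Fin M) Ω)
    (h : ∀ i j, Sz c B E (A i j)) : Sz c B ((E + ν) * M) A.det := by
  refine ⟨?_, fun τ => ?_⟩
  · have h1 : IsIntegral ℤ ((c : Ω) ^ (E * M) * A.det) := by
      have := IsIntegral.det (R := ℤ) (M := ((c : Ω) ^ E) • A) fun i j => (h i j).1
      rwa [Matrix.det_smul, Fintype.card_fin, ← pow_mul] at this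
    rw [add_mul, add_comm, pow_add, mul_assoc]
    exact (cint.pow _).mul h1
  · rw [RingHom.map_det]
    have := Matrix.det_le (A := τ.mapMatrix A) (abv := NormedField.toAbsoluteValue ℂ)
      (x := B ^ E) fun i j => (h i j).2 τ
    rw [Fintype.card_fin, nsmul_eq_mul] at this
    refine this.trans ?_
    have h2 : (M.factorial : ℝ) ≤ (B ^ ν) ^ M :=
      (show (M.factorial : ℝ) ≤ (M : ℝ) ^ M by exact_mod_cast Nat.factorial_le_pow M).trans
        (pow_le_pow_left₀ (Nat.cast_nonneg _) hM M)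
    rw [pow_mul, pow_add, mul_pow, mul_comm]
    gcongr

end Sz

theorem bas_sz {c : ℕ} {B : ℝ} (hB : 1 ≤ B) (P : Polynomial Ω) {d : ℕ} (hd : 0 < d) (ν : ℕ) :
    ∀ n x, (∀ i < ν, Sz c B 1 ((fun z => P.eval z)^[i] x)) →
      Sz c B (d * ν) ((bas P d ν n).eval x) := by
  induction ν with
  | zero => intro n x _; simpa [bas] using Sz.one
  | succ ν ih =>
    intro n x h
    rw [bas, eval_mul, eval_pow, eval_X, eval_comp]
    refine (((h 0 (Nat.succ_pos _)).pow (n % d)).mul (ih (n / d) (P.eval x) fun i hi => ?_)).mono hB ?_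
    · exact h (i + 1) (by omega)
    · have := Nat.mod_lt n hd
      rw [mul_add]; omega

theorem vand_sz [DecidableEq Ω] {c : ℕ} {B : ℝ} (P : Polynomial Ω) {d ν : ℕ} (hd : P.natDegree = d)
    (h0 : 0 < d) (hB : (d : ℝ) ≤ B) (Y : Finset Ω) (hM : Y.card ≤ d ^ ν)
    (h : ∀ x ∈ Y, ∀ i < ν, Sz c B 1 ((fun z => P.eval z)^[i] x)) :
    Sz c B (2 * ((d + 1) * ν * Y.card))
      (P.leadingCoeff ^ (2 * ∑ n ∈ range Y.card, sx d ν n) * ∏ x ∈ Y, ∏ x' ∈ Y.erase x, (x - x')) := by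
  have B1 : 1 ≤ B := le_trans (by exact_mod_cast h0) hB
  let v : Fin Y.card → Ω := fun i => Y.equivFin.symm i
  have vi : Function.Injective v := Subtype.val_injective.comp Y.equivFin.symm.injective
  have vm : ∀ i, v i ∈ Y := fun i => (Y.equivFin.symm i).2
  have vs : ∀ x ∈ Y, ∃ i, v i = x := fun x hx => ⟨Y.equivFin ⟨x, hx⟩, by simp [v]⟩
  have hb := fun i : Fin Y.card => bas_deg hd h0 ν i (i.2.trans_le hM)
  have d1 := Sz.det (c := c) B1 (ν := ν) (M := Y.card)
    ((show (Y.card : ℝ) ≤ (d : ℝ) ^ ν by exact_mod_cast hM).trans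
      (pow_le_pow_left₀ (Nat.cast_nonneg _) hB ν))
    (Matrix.of fun i j => (bas P d ν j).eval (v i)) fun i j => bas_sz B1 P h0 ν j _ (h _ (vm i))
  rw [Matrix.eval_matrixOfPolynomials_eq_vandermonde_mul_matrixOfPolynomials v
    (fun j => bas P d ν j) fun i => (hb i).1.le, Matrix.det_mul, Matrix.det_vandermonde,
    Matrix.det_of_isUpperTriangular
      (Matrix.matrixOfPolynomials_blockTriangular _ fun i => (hb i).1.le)] at d1
  have e1 : ∏ i : Fin Y.card, (Matrix.of fun i j : Fin Y.card => (bas P d ν j).coeff i) i i =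
      P.leadingCoeff ^ ∑ n ∈ range Y.card, sx d ν n := by
    rw [← Fin.sum_univ_eq_sum_range (fun n => sx d ν n), ← prod_pow_eq_pow_sum]
    refine prod_congr rfl fun i _ => ?_
    rw [Matrix.of_apply, ← (hb i).2, leadingCoeff, (hb i).1]
  have e2 : ∏ x ∈ Y, ∏ x' ∈ Y.erase x, (x - x') = ∏ i, ∏ j ∈ {i}ᶜ, (v i - v j) := by
    symm
    refine prod_bij (fun i _ => v i) (fun i _ => vm i) (fun i _ j _ h => vi h)
      (fun x hx => (vs x hx).imp fun i hi => ⟨mem_univ _, hi⟩) fun i _ => ?_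
    refine prod_bij (fun j _ => v j) (fun j hj => mem_erase.mpr ⟨fun h => ?_, vm j⟩)
      (fun i _ j _ h => vi h) (fun x hx => ?_) fun j _ => rfl
    · exact mem_compl.mp hj (mem_singleton.mpr (vi h))
    · obtain ⟨a1, a2⟩ := mem_erase.mp hx
      obtain ⟨j, rfl⟩ := vs x a2
      exact ⟨j, mem_compl.mpr fun h => a1 (by rw [mem_singleton.mp h]), rfl⟩
  have e3 : ∏ i, ∏ j ∈ {i}ᶜ, (v i - v j) =
      (∏ i : Fin Y.card, ∏ _j ∈ Ioi i, (-1 : Ω)) * (∏ i, ∏ j ∈ Ioi i, (v j - v i)) ^ 2 := by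
    rw [← prod_prod_Ioi_mul_eq_prod_prod_off_diag fun j i => v i - v j, sq, ← prod_mul_distrib,
      ← prod_mul_distrib]
    refine prod_congr rfl fun i _ => ?_
    rw [← prod_mul_distrib, ← prod_mul_distrib]
    exact prod_congr rfl fun j _ => by ring
  have s1 : Sz c B 0 (∏ i : Fin Y.card, ∏ _j ∈ Ioi i, (-1 : Ω)) := by
    have := Sz.prod (c := c) (B := B) (E := 0) univ (fun i : Fin Y.card => ∏ _j ∈ Ioi i, (-1 : Ω))
      fun i _ => by simpa only [zero_mul] using Sz.prod (Ioi i) (fun _ => (-1 : Ω)) fun _ _ => Sz.neg_one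
    rwa [zero_mul] at this
  rw [e1] at d1
  have := s1.mul (d1.pow 2)
  rw [e2, e3]
  convert this using 1
  · ring
  · ring

theorem int_le {F : Type*} [NormedField F] [IsUltrametricDist F] {x : F} (h : IsIntegral ℤ x) :
    ‖x‖ ≤ 1 := by
  by_contra hx
  replace hx := not_le.mp hx
  obtain ⟨q, q1, q2⟩ := h
  rw [eval₂_eq_sum_range, sum_range_succ, q1.coeff_natDegree, map_one, one_mul, add_comm] at q2
  have h1 : ‖∑ i ∈ range q.natDegree, algebraMap ℤ F (q.coeff i) * x ^ i‖ < ‖x ^ q.natDegree‖ := by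
    rcases Nat.eq_zero_or_pos q.natDegree with h | h
    · simp [h]
    rw [norm_pow]
    refine lt_of_le_of_lt (b := ‖x‖ ^ (q.natDegree - 1)) ?_ (pow_lt_pow_right₀ hx (by omega))
    refine IsUltrametricDist.norm_sum_le_of_forall_le_of_nonneg (by positivity) fun i hi => ?_
    rw [norm_mul, norm_pow]
    exact (mul_le_of_le_one_left (by positivity) (IsUltrametricDist.norm_intCast_le_one F _)).trans
      (pow_le_pow_right₀ hx.le (by have := mem_range.mp hi; omega))
  have h2 := uadd_eq h1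
  rw [q2, norm_zero, norm_pow] at h2
  exact absurd h2 (by positivity)

theorem int_ge {p : ℕ} [hp : Fact p.Prime] {z : ℤ} (hz : z ≠ 0) :
    1 ≤ ‖(z : ℂ)‖ * ‖(z : PadicAlgCl p)‖ := by
  have h1 : ‖(z : PadicAlgCl p)‖ = ((p : ℝ) ^ padicValInt p z)⁻¹ := by
    rw [← map_intCast (algebraMap ℚ_[p] (PadicAlgCl p)), norm_algebraMap',
      Padic.norm_eq_zpow_neg_valuation (Int.cast_ne_zero.mpr hz), Padic.valuation_intCast, zpow_neg,
      zpow_natCast]
  have h2 : (p : ℤ) ^ padicValInt p z ≤ |z| :=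
    Int.le_of_dvd (abs_pos.mpr hz) ((dvd_abs _ _).mpr (padicValInt_dvd z))
  have h3 : (0 : ℝ) < (p : ℝ) ^ padicValInt p z := pow_pos (by exact_mod_cast hp.out.pos) _
  rw [h1, Complex.norm_intCast, le_mul_inv_iff₀ h3, one_mul]
  exact_mod_cast h2

theorem liou {K : Type*} [Field K] [NumberField K] {p : ℕ} [Fact p.Prime]
    (ι : K →+* PadicAlgCl p) {c : ℕ} (hc : 0 < c) {B : ℝ} (hB : 0 < B) {E : ℕ} {δ : K} (h0 : δ ≠ 0)
    (h : Sz c B E (algebraMap K (AlgebraicClosure K) δ)) :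
    -(Module.finrank ℚ K * (E * Real.log (c * B))) ≤ Real.log ‖ι δ‖ := by
  classical
  have c0 : (0 : ℝ) < c := by exact_mod_cast hc
  have i1 : IsIntegral ℤ ((c : K) ^ E * δ) := by
    rw [← isIntegral_algebraMap_iff (algebraMap K (AlgebraicClosure K)).injective, map_mul, map_pow,
      map_natCast]
    exact h.1
  have n0 : (c : K) ^ E * δ ≠ 0 := mul_ne_zero (pow_ne_zero _ (Nat.cast_ne_zero.mpr hc.ne')) h0
  obtain ⟨z, hz⟩ := IsIntegrallyClosed.isIntegral_iff.mp (Algebra.isIntegral_norm ℚ i1)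
  have z0 : z ≠ 0 := by
    rintro rfl
    rw [map_zero] at hz
    exact Algebra.norm_ne_zero_iff.mpr n0 hz.symm
  have a1 : ‖(z : ℂ)‖ ≤ ((c * B) ^ E) ^ Module.finrank ℚ K := by
    have := Algebra.norm_eq_prod_embeddings ℚ ℂ ((c : K) ^ E * δ)
    rw [← hz, eq_intCast, map_intCast] at this
    rw [this, norm_prod, ← AlgHom.card ℚ K ℂ, ← card_univ]
    refine (prod_le_prod (fun _ _ => norm_nonneg _) fun σ _ => ?_).trans_eq (prod_const _)
    let := (σ : K →+* ℂ).toAlgebra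
    have := h.2 (IsAlgClosed.lift : AlgebraicClosure K →ₐ[K] ℂ)
    rw [RingHom.coe_coe, AlgHom.commutes] at this
    rw [map_mul, map_pow, map_natCast, norm_mul, norm_pow, Complex.norm_natCast, mul_pow]
    exact mul_le_mul_of_nonneg_left this (by positivity)
  have a2 : ‖(z : PadicAlgCl p)‖ ≤ ‖ι δ‖ := by
    have := Algebra.norm_eq_prod_embeddings ℚ (PadicAlgCl p) ((c : K) ^ E * δ)
    rw [← hz, eq_intCast, map_intCast] at this
    rw [this, norm_prod, ← mul_prod_erase _ _ (mem_univ ι.toRatAlgHom)]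
    refine le_trans (b := ‖ι ((c : K) ^ E * δ)‖) (mul_le_of_le_one_right (norm_nonneg _)
      (prod_le_one (fun _ _ => norm_nonneg _)
      fun σ _ => int_le (i1.map (σ : K →+* PadicAlgCl p).toIntAlgHom))) ?_
    rw [map_mul, norm_mul]
    refine mul_le_of_le_one_left (norm_nonneg _) ?_
    rw [map_pow, map_natCast, norm_pow]
    exact pow_le_one₀ (norm_nonneg _) (IsUltrametricDist.norm_natCast_le_one _ _)
  have a3 : 1 ≤ ((c * B) ^ E) ^ Module.finrank ℚ K * ‖ι δ‖ :=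
    (int_ge z0).trans (mul_le_mul a1 a2 (norm_nonneg _) (by positivity))
  have a4 := Real.log_nonneg a3
  rw [Real.log_mul (by positivity) (norm_ne_zero_iff.mpr ((map_ne_zero ι).mpr h0)), Real.log_pow,
    Real.log_pow] at a4
  linarith

end Pool.Agent.Lib.MP_a2c890_nt.T
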