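import Mathlib

set_option autoImplicit false
set_option linter.unusedSectionVars false

namespace Pool.Agent.Lib.MP_a2c890_nt.T

open Polynomial

variable {F : Type*} [NormedField F] [IsUltrametricDist F]

theorem uadd_le {a b : F} {r : ℝ} (h1 : ‖a‖ ≤ r) (h2 : ‖b‖ ≤ r) : ‖a + b‖ ≤ r :=
  (IsUltrametricDist.norm_add_le_max a b).trans (max_le h1 h2)

theorem uadd_lt {a b : F} {r : ℝ} (h1 : ‖a‖ < r) (h2 : ‖b‖ < r) : ‖a + b‖ < r :=
  (IsUltrametricDist.norm_add_le_max a b).trans_lt (max_lt h1 h2)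

theorem uadd_eq {a b : F} (h : ‖b‖ < ‖a‖) : ‖a + b‖ = ‖a‖ := by
  rw [IsUltrametricDist.norm_add_eq_max_of_norm_ne_norm h.ne', max_eq_left h.le]

theorem usub_le {a b : F} {r : ℝ} (h1 : ‖a‖ ≤ r) (h2 : ‖b‖ ≤ r) : ‖a - b‖ ≤ r := by
  rw [sub_eq_add_neg]; exact uadd_le h1 (by rwa [norm_neg])

theorem pow_sub_le {x y : F} {B : ℝ} (hx : ‖x‖ ≤ B) (hy : ‖y‖ ≤ B) (i : ℕ) :
    ‖x ^ (i + 1) - y ^ (i + 1)‖ ≤ B ^ i * ‖x - y‖ := by
  have hB : 0 ≤ B := (norm_nonneg _).trans hx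
  induction i with
  | zero => simp
  | succ i ih =>
    rw [show x ^ (i + 1 + 1) - y ^ (i + 1 + 1) =
      x * (x ^ (i + 1) - y ^ (i + 1)) + y ^ (i + 1) * (x - y) by ring]
    refine uadd_le ?_ ?_
    · rw [norm_mul, pow_succ' B, mul_assoc]; gcongr
    · rw [norm_mul, norm_pow]; gcongr

theorem one_add_pow_le {u : F} (hu : ‖u‖ ≤ 1) (n : ℕ) : ‖(1 + u) ^ n - 1 - n * u‖ ≤ ‖u‖ ^ 2 := by
  induction n with
  | zero => simp
  | succ n ih =>
    rw [show (1 + u) ^ (n + 1) - 1 - ((n + 1 : ℕ) : F) * u =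
      ((1 + u) ^ n - 1 - n * u) * (1 + u) + n * u ^ 2 by push_cast; ring]
    refine uadd_le ?_ ?_
    · rw [norm_mul]
      exact (mul_le_of_le_one_right (norm_nonneg _) (uadd_le (by simp) hu)).trans ih
    · rw [norm_mul, norm_pow]
      exact mul_le_of_le_one_left (by positivity) (IsUltrametricDist.norm_natCast_le_one F n)

/-- the local shape of the polynomial -/
structure Loc (g : F[X]) (e : ℕ) (R : ℝ) : Prop where
  he : 2 ≤ e
  deg : g.natDegree = e + 1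
  hR : 1 < R
  top : ‖g.coeff (e + 1)‖ = R⁻¹
  nxt : ‖g.coeff e‖ = 1
  all : ∀ i, ‖g.coeff i‖ ≤ 1
  tame : ‖(e : F)‖ = 1

/-- the radii -/
noncomputable def rad (e : ℕ) (R : ℝ) (j : ℕ) : ℝ := Real.exp (Real.log R / (e : ℝ) ^ j)

/-- possible sizes of a point at level `n` -/
def Val (e : ℕ) (R : ℝ) (n : ℕ) (z : F) : Prop := ‖z‖ ≤ rad e R n ∨ ∃ i < n, ‖z‖ = rad e R i

namespace Loc

variable {g : F[X]} {e : ℕ} {R : ℝ} (L : Loc g e R)
include L

theorem r_pos : 0 < Real.log R := Real.log_pos L.hR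

theorem e_pos : (0 : ℝ) < e := by have := L.he; exact_mod_cast (by omega : 0 < e)

theorem rad_gt (j : ℕ) : 1 < rad e R j :=
  Real.one_lt_exp_iff.mpr (div_pos L.r_pos (pow_pos L.e_pos j))

theorem rad_pos (j : ℕ) : 0 < rad e R j := one_pos.trans (L.rad_gt j)

theorem rad_zero : rad e R 0 = R := by
  rw [rad, pow_zero, div_one, Real.exp_log (one_pos.trans L.hR)]

theorem rad_pow (j : ℕ) : rad e R (j + 1) ^ e = rad e R j := by
  have := L.e_pos
  rw [rad, rad, ← Real.exp_nat_mul]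
  congr 1
  rw [pow_succ]
  field_simp

theorem rad_lt (j : ℕ) : rad e R (j + 1) < rad e R j := by
  rw [← L.rad_pow j]
  exact lt_self_pow₀ (L.rad_gt _) (by have := L.he; omega)

theorem rad_anti : StrictAnti (rad e R) := strictAnti_nat_of_succ_lt L.rad_lt

theorem rad_le (j : ℕ) : rad e R j ≤ R :=
  (L.rad_anti.antitone (Nat.zero_le j)).trans_eq L.rad_zero

theorem ev (x : F) : g.eval x = g.coeff e * x ^ e +
    (g.coeff (e + 1) * x ^ (e + 1) + ∑ i ∈ Finset.range e, g.coeff i * x ^ i) := by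
  rw [eval_eq_sum_range, L.deg, Finset.sum_range_succ, Finset.sum_range_succ]; ring

theorem low_lt {x : F} (hx : 1 < ‖x‖) : ‖∑ i ∈ Finset.range e, g.coeff i * x ^ i‖ < ‖x‖ ^ e := by
  obtain ⟨k, hk⟩ : ∃ k, e = k + 1 := ⟨e - 1, by have := L.he; omega⟩
  refine lt_of_le_of_lt (b := ‖x‖ ^ k) ?_ (pow_lt_pow_right₀ hx (by omega))
  refine IsUltrametricDist.norm_sum_le_of_forall_le_of_nonneg (by positivity) fun i hi => ?_
  rw [norm_mul, norm_pow]
  exact (mul_le_of_le_one_left (by positivity) (L.all i)).trans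
    (pow_le_pow_right₀ hx.le (by have := Finset.mem_range.mp hi; omega))

theorem ev_small {x : F} (hx : ‖x‖ ≤ 1) : ‖g.eval x‖ ≤ 1 := by
  rw [eval_eq_sum_range]
  refine IsUltrametricDist.norm_sum_le_of_forall_le_of_nonneg zero_le_one fun i _ => ?_
  rw [norm_mul, norm_pow]
  exact mul_le_one₀ (L.all i) (by positivity) (pow_le_one₀ (norm_nonneg _) hx)

theorem ev_mid {x : F} (hx : 1 < ‖x‖) (hx' : ‖x‖ < R) : ‖g.eval x‖ = ‖x‖ ^ e := by
  have h0 : 0 < R := one_pos.trans L.hR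
  have e1 : ‖g.coeff e * x ^ e‖ = ‖x‖ ^ e := by rw [norm_mul, L.nxt, one_mul, norm_pow]
  rw [L.ev, uadd_eq, e1]
  rw [e1]
  refine uadd_lt ?_ (L.low_lt hx)
  rw [norm_mul, L.top, norm_pow, pow_succ, inv_mul_lt_iff₀ h0, mul_comm R]
  gcongr

theorem ev_big {x : F} (hx : R < ‖x‖) : ‖g.eval x‖ = R⁻¹ * ‖x‖ ^ (e + 1) := by
  have h0 : 0 < R := one_pos.trans L.hR
  have h1 : 1 < ‖x‖ := L.hR.trans hx
  have e1 : ‖g.coeff (e + 1) * x ^ (e + 1)‖ = R⁻¹ * ‖x‖ ^ (e + 1) := by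
    rw [norm_mul, L.top, norm_pow]
  have h2 : ‖x‖ ^ e < R⁻¹ * ‖x‖ ^ (e + 1) := by
    rw [lt_inv_mul_iff₀ h0, pow_succ, mul_comm R]
    gcongr
  rw [L.ev, add_left_comm, uadd_eq, e1]
  rw [e1]
  refine uadd_lt ?_ ((L.low_lt h1).trans h2)
  rwa [norm_mul, L.nxt, one_mul, norm_pow]

theorem big_grow {x : F} (hx : R < ‖x‖) : R * ‖x‖ ≤ ‖g.eval x‖ := by
  have h0 : 0 < R := one_pos.trans L.hR
  obtain ⟨k, hk⟩ : ∃ k, e = k + 2 := ⟨e - 2, by have := L.he; omega⟩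
  have h1 : 1 ≤ ‖x‖ ^ k := one_le_pow₀ (L.hR.trans hx).le
  rw [L.ev_big hx, le_inv_mul_iff₀ h0, hk]
  calc R * (R * ‖x‖) ≤ ‖x‖ * (‖x‖ * ‖x‖) := by gcongr
    _ = 1 * ‖x‖ ^ 3 := by ring
    _ ≤ ‖x‖ ^ k * ‖x‖ ^ 3 := by gcongr
    _ = _ := by ring

theorem kid_le {x : F} (h : ‖g.eval x‖ ≤ R) : ‖x‖ ≤ R := by
  by_contra hx
  have h1 := L.big_grow (not_le.mp hx)
  have h2 := L.hR
  nlinarith [not_le.mp hx]

theorem lip {x y : F} (hx : ‖x‖ ≤ R) (hy : ‖y‖ ≤ R) :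
    ‖g.eval x - g.eval y‖ ≤ R ^ e * ‖x - y‖ := by
  have h0 : 0 < R := one_pos.trans L.hR
  rw [eval_eq_sum_range, eval_eq_sum_range, ← Finset.sum_sub_distrib]
  refine IsUltrametricDist.norm_sum_le_of_forall_le_of_nonneg (by positivity) fun i hi => ?_
  rw [← mul_sub, norm_mul]
  refine (mul_le_of_le_one_left (norm_nonneg _) (L.all i)).trans ?_
  rcases i with _ | i
  · simp only [pow_zero, sub_self, norm_zero]; positivity
  · refine (pow_sub_le hx hy i).trans ?_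
    have := Finset.mem_range.mp hi
    rw [L.deg] at this
    gcongr
    · exact L.hR.le
    · omega

theorem sep {x y : F} (hx : 1 < ‖x‖) (hx' : ‖x‖ < R) (hy : ‖y‖ = ‖x‖) (h : g.eval y = g.eval x)
    (hne : y ≠ x) : ‖y - x‖ = ‖x‖ := by
  have h0 : 0 < R := one_pos.trans L.hR
  refine (usub_le hy.le le_rfl).eq_or_lt.resolve_right fun hlt => ?_
  obtain ⟨k, hk⟩ : ∃ k, e = k + 2 := ⟨e - 2, by have := L.he; omega⟩
  have x0 : x ≠ 0 := norm_pos_iff.mp (one_pos.trans hx)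
  have n0 : 0 < ‖x‖ := one_pos.trans hx
  have d0 : 0 < ‖y - x‖ := norm_pos_iff.mpr (sub_ne_zero.mpr hne)
  set u := (y - x) / x with hu
  have u1 : ‖u‖ < 1 := by rw [hu, norm_div, div_lt_one n0]; exact hlt
  have u0 : 0 < ‖u‖ := by rw [hu, norm_div]; positivity
  have e1 : ‖(1 + u) ^ e - 1‖ = ‖u‖ := by
    have : ‖(e : F) * u‖ = ‖u‖ := by rw [norm_mul, L.tame, one_mul]
    rw [show (1 + u) ^ e - 1 = e * u + ((1 + u) ^ e - 1 - e * u) by ring, uadd_eq, this]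
    rw [this]
    exact (one_add_pow_le u1.le e).trans_lt (by nlinarith)
  have e2 : ‖g.coeff e * (y ^ e - x ^ e)‖ = ‖x‖ ^ (k + 1) * ‖y - x‖ := by
    have : y = x * (1 + u) := by rw [hu]; field_simp; ring
    rw [norm_mul, L.nxt, one_mul, show y ^ e - x ^ e = x ^ e * ((1 + u) ^ e - 1) by
      rw [mul_sub, ← mul_pow, ← this, mul_one], norm_mul, e1, hu, norm_div, norm_pow, hk]
    field_simp
    ring
  have e3 : g.coeff e * (y ^ e - x ^ e) + (g.coeff (e + 1) * (y ^ (e + 1) - x ^ (e + 1)) +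
      ∑ i ∈ Finset.range e, g.coeff i * (y ^ i - x ^ i)) = 0 := by
    rw [L.ev, L.ev] at h
    simp only [mul_sub, Finset.sum_sub_distrib]
    linear_combination h
  have e4 := congrArg norm e3
  rw [uadd_eq, e2, norm_zero] at e4
  · exact absurd e4 (by positivity)
  rw [e2]
  refine uadd_lt ?_ ?_
  · rw [norm_mul, L.top, inv_mul_lt_iff₀ h0]
    refine (pow_sub_le hy.le le_rfl e).trans_lt ?_
    rw [hk, ← mul_assoc, pow_succ' _ (k + 1)]
    gcongr
  · refine lt_of_le_of_lt (b := ‖x‖ ^ k * ‖y - x‖) ?_ ?_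
    · refine IsUltrametricDist.norm_sum_le_of_forall_le_of_nonneg (by positivity) fun i hi => ?_
      rw [norm_mul]
      refine (mul_le_of_le_one_left (norm_nonneg _) (L.all i)).trans ?_
      rcases i with _ | i
      · simp only [pow_zero, sub_self, norm_zero]; positivity
      · refine (pow_sub_le hy.le le_rfl i).trans ?_
        have := Finset.mem_range.mp hi
        gcongr
        · exact hx.le
        · omega
    · gcongr
      omega

theorem fwd {x : F} {i : ℕ} (h : ‖x‖ = rad e R (i + 1)) : ‖g.eval x‖ = rad e R i := by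
  rw [L.ev_mid (h ▸ L.rad_gt _) (h ▸ (L.rad_lt i).trans_le (L.rad_le i)), h, L.rad_pow]

theorem fwd_iter {x : F} {i k : ℕ} (h : ‖x‖ = rad e R (i + k)) :
    ‖(fun z => g.eval z)^[k] x‖ = rad e R i := by
  induction k generalizing x with
  | zero => exact h
  | succ k ih => rw [Function.iterate_succ_apply]; exact ih (L.fwd h)

theorem kid_iff {x : F} (hx : ‖x‖ < R) (j : ℕ) :
    ‖x‖ ≤ rad e R (j + 1) ↔ ‖g.eval x‖ ≤ rad e R j := by
  rcases le_or_gt ‖x‖ 1 with h | h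
  · exact iff_of_true (h.trans (L.rad_gt _).le) ((L.ev_small h).trans (L.rad_gt _).le)
  · rw [L.ev_mid h hx, ← L.rad_pow j]
    exact (pow_le_pow_iff_left₀ (norm_nonneg _) (L.rad_pos _).le (by have := L.he; omega)).symm

theorem val_le {n : ℕ} {z : F} (h : Val e R n z) : ‖z‖ ≤ R := by
  rcases h with h | ⟨i, -, h⟩
  · exact h.trans (L.rad_le n)
  · exact h.le.trans (L.rad_le i)

theorem val_mono {n j : ℕ} {z : F} (h : Val e R n z) (hj : j ≤ n) : Val e R j z := by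
  rcases h with h | ⟨i, -, h⟩
  · exact Or.inl (h.trans (L.rad_anti.antitone hj))
  · rcases lt_or_ge i j with h' | h'
    · exact Or.inr ⟨i, h', h⟩
    · exact Or.inl (h.le.trans (L.rad_anti.antitone h'))

theorem val_kid {n : ℕ} {x : F} (h : Val e R n (g.eval x)) : Val e R (n + 1) x := by
  rcases (L.kid_le (L.val_le h)).eq_or_lt with hx | hx
  · exact Or.inr ⟨0, Nat.succ_pos n, hx.trans L.rad_zero.symm⟩
  rcases h with h | ⟨i, hi, h⟩
  · exact Or.inl ((L.kid_iff hx n).mpr h)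
  · refine Or.inr ⟨i + 1, by omega, ?_⟩
    have h1 : 1 < ‖x‖ := by
      by_contra h1
      exact absurd (L.ev_small (not_lt.mp h1)) (not_le.mpr (h ▸ L.rad_gt i))
    rw [L.ev_mid h1 hx, ← L.rad_pow i] at h
    exact (pow_left_inj₀ (norm_nonneg _) (L.rad_pos _).le (by have := L.he; omega)).mp h

theorem val_iter {n k : ℕ} {x : F} (h : Val e R n ((fun z => g.eval z)^[k] x)) :
    Val e R (n + k) x := by
  induction k generalizing x with
  | zero => exact h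
  | succ k ih => rw [Function.iterate_succ_apply] at h; exact L.val_kid (ih h)

theorem val_gap {j : ℕ} {z : F} (h : Val e R (j + 1) z) :
    ‖z‖ ≤ rad e R (j + 1) ∨ rad e R j ≤ ‖z‖ := by
  rcases h with h | ⟨i, hi, h⟩
  · exact Or.inl h
  · exact Or.inr (h ▸ L.rad_anti.antitone (Nat.lt_succ_iff.mp hi))

end Loc

end Pool.Agent.Lib.MP_a2c890_nt.T
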