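import Pool.Agent.Lib.MP_a2c890_nt.TCnt

set_option autoImplicit false
set_option linter.unusedSectionVars false

namespace Pool.Agent.Lib.MP_a2c890_nt.T

open Polynomial Finset Filter

theorem param {θ η : ℝ} (h0 : 0 ≤ θ) (h1 : θ < 1) (hη : 0 < η) {A : ℕ} (hA : 0 < A) (J0 : ℕ) :
    ∃ U0 : ℕ, ∀ U : ℕ, U0 ≤ U → ∃ j, J0 ≤ j ∧ A * (j + 2) ^ 2 ≤ U ∧ (U + 1) * θ ^ (j + 1) ≤ η := by
  have t1 := (tendsto_pow_const_mul_const_pow_of_abs_lt_one 2 (r := θ)
    (by rwa [abs_of_nonneg h0])).comp (tendsto_add_atTop_nat 1)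
  have t2 := t1.const_mul (9 * (A : ℝ))
  rw [mul_zero] at t2
  obtain ⟨J1, hJ⟩ := eventually_atTop.mp (t2.eventually (ge_mem_nhds hη))
  refine ⟨A * (max J0 J1 + 2) ^ 2, fun U hU => ?_⟩
  have ex : ∃ k, U < A * (max J0 J1 + k + 3) ^ 2 := ⟨U, by nlinarith [Nat.zero_le (max J0 J1)]⟩
  refine ⟨max J0 J1 + Nat.find ex, (le_max_left _ _).trans (Nat.le_add_right _ _), ?_, ?_⟩
  · rcases h : Nat.find ex with _ | k
    · exact hU
    · exact not_lt.mp (Nat.find_min ex (show k < Nat.find ex by omega))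
  · have a1 := Nat.find_spec ex
    have a2 := hJ _ ((le_max_right J0 J1).trans (Nat.le_add_right _ (Nat.find ex)))
    generalize max J0 J1 + Nat.find ex = j at *
    refine le_trans ?_ a2
    simp only [Function.comp]
    rw [← mul_assoc]
    refine mul_le_mul_of_nonneg_right ?_ (pow_nonneg h0 _)
    have : U + 1 ≤ 9 * A * (j + 1) ^ 2 := by
      have : (j + 3) ^ 2 ≤ 9 * (j + 1) ^ 2 :=
        (Nat.pow_le_pow_left (show j + 3 ≤ 3 * (j + 1) by omega) 2).trans_eq (by ring)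
      nlinarith
    exact_mod_cast this

variable {K : Type*} [Field K] [NumberField K] {p : ℕ} [Fact p.Prime]

theorem inj_uu (φ : K[X]) (w : AlgebraicClosure K) (s : Finset ℕ)
    (h : ∀ i ∈ s, rel φ ((Phi φ)^[i] w) 1 ≠ 1) :
    Set.InjOn (fun i => Nat.log 2 (rel φ w i)) s := fun i hi i' hi' e => by
  rcases lt_trichotomy i i' with h' | h' | h'
  · exact absurd e (uu_lt φ w h' (h i hi)).ne
  · exact h'
  · exact absurd e (uu_lt φ w h' (h i' hi')).ne'

theorem uv_le (φ : K[X]) (w : AlgebraicClosure K) {i a : ℕ} (h : i ≤ a) :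
    Nat.log 2 (rel φ w a) ≤
      Nat.log 2 (rel φ w i) + Nat.log 2 (rel φ ((Phi φ)^[i] w) (a - i)) + 1 := by
  conv_lhs => rw [← Nat.sub_add_cancel h, rel_add]
  exact log_mul_le

namespace Dat

variable {φ : K[X]} {ι : AlgebraicClosure K →+* PadicAlgCl p} {a b : PadicAlgCl p}
  {g : (PadicAlgCl p)[X]} {e : ℕ} {R : ℝ} {c : ℕ} {B : ℝ} {Bs : AlgebraicClosure K → Prop}
  (D : Dat φ ι a b g e R c B Bs)
  {C lam : ℝ} (E : Eqd φ (fun z => ‖pos ι a b z‖) (rad e R) e Bs C lam)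
  {H : Subgroup (PadicAlgCl p ≃ₐ[ℚ_[p]] PadicAlgCl p)} (G : LG ι a b g H)
include D E G

theorem sm {u0 u : ℕ} {q : ℝ} (q0 : 0 ≤ q)
    (c3 : C * (lam ^ u0 / (1 - lam)) ≤ 1 / (12 * (e + 1)) * q) :
    (u0 ≤ u → C * lam ^ u ≤ q) ∧ (2 * u0 ≤ u → C * lam ^ u ≤ q ^ 2) := by
  have l0 := E.l0
  have l1 := E.l1
  have C1 := E.C1
  have h1 : C * lam ^ u0 ≤ q := by
    refine le_trans (mul_le_mul_of_nonneg_left
      (le_div_self (by positivity) (by linarith) (by linarith)) (by linarith)) (c3.trans ?_)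
    refine mul_le_of_le_one_left q0 ?_
    rw [div_le_one (by positivity)]
    linarith [Nat.cast_nonneg (α := ℝ) e]
  refine ⟨fun h => le_trans (mul_le_mul_of_nonneg_left (pow_le_pow_of_le_one l0.le l1.le h)
    (by linarith)) h1, fun h => ?_⟩
  calc C * lam ^ u ≤ C * lam ^ (2 * u0) :=
        mul_le_mul_of_nonneg_left (pow_le_pow_of_le_one l0.le l1.le h) (by linarith)
    _ ≤ C ^ 2 * lam ^ (2 * u0) := by gcongr; nlinarith
    _ = (C * lam ^ u0) ^ 2 := by ring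
    _ ≤ q ^ 2 := by gcongr

theorem near_lv {w : AlgebraicClosure K} {i m j u0 : ℕ} (hi : i ≤ m)
    (h : Nat.log 2 (rel φ w i) < u0)
    (k : 2 * (e + 1) * (j + 1) + 2 * u0 ≤ Nat.log 2 (rel φ w m)) :
    2 * (e + 1) * (j + 1) + u0 ≤ Nat.log 2 (rel φ ((Phi φ)^[i] w) (m - i)) ∧ j + 1 ≤ m - i := by
  have h1 := uv_le φ w hi
  have h2 := log_rel_le D.deg (Nat.succ_pos e) ((Phi φ)^[i] w) (m - i)
  refine ⟨by omega, ?_⟩
  have h3 : (e + 1) * (2 * (j + 1)) ≤ (e + 1) * (m - i) := by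
    rw [← mul_assoc, mul_comm (e + 1) 2]; omega
  have := Nat.le_of_mul_le_mul_left h3 (Nat.succ_pos e)
  omega

theorem caseB {γ : ℝ} {n0 j n t u0 u1 km : ℕ} (hn : Real.log R = n0 * γ) (hj : n0 ≤ j)
    (hb : ∀ y, Bs ((Phi φ)^[n] y) → Good H (AddSubgroup.zmultiples γ) (pos ι a b y))
    {x : AlgebraicClosure K} (hx : Bs ((Phi φ)^[n + t + 1] x)) (thin : rel φ x 1 < e)
    (hu1 : u1 ≤ Nat.log 2 (rel φ ((Phi φ)^[t + 1] x) n))
    (k0 : 2 * (e + 1) * (j + 1) ≤ u0)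
    (k1 : 2 * (e + 1) * (2 * km + (j + 2)) + 2 * u0 ≤ Nat.log 2 (rel φ ((Phi φ)^[1] x) (n + t)))
    (c1 : (Nat.log 2 (rel φ ((Phi φ)^[1] x) (n + t)) + 1) * th e ^ (j + 1) ≤ 1 / (12 * (e + 1)))
    (c2 : 2 * (C * (lam ^ u1 / (1 - lam))) ≤ 1 / (12 * (e + 1)))
    (c3 : C * (lam ^ u0 / (1 - lam)) ≤ 1 / (12 * (e + 1)) * th e ^ (j + 1))
    (near : ∀ i < t, rel φ ((Phi φ)^[i] ((Phi φ)^[1] x)) 1 ≠ 1 →
      Nat.log 2 (rel φ ((Phi φ)^[1] x) i) < u0 → i + 1 ≤ km) : False := by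
  classical
  have k2 : 2 * (e + 1) * (j + 2) ≤ 2 * (e + 1) * (2 * km + (j + 2)) :=
    Nat.mul_le_mul_left _ (by omega)
  have k3 : 2 * (e + 1) * (j + 1) ≤ 2 * (e + 1) * (j + 2) := by gcongr; omega
  have h := D.pre_ineq E G hn hj hb hx thin (fun s s0 s1 => by omega) hu1 k0 (by omega) (by omega)
    c1 c2 c3
  set w := (Phi φ)^[1] x with hw
  set U := Nat.log 2 (rel φ w (n + t)) with hU
  set q := th e ^ (j + 1) with hq
  have q0 : 0 < q := pow_pos (div_pos D.L.e_pos (by positivity)) _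
  set Near := (range t).filter fun i => rel φ ((Phi φ)^[i] w) 1 ≠ 1 ∧ Nat.log 2 (rel φ w i) < u0
    with hN
  have cN : (Near.card : ℝ) ≤ U + 1 := by
    have := card_le_of_lt Near _ (inj_uu φ w Near fun i hi => (mem_filter.mp hi).2.1)
      fun i hi => (mem_filter.mp hi).2.2
    exact_mod_cast (by omega : Near.card ≤ U + 1)
  have h1 := h.trans (av_mono (h' := fun z => ∑ i ∈ Near, ind (‖pos ι a b z‖ = rad e R (j + 1)) *
      ind (‖pos ι a b ((Phi φ)^[i + 1] z)‖ ≤ rad e R (j + 1))) fun z _ => by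
    rw [sum_range_one, ← mul_sum]
    refine mul_le_mul_of_nonneg_left ?_ (ind_nonneg _)
    by_cases hz : ∃ i < t, rel φ ((Phi φ)^[i] w) 1 ≠ 1 ∧ Nat.log 2 (rel φ w i) < u0 ∧
      ‖pos ι a b ((Phi φ)^[i] ((Phi φ)^[1] z))‖ ≤ rad e R (min (j + 1) (n + t - i))
    · rw [ind_pos hz]
      obtain ⟨i, a1, a2, a3, a4⟩ := hz
      rw [min_eq_left (D.near_lv E G (by omega) a3 (by omega)).2] at a4
      refine le_trans (ind_pos a4).ge (single_le_sum
        (f := fun i => ind (‖pos ι a b ((Phi φ)^[i + 1] z)‖ ≤ rad e R (j + 1)))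
        (fun _ _ => ind_nonneg _) (mem_filter.mpr ⟨mem_range.mpr a1, a2, a3⟩))
    · rw [ind_neg hz]; exact sum_nonneg fun _ _ => ind_nonneg _)
  rw [av_sum] at h1
  have h2 := h1.trans (sum_le_card_nsmul _ _ (2 * q ^ 2) fun i hi => by
    obtain ⟨a1, a2, a3⟩ := mem_filter.mp hi
    have b1 := near i (mem_range.mp a1) a2 a3
    have b2 : 2 * (e + 1) * (2 * (i + 1) + (j + 1)) ≤ 2 * (e + 1) * (2 * km + (j + 2)) := by
      gcongr; omega
    have := E.joint _ j (i + 1) U x hx (Nat.succ_pos i) (by omega)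
      (Nat.log_mono_right (rel_anc φ x 1 (n + t)))
    linarith [(D.sm E G q0.le c3 (u := U)).2 (by omega)])
  rw [nsmul_eq_mul, Nat.cast_one, one_mul] at h2
  have h3 : (Near.card : ℝ) * q ≤ 1 / (12 * (e + 1)) :=
    (mul_le_mul_of_nonneg_right cN q0.le).trans c1
  have h4 : (Near.card : ℝ) * (2 * q ^ 2) ≤ 2 * q * (1 / (12 * (e + 1))) := by nlinarith
  have h5 : q / (2 * (e + 1)) = 6 * q * (1 / (12 * (e + 1))) := by field_simp; ring
  have h6 : 0 < q * (1 / (12 * (e + 1))) := by positivity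
  linarith

theorem caseA {γ : ℝ} {n0 j n t u0 u1 l : ℕ} (hn : Real.log R = n0 * γ) (hj : n0 ≤ j)
    (hb : ∀ y, Bs ((Phi φ)^[n] y) → Good H (AddSubgroup.zmultiples γ) (pos ι a b y))
    (hl : l = 16 * (e + 1) * u0)
    {x : AlgebraicClosure K} (hx : Bs ((Phi φ)^[n + t + l] x))
    (flat : ∀ s, s < l → rel φ ((Phi φ)^[s] x) 1 = 1)
    (hu1 : u1 ≤ Nat.log 2 (rel φ ((Phi φ)^[t + l] x) n))
    (k0 : 2 * (e + 1) * (j + 1) ≤ u0)
    (k1 : 2 * (e + 1) * (2 * l + (j + 2)) + 2 * u0 ≤ Nat.log 2 (rel φ ((Phi φ)^[l] x) (n + t)))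
    (c1 : (Nat.log 2 (rel φ ((Phi φ)^[l] x) (n + t)) + 1) * th e ^ (j + 1) ≤ 1 / (12 * (e + 1)))
    (c2 : 2 * (C * (lam ^ u1 / (1 - lam))) ≤ 1 / (12 * (e + 1)))
    (c3 : C * (lam ^ u0 / (1 - lam)) ≤ 1 / (12 * (e + 1)) * th e ^ (j + 1)) : False := by
  classical
  have he := D.L.he
  have u00 : 0 < u0 := lt_of_lt_of_le (by positivity) k0
  have l0 : 0 < l := by rw [hl]; positivity
  have k2 : 2 * (e + 1) * (j + 2) ≤ 2 * (e + 1) * (2 * l + (j + 2)) :=
    Nat.mul_le_mul_left _ (by omega)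
  have k3 : 2 * (e + 1) * (j + 1) ≤ 2 * (e + 1) * (j + 2) := by gcongr; omega
  have k4 : l ≤ 2 * (e + 1) * (2 * l + (j + 2)) := by nlinarith
  have h := D.pre_ineq E G hn hj hb hx (lt_of_eq_of_lt (flat 0 l0) he)
    (fun s _ s1 => flat s s1) hu1 k0 (by omega) (by omega) c1 c2 c3
  set w := (Phi φ)^[l] x with hw
  set U := Nat.log 2 (rel φ w (n + t)) with hU
  set q := th e ^ (j + 1) with hq
  have q0 : 0 < q := pow_pos (div_pos D.L.e_pos (by positivity)) _
  set Near := (range t).filter fun i => rel φ ((Phi φ)^[i] w) 1 ≠ 1 ∧ Nat.log 2 (rel φ w i) < u0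
    with hN
  have cN : (Near.card : ℝ) ≤ u0 := by
    exact_mod_cast card_le_of_lt Near _ (inj_uu φ w Near fun i hi => (mem_filter.mp hi).2.1)
      fun i hi => (mem_filter.mp hi).2.2
  let I : ℕ → AlgebraicClosure K → ℝ := fun s z =>
    ind (‖pos ι a b ((Phi φ)^[s] z)‖ = rad e R (j + 1))
  have h1 := h.trans (av_mono (h' := fun z =>
      ∑ i ∈ Near, ind (‖pos ι a b ((Phi φ)^[i + l] z)‖ ≤ rad e R (j + 1)) +
        ∑ s ∈ range l, ∑ s' ∈ (range l).erase s, I s z * I s' z) fun z _ => by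
    have a0 : ∑ s ∈ range l, ∑ s' ∈ (range l).erase s, I s z * I s' z =
        (∑ s ∈ range l, I s z) ^ 2 - ∑ s ∈ range l, I s z := by
      rw [sq, sum_mul, ← sum_sub_distrib]
      refine sum_congr rfl fun s hs => ?_
      rw [← mul_sum, ← add_sum_erase _ _ hs, mul_add, ← ind_and, ind_congr and_self_iff]
      ring
    by_cases hz : ∃ i < t, rel φ ((Phi φ)^[i] w) 1 ≠ 1 ∧ Nat.log 2 (rel φ w i) < u0 ∧
      ‖pos ι a b ((Phi φ)^[i] ((Phi φ)^[l] z))‖ ≤ rad e R (min (j + 1) (n + t - i))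
    · rw [ind_pos hz, mul_one, a0]
      obtain ⟨i, a1, a2, a3, a4⟩ := hz
      rw [min_eq_left (D.near_lv E G (by omega) a3 (by omega)).2, ← Function.iterate_add_apply] at a4
      have := le_trans (ind_pos a4).ge (single_le_sum
        (f := fun i => ind (‖pos ι a b ((Phi φ)^[i + l] z)‖ ≤ rad e R (j + 1)))
        (fun _ _ => ind_nonneg _) (show i ∈ Near from mem_filter.mpr ⟨mem_range.mpr a1, a2, a3⟩))
      nlinarith [sq_nonneg (∑ s ∈ range l, I s z - 1)]
    · rw [ind_neg hz, mul_zero]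
      exact add_nonneg (sum_nonneg fun _ _ => ind_nonneg _)
        (sum_nonneg fun _ _ => sum_nonneg fun _ _ => mul_nonneg (ind_nonneg _) (ind_nonneg _)))
  rw [av_add, av_sum, av_sum] at h1
  have h2 : ∑ i ∈ Near, av x (fun z => ind (‖pos ι a b ((Phi φ)^[i + l] z)‖ ≤ rad e R (j + 1))) ≤
      Near.card • (2 * q) := sum_le_card_nsmul _ _ _ fun i hi => by
    obtain ⟨a1, a2, a3⟩ := mem_filter.mp hi
    have a4 := mem_range.mp a1
    have b1 := (D.near_lv E G (m := n + t) (j := j) (by omega) a3 (by omega)).1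
    have := (abs_le.mp (E.abs (n + t - i) j _ ((Phi φ)^[i] w) (by
      rw [hw, ← Function.iterate_add_apply, ← Function.iterate_add_apply,
        show n + t - i + i + l = n + t + l by omega]; exact hx) (by omega) le_rfl)).2
    rw [av_comp φ x (i + l) fun y => ind (‖pos ι a b y‖ ≤ rad e R (j + 1)),
      Function.iterate_add_apply]
    linarith [(D.sm E G q0.le c3 (u := Nat.log 2 (rel φ ((Phi φ)^[i] w) (n + t - i)))).1 (by omega)]
  have pair : ∀ s s', s < s' → s' < l → av x (fun z => I s z * I s' z) ≤ 2 * q ^ 2 :=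
    fun s s' a1 a2 => by
      have b2 : 2 * (e + 1) * (2 * (s' - s) + (j + 1)) ≤ 2 * (e + 1) * (2 * l + (j + 2)) := by
        gcongr <;> omega
      have := E.joint (n + t + (l - s)) j (s' - s) U ((Phi φ)^[s] x) (by
        rw [← Function.iterate_add_apply, show n + t + (l - s) + s = n + t + l by omega]; exact hx)
        (by omega) (by omega) (Nat.log_mono_right (by
          have := rel_anc φ ((Phi φ)^[s] x) (l - s) (n + t)
          rwa [← Function.iterate_add_apply, Nat.sub_add_cancel (by omega)] at this))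
      rw [← av_comp φ x s] at this
      refine (av_mono fun z _ => ?_).trans (this.trans ?_)
      · rw [← Function.iterate_add_apply, Nat.sub_add_cancel a1.le]
        exact mul_le_mul_of_nonneg_left (ind_mono le_of_eq) (ind_nonneg _)
      · linarith [(D.sm E G q0.le c3 (u := U)).2 (by omega)]
  have h3 : ∑ s ∈ range l, av x (fun z => ∑ s' ∈ (range l).erase s, I s z * I s' z) ≤
      (range l).card • (l * (2 * q ^ 2)) := sum_le_card_nsmul _ _ _ fun s hs => by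
    rw [av_sum]
    refine (sum_le_card_nsmul _ _ (2 * q ^ 2) fun s' hs' => ?_).trans ?_
    · obtain ⟨a1, a2⟩ := mem_erase.mp hs'
      rcases lt_or_gt_of_ne a1 with b1 | b1
      · simpa only [mul_comm] using pair s' s b1 (mem_range.mp hs)
      · exact pair s s' b1 (mem_range.mp a2)
    · rw [nsmul_eq_mul]
      refine mul_le_mul_of_nonneg_right ?_ (by positivity)
      exact_mod_cast (card_erase_le.trans_eq (card_range l))
  rw [card_range, nsmul_eq_mul] at h3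
  rw [nsmul_eq_mul] at h2
  have h4 : (l : ℝ) * q ≤ 1 / (12 * (e + 1)) :=
    (mul_le_mul_of_nonneg_right (by exact_mod_cast (by omega : l ≤ U + 1)) q0.le).trans c1
  have hl' : (l : ℝ) = 16 * (e + 1) * u0 := by exact_mod_cast hl
  have u01 : (0 : ℝ) < u0 := by exact_mod_cast u00
  have h5 : l * (q / (2 * (e + 1))) = 8 * (u0 * q) := by rw [hl']; field_simp; ring
  have h6 : (l : ℝ) * (l * (2 * q ^ 2)) ≤ l * q * 2 * (1 / (12 * (e + 1))) := by
    have : (0 : ℝ) ≤ l * q * 2 := by positivity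
    nlinarith
  have h7 : l * q * 2 * (1 / (12 * (e + 1))) = 8 / 3 * (u0 * q) := by rw [hl']; field_simp; ring
  have h8 : (Near.card : ℝ) * (2 * q) ≤ u0 * (2 * q) := by gcongr
  have h9 : 0 < u0 * q := by positivity
  linarith

theorem main {γ : ℝ} {n0 n u1 : ℕ} (hn : Real.log R = n0 * γ)
    (hb : ∀ y, Bs ((Phi φ)^[n] y) → Good H (AddSubgroup.zmultiples γ) (pos ι a b y))
    (c2 : 2 * (C * (lam ^ u1 / (1 - lam))) ≤ 1 / (12 * (e + 1))) :
    ∃ U0 : ℕ, ∀ (t : ℕ) (x : AlgebraicClosure K), Bs ((Phi φ)^[n + t + 1] x) →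
      u1 ≤ Nat.log 2 (rel φ ((Phi φ)^[t + 1] x) n) →
      U0 ≤ Nat.log 2 (rel φ ((Phi φ)^[1] x) (n + t)) → e ≤ rel φ x 1 := by
  classical
  have l0 := E.l0
  have l1 := E.l1
  have C0 : 0 < C := one_pos.trans_le E.C1
  have θ0 : 0 < th e := div_pos D.L.e_pos (by positivity)
  have l2 : 0 < 1 - lam := by linarith
  obtain ⟨κ0, hκ⟩ := exists_pow_lt_of_lt_one
    (x := min (th e) (1 / (12 * (e + 1)) * th e * (1 - lam) / C))
    (lt_min θ0 (by positivity)) l1
  set κ := κ0 + 2 * (e + 1) with hκ'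
  have hκ1 : lam ^ κ ≤ lam ^ κ0 := pow_le_pow_of_le_one l0.le l1.le (by omega)
  obtain ⟨U0, hU⟩ := param θ0.le (th_lt e) (η := 1 / (12 * (e + 1))) (by positivity)
    (A := 2 * (e + 1) * (2 * ((κ + 1) * (16 * (e + 1) * κ)) + 1) + 3 * κ) (by positivity) n0
  refine ⟨U0, fun t x hx hu1 hU0 => ?_⟩
  by_contra thin
  replace thin := not_le.mp thin
  obtain ⟨j, hj, k1, c1⟩ := hU _ hU0
  set u0 := κ * (j + 1) with hu0
  set l := 16 * (e + 1) * u0 with hl
  have k0 : 2 * (e + 1) * (j + 1) ≤ u0 := by rw [hu0]; gcongr; omega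
  have c3 : C * (lam ^ u0 / (1 - lam)) ≤ 1 / (12 * (e + 1)) * th e ^ (j + 1) := by
    have a1 : lam ^ u0 ≤ 1 / (12 * (e + 1)) * th e * (1 - lam) / C * th e ^ j := by
      rw [hu0, pow_mul, pow_succ']
      exact mul_le_mul (hκ1.trans (hκ.le.trans (min_le_right _ _)))
        (pow_le_pow_left₀ (by positivity) (hκ1.trans (hκ.le.trans (min_le_left _ _))) j)
        (by positivity) (by positivity)
    refine (mul_le_mul_of_nonneg_left (div_le_div_of_nonneg_right a1 l2.le) C0.le).trans_eq ?_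
    rw [pow_succ]
    field_simp
  have k2 : 2 * (e + 1) * (2 * ((u0 + 1) * l) + (j + 2)) + 3 * u0 ≤
      Nat.log 2 (rel φ ((Phi φ)^[1] x) (n + t)) := by
    refine le_trans ?_ k1
    have a1 : u0 ≤ κ * (j + 2) := by rw [hu0]; gcongr; omega
    have a2 : u0 + 1 ≤ (κ + 1) * (j + 2) := by rw [add_mul]; omega
    have a3 : j + 2 ≤ (j + 2) ^ 2 := Nat.le_self_pow two_ne_zero _
    have a4 : (u0 + 1) * l ≤ (κ + 1) * (16 * (e + 1) * κ) * (j + 2) ^ 2 :=
      calc (u0 + 1) * l ≤ (κ + 1) * (j + 2) * (16 * (e + 1) * (κ * (j + 2))) := by rw [hl]; gcongr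
        _ = _ := by ring
    calc _ ≤ 2 * (e + 1) * (2 * ((κ + 1) * (16 * (e + 1) * κ) * (j + 2) ^ 2) + (j + 2) ^ 2) +
          3 * (κ * (j + 2) ^ 2) := by gcongr; exact a1.trans (by gcongr)
      _ = _ := by ring
  by_cases near : ∀ i < t, rel φ ((Phi φ)^[i] ((Phi φ)^[1] x)) 1 ≠ 1 →
      Nat.log 2 (rel φ ((Phi φ)^[1] x) i) < u0 → i + 1 ≤ (u0 + 1) * l
  · exact D.caseB E G hn hj hb hx thin hu1 k0 (by omega) c1 c2 c3 near
  push Not at near
  obtain ⟨i0, a1, -, a3, a4⟩ := near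
  set w := (Phi φ)^[1] x with hw
  have ex : ∃ β < u0 + 1, ∀ s < l, rel φ ((Phi φ)^[β * l + s] w) 1 = 1 := by
    by_contra hc
    push Not at hc
    choose! f f1 f2 using hc
    have := card_le_of_lt (range (u0 + 1)) (fun β => Nat.log 2 (rel φ w (β * l + f β))) (u := u0)
      (fun β hβ β' hβ' h => by
        have b1 := mem_range.mp hβ
        have b2 := mem_range.mp hβ'
        have b3 := f1 β b1
        have b4 := f1 β' b2
        rcases lt_trichotomy β β' with h' | h' | h'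
        · exact absurd h (uu_lt φ w (by nlinarith) (f2 β b1)).ne
        · exact h'
        · exact absurd h (uu_lt φ w (by nlinarith) (f2 β' b2)).ne')
      fun β hβ => lt_of_le_of_lt (Nat.log_mono_right (rel_mono φ w (by
        have b1 := mem_range.mp hβ
        have b3 := f1 β b1
        nlinarith))) a3
    rw [card_range] at this
    omega
  obtain ⟨β, b1, b2⟩ := ex
  have b3 : β * l + l ≤ i0 := by nlinarith
  obtain ⟨t', ht⟩ : ∃ t', t = t' + (l + β * l) := ⟨t - (l + β * l), by omega⟩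
  have b4 := uv_le φ w (show l + β * l ≤ n + t by omega)
  have b5 : Nat.log 2 (rel φ w (l + β * l)) < u0 :=
    lt_of_le_of_lt (Nat.log_mono_right (rel_mono φ w (by omega))) a3
  have b6 := Nat.log_mono_right (b := 2) (rel_anc φ w (l + β * l) (n + t'))
  rw [show n + t - (l + β * l) = n + t' by omega, Function.iterate_add_apply] at b4
  rw [show n + t' + (l + β * l) = n + t by omega, Function.iterate_add_apply] at b6
  have b7 : 2 * (e + 1) * (2 * l + (j + 2)) ≤ 2 * (e + 1) * (2 * ((u0 + 1) * l) + (j + 2)) := by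
    gcongr; nlinarith
  refine D.caseA E G (t := t') (x := (Phi φ)^[β * l] w) hn hj hb hl ?_ (fun s hs => ?_) ?_ k0
    (by omega) (le_trans ?_ c1) c2 c3
  · rw [hw, ← Function.iterate_add_apply, ← Function.iterate_add_apply,
      show n + t' + l + β * l + 1 = n + t + 1 by omega]
    exact hx
  · rw [← Function.iterate_add_apply, add_comm]; exact b2 s hs
  · rw [hw, ← Function.iterate_add_apply, ← Function.iterate_add_apply,
      show t' + l + β * l + 1 = t + 1 by omega]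
    exact hu1
  · gcongr

end Dat

end Pool.Agent.Lib.MP_a2c890_nt.T
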