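import Pool.Agent.Lib.MP_a2c890_nt.TGl

set_option autoImplicit false
set_option linter.unusedSectionVars false

namespace Pool.Agent.Lib.MP_a2c890_nt.T

open Polynomial Finset

variable {K : Type*} [Field K] [NumberField K]

/-- the map on the algebraic closure -/
noncomputable def Phi (φ : K[X]) (z : AlgebraicClosure K) : AlgebraicClosure K :=
  (φ.map (algebraMap K (AlgebraicClosure K))).eval z

open Classical in
/-- Galois orbit -/
noncomputable def orb (x : AlgebraicClosure K) : Finset (AlgebraicClosure K) :=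
  ((minpoly K x).aroots (AlgebraicClosure K)).toFinset

open Classical in
/-- part of an orbit above a point -/
noncomputable def fib (φ : K[X]) (x : AlgebraicClosure K) (k : ℕ) (y : AlgebraicClosure K) :
    Finset (AlgebraicClosure K) := (orb x).filter fun z => (Phi φ)^[k] z = y

/-- relative degree -/
noncomputable def rel (φ : K[X]) (x : AlgebraicClosure K) (k : ℕ) : ℕ :=
  (fib φ x k ((Phi φ)^[k] x)).card

/-- average over an orbit -/
noncomputable def av (x : AlgebraicClosure K) (h : AlgebraicClosure K → ℝ) : ℝ :=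
  (∑ z ∈ orb x, h z) / (orb x).card

theorem mem_orb {x y : AlgebraicClosure K} : y ∈ orb x ↔ ∃ σ : Gal(AlgebraicClosure K/K), σ x = y := by
  classical
  have hi : IsIntegral K x := Algebra.IsIntegral.isIntegral x
  rw [orb, Multiset.mem_toFinset, mem_aroots, and_iff_right (minpoly.ne_zero hi)]
  refine ⟨minpoly.exists_algEquiv_of_root' hi.isAlgebraic, ?_⟩
  rintro ⟨σ, rfl⟩
  rw [aeval_algHom_apply, minpoly.aeval, map_zero]

theorem self_orb (x : AlgebraicClosure K) : x ∈ orb x := mem_orb.mpr ⟨1, rfl⟩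

theorem orb_pos (x : AlgebraicClosure K) : 0 < (orb x).card := card_pos.mpr ⟨x, self_orb x⟩

theorem gal_orb {x y : AlgebraicClosure K} (σ : Gal(AlgebraicClosure K/K)) (h : y ∈ orb x) :
    σ y ∈ orb x := by
  obtain ⟨τ, rfl⟩ := mem_orb.mp h
  exact mem_orb.mpr ⟨σ * τ, rfl⟩

theorem orb_eq {x y : AlgebraicClosure K} (h : y ∈ orb x) : orb y = orb x := by
  obtain ⟨τ, rfl⟩ := mem_orb.mp h
  ext z
  simp only [mem_orb]
  exact ⟨fun ⟨σ, h⟩ => ⟨σ * τ, h⟩, fun ⟨σ, h⟩ => ⟨σ * τ⁻¹, by simpa using h⟩⟩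

theorem gal_Phi (φ : K[X]) (σ : Gal(AlgebraicClosure K/K)) (k : ℕ) (z : AlgebraicClosure K) :
    (Phi φ)^[k] (σ z) = σ ((Phi φ)^[k] z) := by
  induction k with
  | zero => rfl
  | succ k ih =>
    rw [Function.iterate_succ_apply', Function.iterate_succ_apply', ih, Phi, Phi,
      eval_map_algebraMap, eval_map_algebraMap, aeval_algHom_apply]

theorem Phi_orb (φ : K[X]) (k : ℕ) {x z : AlgebraicClosure K} (h : z ∈ orb x) :
    (Phi φ)^[k] z ∈ orb ((Phi φ)^[k] x) := by
  obtain ⟨τ, rfl⟩ := mem_orb.mp h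
  exact mem_orb.mpr ⟨τ, (gal_Phi φ τ k x).symm⟩

theorem mem_fib {φ : K[X]} {x y z : AlgebraicClosure K} {k : ℕ} :
    z ∈ fib φ x k y ↔ z ∈ orb x ∧ (Phi φ)^[k] z = y := by
  classical
  rw [fib, mem_filter]

open Classical in
theorem image_orb (σ : Gal(AlgebraicClosure K/K)) (x : AlgebraicClosure K) :
    (orb x).image σ = orb x := by
  ext z
  rw [mem_image]
  exact ⟨fun ⟨w, h1, h2⟩ => h2 ▸ gal_orb σ h1, fun h => ⟨σ⁻¹ z, gal_orb _ h, by simp⟩⟩

open Classical in
theorem image_fib (φ : K[X]) (σ : Gal(AlgebraicClosure K/K)) (x : AlgebraicClosure K) (k : ℕ)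
    (y : AlgebraicClosure K) : (fib φ x k y).image σ = fib φ x k (σ y) := by
  ext z
  simp only [mem_image, mem_fib]
  refine ⟨fun ⟨w, ⟨h1, h3⟩, h2⟩ => h2 ▸ ⟨gal_orb σ h1, by rw [gal_Phi, h3]⟩,
    fun h => ⟨σ⁻¹ z, ⟨gal_orb _ h.1, by rw [gal_Phi, h.2]; simp⟩, by simp⟩⟩

theorem card_fib (φ : K[X]) {x y : AlgebraicClosure K} {k : ℕ} (h : y ∈ orb ((Phi φ)^[k] x)) :
    (fib φ x k y).card = rel φ x k := by
  classical
  obtain ⟨σ, rfl⟩ := mem_orb.mp h
  rw [← image_fib, card_image_of_injective _ σ.injective, rel]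

theorem sum_orb (φ : K[X]) (x : AlgebraicClosure K) (k : ℕ) (h : AlgebraicClosure K → ℝ) :
    ∑ z ∈ orb x, h z = ∑ y ∈ orb ((Phi φ)^[k] x), ∑ z ∈ fib φ x k y, h z := by
  classical
  rw [← sum_fiberwise_of_maps_to fun z hz => Phi_orb φ k hz]
  exact sum_congr rfl fun y _ => sum_congr (by ext; simp only [mem_filter, mem_fib]) fun _ _ => rfl

theorem card_orb (φ : K[X]) (x : AlgebraicClosure K) (k : ℕ) :
    (orb x).card = rel φ x k * (orb ((Phi φ)^[k] x)).card := by
  have := sum_orb φ x k fun _ => 1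
  rw [sum_congr rfl (s₁ := orb ((Phi φ)^[k] x)) (g := fun _ => (rel φ x k : ℝ)) fun y hy => by
    rw [sum_const, card_fib φ hy, nsmul_eq_mul, mul_one], sum_const, sum_const, nsmul_eq_mul,
    nsmul_eq_mul, mul_one, mul_comm] at this
  exact_mod_cast this

theorem rel_pos (φ : K[X]) (x : AlgebraicClosure K) (k : ℕ) : 0 < rel φ x k :=
  card_pos.mpr ⟨x, mem_fib.mpr ⟨self_orb x, rfl⟩⟩

theorem rel_add (φ : K[X]) (x : AlgebraicClosure K) (k l : ℕ) :
    rel φ x (l + k) = rel φ x k * rel φ ((Phi φ)^[k] x) l := by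
  have h1 := card_orb φ x (l + k)
  rw [card_orb φ x k, card_orb φ ((Phi φ)^[k] x) l, ← mul_assoc, Function.iterate_add_apply] at h1
  exact (Nat.eq_of_mul_eq_mul_right (orb_pos _) h1).symm

theorem rel_conj (φ : K[X]) {x z : AlgebraicClosure K} (h : z ∈ orb x) (k : ℕ) :
    rel φ z k = rel φ x k := by
  rw [← card_fib φ (Phi_orb φ k h), rel, fib, fib, orb_eq h]

theorem card_pre_le {φ : K[X]} {d : ℕ} (hd : φ.natDegree = d) (h0 : 0 < d) (k : ℕ)
    (y : AlgebraicClosure K) : ∀ S : Finset (AlgebraicClosure K), (∀ z ∈ S, (Phi φ)^[k] z = y) →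
      S.card ≤ d ^ k := by
  classical
  induction k with
  | zero => exact fun S h => card_le_one.mpr fun a ha b hb => (h a ha).trans (h b hb).symm
  | succ k ih =>
    intro S h
    refine (card_le_mul_card_image (f := Phi φ) S d fun w _ => ?_).trans ?_
    · have h1 : (φ.map (algebraMap K (AlgebraicClosure K)) - C w).natDegree = d := by
        rw [natDegree_sub_C, natDegree_map, hd]
      have h2 : φ.map (algebraMap K (AlgebraicClosure K)) - C w ≠ 0 := fun h => by
        rw [h, natDegree_zero] at h1; omega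
      refine le_trans (card_le_card fun z hz => ?_)
        ((Multiset.toFinset_card_le _).trans ((card_roots' _).trans h1.le))
      rw [Multiset.mem_toFinset, mem_roots h2, IsRoot, eval_sub, eval_C, sub_eq_zero]
      exact (mem_filter.mp hz).2
    · rw [pow_succ']
      refine Nat.mul_le_mul_left d (ih _ fun w hw => ?_)
      obtain ⟨z, hz, rfl⟩ := mem_image.mp hw
      exact h z hz

theorem rel_le {φ : K[X]} {d : ℕ} (hd : φ.natDegree = d) (h0 : 0 < d) (x : AlgebraicClosure K)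
    (k : ℕ) : rel φ x k ≤ d ^ k := card_pre_le hd h0 k _ _ fun _ hz => (mem_fib.mp hz).2

theorem av_comp (φ : K[X]) (x : AlgebraicClosure K) (k : ℕ) (h : AlgebraicClosure K → ℝ) :
    av x (fun z => h ((Phi φ)^[k] z)) = av ((Phi φ)^[k] x) h := by
  have h1 : (0 : ℝ) < rel φ x k := by exact_mod_cast rel_pos φ x k
  rw [av, av, sum_orb φ x k, sum_congr rfl (g := fun y => rel φ x k * h y) fun y hy => by
    rw [sum_congr rfl (g := fun _ => h y) fun z hz => by rw [(mem_fib.mp hz).2], sum_const,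
      card_fib φ hy, nsmul_eq_mul], ← mul_sum, card_orb φ x k, Nat.cast_mul,
    mul_div_mul_left _ _ h1.ne']

theorem av_mono {x : AlgebraicClosure K} {h h' : AlgebraicClosure K → ℝ}
    (hh : ∀ z ∈ orb x, h z ≤ h' z) : av x h ≤ av x h' :=
  div_le_div_of_nonneg_right (sum_le_sum hh) (Nat.cast_nonneg _)

theorem av_add (x : AlgebraicClosure K) (h h' : AlgebraicClosure K → ℝ) :
    av x (fun z => h z + h' z) = av x h + av x h' := by
  rw [av, sum_add_distrib, add_div, av, av]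

theorem av_sum {ι : Type*} (x : AlgebraicClosure K) (s : Finset ι) (h : ι → AlgebraicClosure K → ℝ) :
    av x (fun z => ∑ i ∈ s, h i z) = ∑ i ∈ s, av x (h i) := by
  rw [av, sum_comm, sum_div]; rfl

theorem av_one (x : AlgebraicClosure K) : av x (fun _ => 1) = 1 := by
  have h1 : (0 : ℝ) < (orb x).card := by exact_mod_cast orb_pos x
  rw [av, sum_const, nsmul_eq_mul, mul_one, div_self h1.ne']

theorem av_nonneg {x : AlgebraicClosure K} {h : AlgebraicClosure K → ℝ} (hh : ∀ z, 0 ≤ h z) :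
    0 ≤ av x h := div_nonneg (sum_nonneg fun z _ => hh z) (Nat.cast_nonneg _)

open Classical in
theorem glob {p : ℕ} [Fact p.Prime] (ι : AlgebraicClosure K →+* PadicAlgCl p) {φ : K[X]} {d : ℕ}
    (hd : φ.natDegree = d) (h0 : 0 < d) {c : ℕ} (hc : 0 < c) {B : ℝ} (hB : (d : ℝ) ≤ B)
    (x : AlgebraicClosure K) (k ν : ℕ) (hM : rel φ x k ≤ d ^ ν)
    (h : ∀ z ∈ orb x, ∀ i < ν, Sz c B 1 ((Phi φ)^[i] z)) :
    -((orb ((Phi φ)^[k] x)).card * (Module.finrank ℚ K *
        (2 * ((d + 1) * ν * rel φ x k) * Real.log (c * B)) +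
      2 * (∑ n ∈ range (rel φ x k), sx d ν n : ℕ) *
        Real.log ‖ι (algebraMap K _ φ.leadingCoeff)‖)) ≤
      ∑ y ∈ orb ((Phi φ)^[k] x), ∑ z ∈ fib φ x k y, ∑ z' ∈ (fib φ x k y).erase z,
        Real.log ‖ι z - ι z'‖ := by
  have B0 : 0 < B := lt_of_lt_of_le (by exact_mod_cast h0) hB
  have l0 : algebraMap K (AlgebraicClosure K) φ.leadingCoeff ≠ 0 :=
    (_root_.map_ne_zero _).mpr (leadingCoeff_ne_zero.mpr fun h => by rw [h, natDegree_zero] at hd; omega)
  set A := ∑ n ∈ range (rel φ x k), sx d ν n with hA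
  let W : Finset (AlgebraicClosure K) → AlgebraicClosure K := fun Y =>
    ∏ z ∈ Y, ∏ z' ∈ Y.erase z, (z - z')
  have W0 : ∀ Y : Finset (AlgebraicClosure K), ∀ z ∈ Y, ∀ z' ∈ Y.erase z, z - z' ≠ 0 :=
    fun Y z _ z' h =>
    sub_ne_zero.mpr (mem_erase.mp h).1.symm
  have Wg : ∀ (σ : Gal(AlgebraicClosure K/K)) Y, σ (W Y) = W (Y.image σ) := fun σ Y => by
    simp only [W, map_prod, map_sub]
    rw [prod_image fun _ _ _ _ h => σ.injective h]
    refine prod_congr rfl fun z _ => ?_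
    rw [← image_erase σ.injective, prod_image fun _ _ _ _ h => σ.injective h]
  set Δ := ∏ y ∈ orb ((Phi φ)^[k] x),
    (algebraMap K (AlgebraicClosure K) φ.leadingCoeff ^ (2 * A) * W (fib φ x k y)) with hΔ
  have s1 : Sz c B (2 * ((d + 1) * ν * rel φ x k) * (orb ((Phi φ)^[k] x)).card) Δ :=
    Sz.prod _ _ fun y hy => by
      have := vand_sz (c := c) (φ.map (algebraMap K (AlgebraicClosure K))) (ν := ν)
        (by rw [natDegree_map, hd]) h0 hB (fib φ x k y) (by rwa [card_fib φ hy])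
        fun z hz i hi => h z (mem_fib.mp hz).1 i hi
      rwa [card_fib φ hy, leadingCoeff_map] at this
  obtain ⟨δ, hδ⟩ : Δ ∈ Set.range (algebraMap K (AlgebraicClosure K)) := by
    rw [InfiniteGalois.mem_range_algebraMap_iff_fixed]
    intro σ
    rw [hΔ, map_prod]
    conv_rhs => rw [← image_orb σ, prod_image fun _ _ _ _ h => σ.injective h]
    refine prod_congr rfl fun y _ => ?_
    rw [map_mul, map_pow, AlgEquiv.commutes, Wg, image_fib]
  have Wn : ∀ Y, W Y ≠ 0 := fun Y => prod_ne_zero_iff.mpr fun z hz =>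
    prod_ne_zero_iff.mpr fun z' hz' => W0 Y z hz z' hz'
  have Δ0 : Δ ≠ 0 := prod_ne_zero_iff.mpr fun y _ => mul_ne_zero (pow_ne_zero _ l0) (Wn _)
  have := liou (ι.comp (algebraMap K _)) hc B0 (δ := δ)
    (by rintro rfl; exact Δ0 (by rw [← hδ, map_zero])) (hδ.symm ▸ s1)
  have nz : ∀ {w : AlgebraicClosure K}, w ≠ 0 → ‖ι w‖ ≠ 0 := fun h =>
    norm_ne_zero_iff.mpr ((_root_.map_ne_zero ι).mpr h)
  rw [RingHom.comp_apply, hδ, hΔ, map_prod, norm_prod, Real.log_prod fun y _ =>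
    nz (mul_ne_zero (pow_ne_zero _ l0) (Wn _)), sum_congr rfl (g := fun y =>
      2 * A * Real.log ‖ι (algebraMap K _ φ.leadingCoeff)‖ + ∑ z ∈ fib φ x k y,
        ∑ z' ∈ (fib φ x k y).erase z, Real.log ‖ι z - ι z'‖) fun y _ => by
      rw [map_mul, norm_mul, Real.log_mul (nz (pow_ne_zero _ l0)) (nz (Wn _)), map_pow, norm_pow,
        Real.log_pow, map_prod, norm_prod, Real.log_prod fun z hz =>
          nz (prod_ne_zero_iff.mpr fun z' hz' => W0 _ z hz z' hz')]
      push_cast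
      congr 1
      refine sum_congr rfl fun z hz => ?_
      rw [map_prod, norm_prod, Real.log_prod fun z' hz' => nz (W0 _ z hz z' hz')]
      simp only [map_sub], sum_add_distrib, sum_const, nsmul_eq_mul] at this
  push_cast at this ⊢
  linarith

end Pool.Agent.Lib.MP_a2c890_nt.T
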