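import Pool.Agent.Lib.MP_a2c890_nt.Global

set_option autoImplicit false

namespace Pool.Agent.Results.MP_a2c890_nt.Unicritical

open NumberField IsDedekindDomain Pool.Agent.Lib.MP_a2c890_nt

theorem result (K : Type) [Field K] [NumberField K] (d : ℕ) (hd : 2 ≤ d) (a γ b : K) (ha : a ≠ 0)
    (hint : ∀ p : ℕ, p.Prime → p ∣ d → ∃ v : HeightOneSpectrum (𝓞 K),
      (p : 𝓞 K) ∈ v.asIdeal ∧ v.valuation K (a * (b - γ) ^ (d - 1)) ≤ 1)
    (β : K) (hβ : (Set.range fun n : ℕ => (fun x : K => a * (x - γ) ^ d + b)^[n] β).Infinite) :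
    ∃ C : ℕ, ∀ n : ℕ, ∃ S : Finset (AlgebraicClosure K), S.card ≤ C ∧
      ∀ x : AlgebraicClosure K,
        (fun y : AlgebraicClosure K =>
          algebraMap K _ a * (y - algebraMap K _ γ) ^ d + algebraMap K _ b)^[n] x =
          algebraMap K _ β →
        ∃ s ∈ S, ∃ σ : AlgebraicClosure K ≃ₐ[K] AlgebraicClosure K, x = σ s := by
  classical
  set φ := algebraMap K (AlgebraicClosure K) with hφ
  set F : AlgebraicClosure K → AlgebraicClosure K := fun y => φ a * (y - φ γ) ^ d + φ b with hF
  have hd0 : 0 < d := by omega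
  obtain ⟨μ, hμ⟩ := IsAlgClosed.exists_pow_nat_eq (φ a) (n := d - 1) (by omega)
  have hμ0 : μ ≠ 0 := by
    rintro rfl
    rw [zero_pow (by omega)] at hμ
    exact ha (φ.injective (by rw [← hμ, map_zero]))
  set c := μ * (φ b - φ γ) with hc
  have conj : ∀ n x, μ * (F^[n] x - φ γ) = (fun y => y ^ d + c)^[n] (μ * (x - φ γ)) := by
    intro n x
    induction n with
    | zero => rfl
    | succ n ih =>
      rw [Function.iterate_succ_apply', Function.iterate_succ_apply', ← ih, hF, hc]
      have e : μ ^ d = μ * φ a := by rw [← hμ, ← pow_succ', Nat.sub_add_cancel hd0]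
      simp only [mul_pow, e]
      ring
  have inj : Function.Injective fun x => μ * (x - φ γ) := fun x y h =>
    sub_left_injective (mul_left_cancel₀ hμ0 h)
  have hom : ∀ (G : Type) [Field G] [Algebra K G] (σ : G →ₐ[K] AlgebraicClosure K) (n : ℕ) (x : G),
      σ ((fun y => algebraMap K G a * (y - algebraMap K G γ) ^ d + algebraMap K G b)^[n] x) =
        F^[n] (σ x) := by
    intro G _ _ σ n x
    induction n with
    | zero => rfl
    | succ n ih =>
      rw [Function.iterate_succ_apply', Function.iterate_succ_apply', ← ih]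
      simp only [map_add, map_mul, map_pow, map_sub, AlgHom.commutes]
      rfl
  obtain ⟨n0, A, K', hμK, hA, hdeg⟩ := degree_bound (K := K) hd0 (c := c)
    (β := μ * (φ β - φ γ)) (μ := μ) (fun p _ hp => by
      obtain ⟨v, hv, hw⟩ := hint p Fact.out hp
      refine exists_emb_closure v hv hw (n := d - 1) (by omega) ?_
      rw [hc, mul_pow, hμ, map_mul, map_pow, map_sub]) (by
      refine (hβ.image (inj.comp φ.injective).injOn).mono ?_
      rintro _ ⟨_, ⟨n, rfl⟩, rfl⟩
      refine ⟨n, ?_⟩
      have := hom K (Algebra.ofId K _) n β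
      simp only [Function.comp, ← conj]
      congr 2
      exact this.symm)
  refine ⟨A * d ^ n0, fun n => ?_⟩
  obtain ⟨S0, hS0, hS⟩ := pre_finite hd0 c (μ * (φ β - φ γ)) n
  let R := S0.preimage (fun x => μ * (x - φ γ)) inj.injOn
  have hR : ∀ x, x ∈ R ↔ F^[n] x = φ β := fun x => by
    rw [Finset.mem_preimage, hS, ← conj]
    exact inj.eq_iff
  have hRc : R.card ≤ d ^ n :=
    (Finset.card_le_card_of_injOn _ (fun x hx => Finset.mem_preimage.mp hx) inj.injOn).trans hS0
  obtain ⟨S, h1, h2, h3⟩ := count_orbits R (fun x hx σ => by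
    rw [hR] at hx ⊢
    have := hom _ (σ : AlgebraicClosure K →ₐ[K] AlgebraicClosure K) n x
    refine this.symm.trans ?_
    change σ (F^[n] x) = _
    rw [hx]; exact σ.commutes β)
  refine ⟨S, ?_, fun x hx => h3 x ((hR x).mpr hx)⟩
  rcases le_or_gt n0 n with h | h
  · obtain ⟨k, rfl⟩ := Nat.exists_eq_add_of_le h
    have h4 := h2 A (d ^ k) fun x hx => by
      refine (hdeg k _ ((hS _).mp (Finset.mem_preimage.mp hx))).trans (Nat.mul_le_mul_left A ?_)
      have hi : IsIntegral K' x := Algebra.IsIntegral.isIntegral x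
      have := IntermediateField.adjoin.finiteDimensional hi
      have hmem : μ * (x - φ γ) ∈ IntermediateField.adjoin K' {x} :=
        mul_mem ((IntermediateField.adjoin K' {x}).algebraMap_mem ⟨μ, hμK⟩)
          (sub_mem (IntermediateField.mem_adjoin_simple_self K' x)
            ((IntermediateField.adjoin K' {x}).algebraMap_mem ⟨φ γ, K'.algebraMap_mem γ⟩))
      have h5 := minpoly.natDegree_le (A := K') (⟨_, hmem⟩ : IntermediateField.adjoin K' {x})
      rw [IntermediateField.minpoly_eq, IntermediateField.adjoin.finrank hi] at h5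
      refine h5.trans ?_
      have hj : IsIntegral K x := Algebra.IsIntegral.isIntegral x
      have h6 := Polynomial.natDegree_le_of_dvd (minpoly.dvd_map_of_isScalarTower K K' x)
        ((minpoly.monic hj).map _).ne_zero
      rwa [(minpoly.monic hj).natDegree_map] at h6
    have h5 : d ^ k * S.card ≤ d ^ k * (A * d ^ n0) :=
      h4.trans ((Nat.mul_le_mul_left A hRc).trans (by rw [pow_add]; ring_nf; exact le_rfl))
    exact Nat.le_of_mul_le_mul_left h5 (pow_pos hd0 k)
  · exact (h1.trans hRc).trans ((Nat.pow_le_pow_right hd0 h.le).trans (Nat.le_mul_of_pos_left _ hA))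

end Pool.Agent.Results.MP_a2c890_nt.Unicritical
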